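import Pool.Agent.H527Z.Per.Defs

/-!
# From a self-similar tiling of the punctured plane to one of the plane
-/

set_option autoImplicit false

namespace Pool.Agent.H527Z.Per

open Set

theorem final_norm_le {c w : ℂ} (hc : 1 < ‖c‖) (h : c * w ∈ Metric.closedBall (0 : ℂ) 1) :
    w ∈ Metric.closedBall (0 : ℂ) 1 := by
  rw [mem_closedBall_zero_iff] at h ⊢
  rw [norm_mul] at h
  have h0 := norm_nonneg w
  nlinarith

theorem final : FINAL := by
  classical
  intro c 𝒯 hc h1 h2 h3 h4 h5 h6 h7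
  set D : Set ℂ := Metric.closedBall 0 1 with hD
  set G : Set (Set ℂ) := {t ∈ 𝒯 | ¬ Disjoint t D ∧ ¬ t ⊆ D} with hG
  set T0 : Set ℂ := D ∪ ⋃₀ G with hT0
  have hc0 : c ≠ 0 := by
    rintro rfl
    simp at hc
    linarith
  have hDT : D ⊆ T0 := subset_union_left
  have hsub : ∀ t ∈ 𝒯, ¬ Disjoint t D → t ⊆ T0 := by
    intro t ht hd
    by_cases h : t ⊆ D
    · exact h.trans hDT
    · exact (subset_sUnion_of_mem (show t ∈ G from ⟨ht, hd, h⟩)).trans subset_union_right
  have h0D : (0 : ℂ) ∈ D := by simp [hD]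
  have hT0c : IsCompact T0 :=
    (isCompact_closedBall 0 1).union (h7.isCompact_sUnion fun t ht => (h1 t ht.1).1)
  have hDconn : IsPreconnected D := (convex_closedBall 0 1).isPreconnected
  have hT0conn : IsConnected T0 := by
    refine ⟨⟨0, hDT h0D⟩, isPreconnected_of_forall 0 ?_⟩
    rintro y (hy | ⟨t, ht, hy⟩)
    · exact ⟨D, hDT, h0D, hy, hDconn⟩
    · refine ⟨D ∪ t, union_subset hDT (hsub t ht.1 ht.2.1), Or.inl h0D, Or.inr hy, ?_⟩
      obtain ⟨x, hx1, hx2⟩ := not_disjoint_iff.1 ht.2.1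
      exact hDconn.union x hx2 hx1 (h1 t ht.1).2.1.isPreconnected
  have hT0cl : closure (interior T0) = T0 := by
    apply Subset.antisymm
    · exact closure_minimal interior_subset hT0c.isClosed
    · rintro y (hy | ⟨t, ht, hy⟩)
      · have : closure (interior D) = D := by
          rw [hD, interior_closedBall _ one_ne_zero, closure_ball _ one_ne_zero]
        rw [← this] at hy
        exact closure_mono (interior_mono hDT) hy
      · rw [← (h1 t ht.1).2.2] at hy
        exact closure_mono (interior_mono (hsub t ht.1 ht.2.1)) hy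
  have hdisj : ∀ t ∈ 𝒯, Disjoint t D → Disjoint (interior t) T0 := by
    intro t ht hd
    rw [hT0, disjoint_union_right, disjoint_sUnion_right]
    refine ⟨hd.mono_left interior_subset, fun s hs => ?_⟩
    have hne : t ≠ s := by
      rintro rfl
      exact hs.2.1 hd
    rw [← (h1 s hs.1).2.2]
    exact (h3 t ht s hs.1 hne).closure_right isOpen_interior
  refine ⟨insert T0 {t ∈ 𝒯 | Disjoint t D}, ?_, ?_, ?_, ?_, ?_⟩
  · rintro t (rfl | ht)
    · exact ⟨hT0c, hT0conn, hT0cl⟩
    · exact h1 t ht.1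
  · rw [eq_univ_iff_forall]
    intro z
    by_cases hz : z = 0
    · exact ⟨T0, Or.inl rfl, hz ▸ hDT h0D⟩
    · obtain ⟨t, ht, hzt⟩ := h2 z hz
      by_cases hd : Disjoint t D
      · exact ⟨t, Or.inr ⟨ht, hd⟩, hzt⟩
      · exact ⟨T0, Or.inl rfl, hsub t ht hd hzt⟩
  · rintro t (rfl | ht) s (rfl | hs) hne
    · exact absurd rfl hne
    · exact ((hdisj s hs.1 hs.2).mono_right interior_subset).symm
    · exact (hdisj t ht.1 ht.2).mono_right interior_subset
    · exact h3 t ht.1 s hs.1 hne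
  · obtain ⟨F, hF⟩ := h6
    refine ⟨insert T0 F, ?_⟩
    rintro t (rfl | ht)
    · exact ⟨T0, Finset.mem_insert_self _ _, 0, by simp⟩
    · obtain ⟨P, hP, z, hz⟩ := hF t ht.1 ht.2
      exact ⟨P, Finset.mem_insert_of_mem hP, z, hz⟩
  · rintro t (rfl | ht)
    · refine ⟨insert T0 {s ∈ 𝒯 | Disjoint s D ∧ s ⊆ (fun w => c * w) '' T0}, ?_, ?_⟩
      · rintro s (rfl | hs)
        · exact Or.inl rfl
        · exact Or.inr ⟨hs.1, hs.2.1⟩
      · apply Subset.antisymm
        · rintro _ ⟨w, hw, rfl⟩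
          by_cases hw0 : w = 0
          · exact ⟨T0, Or.inl rfl, by simpa [hw0] using hDT h0D⟩
          · have : ∃ t ∈ 𝒯, ¬ Disjoint t D ∧ w ∈ t := by
              rcases hw with hw | ⟨t, ht, hwt⟩
              · obtain ⟨t, ht, hwt⟩ := h2 w hw0
                exact ⟨t, ht, not_disjoint_iff.2 ⟨w, hwt, hw⟩, hwt⟩
              · exact ⟨t, ht.1, ht.2.1, hwt⟩
            obtain ⟨t, ht, hd, hwt⟩ := this
            obtain ⟨S, hS, hSe⟩ := h4 t ht
            have hmem : c * w ∈ ⋃₀ S := hSe ▸ ⟨w, hwt, rfl⟩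
            obtain ⟨s, hs, hws⟩ := hmem
            by_cases hsd : Disjoint s D
            · refine ⟨s, Or.inr ⟨hS hs, hsd, ?_⟩, hws⟩
              refine (subset_sUnion_of_mem hs).trans ?_
              rw [← hSe]
              exact image_mono (hsub t ht hd)
            · exact ⟨T0, Or.inl rfl, hsub s (hS hs) hsd hws⟩
        · rintro z ⟨s, (rfl | hs), hz⟩
          · rcases hz with hz | ⟨s, hs, hzs⟩
            · refine ⟨c⁻¹ * z, hDT (final_norm_le hc ?_), by simp [hc0]⟩
              rw [mul_inv_cancel_left₀ hc0]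
              exact hz
            · obtain ⟨t, ht, hst⟩ := h5 s hs.1
              obtain ⟨x, hx1, hx2⟩ := not_disjoint_iff.1 hs.2.1
              obtain ⟨w, hw, rfl⟩ := hst hx1
              have hd : ¬ Disjoint t D := not_disjoint_iff.2 ⟨w, hw, final_norm_le hc hx2⟩
              exact image_mono (hsub t ht hd) (hst hzs)
          · exact hs.2.2 hz
    · obtain ⟨S, hS, hSe⟩ := h4 t ht.1
      refine ⟨S, fun s hs => Or.inr ⟨hS hs, ?_⟩, hSe⟩
      rw [Set.disjoint_left]
      intro z hz hzD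
      have : z ∈ (fun w => c * w) '' t := hSe ▸ ⟨s, hs, hz⟩
      obtain ⟨w, hw, rfl⟩ := this
      exact Set.disjoint_left.1 ht.2 hw (final_norm_le hc hzD)

end Pool.Agent.H527Z.Per
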