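import Pool.Agent.H527Z.Per.Defs2

/-!
# Repetitive self-similar tilings: the basic facts (`BASE`)
-/

set_option autoImplicit false

namespace Pool.Agent.H527Z.Per

open Set

section Gen

variable {Par : ℕ → ℂ → ℂ → Prop}

theorem base_snoc (n : ℕ) : ∀ (m : ℕ) (x y : ℂ),
    Desc Par (n + 1) m x y ↔ ∃ u, Desc Par n m x u ∧ Par (m + n) y u := by
  induction n with
  | zero =>
    intro m x y
    constructor
    · rintro ⟨u, h1, h2⟩
      have h2' : y = u := h2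
      exact ⟨x, rfl, h2' ▸ h1⟩
    · rintro ⟨u, h1, h2⟩
      have h1' : u = x := h1
      exact ⟨y, h1' ▸ h2, rfl⟩
  | succ n ih =>
    intro m x y
    constructor
    · rintro ⟨u, h1, h2⟩
      obtain ⟨w, h3, h4⟩ := (ih _ _ _).1 h2
      exact ⟨w, ⟨u, h1, h3⟩, by rwa [show m + (n + 1) = m + 1 + n by ring]⟩
    · rintro ⟨w, ⟨u, h1, h3⟩, h4⟩
      exact ⟨u, h1, (ih _ _ _).2 ⟨w, h3, by rwa [show m + 1 + n = m + (n + 1) by ring]⟩⟩

theorem base_tile_par {m : ℕ} {u x : ℂ} (h : Par m u x) : tile Par (m + 1) u ⊆ tile Par m x :=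
  closure_mono fun _ ⟨n, hn⟩ => ⟨n + 1, u, h, hn⟩

theorem base_tile_desc (n : ℕ) : ∀ (m : ℕ) (x y : ℂ), Desc Par n m x y →
    tile Par (m + n) y ⊆ tile Par m x := by
  induction n with
  | zero =>
    intro m x y h
    have h' : y = x := h
    rw [h']
    exact subset_rfl
  | succ n ih =>
    rintro m x y ⟨u, h1, h2⟩
    rw [show m + (n + 1) = m + 1 + n by ring]
    exact (ih _ _ _ h2).trans (base_tile_par h1)

theorem base_self (m : ℕ) (y : ℂ) : y ∈ tile Par m y := subset_closure ⟨0, rfl⟩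

end Gen

namespace Dat

variable {d : Dat}

theorem base_mem {m : ℕ} {k : ℤ} {y : ℂ} (h : y ∈ d.Y m k) : y ∈ d.Ω m := mem_iUnion.2 ⟨k, h⟩

theorem base_lab {m : ℕ} {y : ℂ} (h : y ∈ d.Ω m) : ∃ k, y ∈ d.Y m k := mem_iUnion.1 h

namespace Sys

variable (h : d.Sys)
include h

theorem base_a0 : 0 < ‖d.c‖ := by linarith [h.hc]

theorem base_zp (k : ℤ) : 0 < ‖d.c‖ ^ k := zpow_pos h.base_a0 k

theorem base_hN : 1 ≤ d.N := by
  by_contra hn
  have h0 : d.N = 0 := by omega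
  have := h.hier.hS
  rw [h0] at this
  norm_num at this

theorem base_uniq (m : ℕ) (k k' : ℤ) (y : ℂ) (h1 : y ∈ d.Y m k) (h2 : y ∈ d.Y m k') : k = k' :=
  zpow_right_injective₀ h.base_a0 h.hc.ne' ((h.hs _ _ _ h1).symm.trans (h.hs _ _ _ h2))

theorem base_child (m : ℕ) (x y : ℂ) (k K : ℤ) (hp : d.Par m x y) (hx : x ∈ d.Y (m + 1) k)
    (hy : y ∈ d.Y m K) : k + d.N ≤ K := by
  have := h.hier.par_scale m x y hp
  rw [h.hs _ _ _ hx, h.hs _ _ _ hy, ← zpow_natCast, ← zpow_add₀ h.base_a0.ne'] at this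
  exact (zpow_le_zpow_iff_right₀ h.hc).1 this

theorem base_desc_mul (n : ℕ) : ∀ (m : ℕ) (y x : ℂ),
    Desc d.Par n m (d.c * y) (d.c * x) ↔ Desc d.Par n m y x := by
  have hc : d.c ≠ 0 := norm_pos_iff.1 h.base_a0
  induction n with
  | zero => intro m y x; exact mul_right_inj' hc
  | succ n ih =>
    intro m y x
    constructor
    · rintro ⟨u, h1, h2⟩
      obtain ⟨u', rfl⟩ : ∃ u', u = d.c * u' := ⟨u / d.c, by field_simp⟩
      exact ⟨u', (h.eqv_par _ _ _).2 h1, (ih _ _ _).1 h2⟩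
    · rintro ⟨u, h1, h2⟩
      exact ⟨d.c * u, (h.eqv_par _ _ _).1 h1, (ih _ _ _).2 h2⟩

theorem base_tile_mul (m : ℕ) (y : ℂ) :
    tile d.Par m (d.c * y) = (fun w => d.c * w) '' tile d.Par m y := by
  have hc : d.c ≠ 0 := norm_pos_iff.1 h.base_a0
  have := (Homeomorph.mulLeft₀ d.c hc).image_closure {x | ∃ n, Desc d.Par n m y x}
  simp only [Homeomorph.coe_mulLeft₀] at this
  unfold tile
  rw [this]
  congr 1
  ext x
  constructor
  · rintro ⟨n, hn⟩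
    obtain ⟨u', rfl⟩ : ∃ u', x = d.c * u' := ⟨x / d.c, by field_simp⟩
    exact ⟨u', ⟨n, (h.base_desc_mul _ _ _ _).1 hn⟩, rfl⟩
  · rintro ⟨u, ⟨n, hn⟩, rfl⟩
    exact ⟨n, (h.base_desc_mul _ _ _ _).2 hn⟩

theorem base_rho : 40 * d.D ≤ d.ρ := by
  have := h.hρ
  have := h.hier.hΘ
  have := h.hier.hD
  nlinarith

theorem base_rho0 : 0 < d.ρ := by linarith [h.base_rho, h.hier.hD]

theorem base_step (m m' : ℕ) (T y x : ℂ) (k k' : ℤ) (hy : y ∈ d.Y m k)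
    (ha : d.Agr m m' T y (d.ρ * ‖d.c‖ ^ k)) (hp : d.Par m x y) (hx : x ∈ d.Y (m + 1) k') :
    d.Par m' (x + T) (y + T) ∧ d.Agr (m + 1) (m' + 1) T x (d.ρ * ‖d.c‖ ^ k') := by
  have h1 := h.hier.par_dist m x y hp
  have h2 := h.hier.par_scale m x y hp
  rw [h.hs _ _ _ hy] at h1 h2
  rw [h.hs _ _ _ hx] at h2
  have h3 := h.hier.hS
  have h4 := h.base_zp k
  have h5 := h.base_zp k'
  have h6 := h.base_rho
  have h7 := h.base_rho0
  have h8 : 4 * ‖d.c‖ ^ k' ≤ ‖d.c‖ ^ k := by nlinarith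
  have h9 : d.D * ‖d.c‖ ^ k ≤ d.ρ / 40 * ‖d.c‖ ^ k :=
    mul_le_mul_of_nonneg_right (by linarith) h4.le
  have h10 : d.ρ * (4 * ‖d.c‖ ^ k') ≤ d.ρ * ‖d.c‖ ^ k := mul_le_mul_of_nonneg_left h8 h7.le
  have h11 : 0 < d.ρ * ‖d.c‖ ^ k := mul_pos h7 h4
  refine ⟨((h.loc m m' T y k hy ha x (by linarith)).2 y).1 hp, fun j u hu => ?_⟩
  refine (h.loc m m' T y k hy ha u ?_).1 j
  have : ‖u - y‖ ≤ ‖u - x‖ + ‖x - y‖ := norm_sub_le_norm_sub_add_norm_sub _ _ _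
  linarith

theorem base_desc_add (T x : ℂ) (n : ℕ) : ∀ (m m' : ℕ) (y : ℂ) (k : ℤ), y ∈ d.Y m k →
    d.Agr m m' T y (d.ρ * ‖d.c‖ ^ k) → Desc d.Par n m y x → Desc d.Par n m' (y + T) (x + T) := by
  induction n with
  | zero =>
    intro m m' y k _ _ hd
    have hd' : x = y := hd
    rw [hd']
    rfl
  | succ n ih =>
    rintro m m' y k hy ha ⟨u, h1, h2⟩
    obtain ⟨k', hk'⟩ := base_lab (h.hier.par_mem _ _ _ h1).1
    obtain ⟨s1, s2⟩ := h.base_step m m' T y u k k' hy ha h1 hk'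
    exact ⟨u + T, s1, ih _ _ _ _ hk' s2 h2⟩

theorem base_tile_add (m m' : ℕ) (T y : ℂ) (k : ℤ) (hy : y ∈ d.Y m k)
    (ha : d.Agr m m' T y (d.ρ * ‖d.c‖ ^ k)) :
    tile d.Par m' (y + T) = (fun w => w + T) '' tile d.Par m y := by
  have := (Homeomorph.addRight T).image_closure {x | ∃ n, Desc d.Par n m y x}
  simp only [Homeomorph.coe_addRight] at this
  unfold tile
  rw [this]
  congr 1
  have hy' : y + T ∈ d.Y m' k := (ha k y (by
    rw [sub_self, norm_zero]; exact (mul_pos h.base_rho0 (h.base_zp k)).le)).1 hy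
  have ha' : d.Agr m' m (-T) (y + T) (d.ρ * ‖d.c‖ ^ k) := fun j u hu => by
    have := ha j (u + -T) (by rwa [show u + -T - y = u - (y + T) by ring])
    rw [neg_add_cancel_right] at this
    exact this.symm
  ext x
  constructor
  · rintro ⟨n, hn⟩
    have := h.base_desc_add (-T) x n m' m _ k hy' ha' hn
    rw [add_neg_cancel_right] at this
    exact ⟨x + -T, ⟨n, this⟩, by simp⟩
  · rintro ⟨u, ⟨n, hn⟩, rfl⟩
    exact ⟨n, h.base_desc_add T u n m m' y k hy ha hn⟩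

theorem base_anc (m n : ℕ) : ∀ y ∈ d.Ω (m + n), ∃ x ∈ d.Ω m, Desc d.Par n m x y := by
  induction n with
  | zero => intro y hy; exact ⟨y, hy, rfl⟩
  | succ n ih =>
    intro y hy
    obtain ⟨p, hp⟩ := h.hier.par_ex (m + n) y hy
    obtain ⟨x, hx, hd⟩ := ih p (h.hier.par_mem _ _ _ hp).2
    exact ⟨x, hx, (base_snoc _ _ _ _).2 ⟨p, hd, hp⟩⟩

theorem base_desc_lab (n : ℕ) : ∀ (m : ℕ) (x y : ℂ) (k k' : ℤ), Desc d.Par n m x y →
    x ∈ d.Y m k → y ∈ d.Y (m + n) k' → k' ≤ k := by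
  induction n with
  | zero =>
    intro m x y k k' hd hx hy
    have hd' : y = x := hd
    rw [hd'] at hy
    exact (h.base_uniq _ _ _ _ hy hx).le
  | succ n ih =>
    rintro m x y k k' ⟨u, h1, h2⟩ hx hy
    obtain ⟨j, hj⟩ := base_lab (h.hier.par_mem _ _ _ h1).1
    have a1 := h.base_child _ _ _ _ _ h1 hj hx
    have a2 := ih _ _ _ _ _ h2 hj (by rwa [show m + 1 + n = m + (n + 1) by ring])
    omega

/-- a proper ancestor of an active point has label at least `N` -/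
theorem base_anc_act {n m : ℕ} {x y : ℂ} {k : ℤ} (ha : d.Act (m + (n + 1)) y)
    (hd : Desc d.Par (n + 1) m x y) (hx : x ∈ d.Y m k) : (d.N : ℤ) ≤ k := by
  obtain ⟨p, h1, h2⟩ := (base_snoc _ _ _ _).1 hd
  obtain ⟨j, hj⟩ := base_lab (h.hier.par_mem _ _ _ h2).2
  exact (ha.2 (m + n) p j rfl h2 hj).trans (h.base_desc_lab _ _ _ _ _ _ h1 hx hj)

theorem base_V_mono {m m' : ℕ} (hm : m ≤ m') : d.V m ⊆ d.V m' := by
  induction hm with
  | refl => exact subset_rfl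
  | step _ ih => rw [h.hier.V_succ]; exact ih.trans subset_union_left

theorem base_V0 (m : ℕ) : (0 : ℂ) ∈ d.V m := h.base_V_mono (Nat.zero_le m) (by rw [h.V0]; rfl)

theorem base_OV {m : ℕ} {y : ℂ} (hy : y ∈ d.Ω m) : y ∈ d.V (m + 1) := by
  rw [h.hier.V_succ]; exact Or.inr hy

theorem base_far (ho : d.OK) {m : ℕ} {x v z : ℂ} {W : ℝ} (hx : x ∈ d.Ω m) (hv : v ∈ d.V m)
    (hz : z ∈ tile d.Par m x) (hW : ‖z - v‖ ≤ W) : (d.M - 2 * d.D) * d.s m x ≤ W := by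
  have h1 := h.hier.far m x hx v hv
  have h2 := ho.rad m x hx z hz
  have h3 : ‖x - v‖ ≤ ‖x - z‖ + ‖z - v‖ := norm_sub_le_norm_sub_add_norm_sub _ _ _
  rw [norm_sub_rev x z] at h3
  linarith

theorem base_near_zero (ho : d.OK) (W : ℝ) (m : ℕ) (y : ℂ) (ha : d.Act m y)
    (hd : ¬ Disjoint (tile d.Par m y) (Metric.closedBall 0 W)) :
    ∃ x ∈ d.Ω 0, Desc d.Par m 0 x y ∧ (d.M - 2 * d.D) * d.s 0 x ≤ W := by
  obtain ⟨z, hz, hW⟩ := not_disjoint_iff.1 hd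
  obtain ⟨k, hk, -⟩ := ha.1
  obtain ⟨x, hx, hdx⟩ := h.base_anc 0 m y (by rw [zero_add]; exact base_mem hk)
  refine ⟨x, hx, hdx, h.base_far ho hx (h.base_V0 0) (base_tile_desc _ _ _ _ hdx
    (by rw [zero_add]; exact hz)) (mem_closedBall_iff_norm.1 hW)⟩

theorem base_eq (ho : d.OK) {m : ℕ} {K : ℤ} {v y z : ℂ} {W : ℝ} (hv : v ∈ d.Y m K)
    (hW : 3 * W < d.r * ‖d.c‖ ^ K) (hy : y ∈ d.Ω m) (hz : z ∈ tile d.Par m y)
    (hzv : ‖z - v‖ ≤ W) : y = v := by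
  by_contra hne
  have h1 := ho.near m y hy z hz v (base_mem hv)
  have h2 := h.hier.sep m v (base_mem hv) y hy (Ne.symm hne)
  rw [h.hs _ _ _ hv] at h2
  have h3 : ‖v - y‖ ≤ ‖v - z‖ + ‖z - y‖ := norm_sub_le_norm_sub_add_norm_sub _ _ _
  rw [norm_sub_rev v z] at h3
  linarith

theorem base_down (ho : d.OK) {m : ℕ} {k : ℤ} {y z : ℂ} (hy : y ∈ d.Y m k)
    (hz : z ∈ tile d.Par m y) (j : ℕ) :
    z ∈ d.V (m + j) ∨ ∃ y₂ k₂, y₂ ∈ d.Y (m + j) k₂ ∧ k₂ ≤ k ∧ z ∈ tile d.Par (m + j) y₂ := by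
  induction j with
  | zero => exact Or.inr ⟨y, k, hy, le_rfl, hz⟩
  | succ j ih =>
    rcases ih with ih | ⟨y₂, k₂, h1, h2, h3⟩
    · exact Or.inl (h.base_V_mono (by omega) ih)
    · rw [ho.split _ _ (base_mem h1)] at h3
      rcases h3 with h3 | h3
      · left
        rw [mem_singleton_iff.1 h3]
        exact h.base_OV (base_mem h1)
      · obtain ⟨x, hx, hzx⟩ := mem_iUnion₂.1 h3
        obtain ⟨k₃, hk₃⟩ := base_lab (h.hier.par_mem _ _ _ hx).1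
        have := h.base_child _ _ _ _ _ hx hk₃ h1
        exact Or.inr ⟨x, k₃, hk₃, by omega, hzx⟩

theorem base_rM : d.r ≤ d.M := by
  have := h.hier.hM
  have := h.hier.hΘ
  have := h.hier.hD
  have := h.hier.hR
  have := h.hier.hr
  nlinarith

theorem base_near_seed (ho : d.OK) (m₀ : ℕ) (K : ℤ) (v : ℂ) (hv : v ∈ d.Y m₀ K)
    (hK : (d.N : ℤ) ≤ K) (W : ℝ) (hW : 3 * W < d.r * ‖d.c‖ ^ K) (m : ℕ) (y : ℂ) (ha : d.Act m y)
    (hd : ¬ Disjoint (tile d.Par m y) (Metric.closedBall v W)) :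
    ∃ n x, m = m₀ + 1 + n ∧ Desc d.Par n (m₀ + 1) x y ∧ d.Par m₀ x v ∧
      (d.M - 2 * d.D) * d.s (m₀ + 1) x ≤ W := by
  obtain ⟨z, hz, hzv⟩ := not_disjoint_iff.1 hd
  have hzv' : ‖z - v‖ ≤ W := mem_closedBall_iff_norm.1 hzv
  obtain ⟨k, hk, hkN⟩ := ha.1
  rcases le_or_gt m m₀ with hm | hm
  · exfalso
    obtain ⟨j, rfl⟩ := Nat.exists_eq_add_of_le hm
    rcases h.base_down ho hk hz j with h1 | ⟨y₂, k₂, h1, h2, h3⟩
    · have h2 := h.hier.far _ v (base_mem hv) z h1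
      rw [h.hs _ _ _ hv, norm_sub_rev] at h2
      have h3 := mul_le_mul_of_nonneg_right h.base_rM (h.base_zp K).le
      have h4 := norm_nonneg (z - v)
      linarith
    · have h4 := h.base_eq ho hv hW (base_mem h1) h3 hzv'
      rw [h4] at h1
      have := h.base_uniq _ _ _ _ h1 hv
      omega
  · obtain ⟨n, rfl⟩ : ∃ n, m = m₀ + 1 + n := ⟨m - (m₀ + 1), by omega⟩
    obtain ⟨x, hx, hdx⟩ := h.base_anc (m₀ + 1) n y (base_mem hk)
    have hzx := base_tile_desc _ _ _ _ hdx hz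
    obtain ⟨p, hp⟩ := h.hier.par_ex m₀ x hx
    have := h.base_eq ho hv hW (h.hier.par_mem _ _ _ hp).2 (base_tile_par hp hzx) hzv'
    rw [this] at hp
    exact ⟨n, x, rfl, hdx, hp, h.base_far ho hx (h.base_OV (base_mem hv)) hzx hzv'⟩

theorem base_rK {K : ℤ} (hK : (d.N : ℤ) ≤ K) : 24 * ‖d.c‖ * d.ρ₀ ≤ d.r * ‖d.c‖ ^ K := by
  refine h.hrS.trans (mul_le_mul_of_nonneg_left ?_ h.hier.hr.le)
  rw [← zpow_natCast]
  exact zpow_le_zpow_right₀ h.hc.le hK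

theorem base_rho2 : 2 < d.ρ₀ := by linarith [h.hρ₀, h.base_rho0, h.hc]

theorem base_plant {m₀ : ℕ} {K : ℤ} {v : ℂ} (hv : v ∈ d.Y m₀ K) (hK : (d.N : ℤ) ≤ K) (u : ℂ)
    (hu : ‖u‖ < d.ρ₀) (k : ℤ) : u ∈ d.Y 0 k ↔ u + v ∈ d.Y (m₀ + 1) k := by
  refine h.plant m₀ (K - d.N) v (by rwa [sub_add_cancel]) u (hu.trans_le ?_) k
  have h1 : 1 ≤ ‖d.c‖ ^ (K - d.N) := one_le_zpow₀ h.hc.le (by omega)
  have h2 := h.base_rho2
  have h3 := h.hc
  have h4 : d.ρ₀ ≤ ‖d.c‖ * d.ρ₀ := by nlinarith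
  nlinarith

theorem base_agr {m₀ : ℕ} {K k : ℤ} {v y : ℂ} (hv : v ∈ d.Y m₀ K) (hK : (d.N : ℤ) ≤ K)
    (hk : k < 0) (hy : ‖y‖ ≤ 2 * ‖d.c‖) : d.Agr 0 (m₀ + 1) v y (d.ρ * ‖d.c‖ ^ k) := by
  intro j u hu
  refine h.base_plant hv hK u ?_ j
  have h1 : ‖d.c‖ ^ k ≤ 1 := zpow_le_one_of_nonpos₀ h.hc.le hk.le
  have h2 : ‖u‖ ≤ ‖u - y‖ + ‖y‖ := by simpa using norm_add_le (u - y) y
  have h3 := h.hρ₀
  have h4 := h.base_rho0
  nlinarith

theorem base_small {m : ℕ} {x : ℂ} {k : ℤ} {W : ℝ} (hx : x ∈ d.Y m k) (hW : W ≤ ‖d.c‖)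
    (hs : (d.M - 2 * d.D) * d.s m x ≤ W) : k < 0 ∧ 2 * d.D * d.s m x ≤ W := by
  rw [h.hs _ _ _ hx] at hs ⊢
  have h1 := h.hM'
  have h2 := h.base_zp k
  have h3 := h.hier.hD
  have h4 := h.hc
  have h5 : (2 * d.D + 10 * ‖d.c‖) * ‖d.c‖ ^ k ≤ W :=
    le_trans (mul_le_mul_of_nonneg_right (by linarith) h2.le) hs
  have h6 : 0 < d.D * ‖d.c‖ ^ k := mul_pos h3 h2
  have h7 : 0 < ‖d.c‖ * ‖d.c‖ ^ k := mul_pos h.base_a0 h2
  refine ⟨?_, by linarith⟩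
  by_contra hk
  have : 1 ≤ ‖d.c‖ ^ k := one_le_zpow₀ h.hc.le (by omega)
  nlinarith

theorem base_near_small (ho : d.OK) (v : ℂ) (hv : v ∈ d.AV) (W : ℝ) (hW : W ≤ ‖d.c‖) (m : ℕ)
    (y : ℂ) (ha : d.Act m y) (hd : ¬ Disjoint (tile d.Par m y) (Metric.closedBall v W)) :
    ∃ k : ℤ, k < 0 ∧ y ∈ d.Y m k ∧ y - v ∈ d.Y 0 k ∧ ‖y - v‖ ≤ 2 * W ∧
      tile d.Par m y ⊆ Metric.closedBall v (3 * W) ∧
      d.Agr 0 m v (y - v) (d.ρ * ‖d.c‖ ^ k) ∧
      ((m = 0 ∧ v = 0) ∨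
        ∃ m₀, ∃ K : ℤ, m = m₀ + 1 ∧ d.Par m₀ y v ∧ v ∈ d.Y m₀ K ∧ (d.N : ℤ) ≤ K) := by
  have hN := h.base_hN
  have aux : y ∈ d.Ω m → 2 * d.D * d.s m y ≤ W →
      ‖y - v‖ ≤ 2 * W ∧ tile d.Par m y ⊆ Metric.closedBall v (3 * W) := by
    intro hy hs
    obtain ⟨z, hz, hzv⟩ := not_disjoint_iff.1 hd
    have hzv' : ‖z - v‖ ≤ W := mem_closedBall_iff_norm.1 hzv
    have h1 := ho.rad m y hy z hz
    have h2 : ‖y - v‖ ≤ ‖y - z‖ + ‖z - v‖ := norm_sub_le_norm_sub_add_norm_sub _ _ _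
    rw [norm_sub_rev y z] at h2
    refine ⟨by linarith, fun w hw => mem_closedBall_iff_norm.2 ?_⟩
    have h3 := ho.rad m y hy w hw
    have h4 : ‖w - v‖ ≤ ‖w - y‖ + ‖y - v‖ := norm_sub_le_norm_sub_add_norm_sub _ _ _
    linarith
  rcases hv with rfl | ⟨m₀, K, hv, hK⟩
  · obtain ⟨x, hx, hdx, hs⟩ := h.base_near_zero ho W m y ha hd
    obtain ⟨k, hk⟩ := base_lab hx
    obtain ⟨s1, s2⟩ := h.base_small hk hW hs
    rcases m with _ | n
    · have e : y = x := hdx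
      subst e
      obtain ⟨a1, a2⟩ := aux hx s2
      exact ⟨k, s1, hk, by rwa [sub_zero], a1, a2, fun j u _ => by rw [add_zero], Or.inl ⟨rfl, rfl⟩⟩
    · have := h.base_anc_act (by rwa [zero_add]) hdx hk
      omega
  · have h3W : 3 * W < d.r * ‖d.c‖ ^ K := by
      have h1 := h.base_rK hK
      have h2 := h.base_rho2
      have h3 := h.hc
      nlinarith
    obtain ⟨n, x, rfl, hdx, hp, hs⟩ := h.base_near_seed ho m₀ K v hv hK W h3W m y ha hd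
    have hx := (h.hier.par_mem _ _ _ hp).1
    obtain ⟨k, hk⟩ := base_lab hx
    obtain ⟨s1, s2⟩ := h.base_small hk hW hs
    rcases n with _ | n
    · have e : y = x := hdx
      subst e
      obtain ⟨a1, a2⟩ := aux hx s2
      refine ⟨k, s1, hk, ?_, a1, a2, h.base_agr hv hK s1 (by linarith),
        Or.inr ⟨m₀, K, rfl, hp, hv, hK⟩⟩
      refine (h.base_plant hv hK (y - v) ?_ k).2 (by rwa [sub_add_cancel])
      linarith [h.hρ₀, h.base_rho0]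
    · have := h.base_anc_act ha hdx hk
      omega

theorem base_planted (m₀ : ℕ) (K : ℤ) (v : ℂ) (hv : v ∈ d.Y m₀ K) (k : ℤ) (u : ℂ)
    (hu : u ∈ d.Y 0 k) (hk : k + d.N ≤ K) : u + v ∈ d.Y (m₀ + 1) k ∧ d.Par m₀ (u + v) v := by
  have hρ := h.base_rho2
  have ha := h.base_a0
  have h1 : ‖u‖ < ‖d.c‖ * d.ρ₀ * ‖d.c‖ ^ (K - d.N) :=
    (h.base k u hu).2.trans_le (mul_le_mul_of_nonneg_left
      (zpow_le_zpow_right₀ h.hc.le (by omega)) (by positivity))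
  have h2 := (h.plant m₀ (K - d.N) v (by rwa [sub_add_cancel]) u h1 k).1 hu
  refine ⟨h2, ?_⟩
  obtain ⟨p, hp⟩ := h.hier.par_ex m₀ _ (base_mem h2)
  suffices p = v by rwa [this] at hp
  by_contra hne
  have hp' := (h.hier.par_mem _ _ _ hp).2
  have a1 := h.hier.par_near m₀ _ _ hp v (base_mem hv)
  have a2 := h.hier.sep m₀ v (base_mem hv) p hp' (Ne.symm hne)
  have a3 := h.hier.sep m₀ p hp' v (base_mem hv) hne
  rw [h.hs _ _ _ hv, norm_sub_rev] at a2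
  rw [add_sub_cancel_right] at a1
  have a4 : ‖p - v‖ ≤ ‖u + v - p‖ + ‖u‖ := by
    have := norm_sub_le u (u + v - p)
    rw [show u - (u + v - p) = p - v by ring] at this
    linarith
  have hS : (0 : ℝ) < ‖d.c‖ ^ d.N := by positivity
  have a5 : d.E * (d.s m₀ p / ‖d.c‖ ^ d.N) ≤ d.r * d.s m₀ p / 6 := by
    have b1 := h.hier.hbig
    have b2 := h.hier.hD
    have b3 := h.hier.hε1
    have b4 := h.hier.hr
    have b5 := h.hier.s_pos m₀ p hp'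
    have b6 : 0 < d.r * ‖d.c‖ ^ d.N := mul_pos b4 hS
    have b7 : 6 * d.E ≤ d.r * ‖d.c‖ ^ d.N := by nlinarith
    rw [← mul_div_assoc, div_le_div_iff₀ hS (by norm_num)]
    nlinarith
  have a6 : 24 * (‖d.c‖ * d.ρ₀ * ‖d.c‖ ^ (K - d.N)) ≤ d.r * ‖d.c‖ ^ K := by
    have := mul_le_mul_of_nonneg_right h.hrS (h.base_zp (K - d.N)).le
    rw [mul_assoc d.r, ← zpow_natCast, ← zpow_add₀ ha.ne', add_sub_cancel] at this
    linarith
  have a7 := norm_nonneg u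
  linarith

theorem base_zero (m : ℕ) : (0 : ℂ) ∉ d.Ω m := fun h0 => by
  have h1 := h.hier.far m 0 h0 0 (h.base_V0 m)
  have h2 := h.hier.s_pos m 0 h0
  have h3 := h.base_rM
  have h4 := h.hier.hr
  rw [sub_self, norm_zero] at h1
  nlinarith

theorem base_cen_add (ho : d.OK) (v : ℂ) (hv : v ∈ d.AV) :
    d.Cen v = (fun w => w + v) '' d.Cen 0 := by
  have hN := h.base_hN
  ext z
  constructor
  · rintro (hz | ⟨m, y, ha, hd, hz⟩)
    · refine ⟨z - v, Or.inl ?_, by simp⟩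
      rw [mem_closedBall_iff_norm] at hz ⊢
      rwa [sub_zero]
    · obtain ⟨k, s1, -, s3, -, -, s6, -⟩ := h.base_near_small ho v hv 1 h.hc.le m y ha hd
      have e := h.base_tile_add 0 m v (y - v) k s3 s6
      rw [sub_add_cancel] at e
      rw [e] at hz hd
      obtain ⟨w, hw, rfl⟩ := hz
      refine ⟨w, Or.inr ⟨0, y - v, ⟨⟨k, s3, by omega⟩, fun _ _ _ h0 => by omega⟩, ?_, hw⟩, rfl⟩
      obtain ⟨_, ⟨u, hu, rfl⟩, hu'⟩ := not_disjoint_iff.1 hd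
      refine not_disjoint_iff.2 ⟨u, hu, ?_⟩
      rw [mem_closedBall_iff_norm] at hu' ⊢
      simpa using hu'
  · rintro ⟨w, hw, rfl⟩
    rcases hv with rfl | ⟨m₀, K, hv, hK⟩
    · simpa using hw
    rcases hw with hw | ⟨m, y, ha, hd, hw⟩
    · left
      rw [mem_closedBall_iff_norm] at hw ⊢
      simpa using hw
    · obtain ⟨k, s1, -, s3, s4, -, -, s7⟩ :=
        h.base_near_small ho 0 (Or.inl rfl) 1 h.hc.le m y ha hd
      rw [sub_zero] at s3 s4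
      rcases s7 with ⟨rfl, -⟩ | ⟨m₁, K₁, -, -, h0, -⟩
      swap
      · exact absurd (base_mem h0) (h.base_zero m₁)
      obtain ⟨p1, p2⟩ := h.base_planted m₀ K v hv k y s3 (by omega)
      have e := h.base_tile_add 0 (m₀ + 1) v y k s3 (h.base_agr hv hK s1 (by linarith [h.hc]))
      refine Or.inr ⟨m₀ + 1, y + v, ⟨⟨k, p1, by omega⟩, fun m₁ y' K' hm hp hy' => ?_⟩, ?_, ?_⟩
      · obtain rfl : m₀ = m₁ := by omega
        rw [h.hier.par_uniq _ _ _ _ hp p2] at hy'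
        rw [h.base_uniq _ _ _ _ hy' hv]
        exact hK
      · obtain ⟨u, hu, hu'⟩ := not_disjoint_iff.1 hd
        refine not_disjoint_iff.2 ⟨u + v, e ▸ ⟨u, hu, rfl⟩, ?_⟩
        rw [mem_closedBall_iff_norm] at hu' ⊢
        simpa using hu'
      · rw [e]
        exact ⟨w, hw, rfl⟩

theorem base_far10 {m : ℕ} {K : ℤ} {y v : ℂ} (hy : y ∈ d.Y m K) (hK : (d.N : ℤ) ≤ K)
    (hv : v ∈ d.V m) : 10 * ‖d.c‖ ≤ ‖y - v‖ := by
  have h1 := h.hier.far m y (base_mem hy) v hv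
  rw [h.hs _ _ _ hy] at h1
  have h2 : 1 ≤ ‖d.c‖ ^ K := one_le_zpow₀ h.hc.le (by omega)
  have h3 := h.hM'
  have h4 := h.hier.hD
  have h5 := h.hc
  nlinarith

theorem base_av_sep (v : ℂ) (hv : v ∈ d.AV) (v' : ℂ) (hv' : v' ∈ d.AV) (hne : v ≠ v') :
    10 * ‖d.c‖ ≤ ‖v - v'‖ := by
  rcases hv with rfl | ⟨m, K, hv, hK⟩
  · rcases hv' with rfl | ⟨m', K', hv', hK'⟩
    · exact absurd rfl hne
    · rw [norm_sub_rev]
      exact h.base_far10 hv' hK' (h.base_V0 _)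
  rcases hv' with rfl | ⟨m', K', hv', hK'⟩
  · exact h.base_far10 hv hK (h.base_V0 _)
  rcases lt_trichotomy m m' with hm | rfl | hm
  · rw [norm_sub_rev]
    exact h.base_far10 hv' hK' (h.base_V_mono hm (h.base_OV (base_mem hv)))
  · have h1 := h.hier.sep m v (base_mem hv) v' (base_mem hv') hne
    rw [h.hs _ _ _ hv] at h1
    have h2 := h.base_rK hK
    have h3 := h.base_rho2
    have h4 := h.hc
    nlinarith
  · exact h.base_far10 hv hK (h.base_V_mono hm (h.base_OV (base_mem hv')))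

theorem base_act_cover (ho : d.OK) (z : ℂ) (hz : z ∉ d.AV) :
    ∃ m y, d.Act m y ∧ z ∈ tile d.Par m y := by
  have hN := h.base_hN
  have key : ∀ n : ℕ, ∀ m y (k : ℤ), y ∈ d.Y m k → k < d.N + n →
      (∀ m₀ y' (K : ℤ), m = m₀ + 1 → d.Par m₀ y y' → y' ∈ d.Y m₀ K → (d.N : ℤ) ≤ K) →
      z ∈ tile d.Par m y → ∃ m y, d.Act m y ∧ z ∈ tile d.Par m y := by
    intro n
    induction n with
    | zero => intro m y k hy hk hp hzy; exact ⟨m, y, ⟨⟨k, hy, by omega⟩, hp⟩, hzy⟩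
    | succ n ih =>
      intro m y k hy hk hp hzy
      by_cases hkN : k < d.N
      · exact ⟨m, y, ⟨⟨k, hy, hkN⟩, hp⟩, hzy⟩
      rw [ho.split _ _ (base_mem hy)] at hzy
      rcases hzy with h3 | h3
      · exact absurd (Or.inr ⟨m, k, mem_singleton_iff.1 h3 ▸ hy, by omega⟩) hz
      obtain ⟨x, hx, hzx⟩ := mem_iUnion₂.1 h3
      obtain ⟨k₃, hk₃⟩ := base_lab (h.hier.par_mem _ _ _ hx).1
      have := h.base_child _ _ _ _ _ hx hk₃ hy
      refine ih (m + 1) x k₃ hk₃ (by omega) (fun m₀ y' K hm hp' hy' => ?_) hzx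
      obtain rfl : m = m₀ := by omega
      rw [h.hier.par_uniq _ _ _ _ hp' hx] at hy'
      rw [h.base_uniq _ _ _ _ hy' hy]
      omega
  obtain ⟨y, hy, hzy⟩ := ho.cover 0 z (by
    rw [h.V0]
    exact fun h0 => hz (Or.inl h0))
  obtain ⟨k, hk⟩ := base_lab hy
  exact key k.toNat 0 y k hk (by omega) (fun _ _ _ h0 => by omega) hzy

theorem base_act_lt (ho : d.OK) {m m' : ℕ} {y y' : ℂ} (ha : d.Act m y) (ha' : d.Act m' y')
    (hm : m < m') : Disjoint (interior (tile d.Par m y)) (interior (tile d.Par m' y')) := by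
  obtain ⟨n, rfl⟩ : ∃ n, m' = m + (n + 1) := ⟨m' - m - 1, by omega⟩
  obtain ⟨k, hk, hkN⟩ := ha.1
  obtain ⟨k', hk', -⟩ := ha'.1
  obtain ⟨x, hx, hd⟩ := h.base_anc m (n + 1) y' (base_mem hk')
  by_cases hxy : y = x
  · subst hxy
    have := h.base_anc_act ha' hd hk
    omega
  · exact (ho.disj m y (base_mem hk) x hx hxy).mono_right
      (interior_mono (base_tile_desc _ _ _ _ hd))

theorem base_act_disj (ho : d.OK) (m : ℕ) (y : ℂ) (m' : ℕ) (y' : ℂ) (ha : d.Act m y)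
    (ha' : d.Act m' y') (hne : (m, y) ≠ (m', y')) :
    Disjoint (interior (tile d.Par m y)) (interior (tile d.Par m' y')) := by
  rcases lt_trichotomy m m' with hm | rfl | hm
  · exact h.base_act_lt ho ha ha' hm
  · obtain ⟨k, hk, -⟩ := ha.1
    obtain ⟨k', hk', -⟩ := ha'.1
    exact ho.disj m y (base_mem hk) y' (base_mem hk') fun e => hne (by rw [e])
  · exact (h.base_act_lt ho ha' ha hm).symm

theorem base_free_lab : ∃ k₀ : ℤ, ∀ m y k, d.Free m y → y ∈ d.Y m k → k₀ ≤ k := by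
  obtain ⟨j, hj⟩ := pow_unbounded_of_one_lt (‖d.c‖ * d.ρ₀) h.hc
  refine ⟨-j, fun m y k hf hy => ?_⟩
  have h1 : ∀ v ∈ d.AV, 1 < ‖y - v‖ := fun v hv => by
    by_contra hcon
    exact disjoint_left.1 (hf.2 v hv) (base_self m y) (mem_closedBall_iff_norm.2 (not_lt.1 hcon))
  have h2 : ∀ u ∈ d.Y 0 k, 1 < ‖u‖ → -(j : ℤ) ≤ k := fun u hu hu1 => by
    have a1 := (h.base k u hu).2
    have a2 := mul_lt_mul_of_pos_right hj (h.base_zp k)
    rw [← zpow_natCast, ← zpow_add₀ h.base_a0.ne'] at a2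
    have a3 : 1 < ‖d.c‖ ^ ((j : ℤ) + k) := by linarith
    have := (one_lt_zpow_iff_right₀ h.hc).1 a3
    omega
  rcases m with _ | m
  · exact h2 y hy (by simpa using h1 0 (Or.inl rfl))
  · obtain ⟨p, hp⟩ := h.hier.par_ex m y (base_mem hy)
    obtain ⟨K, hK⟩ := base_lab (h.hier.par_mem _ _ _ hp).2
    have hNK := hf.1.2 m p K rfl hp hK
    have hK' : p ∈ d.Y m (K - d.N + d.N) := by rwa [sub_add_cancel]
    rcases h.child m y p k (K - d.N) hp hy hK' with e | e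
    · omega
    · exact h2 (y - p) ((h.plant m _ p hK' _ e k).2 (by rwa [sub_add_cancel]))
        (h1 p (Or.inr ⟨m, K, hK, hNK⟩))

end Sys

end Dat

theorem base : BASE := fun _ h ho =>
  { hN := h.base_hN
    lab_uniq := h.base_uniq
    lab_child := h.base_child
    tile_mul := h.base_tile_mul
    step := h.base_step
    tile_add := h.base_tile_add
    near_zero := h.base_near_zero ho
    near_seed := h.base_near_seed ho
    near_small := h.base_near_small ho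
    planted := fun m₀ K v hv _ k u hu hk => h.base_planted m₀ K v hv k u hu hk
    cen_add := h.base_cen_add ho
    av_sep := h.base_av_sep
    act_cover := h.base_act_cover ho
    act_disj := h.base_act_disj ho
    free_lab := h.base_free_lab }

end Pool.Agent.H527Z.Per
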