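import Pool.Agent.H527Z.Per.Defs3

/-! The configuration of level `0`. -/

set_option autoImplicit false

namespace Pool.Agent.H527Z.Per

variable {W : Type} [NormedAddCommGroup W] [NormedSpace ℝ W] {P : Pm W}

theorem base0_const (G : P.Good) : 3 * P.C₀ ≤ P.R ∧ 3 * P.C₀ ≤ P.H ∧ 2 * P.M ≤ P.ρ₀ ∧
    0 ≤ P.M ∧ 0 < P.ρ₀ ∧ P.C₀ * (1 + P.Θ) ≤ P.C₄ := by
  have h1 := G.hc
  have h2 := G.hC₀
  have h3 : 2 ≤ P.Θ := by linarith [G.hJ]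
  have h4 : 4 ≤ P.Θ ^ 2 := by nlinarith
  have hR : 16 * P.C₀ ≤ P.R := by rw [G.hR]; nlinarith
  have hD : P.R ≤ P.D := by rw [G.hD]; nlinarith
  have hρ : P.D ≤ P.ρ := by rw [G.hρ]; nlinarith
  have hM : P.ρ ≤ P.M := by rw [G.hM]; linarith
  have hH : P.M ≤ P.H := by rw [G.hH]; nlinarith
  have hC : P.C₀ ≤ P.C₂ := by rw [G.hC₂]; nlinarith
  have h5 := G.hρ₀'
  refine ⟨by linarith, by linarith, by linarith, by linarith, by linarith, ?_⟩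
  rw [G.hC₄]
  exact mul_le_mul_of_nonneg_right hC (by linarith)

theorem base0_bound (G : P.Good) (k : ℤ) (u : ℂ) (hu : u ∈ P.Y0 k) :
    P.ρ₀ * ‖P.c‖ ^ k ≤ ‖u‖ ∧ ‖u‖ < ‖P.c‖ * P.ρ₀ * ‖P.c‖ ^ k := by
  obtain ⟨-, h1, h2, -⟩ := hu
  have h0 : 0 < ‖P.c‖ ^ k := zpow_pos (by linarith [G.hc]) k
  rw [norm_div, norm_zpow] at h1 h2
  exact ⟨(le_div_iff₀ h0).1 h1, (div_lt_iff₀ h0).1 h2⟩

theorem base0_ann (G : P.Good) (z : ℂ) (hz : z ≠ 0) :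
    ∃ i : ℤ, P.ρ₀ * ‖P.c‖ ^ i ≤ ‖z‖ ∧ ‖z‖ < ‖P.c‖ * P.ρ₀ * ‖P.c‖ ^ i := by
  have h0 := (base0_const G).2.2.2.2.1
  obtain ⟨i, h1, h2⟩ := exists_mem_Ico_zpow (div_pos (norm_pos_iff.2 hz) h0) G.hc
  rw [zpow_add_one₀ (by linarith [G.hc]), div_lt_iff₀ h0] at h2
  rw [le_div_iff₀ h0] at h1
  exact ⟨i, by linarith, by linarith⟩

theorem base0_dens (G : P.Good) (z : ℂ) (i : ℤ) (h1 : P.ρ₀ * ‖P.c‖ ^ i ≤ ‖z‖)
    (h2 : ‖z‖ < ‖P.c‖ * P.ρ₀ * ‖P.c‖ ^ i) :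
    ∃ u ∈ P.Y0 i, ‖z - u‖ ≤ 3 * P.C₀ * ‖P.c‖ ^ i := by
  obtain ⟨-, c2, -, -, c5, -⟩ := base0_const G
  have hc : P.c ≠ 0 := norm_pos_iff.1 (by linarith [G.hc])
  have h0 : 0 < ‖P.c‖ ^ i := zpow_pos (by linarith [G.hc]) i
  have hi : P.c ^ i ≠ 0 := zpow_ne_zero i hc
  have hs : ‖z / P.c ^ i‖ = ‖z‖ / ‖P.c‖ ^ i := by rw [norm_div, norm_zpow]
  have h3 : P.ρ₀ ≤ ‖z / P.c ^ i‖ := by rw [hs, le_div_iff₀ h0]; exact h1
  have h4 : ‖z / P.c ^ i‖ < ‖P.c‖ * P.ρ₀ := by rw [hs, div_lt_iff₀ h0]; exact h2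
  obtain ⟨z', hz'⟩ : ∃ z', z' = z / P.c ^ i := ⟨_, rfl⟩
  rw [← hz'] at h3 h4
  have hC := G.hC₀
  have h5 := G.hρ₀
  obtain ⟨t, t1, t2, t3⟩ : ∃ t : ℝ, P.ρ₀ + P.C₀ ≤ t ∧ t ≤ ‖P.c‖ * P.ρ₀ - 2 * P.C₀ ∧
      |‖z'‖ - t| ≤ 2 * P.C₀ := by
    by_cases a1 : ‖z'‖ ≤ P.ρ₀ + P.C₀
    · exact ⟨P.ρ₀ + P.C₀, le_rfl, by linarith, abs_le.2 ⟨by linarith, by linarith⟩⟩
    · by_cases a2 : ‖z'‖ ≤ ‖P.c‖ * P.ρ₀ - 2 * P.C₀
      · exact ⟨‖z'‖, by linarith, a2, by rw [sub_self, abs_zero]; linarith⟩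
      · exact ⟨‖P.c‖ * P.ρ₀ - 2 * P.C₀, by linarith, le_rfl, abs_le.2 ⟨by linarith, by linarith⟩⟩
  have h6 : 0 < ‖z'‖ := by linarith
  have h7 : ‖(t / ‖z'‖) • z'‖ = t := by
    rw [norm_smul, Real.norm_of_nonneg (div_nonneg (by linarith) h6.le), div_mul_cancel₀ _ h6.ne']
  have h8 : ‖z' - (t / ‖z'‖) • z'‖ = |‖z'‖ - t| := by
    have : z' - (t / ‖z'‖) • z' = ((‖z'‖ - t) / ‖z'‖) • z' := by
      rw [sub_div, div_self h6.ne', sub_smul, one_smul]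
    rw [this, norm_smul, Real.norm_eq_abs, abs_div, abs_of_pos h6, div_mul_cancel₀ _ h6.ne']
  obtain ⟨x, hx, x1, x2⟩ := G.hco ((t / ‖z'‖) • z') 0
  rw [sub_zero] at x2
  have h9 := abs_le.1 ((abs_norm_sub_norm_le x ((t / ‖z'‖) • z')).trans x1)
  rw [h7] at h9
  have e : x * P.c ^ i / P.c ^ i = x := mul_div_cancel_right₀ _ hi
  refine ⟨x * P.c ^ i, ⟨by rwa [e], by rw [e]; linarith [h9.1], by rw [e]; linarith [h9.2],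
    by rwa [e]⟩, ?_⟩
  have e2 : z - x * P.c ^ i = (z' - x) * P.c ^ i := by rw [hz', sub_mul, div_mul_cancel₀ _ hi]
  rw [e2, norm_mul, norm_zpow]
  refine mul_le_mul_of_nonneg_right ?_ h0.le
  have := norm_sub_le_norm_sub_add_norm_sub z' ((t / ‖z'‖) • z') x
  rw [h8, norm_sub_rev ((t / ‖z'‖) • z') x] at this
  linarith

theorem base0_pow (G : P.Good) (j : ℕ) (x : ℂ) (hx : x ∈ P.Λ) :
    P.c ^ j * x ∈ P.Λ ∧ ‖P.w (P.c ^ j * x)‖ ≤ ‖P.c‖ ^ j * ‖P.w x‖ := by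
  induction j with
  | zero => simpa using hx
  | succ j ih =>
    rw [pow_succ', mul_assoc, G.hw, pow_succ', mul_assoc]
    exact ⟨G.hΛ _ ih.1, (G.hB _).trans (mul_le_mul G.hβ ih.2 (norm_nonneg _) (norm_nonneg _))⟩

theorem base0 : BASE0 := by
  intro W _ _ P G
  obtain ⟨c1, c2, c3, c4, c5, c6⟩ := base0_const G
  have ha := G.hc
  have ha0 : 0 < ‖P.c‖ := by linarith
  have hc : P.c ≠ 0 := norm_pos_iff.1 ha0
  have hlt : ∀ k k' : ℤ, ‖P.c‖ ^ k < ‖P.c‖ ^ k' → k < k' := fun k k' h =>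
    (zpow_lt_zpow_iff_right₀ ha).1 h
  refine ⟨base0_bound G, base0_ann G, base0_dens G, fun k j u => ?_, ?_, ?_, ?_, ?_, ?_⟩
  · have : P.c ^ j * u / P.c ^ (k + j) = u / P.c ^ k := by
      rw [zpow_add₀ hc]; field_simp
    simp only [Pm.Y0, Set.mem_ofPred_eq, this]
  · have key : ∀ k k' y, y ∈ P.Y0 k → y ∈ P.Y0 k' → k ≤ k' := fun k k' y h h' => by
      have h1 := (base0_bound G k y h).1.trans_lt (base0_bound G k' y h').2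
      have := hlt k (k' + 1) (by rw [zpow_add_one₀ ha0.ne']; nlinarith)
      omega
    exact fun k k' y h h' => le_antisymm (key _ _ _ h h') (key _ _ _ h' h)
  · intro k k' y hy y' hy' hk h
    obtain ⟨j, rfl⟩ := Int.le.dest hk
    have h0 : 0 < ‖P.c‖ ^ k := zpow_pos ha0 k
    have h1 := (base0_bound G _ _ hy).2
    have h2 := (base0_bound G _ _ hy').1
    have h3 := norm_sub_norm_le y' y
    rw [norm_sub_rev] at h3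
    rw [zpow_add₀ ha0.ne', zpow_natCast] at h2
    have h4 : ‖P.c‖ ^ j ≤ P.Θ := by
      have h5 : P.H * ‖P.c‖ ^ k ≤ ‖P.c‖ * P.ρ₀ * ‖P.c‖ ^ k :=
        mul_le_mul_of_nonneg_right (by nlinarith [G.hρ₀]) h0.le
      have h6 : ‖P.c‖ ^ j * (P.ρ₀ * ‖P.c‖ ^ k) ≤ 2 * ‖P.c‖ * (P.ρ₀ * ‖P.c‖ ^ k) := by linarith
      exact (le_of_mul_le_mul_right h6 (by positivity)).trans G.hJ
    have e : (y - y') / P.c ^ k = y / P.c ^ k - P.c ^ j * (y' / P.c ^ (k + j)) := by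
      rw [zpow_add₀ hc, zpow_natCast]; field_simp
    obtain ⟨p1, p2⟩ := base0_pow G j _ hy'.1
    refine (G.hF _).2 ⟨e ▸ P.Λ.sub_mem hy.1 p1, ?_, ?_⟩
    · rw [norm_div, norm_zpow, div_le_iff₀ h0]; exact h
    · rw [e, map_sub]
      refine (norm_sub_le _ _).trans ?_
      have h5 := hy.2.2.2
      have h6 := mul_le_mul h4 hy'.2.2.2 (norm_nonneg _) (by linarith [G.hJ])
      have := G.hC₀
      linarith
  · intro k k' y hy y' hy' h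
    have h0 : 0 < ‖P.c‖ ^ k := zpow_pos ha0 k
    have h0' : 0 < ‖P.c‖ ^ k' := zpow_pos ha0 k'
    have h1 := (base0_bound G _ _ hy).2
    have h2 := (base0_bound G _ _ hy').1
    have h3 := norm_sub_norm_le y' y
    rw [norm_sub_rev] at h3
    refine (hlt _ _ ?_).le
    rw [zpow_add₀ ha0.ne', zpow_natCast, ← G.hΘ]
    have h5 : 2 * P.M * ‖P.c‖ ^ k' ≤ P.ρ₀ * ‖P.c‖ ^ k' := mul_le_mul_of_nonneg_right c3 h0'.le
    have h6 : P.ρ₀ * ‖P.c‖ ^ k' < P.ρ₀ * (‖P.c‖ ^ k * (2 * ‖P.c‖)) := by linarith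
    exact (lt_of_mul_lt_mul_left h6 c5.le).trans_le (mul_le_mul_of_nonneg_left G.hJ h0.le)
  · intro z hz
    obtain ⟨i, h1, h2⟩ := base0_ann G z hz
    obtain ⟨u, hu, h3⟩ := base0_dens G z i h1 h2
    exact ⟨i, u, hu, h3.trans (mul_le_mul_of_nonneg_right c1 (zpow_pos ha0 i).le)⟩
  · rintro k y hy v rfl
    rw [sub_zero]
    exact (mul_le_mul_of_nonneg_right (by linarith) (zpow_pos ha0 k).le).trans
      (base0_bound G k y hy).1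

end Pool.Agent.H527Z.Per
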