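import Pool.Agent.H527Z.Per.Defs3

/-!
# Facts on the new points: `CAND`
-/

set_option autoImplicit false

namespace Pool.Agent.H527Z.Per

open Set

section

variable {W : Type} [NormedAddCommGroup W] [NormedSpace ℝ W] {P : Pm W}

/-- numerical consequences of `Good` -/
structure cand_Num (P : Pm W) : Prop where
  T2 : 2 ≤ P.Θ
  R16 : 16 ≤ P.R
  C0R : P.C₀ ≤ P.R
  RT1 : 1 ≤ P.R * P.Θ
  C0RT : P.C₀ ≤ P.R * P.Θ
  RTρ : P.R * P.Θ ≤ P.ρ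
  Dρ : P.D ≤ P.ρ
  D1 : 1 ≤ P.D
  DT : P.D * P.Θ ≤ P.ρ
  ρ1 : 1 ≤ P.ρ
  MH : P.M ≤ P.H
  RH : P.R ≤ P.H
  ρ₀1 : 1 ≤ P.ρ₀
  C0ρ₀ : P.C₀ ≤ P.ρ₀
  S1 : ‖P.c‖ * P.ρ₀ ≤ ‖P.c‖ ^ P.N
  HS : P.H ≤ ‖P.c‖ ^ P.N

theorem cand_num (hG : P.Good) : cand_Num P := by
  have hc := hG.hc
  have hC := hG.hC₀
  have T2 : 2 ≤ P.Θ := by have := hG.hJ; linarith
  have hT2 : 4 ≤ P.Θ ^ 2 := by nlinarith
  have R16 : 16 ≤ P.R := by rw [hG.hR]; nlinarith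
  have C0R : P.C₀ ≤ P.R := by rw [hG.hR]; nlinarith
  have RD : P.R ≤ P.D := by rw [hG.hD]; nlinarith
  have DT : P.D * P.Θ ≤ P.ρ := by rw [hG.hρ]; nlinarith
  have Dρ : P.D ≤ P.ρ := by nlinarith
  have RTρ : P.R * P.Θ ≤ P.ρ := by nlinarith
  have MH : P.M ≤ P.H := by rw [hG.hH, hG.hM]; nlinarith
  have RH : P.R ≤ P.H := by rw [hG.hM] at MH; linarith
  have hρ₀ := hG.hρ₀'
  have hr1 : P.r ≤ 1 := by
    rw [hG.hr, div_le_one (by linarith)]; have := hG.hr₀1; linarith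
  have hS0 : 0 < ‖P.c‖ ^ P.N := by positivity
  have S1 : ‖P.c‖ * P.ρ₀ ≤ ‖P.c‖ ^ P.N := by
    have h1 := hG.hrS
    have h2 : P.r * ‖P.c‖ ^ P.N ≤ ‖P.c‖ ^ P.N := by nlinarith
    have h3 : 0 ≤ ‖P.c‖ * P.ρ₀ := by nlinarith
    nlinarith
  refine ⟨T2, R16, C0R, by nlinarith, by nlinarith, RTρ, Dρ, by linarith, DT, by linarith, MH, RH,
    by linarith, by linarith, S1, ?_⟩
  nlinarith

theorem cand_c0 (hG : P.Good) : P.c ≠ 0 := by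
  intro h; have := hG.hc; rw [h, norm_zero] at this; linarith

theorem cand_apos (hG : P.Good) (k : ℤ) : 0 < ‖P.c‖ ^ k := by
  have := hG.hc; exact zpow_pos (by linarith) k

theorem cand_mono (hG : P.Good) {k k' : ℤ} (h : k ≤ k') : ‖P.c‖ ^ k ≤ ‖P.c‖ ^ k' :=
  zpow_le_zpow_right₀ hG.hc.le h

theorem cand_addJ (hG : P.Good) (k : ℤ) : ‖P.c‖ ^ (k + P.J) = P.Θ * ‖P.c‖ ^ k := by
  have := hG.hc
  rw [zpow_add₀ (by linarith), zpow_natCast, hG.hΘ, mul_comm]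

theorem cand_addN (hG : P.Good) (k : ℤ) : ‖P.c‖ ^ (k + P.N) = ‖P.c‖ ^ P.N * ‖P.c‖ ^ k := by
  have := hG.hc
  rw [zpow_add₀ (by linarith), zpow_natCast, mul_comm]

theorem cand_leJ (hG : P.Good) {k k' : ℤ} (h : k ≤ k' + P.J) :
    ‖P.c‖ ^ k ≤ P.Θ * ‖P.c‖ ^ k' := by
  rw [← cand_addJ hG]; exact cand_mono hG h

theorem cand_le2J (hG : P.Good) {k k' : ℤ} (h : k ≤ k' + 2 * P.J) :
    ‖P.c‖ ^ k ≤ P.Θ ^ 2 * ‖P.c‖ ^ k' := by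
  have h1 : ‖P.c‖ ^ (k' + P.J + P.J) = P.Θ ^ 2 * ‖P.c‖ ^ k' := by
    rw [cand_addJ hG, cand_addJ hG]; ring
  rw [← h1]; exact cand_mono hG (by linarith)

theorem cand_pow_mem (hG : P.Good) (n : ℕ) {x : ℂ} (hx : x ∈ P.Λ) : P.c ^ n * x ∈ P.Λ := by
  induction n with
  | zero => simpa using hx
  | succ n ih => rw [pow_succ', mul_assoc]; exact hG.hΛ _ ih

theorem cand_div_mem (hG : P.Good) {k k' : ℤ} (h : k' ≤ k) {u : ℂ} (hu : u / P.c ^ k ∈ P.Λ) :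
    u / P.c ^ k' ∈ P.Λ := by
  have hc := cand_c0 hG
  have h1 := cand_pow_mem hG (k - k').toNat hu
  have h2 : P.c ^ (k - k').toNat * (u / P.c ^ k) = u / P.c ^ k' := by
    rw [← zpow_natCast, Int.toNat_of_nonneg (by linarith), zpow_sub₀ hc]
    have h3 : P.c ^ k ≠ 0 := zpow_ne_zero _ hc
    have h4 : P.c ^ k' ≠ 0 := zpow_ne_zero _ hc
    field_simp
  rwa [h2] at h1

theorem cand_vk (k : ℤ) (u : ℂ) : P.vk k u = P.w (u / P.c ^ k) := by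
  simp [Pm.vk, div_eq_mul_inv]

theorem cand_om {Y : ℤ → Set ℂ} {k : ℤ} {y : ℂ} (h : y ∈ Y k) : y ∈ Om Y :=
  mem_iUnion.2 ⟨k, h⟩

theorem cand_dev_zero (v : ℂ →+ W) (Ω : Set ℂ) (x : ℂ) : dev v Ω x 0 = 0 := by
  have h : ∀ y, wt Ω x 0 y = 0 := by
    intro y
    unfold wt
    by_cases hy : y ∈ Ω
    · rw [indicator_of_mem hy]
      have := norm_nonneg (x - y)
      exact max_eq_left (by linarith)
    · rw [indicator_of_notMem hy]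
  unfold dev
  simp [h]

theorem cand_tri (a b c : ℂ) : ‖a - c‖ ≤ ‖a - b‖ + ‖b - c‖ := norm_sub_le_norm_sub_add_norm_sub a b c

theorem cand_near_le (hG : P.Good) {Y : ℤ → Set ℂ} {V : Set ℂ} (hN : P.NetOK Y V)
    (x y : ℂ) (K : ℤ) (hx : P.Cand Y x) (hy : y ∈ Y K) (hn : Near Y x y) :
    ‖x - y‖ ≤ P.D * ‖P.c‖ ^ K := by
  obtain ⟨y₀, k₀, hy₀, -, hd, -⟩ := hx
  have n := cand_num hG
  have h1 := hn y₀ (cand_om hy₀)
  have hp := cand_apos hG k₀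
  have h2 : ‖y - y₀‖ ≤ P.M * ‖P.c‖ ^ k₀ := by
    have h3 := cand_tri y x y₀
    rw [norm_sub_rev y x] at h3
    have h4 : P.R * P.Θ * ‖P.c‖ ^ k₀ ≤ P.ρ * ‖P.c‖ ^ k₀ :=
      mul_le_mul_of_nonneg_right n.RTρ hp.le
    have h5 : 0 ≤ P.ρ * ‖P.c‖ ^ k₀ := mul_nonneg (by linarith [n.ρ1]) hp.le
    rw [hG.hM]; linarith
  have h3 := (hN.lab k₀ K y₀ hy₀ y hy h2).1
  have h4 : ‖P.c‖ ^ k₀ ≤ P.Θ * ‖P.c‖ ^ K := cand_leJ hG (by linarith)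
  have h5 : P.R * P.Θ * ‖P.c‖ ^ k₀ ≤ P.R * P.Θ * (P.Θ * ‖P.c‖ ^ K) :=
    mul_le_mul_of_nonneg_left h4 (by linarith [n.RT1])
  rw [hG.hD]; nlinarith

theorem cand_pair (hG : P.Good) {Y : ℤ → Set ℂ} {V : Set ℂ} (hI : P.Inv Y V) (hN : P.NetOK Y V)
    (u u' y y' : ℂ) (k k' : ℤ) (hu : P.Cand Y u) (hu' : P.Cand Y u') (hy : y ∈ Y (k + P.N))
    (hy' : y' ∈ Y (k' + P.N)) (hn : Near Y u y) (hn' : Near Y u' y') (hk : k ≤ k')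
    (hd : ‖u - u'‖ ≤ P.H * ‖P.c‖ ^ k) : (u - u') / P.c ^ k ∈ P.F := by
  have n := cand_num hG
  have hc := cand_c0 hG
  have e1 := cand_near_le hG hN u y _ hu hy hn
  have e2 := cand_near_le hG hN u' y' _ hu' hy' hn'
  obtain ⟨y₀, k₀, hy₀, hs, -, hall⟩ := hu
  obtain ⟨y₀', k₀', hy₀', hs', -, hall'⟩ := hu'
  obtain ⟨l1, d1⟩ := hall k y hy (hn y₀ (cand_om hy₀))
  obtain ⟨l2, d2⟩ := hall' k' y' hy' (hn' y₀' (cand_om hy₀'))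
  have hp := cand_apos hG k
  have hpN := cand_apos hG (k + P.N)
  have hpN' := cand_apos hG (k' + P.N)
  have hd' : ‖u - u'‖ ≤ ‖P.c‖ ^ (k + P.N) := by
    rw [cand_addN hG]; exact hd.trans (mul_le_mul_of_nonneg_right n.HS hp.le)
  have hyy : ‖y - y'‖ ≤ P.D * ‖P.c‖ ^ (k + P.N) + ‖P.c‖ ^ (k + P.N) +
      P.D * ‖P.c‖ ^ (k' + P.N) := by
    have h1 := cand_tri y u y'
    have h2 := cand_tri u u' y'
    rw [norm_sub_rev y u] at h1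
    linarith
  have hm : ‖P.c‖ ^ (k + P.N) ≤ ‖P.c‖ ^ (k' + P.N) := cand_mono hG (by linarith)
  have hkJ : k' + P.N ≤ k + P.N + P.J := by
    refine hI.cmp _ _ y hy y' hy' ?_
    have h1 : P.D * ‖P.c‖ ^ (k + P.N) ≤ P.D * ‖P.c‖ ^ (k' + P.N) :=
      mul_le_mul_of_nonneg_left hm (by linarith [n.D1])
    have h2 : P.D * ‖P.c‖ ^ (k' + P.N) ≤ P.ρ * ‖P.c‖ ^ (k' + P.N) :=
      mul_le_mul_of_nonneg_right n.Dρ hpN'.le
    have h3 : 1 * ‖P.c‖ ^ (k' + P.N) ≤ P.ρ * ‖P.c‖ ^ (k' + P.N) :=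
      mul_le_mul_of_nonneg_right n.ρ1 hpN'.le
    rw [hG.hM]; linarith
  have hF : (y - y') / P.c ^ (k + P.N) ∈ P.F := by
    refine hI.pair _ _ y hy y' hy' (by linarith) ?_
    have h0 : ‖P.c‖ ^ (k' + P.N) ≤ P.Θ * ‖P.c‖ ^ (k + P.N) := cand_leJ hG hkJ
    have h1 : P.D * ‖P.c‖ ^ (k' + P.N) ≤ P.D * (P.Θ * ‖P.c‖ ^ (k + P.N)) :=
      mul_le_mul_of_nonneg_left h0 (by linarith [n.D1])
    have h2 : P.D * ‖P.c‖ ^ (k + P.N) ≤ P.ρ * ‖P.c‖ ^ (k + P.N) :=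
      mul_le_mul_of_nonneg_right n.Dρ hpN.le
    have h3 : 1 * ‖P.c‖ ^ (k + P.N) ≤ P.ρ * ‖P.c‖ ^ (k + P.N) :=
      mul_le_mul_of_nonneg_right n.ρ1 hpN.le
    have h4 : P.D * P.Θ * ‖P.c‖ ^ (k + P.N) ≤ P.ρ * ‖P.c‖ ^ (k + P.N) :=
      mul_le_mul_of_nonneg_right n.DT hpN.le
    have h5 : P.M * ‖P.c‖ ^ (k + P.N) ≤ P.H * ‖P.c‖ ^ (k + P.N) :=
      mul_le_mul_of_nonneg_right n.MH hpN.le
    rw [hG.hM] at h5
    linarith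
  have l3 : (y - y') / P.c ^ k ∈ P.Λ :=
    cand_div_mem hG (by linarith [Int.natCast_nonneg P.N]) ((hG.hF _).1 hF).1
  have l4 : (u' - y') / P.c ^ k ∈ P.Λ := cand_div_mem hG hk l2
  refine (hG.hF _).2 ⟨?_, ?_, ?_⟩
  · have h1 : (u - u') / P.c ^ k = (u - y) / P.c ^ k + (y - y') / P.c ^ k - (u' - y') / P.c ^ k := by
      ring
    rw [h1]; exact P.Λ.sub_mem (P.Λ.add_mem l1 l3) l4
  · rw [norm_div, norm_zpow, div_le_iff₀ hp]; exact hd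
  · have hρN : P.D * ‖P.c‖ ^ (k + P.N) ≤ 2 * P.ρ * ‖P.c‖ ^ (k + P.N) :=
      mul_le_mul_of_nonneg_right (by linarith [n.Dρ, n.ρ1]) hpN.le
    have hρN' : P.D * ‖P.c‖ ^ (k' + P.N) ≤ 2 * P.ρ * ‖P.c‖ ^ (k' + P.N) :=
      mul_le_mul_of_nonneg_right (by linarith [n.Dρ, n.ρ1]) hpN'.le
    have hRT : 1 * ‖P.c‖ ^ (k + P.N) ≤ P.R * P.Θ * ‖P.c‖ ^ (k + P.N) :=
      mul_le_mul_of_nonneg_right n.RT1 hpN.le
    have hl := hN.lip _ y hy u u' y₀ y₀' k (by linarith) (by linarith) hs hs'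
      (by linarith [Int.natCast_nonneg P.J])
    have hdp := hN.dev_pow _ y' hy' u' y₀' k (k' - k).toNat (by linarith) hs'
    rw [Int.toNat_of_nonneg (by linarith), add_sub_cancel] at hdp
    have hj : ‖P.c‖ ^ (k' - k).toNat ≤ P.Θ := by
      rw [hG.hΘ]; exact pow_le_pow_right₀ hG.hc.le (by omega)
    have hdp' : ‖dev (P.vk k) (Om Y) u' ‖u' - y₀'‖‖ ≤ P.Θ * P.C₂ :=
      hdp.trans (mul_le_mul hj d2 (norm_nonneg _) (by linarith [n.T2]))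
    set A := P.vk k (u - u') - dev (P.vk k) (Om Y) u ‖u - y₀‖ + dev (P.vk k) (Om Y) u' ‖u' - y₀'‖
      with hA
    have hA1 : ‖A‖ ≤ P.H := by
      have h1 : 1 ≤ ‖P.c‖ * P.ρ₀ := by nlinarith [hG.hc, n.ρ₀1]
      have h2 : ‖A‖ * (1 * ‖P.c‖ ^ k) ≤ ‖A‖ * (‖P.c‖ * P.ρ₀ * ‖P.c‖ ^ k) :=
        mul_le_mul_of_nonneg_left (mul_le_mul_of_nonneg_right h1 hp.le) (norm_nonneg _)
      have h3 : ‖A‖ * ‖P.c‖ ^ k ≤ P.H * ‖P.c‖ ^ k := by linarith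
      exact le_of_mul_le_mul_right h3 hp
    have hE : P.vk k (u - u') = A + dev (P.vk k) (Om Y) u ‖u - y₀‖ -
        dev (P.vk k) (Om Y) u' ‖u' - y₀'‖ := by rw [hA]; abel
    rw [← cand_vk, hE, hG.hC₄]
    have h1 := norm_sub_le (A + dev (P.vk k) (Om Y) u ‖u - y₀‖) (dev (P.vk k) (Om Y) u' ‖u' - y₀'‖)
    have h2 := norm_add_le A (dev (P.vk k) (Om Y) u ‖u - y₀‖)
    linarith

theorem cand_top (hG : P.Good) (hB : P.Base0) {Y : ℤ → Set ℂ} {V : Set ℂ} (hI : P.Inv Y V)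
    (hN : P.NetOK Y V) (x y : ℂ) (k : ℤ) (hy : y ∈ Y (k + P.N)) (hx : x - y ∈ P.Y0 k) :
    P.Cand Y x := by
  have n := cand_num hG
  obtain ⟨-, b2⟩ := hB.bound k _ hx
  have hcore : P.Core Y x y := ⟨k, hy, b2⟩
  have hQ := hN.core_Q x y hcore
  have hp := cand_apos hG k
  have hpN := cand_apos hG (k + P.N)
  have hs : Nst (Om Y) x y := by
    refine ⟨cand_om hy, fun y' hy' => ?_⟩
    by_cases h : y' = y
    · rw [h]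
    · have := hQ y' hy' h
      have := norm_nonneg (x - y)
      linarith
  have hs' : Nst (Om Y) y y := ⟨cand_om hy, fun y' _ => by simp⟩
  have h1 : ‖x - y‖ ≤ ‖P.c‖ ^ (k + P.N) := by
    rw [cand_addN hG]; exact b2.le.trans (mul_le_mul_of_nonneg_right n.S1 hp.le)
  have hRT : 1 * ‖P.c‖ ^ (k + P.N) ≤ P.R * P.Θ * ‖P.c‖ ^ (k + P.N) :=
    mul_le_mul_of_nonneg_right n.RT1 hpN.le
  have hρ : 1 * ‖P.c‖ ^ (k + P.N) ≤ 2 * P.ρ * ‖P.c‖ ^ (k + P.N) :=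
    mul_le_mul_of_nonneg_right (by linarith [n.ρ1]) hpN.le
  refine ⟨y, k + P.N, hy, hs, by linarith, fun k₁ y₁ hy₁ hd => ?_⟩
  have hyy : y₁ = y := by
    by_contra h
    have := hQ y₁ (cand_om hy₁) h
    linarith
  subst hyy
  have hkk : k₁ = k := by have := hI.uniq _ _ _ hy₁ hy; linarith
  subst hkk
  refine ⟨hx.1, ?_⟩
  have hl := hN.lip _ y₁ hy x y₁ y₁ y₁ k₁ (by linarith) (by linarith) hs hs'
    (by linarith [Int.natCast_nonneg P.J])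
  rw [sub_self, norm_zero, cand_dev_zero, add_zero] at hl
  set A := P.vk k₁ (x - y₁) - dev (P.vk k₁) (Om Y) x ‖x - y₁‖ with hA
  have hpos : 0 < ‖P.c‖ * P.ρ₀ * ‖P.c‖ ^ k₁ := (norm_nonneg _).trans_lt b2
  have hA1 : ‖A‖ ≤ 1 := by
    have h3 : ‖A‖ * (‖P.c‖ * P.ρ₀ * ‖P.c‖ ^ k₁) ≤ 1 * (‖P.c‖ * P.ρ₀ * ‖P.c‖ ^ k₁) := by linarith
    exact le_of_mul_le_mul_right h3 hpos
  have hE : dev (P.vk k₁) (Om Y) x ‖x - y₁‖ = P.vk k₁ (x - y₁) - A := by rw [hA]; abel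
  have h2 := norm_sub_le (P.vk k₁ (x - y₁)) A
  have h3 : ‖P.vk k₁ (x - y₁)‖ ≤ P.C₀ := by rw [cand_vk]; exact hx.2.2.2
  rw [hE, hG.hC₂]
  have hT2 : 4 ≤ P.Θ ^ 2 := by nlinarith [n.T2]
  nlinarith [hG.hC₀]

theorem cand_core_lab (hG : P.Good) {Y : ℤ → Set ℂ} {V : Set ℂ}
    (hN : P.NetOK Y V) {k : ℤ} {y x y₂ : ℂ} {i : ℤ} (hy : y ∈ Y k)
    (hx : ‖x - y‖ ≤ 2 * P.ρ * ‖P.c‖ ^ k) (hy₂ : y₂ ∈ Y (i + P.N))
    (hc : ‖x - y₂‖ < ‖P.c‖ * P.ρ₀ * ‖P.c‖ ^ i) : k - P.J ≤ i + P.N ∧ i + P.N ≤ k + P.J := by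
  have n := cand_num hG
  have hp := cand_apos hG k
  have h3 : 1 * ‖P.c‖ ^ k ≤ P.ρ * ‖P.c‖ ^ k := mul_le_mul_of_nonneg_right n.ρ1 hp.le
  have h1 := hN.core_le k y hy x y₂ (by linarith) ⟨i, hy₂, hc⟩
  refine hN.lab _ _ y hy y₂ hy₂ ?_
  have h2 := cand_tri y₂ x y
  rw [norm_sub_rev y₂ x] at h2
  rw [hG.hM]; linarith

theorem cand_dens_out (hG : P.Good) (hB : P.Base0) {Y : ℤ → Set ℂ} {V : Set ℂ} (hI : P.Inv Y V)
    (hN : P.NetOK Y V) (k : ℤ) (y : ℂ) (hy : y ∈ Y k) (z : ℂ) (hz : ‖z - y‖ ≤ P.ρ * ‖P.c‖ ^ k)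
    (hno : ∀ y', ¬ P.Core Y z y') :
    ∃ x, ‖z - x‖ ≤ P.R * ‖P.c‖ ^ (k - P.J - P.N) ∧
      (P.Ord Y x ∨ ∃ y', ∃ i : ℤ, y' ∈ Y (i + P.N) ∧ x - y' ∈ P.Y0 i) := by
  have n := cand_num hG
  have hc := cand_c0 hG
  have hp := cand_apos hG k
  have hNJ : (2 * P.J : ℤ) ≤ P.N := by exact_mod_cast hG.hN
  have hJ0 := Int.natCast_nonneg P.J
  have hρk : 0 ≤ P.ρ * ‖P.c‖ ^ k := mul_nonneg (by linarith [n.ρ1]) hp.le
  obtain ⟨kp, hkp⟩ : ∃ kp : ℤ, kp = k + P.J - P.N := ⟨_, rfl⟩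
  have hpp := cand_apos hG kp
  have hcp : P.c ^ kp ≠ 0 := zpow_ne_zero _ hc
  obtain ⟨hzV, -⟩ := hN.ldens k y hy z (by linarith)
  obtain ⟨kz, yz, -, hsz, -⟩ := hN.nst z hzV
  obtain ⟨l, hl, hl1, hl2⟩ := hG.hco ((z - y) / P.c ^ kp)
    (P.vk kp (z - y) - dev (P.vk kp) (Om Y) z ‖z - yz‖)
  obtain ⟨x, hxdef⟩ : ∃ x : ℂ, x = y + P.c ^ kp * l := ⟨_, rfl⟩
  have hxl : (x - y) / P.c ^ kp = l := by rw [hxdef]; field_simp; ring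
  have hzx : ‖z - x‖ ≤ P.C₀ * ‖P.c‖ ^ kp := by
    have h1 : z - x = -(P.c ^ kp * (l - (z - y) / P.c ^ kp)) := by rw [hxdef]; field_simp; ring
    rw [h1, norm_neg, norm_mul, norm_zpow, mul_comm]
    exact mul_le_mul_of_nonneg_right hl1 hpp.le
  have hkpk : ‖P.c‖ ^ kp ≤ ‖P.c‖ ^ k := cand_mono hG (by linarith)
  have hC0 : 0 ≤ P.C₀ := by linarith [hG.hC₀]
  have hzx' : ‖z - x‖ ≤ P.R * P.Θ * ‖P.c‖ ^ k :=
    hzx.trans (mul_le_mul n.C0RT hkpk hpp.le (by linarith [n.RT1]))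
  have hRTk : P.R * P.Θ * ‖P.c‖ ^ k ≤ P.ρ * ‖P.c‖ ^ k := mul_le_mul_of_nonneg_right n.RTρ hp.le
  have hxy : ‖x - y‖ ≤ 2 * P.ρ * ‖P.c‖ ^ k := by
    have h1 := cand_tri x z y
    rw [norm_sub_rev x z] at h1
    linarith
  have hkp2 : ‖P.c‖ ^ kp ≤ P.Θ ^ 2 * ‖P.c‖ ^ (k - P.J - P.N) := cand_le2J hG (by linarith)
  have hR4 : 4 * (P.C₀ * ‖P.c‖ ^ kp) ≤ P.R * ‖P.c‖ ^ (k - P.J - P.N) := by
    have := mul_le_mul_of_nonneg_left hkp2 hC0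
    rw [hG.hR]; linarith
  have hCk : 0 ≤ P.C₀ * ‖P.c‖ ^ kp := mul_nonneg hC0 hpp.le
  have hcand : P.Cand Y x := by
    obtain ⟨hxV, y', hy', hxy'⟩ := hN.ldens k y hy x (by linarith)
    obtain ⟨k₀, y₀, hy₀, hs, hd₀⟩ := hN.nst x hxV
    have hd₁ : ‖x - y₀‖ ≤ P.R * P.Θ * ‖P.c‖ ^ k := (hs.2 y' hy').trans hxy'
    have hlip := hN.lip k y hy z x yz y₀ kp (by linarith) hzx' hsz hs (by linarith)
    have hdev : ‖dev (P.vk kp) (Om Y) x ‖x - y₀‖‖ ≤ 2 * P.C₀ := by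
      set A := P.vk kp (z - x) - dev (P.vk kp) (Om Y) z ‖z - yz‖ +
        dev (P.vk kp) (Om Y) x ‖x - y₀‖ with hA
      have hA1 : ‖A‖ ≤ P.C₀ := by
        have h1 : 1 ≤ ‖P.c‖ * P.ρ₀ := by nlinarith [hG.hc, n.ρ₀1]
        have h2 : ‖A‖ * (1 * ‖P.c‖ ^ kp) ≤ ‖A‖ * (‖P.c‖ * P.ρ₀ * ‖P.c‖ ^ kp) :=
          mul_le_mul_of_nonneg_left (mul_le_mul_of_nonneg_right h1 hpp.le) (norm_nonneg _)
        have h3 : ‖A‖ * ‖P.c‖ ^ kp ≤ P.C₀ * ‖P.c‖ ^ kp := by linarith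
        exact le_of_mul_le_mul_right h3 hpp
      have hv : P.vk kp (z - x) = P.vk kp (z - y) - P.w l := by
        rw [← hxl, ← cand_vk, ← map_sub]; congr 1; ring
      have hE : dev (P.vk kp) (Om Y) x ‖x - y₀‖ =
          A + (P.w l - (P.vk kp (z - y) - dev (P.vk kp) (Om Y) z ‖z - yz‖)) := by
        rw [hA, hv]; abel
      have h2 := norm_add_le A (P.w l - (P.vk kp (z - y) - dev (P.vk kp) (Om Y) z ‖z - yz‖))
      rw [hE]; linarith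
    refine ⟨y₀, k₀, hy₀, hs, hd₀, fun k₁ y₁ hy₁ hd => ?_⟩
    have hyy : ‖y₁ - y‖ ≤ P.M * ‖P.c‖ ^ k := by
      have h1 := cand_tri y₁ x y
      rw [norm_sub_rev y₁ x] at h1
      rw [hG.hM]; linarith
    obtain ⟨b1, b2⟩ := hN.lab _ _ y hy y₁ hy₁ hyy
    constructor
    · have l1 : (x - y) / P.c ^ k₁ ∈ P.Λ := cand_div_mem hG (by linarith) (hxl ▸ hl)
      have l2 : (y - y₁) / P.c ^ k₁ ∈ P.Λ := by
        rcases le_total k (k₁ + P.N) with h | h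
        · have hF := hI.pair _ _ y hy y₁ hy₁ h (by
            rw [norm_sub_rev]; exact hyy.trans (mul_le_mul_of_nonneg_right n.MH hp.le))
          exact cand_div_mem hG (by linarith) ((hG.hF _).1 hF).1
        · have h0 : ‖P.c‖ ^ k ≤ P.Θ * ‖P.c‖ ^ (k₁ + P.N) := cand_leJ hG (by linarith)
          have hM0 : 0 ≤ P.M := by rw [hG.hM]; linarith [n.ρ1]
          have hF := hI.pair _ _ y₁ hy₁ y hy h (by
            have := mul_le_mul_of_nonneg_left h0 hM0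
            rw [hG.hH]; linarith)
          have h1 : (y₁ - y) / P.c ^ k₁ ∈ P.Λ :=
            cand_div_mem hG (by linarith) ((hG.hF _).1 hF).1
          have h2 : (y - y₁) / P.c ^ k₁ = -((y₁ - y) / P.c ^ k₁) := by ring
          rw [h2]; exact P.Λ.neg_mem h1
      have h1 : (x - y₁) / P.c ^ k₁ = (x - y) / P.c ^ k₁ + (y - y₁) / P.c ^ k₁ := by ring
      rw [h1]; exact P.Λ.add_mem l1 l2
    · have hdp := hN.dev_pow k y hy x y₀ k₁ (kp - k₁).toNat hxy hs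
      rw [Int.toNat_of_nonneg (by linarith), add_sub_cancel] at hdp
      have hj : ‖P.c‖ ^ (kp - k₁).toNat ≤ P.Θ ^ 2 := by
        rw [hG.hΘ, ← pow_mul]; exact pow_le_pow_right₀ hG.hc.le (by omega)
      have := mul_le_mul hj hdev (norm_nonneg _) (by positivity)
      rw [hG.hC₂]; linarith
  by_cases hco : ∃ y₂, P.Core Y x y₂
  · obtain ⟨y₂, i, hy₂, hi⟩ := hco
    obtain ⟨b1, b2⟩ := cand_core_lab hG hN hy hxy hy₂ hi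
    have hpi := cand_apos hG i
    have hz2 : ‖P.c‖ * P.ρ₀ * ‖P.c‖ ^ i ≤ ‖z - y₂‖ := by
      by_contra h
      exact hno y₂ ⟨i, hy₂, lt_of_not_ge h⟩
    have h1 : ‖P.c‖ ^ kp ≤ P.Θ ^ 2 * ‖P.c‖ ^ i := cand_le2J hG (by linarith)
    have h2 : ‖P.c‖ ^ i ≤ ‖P.c‖ ^ kp := cand_mono hG (by linarith)
    have hlow : P.ρ₀ * ‖P.c‖ ^ i ≤ ‖x - y₂‖ := by
      have h3 := cand_tri z x y₂
      have h4 := mul_le_mul_of_nonneg_left h1 hC0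
      have h5 : P.C₀ * P.Θ ^ 2 ≤ (‖P.c‖ - 1) * P.ρ₀ := by
        have h6 := hG.hρ₀
        have h7 := n.RH
        have h8 := n.R16
        rw [hG.hR] at h7 h8
        linarith
      have h6 := mul_le_mul_of_nonneg_right h5 hpi.le
      linarith
    obtain ⟨u, hu, hud⟩ := hB.dens (x - y₂) i hlow hi
    refine ⟨y₂ + u, ?_, Or.inr ⟨y₂, i, hy₂, by simpa using hu⟩⟩
    have h3 := cand_tri z x (y₂ + u)
    have h4 : x - (y₂ + u) = x - y₂ - u := by ring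
    rw [h4] at h3
    have h5 := mul_le_mul_of_nonneg_left h2 hC0
    linarith
  · exact ⟨x, by linarith, Or.inl ⟨hcand, fun y₂ h => hco ⟨y₂, h⟩⟩⟩

theorem cand_dens (hG : P.Good) (hB : P.Base0) {Y : ℤ → Set ℂ} {V : Set ℂ} (hI : P.Inv Y V)
    (hN : P.NetOK Y V) (k : ℤ) (y : ℂ) (hy : y ∈ Y k) (z : ℂ) (hz : ‖z - y‖ ≤ P.ρ * ‖P.c‖ ^ k) :
    ∃ x ∈ P.X Y, ‖z - x‖ ≤ P.R * ‖P.c‖ ^ (k - P.J - P.N) := by
  have n := cand_num hG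
  by_cases hco : ∃ y₂, P.Core Y z y₂
  · obtain ⟨y₂, i, hy₂, hi⟩ := hco
    have hp := cand_apos hG k
    have hρk : 0 ≤ P.ρ * ‖P.c‖ ^ k := mul_nonneg (by linarith [n.ρ1]) hp.le
    obtain ⟨b1, b2⟩ := cand_core_lab hG hN hy (by linarith) hy₂ hi
    have hpi := cand_apos hG i
    have hC0 : 0 < P.C₀ := by linarith [hG.hC₀]
    have hCi : 0 < P.C₀ * ‖P.c‖ ^ i := mul_pos hC0 hpi
    have ha := hG.hc
    have hρ₀ : 0 < P.ρ₀ := by linarith [n.ρ₀1]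
    obtain ⟨z', hz0, hz1, hz2⟩ : ∃ z' : ℂ, z' ≠ 0 ∧ ‖z - y₂ - z'‖ ≤ P.C₀ * ‖P.c‖ ^ i ∧
        ‖z'‖ < ‖P.c‖ * P.ρ₀ * ‖P.c‖ ^ i := by
      by_cases h : z - y₂ = 0
      · refine ⟨((P.C₀ * ‖P.c‖ ^ i : ℝ) : ℂ), by exact_mod_cast hCi.ne', ?_, ?_⟩
        · rw [h, zero_sub, norm_neg, Complex.norm_real, Real.norm_of_nonneg hCi.le]
        · rw [Complex.norm_real, Real.norm_of_nonneg hCi.le]
          refine mul_lt_mul_of_pos_right ?_ hpi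
          nlinarith [n.C0ρ₀]
      · exact ⟨z - y₂, h, by rw [sub_self, norm_zero]; exact hCi.le, hi⟩
    obtain ⟨i', a1, a2⟩ := hB.ann z' hz0
    have hii : i' ≤ i := by
      by_contra h
      have h1 : ‖P.c‖ ^ (i + 1) ≤ ‖P.c‖ ^ i' := cand_mono hG (by omega)
      rw [zpow_add₀ (by linarith), zpow_one] at h1
      have h2 := mul_le_mul_of_nonneg_left h1 hρ₀.le
      linarith
    obtain ⟨u, hu, hud⟩ := hB.dens z' i' a1 a2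
    have h2 : ‖P.c‖ ^ i' ≤ ‖P.c‖ ^ i := cand_mono hG hii
    refine ⟨y₂ + u, Or.inr ⟨i', y₂, ⟨i, hy₂, ?_⟩, by simpa using hu⟩, ?_⟩
    · rw [add_sub_cancel_left]
      exact (hB.bound _ _ hu).2.trans_le (mul_le_mul_of_nonneg_left h2 (by positivity))
    · have h3 := cand_tri (z - y₂) z' u
      have h4 : z - (y₂ + u) = z - y₂ - u := by ring
      have h5 := mul_le_mul_of_nonneg_left h2 hC0.le
      have h6 : ‖P.c‖ ^ i ≤ P.Θ ^ 2 * ‖P.c‖ ^ (k - P.J - P.N) := cand_le2J hG (by linarith)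
      have h7 := mul_le_mul_of_nonneg_left h6 hC0.le
      rw [h4, hG.hR]; linarith
  · obtain ⟨x, hx, h⟩ := cand_dens_out hG hB hI hN k y hy z hz (fun y' h => hco ⟨y', h⟩)
    refine ⟨x, ?_, hx⟩
    rcases h with h | ⟨y', i, hy', hxy'⟩
    · exact Or.inl h
    · exact Or.inr ⟨i, y', ⟨i, hy', (hB.bound _ _ hxy').2⟩, hxy'⟩

end

theorem cand : CAND := by
  intro W _ _ P hG hB Y V hI hN
  exact ⟨cand_near_le hG hN, cand_pair hG hI hN, cand_top hG hB hI hN,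
    fun k y hy z hz => cand_dens hG hB hI hN k y hy z hz,
    fun k y hy z hz hno => cand_dens_out hG hB hI hN k y hy z hz hno⟩

end Pool.Agent.H527Z.Per
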