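import Pool.Agent.H527Z.Per.Defs

/-!
# Chains of robustly adjacent points along a segment
-/

set_option autoImplicit false

namespace Pool.Agent.H527Z.Per

open Set
open scoped Convex Topology

/-- two points of a convex set can be joined inside it avoiding a countable set -/
theorem chain_avoid (K s : Set ℂ) (hK : Convex ℝ K) (hs : s.Countable) (a b : ℂ)
    (haK : a ∈ K) (hbK : b ∈ K) (ha : a ∉ s) (hb : b ∉ s)
    (hc : K ∈ 𝓝 ((2 : ℝ)⁻¹ • (a + b))) :
    ∃ S : Set ℂ, IsPreconnected S ∧ a ∈ S ∧ b ∈ S ∧ S ⊆ K ∧ ∀ p ∈ S, p ∉ s := by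
  rcases eq_or_ne a b with rfl | hab
  · refine ⟨{a}, isPreconnected_singleton, rfl, rfl, by simpa using haK, by simpa using ha⟩
  have h : 1 < Module.rank ℝ ℂ := by simp
  let c := (2 : ℝ)⁻¹ • (a + b)
  let x := (2 : ℝ)⁻¹ • (b - a)
  have Ia : c - x = a := by
    simp only [c, x]
    module
  have Ib : c + x = b := by
    simp only [c, x]
    module
  have x_ne_zero : x ≠ 0 := by simpa [x] using sub_ne_zero.2 hab.symm
  obtain ⟨y, hy⟩ : ∃ y, LinearIndependent ℝ ![x, y] :=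
    exists_linearIndependent_pair_of_one_lt_rank h x_ne_zero
  have A : Set.Countable {t : ℝ | ([c + x -[ℝ] c + t • y] ∩ s).Nonempty} := by
    apply countable_ofPred_nonempty_of_disjoint _ (fun t ↦ inter_subset_right) hs
    intro t t' htt'
    apply disjoint_iff_inter_eq_empty.2
    have N : {c + x} ∩ s = ∅ := by
      simpa only [singleton_inter_eq_empty, mem_compl_iff, Ib] using hb
    rw [inter_assoc, inter_comm s, inter_assoc, inter_self, ← inter_assoc, ← subset_empty_iff, ← N]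
    apply inter_subset_inter_left
    apply Eq.subset
    apply segment_inter_eq_endpoint_of_linearIndependent_of_ne hy htt'.symm
  have B : Set.Countable {t : ℝ | ([c - x -[ℝ] c + t • y] ∩ s).Nonempty} := by
    apply countable_ofPred_nonempty_of_disjoint _ (fun t ↦ inter_subset_right) hs
    intro t t' htt'
    apply disjoint_iff_inter_eq_empty.2
    have N : {c - x} ∩ s = ∅ := by
      simpa only [singleton_inter_eq_empty, mem_compl_iff, Ia] using ha
    rw [inter_assoc, inter_comm s, inter_assoc, inter_self, ← inter_assoc, ← subset_empty_iff, ← N]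
    apply inter_subset_inter_left
    rw [sub_eq_add_neg _ x]
    apply Eq.subset
    apply segment_inter_eq_endpoint_of_linearIndependent_of_ne _ htt'.symm
    convert! hy.units_smul ![-1, 1]
    simp [← List.ofFn_inj]
  have hcont : Continuous (fun t : ℝ => c + t • y) := by fun_prop
  have hn : (fun t : ℝ => c + t • y) ⁻¹' K ∈ 𝓝 (0 : ℝ) := by
    apply hcont.continuousAt.preimage_mem_nhds
    simpa [c] using hc
  obtain ⟨t, ht, htK⟩ := ((A.union B).dense_compl ℝ).inter_nhds_nonempty hn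
  simp only [compl_union, mem_inter_iff, mem_compl_iff, mem_ofPred_eq, not_nonempty_iff_eq_empty]
    at ht
  have htK' : c + t • y ∈ K := htK
  rw [Ib] at ht
  rw [Ia] at ht
  refine ⟨[a -[ℝ] c + t • y] ∪ [b -[ℝ] c + t • y], ?_, Or.inl (left_mem_segment _ _ _),
    Or.inr (left_mem_segment _ _ _), ?_, ?_⟩
  · exact IsPreconnected.union (c + t • y) (right_mem_segment _ _ _) (right_mem_segment _ _ _)
      (convex_segment _ _).isPreconnected (convex_segment _ _).isPreconnected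
  · exact union_subset (hK.segment_subset haK htK') (hK.segment_subset hbK htK')
  · rintro p (hp | hp) hps
    · have : p ∈ [a -[ℝ] c + t • y] ∩ s := ⟨hp, hps⟩
      rw [ht.2] at this
      exact this
    · have : p ∈ [b -[ℝ] c + t • y] ∩ s := ⟨hp, hps⟩
      rw [ht.1] at this
      exact this

/-- points equidistant from three different points of a finite set -/
theorem chain_bad_countable (T : Set ℂ) (hT : T.Finite) :
    {p : ℂ | ∃ a ∈ T, ∃ b ∈ T, ∃ c ∈ T, a ≠ b ∧ c ≠ a ∧ c ≠ b ∧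
      ‖p - a‖ = ‖p - b‖ ∧ ‖p - a‖ = ‖p - c‖}.Countable := by
  have h1 : {p : ℂ | ∃ a ∈ T, ∃ b ∈ T, ∃ c ∈ T, a ≠ b ∧ c ≠ a ∧ c ≠ b ∧
      ‖p - a‖ = ‖p - b‖ ∧ ‖p - a‖ = ‖p - c‖} =
      ⋃ a ∈ T, ⋃ b ∈ T, ⋃ c ∈ T, {p : ℂ | a ≠ b ∧ c ≠ a ∧ c ≠ b ∧
        ‖p - a‖ = ‖p - b‖ ∧ ‖p - a‖ = ‖p - c‖} := by
    ext p
    simp only [mem_ofPred_eq, mem_iUnion, exists_prop]
  rw [h1]
  refine hT.countable.biUnion fun a _ => hT.countable.biUnion fun b _ =>
    hT.countable.biUnion fun c _ => Set.Subsingleton.countable ?_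
  rintro p ⟨hab, hca, hcb, h1, h2⟩ q ⟨-, -, -, h3, h4⟩
  by_contra hpq
  have := EuclideanGeometry.eq_of_dist_eq_of_dist_eq_of_finrank_eq_two (V := ℂ) (P := ℂ)
    Complex.finrank_real_complex (c₁ := p) (c₂ := q) (p₁ := a) (p₂ := b) (p := c)
    (r₁ := ‖p - a‖) (r₂ := ‖q - a‖) hpq hab
    (by rw [dist_comm, dist_eq_norm]) (by rw [dist_comm, dist_eq_norm, h1])
    (by rw [dist_comm, dist_eq_norm, h2]) (by rw [dist_comm, dist_eq_norm])
    (by rw [dist_comm, dist_eq_norm, h3]) (by rw [dist_comm, dist_eq_norm, h4])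
  rcases this with h | h
  · exact hca h
  · exact hcb h

/-- a uniform robustness constant for the finitely many local configurations -/
theorem chain_eps (F : Finset ℂ) (R : ℝ) : ∃ ε : ℝ, 0 < ε ∧ ε ≤ 1 ∧
    ∀ Y ∈ F.powerset, ∀ b ∈ F,
      (∃ q : ℂ, ‖q‖ ≤ R ∧ ‖q‖ = ‖q - b‖ ∧ ∀ y ∈ Y, y ≠ 0 → y ≠ b → ‖q‖ < ‖q - y‖) →
      ∃ q : ℂ, ‖q‖ ≤ R ∧ ‖q‖ = ‖q - b‖ ∧
        ∀ y ∈ Y, ‖q - y‖ ≤ (1 + ε) * ‖q‖ → y = 0 ∨ y = b := by
  have key : ∀ᶠ ε in 𝓝 (0 : ℝ), ∀ Y ∈ F.powerset, ∀ b ∈ F,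
      (∃ q : ℂ, ‖q‖ ≤ R ∧ ‖q‖ = ‖q - b‖ ∧ ∀ y ∈ Y, y ≠ 0 → y ≠ b → ‖q‖ < ‖q - y‖) →
      ∃ q : ℂ, ‖q‖ ≤ R ∧ ‖q‖ = ‖q - b‖ ∧
        ∀ y ∈ Y, ‖q - y‖ ≤ (1 + ε) * ‖q‖ → y = 0 ∨ y = b := by
    rw [Filter.eventually_all_finset]
    intro Y _
    rw [Filter.eventually_all_finset]
    intro b _
    by_cases h : ∃ q : ℂ, ‖q‖ ≤ R ∧ ‖q‖ = ‖q - b‖ ∧ ∀ y ∈ Y, y ≠ 0 → y ≠ b → ‖q‖ < ‖q - y‖
    · obtain ⟨q, h1, h2, h3⟩ := h
      have : ∀ᶠ ε in 𝓝 (0 : ℝ), ∀ y ∈ Y, ‖q - y‖ ≤ (1 + ε) * ‖q‖ → y = 0 ∨ y = b := by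
        rw [Filter.eventually_all_finset]
        intro y hy
        by_cases h0 : y = 0
        · exact Filter.Eventually.of_forall fun _ _ => Or.inl h0
        by_cases hb : y = b
        · exact Filter.Eventually.of_forall fun _ _ => Or.inr hb
        have hlt := h3 y hy h0 hb
        have hc : Continuous (fun ε : ℝ => (1 + ε) * ‖q‖) := by fun_prop
        have : ∀ᶠ ε in 𝓝 (0 : ℝ), (1 + ε) * ‖q‖ < ‖q - y‖ := by
          apply hc.continuousAt.eventually_lt continuousAt_const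
          simpa using hlt
        filter_upwards [this] with ε hε hle
        exact absurd hle (not_le.2 hε)
      filter_upwards [this] with ε hε _
      exact ⟨q, h1, h2, hε⟩
    · exact Filter.Eventually.of_forall fun _ h' => absurd h' h
  have h1 : ∀ᶠ ε in 𝓝 (0 : ℝ), ε ≤ 1 := eventually_le_nhds (by norm_num)
  have h2 : ∀ᶠ ε in 𝓝[>] (0 : ℝ), 0 < ε := self_mem_nhdsWithin
  obtain ⟨ε, ⟨hk, h1⟩, h2⟩ := (((key.and h1).filter_mono nhdsWithin_le_nhds).and h2).exists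
  exact ⟨ε, h2, h1, hk⟩

/-- shortening of chains inside a finite set -/
theorem chain_short (T : Finset ℂ) (r : ℂ → ℂ → Prop) (hr : ∀ u v, r u v → r v u) (x x' : ℂ)
    (hx : x ∈ T)
    (h : Relation.ReflTransGen (fun u v => r u v ∧ v ∈ T) x x') :
    ∃ n : ℕ, n ≤ T.card ∧ ∃ g : ℕ → ℂ, g 0 = x ∧ g n = x' ∧ (∀ i < n, r (g i) (g (i + 1))) ∧
      ∀ i ≤ n, g i ∈ T := by
  classical
  let G : SimpleGraph T := SimpleGraph.fromRel (fun u v => r u v)
  have key : ∀ y, Relation.ReflTransGen (fun u v => r u v ∧ v ∈ T) x y →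
      ∃ hy : y ∈ T, G.Reachable ⟨x, hx⟩ ⟨y, hy⟩ := by
    intro y hy
    induction hy with
    | refl => exact ⟨hx, SimpleGraph.Reachable.refl _⟩
    | @tail b c _ hbc ih =>
      obtain ⟨hb, hreach⟩ := ih
      refine ⟨hbc.2, ?_⟩
      by_cases hbc' : (⟨b, hb⟩ : T) = ⟨c, hbc.2⟩
      · rw [← hbc']
        exact hreach
      · refine hreach.trans (SimpleGraph.Adj.reachable ?_)
        rw [SimpleGraph.fromRel_adj]
        exact ⟨hbc', Or.inl hbc.1⟩
  obtain ⟨hx', hreach⟩ := key x' h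
  obtain ⟨p, hp⟩ := hreach.exists_isPath
  refine ⟨p.length, ?_, fun i => (p.getVert i : ℂ), by simp, by simp, ?_, fun i _ => (p.getVert i).2⟩
  · have := hp.length_lt
    rw [Fintype.card_coe] at this
    exact this.le
  · intro i hi
    have := p.adj_getVert_succ hi
    rw [SimpleGraph.fromRel_adj] at this
    rcases this.2 with h | h
    · exact h
    · exact hr _ _ h

theorem chain_symm (ε : ℝ) (X : Set ℂ) (u v : ℂ) (h : Adj ε X u v) : Adj ε X v u := by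
  obtain ⟨hu, hv, p, h1, h2⟩ := h
  refine ⟨hv, hu, p, h1.symm, fun x hx hle => ?_⟩
  rw [← h1] at hle
  exact (h2 x hx hle).symm

/-- the tube around the segment -/
def chainTube (z z' : ℂ) (δ : ℝ) : Set ℂ :=
  {p | ∃ t : ℝ, 0 ≤ t ∧ t ≤ 1 ∧ ‖p - (z + (t : ℂ) * (z' - z))‖ ≤ δ}

theorem chain_tube_convex (z z' : ℂ) (δ : ℝ) : Convex ℝ (chainTube z z' δ) := by
  rintro p ⟨s, hs0, hs1, hp⟩ q ⟨t, ht0, ht1, hq⟩ a b ha hb hab
  refine ⟨a * s + b * t, by positivity, by nlinarith, ?_⟩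
  have hab' : (a : ℂ) + b = 1 := by exact_mod_cast hab
  have : a • p + b • q - (z + ((a * s + b * t : ℝ) : ℂ) * (z' - z)) =
      (a : ℂ) * (p - (z + (s : ℂ) * (z' - z))) + (b : ℂ) * (q - (z + (t : ℂ) * (z' - z))) := by
    simp only [Complex.real_smul]
    push_cast
    linear_combination z * hab'
  rw [this]
  calc _ ≤ ‖(a : ℂ) * (p - (z + (s : ℂ) * (z' - z)))‖ +
        ‖(b : ℂ) * (q - (z + (t : ℂ) * (z' - z)))‖ := norm_add_le _ _
    _ = a * ‖p - (z + (s : ℂ) * (z' - z))‖ + b * ‖q - (z + (t : ℂ) * (z' - z))‖ := by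
        rw [norm_mul, norm_mul, Complex.norm_real, Complex.norm_real, Real.norm_of_nonneg ha,
          Real.norm_of_nonneg hb]
    _ ≤ a * δ + b * δ := by gcongr
    _ = δ := by rw [← add_mul, hab, one_mul]

theorem chain_tube_add (z z' : ℂ) (δ η : ℝ) (p q : ℂ) (hp : p ∈ chainTube z z' δ)
    (hq : ‖p - q‖ ≤ η) : q ∈ chainTube z z' (δ + η) := by
  obtain ⟨t, h0, h1, h⟩ := hp
  refine ⟨t, h0, h1, ?_⟩
  have : q - (z + (t : ℂ) * (z' - z)) = (p - (z + (t : ℂ) * (z' - z))) - (p - q) := by ring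
  rw [this]
  exact (norm_sub_le _ _).trans (add_le_add h hq)

theorem chain_tube_mono (z z' : ℂ) (δ η : ℝ) (h : δ ≤ η) (p : ℂ) (hp : p ∈ chainTube z z' δ) :
    p ∈ chainTube z z' η := by
  obtain ⟨t, h0, h1, h2⟩ := hp
  exact ⟨t, h0, h1, h2.trans h⟩

theorem chain_tube_rho (z z' z₀ : ℂ) (δ ρ : ℝ) (hz : ‖z - z₀‖ + δ ≤ ρ) (hz' : ‖z' - z₀‖ + δ ≤ ρ)
    (p : ℂ) (hp : p ∈ chainTube z z' δ) : ‖p - z₀‖ ≤ ρ := by
  obtain ⟨t, h0, h1, h2⟩ := hp
  have : p - z₀ = (p - (z + (t : ℂ) * (z' - z))) +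
      (((1 - t : ℝ) : ℂ) * (z - z₀) + (t : ℂ) * (z' - z₀)) := by
    push_cast
    ring
  rw [this]
  have h3 : ‖((1 - t : ℝ) : ℂ) * (z - z₀) + (t : ℂ) * (z' - z₀)‖ ≤
      (1 - t) * ‖z - z₀‖ + t * ‖z' - z₀‖ := by
    refine (norm_add_le _ _).trans (le_of_eq ?_)
    rw [norm_mul, norm_mul, Complex.norm_real, Complex.norm_real,
      Real.norm_of_nonneg (by linarith), Real.norm_of_nonneg h0]
  refine (norm_add_le _ _).trans ?_
  nlinarith

/-- every point of the segment is close to one of `M + 1` marked points -/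
theorem chain_mark (z z' : ℂ) (M : ℕ) (δ : ℝ) (hδ : 0 ≤ δ) (h : ‖z - z'‖ ≤ M * δ) (t : ℝ)
    (h0 : 0 ≤ t) (h1 : t ≤ 1) : ∃ i ∈ Finset.range (M + 1),
      ‖(z + (t : ℂ) * (z' - z)) - (z + (((i : ℝ) / M : ℝ) : ℂ) * (z' - z))‖ ≤ δ := by
  rcases Nat.eq_zero_or_pos M with rfl | hM
  · have : z = z' := by
      have : ‖z - z'‖ ≤ 0 := by simpa using h
      exact sub_eq_zero.1 (norm_le_zero_iff.1 this)
    subst this
    exact ⟨0, by simp, by simpa using hδ⟩
  have hM' : (0 : ℝ) < M := by exact_mod_cast hM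
  refine ⟨⌊t * M⌋₊, ?_, ?_⟩
  · rw [Finset.mem_range, Nat.lt_succ_iff]
    apply Nat.floor_le_of_le
    nlinarith
  · have h2 : (⌊t * M⌋₊ : ℝ) ≤ t * M := Nat.floor_le (by positivity)
    have h3 : t * M < (⌊t * M⌋₊ : ℝ) + 1 := Nat.lt_floor_add_one _
    have : (z + (t : ℂ) * (z' - z)) - (z + (((⌊t * M⌋₊ : ℝ) / M : ℝ) : ℂ) * (z' - z)) =
        ((t - (⌊t * M⌋₊ : ℝ) / M : ℝ) : ℂ) * (z' - z) := by
      push_cast
      ring
    rw [this, norm_mul, Complex.norm_real, norm_sub_rev z' z]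
    have h4 : 0 ≤ t - (⌊t * M⌋₊ : ℝ) / M := by
      rw [sub_nonneg, div_le_iff₀ hM']
      exact h2
    have h5 : (t - (⌊t * M⌋₊ : ℝ) / M) * M ≤ 1 := by
      rw [sub_mul, div_mul_cancel₀ _ hM'.ne']
      linarith
    rw [Real.norm_of_nonneg h4]
    calc _ ≤ (t - (⌊t * M⌋₊ : ℝ) / M) * (M * δ) := by gcongr
      _ = ((t - (⌊t * M⌋₊ : ℝ) / M) * M) * δ := by ring
      _ ≤ 1 * δ := by gcongr
      _ = δ := one_mul _

theorem chain : CHAIN := by
  classical
  intro F R hR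
  obtain ⟨ε, hε0, hε1, hε⟩ := chain_eps F R
  refine ⟨ε, hε0, hε1, ?_⟩
  intro X γ z₀ ρ hγ H1 H2 z z' M hz hz' hM x hx x' hx' hzx hzx'
  have hγ0 : 0 < ‖γ‖ := norm_pos_iff.2 hγ
  obtain ⟨δ, hδ⟩ : ∃ δ, δ = R * ‖γ‖ := ⟨_, rfl⟩
  have hδ0 : 0 < δ := by rw [hδ]; positivity
  have e20 : 20 * R * ‖γ‖ = 20 * δ := by rw [hδ]; ring
  have e10 : 10 * R * ‖γ‖ = 10 * δ := by rw [hδ]; ring
  have e5 : 5 * R * ‖γ‖ = 5 * δ := by rw [hδ]; ring
  have eM : M * R * ‖γ‖ = M * δ := by rw [hδ]; ring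
  rw [e20] at H1
  rw [e10] at hz hz'
  rw [eM] at hM
  rw [e5]
  rw [← hδ] at H2 hzx hzx'
  have hrho : ∀ p ∈ chainTube z z' (10 * δ), ‖p - z₀‖ ≤ ρ := chain_tube_rho z z' z₀ _ ρ hz hz'
  -- the finite set of points of `X` in the tube
  have hloc : ∀ c : ℂ, ∃ S : Finset ℂ, S.card ≤ F.card ∧
      ∀ u ∈ X, u ∈ chainTube z z' (5 * δ) → ‖u - c‖ ≤ 6 * δ → u ∈ S := by
    intro c
    by_cases h : ∃ u ∈ X, u ∈ chainTube z z' (5 * δ) ∧ ‖u - c‖ ≤ 6 * δ
    · obtain ⟨u₀, h1, h2, h3⟩ := h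
      refine ⟨F.image (fun f => u₀ + γ * f), Finset.card_image_le, fun u hu hu2 hu3 => ?_⟩
      rw [Finset.mem_image]
      refine ⟨(u - u₀) / γ, H1 u hu u₀ h1 (hrho _ (chain_tube_mono _ _ _ _ (by linarith) _ hu2))
        (hrho _ (chain_tube_mono _ _ _ _ (by linarith) _ h2)) ?_, by field_simp; ring⟩
      have : u - u₀ = (u - c) - (u₀ - c) := by ring
      rw [this]
      refine (norm_sub_le _ _).trans ?_
      linarith
    · exact ⟨∅, by simp, fun u hu hu2 hu3 => absurd ⟨u, hu, hu2, hu3⟩ h⟩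
  choose S hScard hS using hloc
  let T₀ : Finset ℂ := (Finset.range (M + 1)).biUnion
    (fun i => S (z + (((i : ℝ) / M : ℝ) : ℂ) * (z' - z)))
  let T : Finset ℂ := T₀.filter (fun u => u ∈ X ∧ u ∈ chainTube z z' (5 * δ))
  have hT : ∀ u, u ∈ T ↔ u ∈ X ∧ u ∈ chainTube z z' (5 * δ) := by
    intro u
    refine ⟨fun h => (Finset.mem_filter.1 h).2, fun h => Finset.mem_filter.2 ⟨?_, h⟩⟩
    obtain ⟨t, h0, h1, h2⟩ := h.2
    obtain ⟨i, hi, h3⟩ := chain_mark z z' M δ hδ0.le hM t h0 h1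
    refine Finset.mem_biUnion.2 ⟨i, hi, hS _ u h.1 h.2 ?_⟩
    have : u - (z + (((i : ℝ) / M : ℝ) : ℂ) * (z' - z)) = (u - (z + (t : ℂ) * (z' - z))) +
        ((z + (t : ℂ) * (z' - z)) - (z + (((i : ℝ) / M : ℝ) : ℂ) * (z' - z))) := by ring
    rw [this]
    refine (norm_add_le _ _).trans ?_
    linarith
  have hTcard : T.card ≤ (M + 1) * F.card := by
    refine (Finset.card_filter_le _ _).trans ?_
    refine (Finset.card_biUnion_le_card_mul _ _ F.card (fun i _ => hScard _)).trans ?_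
    simp
  have hx1 : x ∈ chainTube z z' δ := ⟨0, le_rfl, zero_le_one, by
    rw [norm_sub_rev]; simpa using hzx⟩
  have hx1' : x' ∈ chainTube z z' δ := ⟨1, zero_le_one, le_rfl, by
    rw [norm_sub_rev]; simpa using hzx'⟩
  have hxT : x ∈ T := (hT x).2 ⟨hx, chain_tube_mono _ _ _ _ (by linarith) _ hx1⟩
  have hxT' : x' ∈ T := (hT x').2 ⟨hx', chain_tube_mono _ _ _ _ (by linarith) _ hx1'⟩
  -- Voronoi cells
  let cell : ℂ → Set ℂ := fun u => {p | ∀ y ∈ T, ‖p - u‖ ≤ ‖p - y‖}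
  have hcl : ∀ u, IsClosed (cell u) := by
    intro u
    have : cell u = ⋂ y ∈ T, {p | ‖p - u‖ ≤ ‖p - y‖} := by
      ext p
      simp [cell]
    rw [this]
    exact isClosed_biInter fun y _ => isClosed_le (by fun_prop) (by fun_prop)
  have hself : ∀ u, u ∈ cell u := fun u y _ => by simp
  have hcov : ∀ p : ℂ, ∃ u ∈ T, p ∈ cell u := fun p =>
    T.exists_min_image (fun u => ‖p - u‖) ⟨x, hxT⟩
  let Bad : Set ℂ := {p : ℂ | ∃ a ∈ (T : Set ℂ), ∃ b ∈ (T : Set ℂ), ∃ c ∈ (T : Set ℂ),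
    a ≠ b ∧ c ≠ a ∧ c ≠ b ∧ ‖p - a‖ = ‖p - b‖ ∧ ‖p - a‖ = ‖p - c‖} \ {x, x'}
  have hBad : Bad.Countable := (chain_bad_countable T T.finite_toSet).mono sdiff_subset
  -- adjacency at a good common point of two cells
  have hadj : ∀ p ∈ chainTube z z' (2 * δ), p ∉ Bad → ∀ u ∈ T, ∀ v ∈ T, u ≠ v → p ∈ cell u →
      p ∈ cell v → Adj ε X u v := by
    intro p hp hpB u hu v hv huv hpu hpv
    have huv1 : ‖p - u‖ = ‖p - v‖ := le_antisymm (hpu v hv) (hpv u hu)
    have hpT : p ∉ T := by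
      intro hpT
      have h1 := hpu p hpT
      have h2 := hpv p hpT
      simp only [sub_self, norm_zero, norm_le_zero_iff, sub_eq_zero] at h1 h2
      exact huv (h1.symm.trans h2)
    obtain ⟨w, hw, hpw⟩ := H2 p (hrho _ (chain_tube_mono _ _ _ _ (by linarith) _ hp))
    have hwT : w ∈ T := (hT w).2 ⟨hw, chain_tube_mono _ _ _ _ (by linarith) _
      (chain_tube_add _ _ _ _ _ _ hp hpw)⟩
    have hpu1 : ‖p - u‖ ≤ δ := (hpu w hwT).trans hpw
    have hlt : ∀ y ∈ X, y ≠ u → y ≠ v → ‖p - u‖ < ‖p - y‖ := by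
      intro y hy hyu hyv
      by_contra hle
      rw [not_lt] at hle
      have hyT : y ∈ T := (hT y).2 ⟨hy, chain_tube_mono _ _ _ _ (by linarith) _
        (chain_tube_add _ _ _ _ _ _ hp (hle.trans hpu1))⟩
      apply hpB
      refine ⟨⟨u, hu, v, hv, y, hyT, huv, hyu, hyv, huv1, le_antisymm (hpu y hyT) hle⟩, ?_⟩
      rintro (h | h)
      · exact hpT (h ▸ hxT)
      · exact hpT (h ▸ hxT')
    have huX := ((hT u).1 hu).1
    have hvX := ((hT v).1 hv).1
    have hu3 : u ∈ chainTube z z' (2 * δ + δ) := chain_tube_add _ _ _ _ _ _ hp hpu1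
    have hnear : ∀ y ∈ X, ‖u - y‖ ≤ 3 * δ → (y - u) / γ ∈ F := by
      intro y hy hle
      refine H1 y hy u huX (hrho _ (chain_tube_mono _ _ _ _ (by linarith) _
        (chain_tube_add _ _ _ _ _ _ hu3 hle)))
        (hrho _ (chain_tube_mono _ _ _ _ (by linarith) _ hu3)) ?_
      rw [norm_sub_rev]
      linarith
    have hvF : (v - u) / γ ∈ F := by
      apply hnear v hvX
      have : u - v = (p - v) - (p - u) := by ring
      rw [this]
      refine (norm_sub_le _ _).trans ?_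
      linarith
    obtain ⟨q, hq1, hq2, hq3⟩ := hε (F.filter (fun f => u + γ * f ∈ X))
      (Finset.mem_powerset.2 (Finset.filter_subset _ _)) ((v - u) / γ) hvF
      ⟨(p - u) / γ, by
        rw [norm_div, div_le_iff₀ hγ0, ← hδ]
        exact hpu1, by
        rw [← sub_div, norm_div, norm_div, huv1]
        congr 2
        ring, by
        intro y hy hy0 hyb
        have hyX := (Finset.mem_filter.1 hy).2
        have h1 : u + γ * y ≠ u := by
          intro h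
          apply hy0
          have : γ * y = 0 := by linear_combination h
          exact (mul_eq_zero.1 this).resolve_left hγ
        have h2 : u + γ * y ≠ v := by
          intro h
          apply hyb
          rw [← h]
          field_simp
          ring
        have h3 := hlt _ hyX h1 h2
        have h4 : (p - u) / γ - y = (p - (u + γ * y)) / γ := by
          field_simp
          ring
        rw [h4, norm_div, norm_div]
        exact div_lt_div_of_pos_right h3 hγ0⟩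
    have e1 : ‖u + γ * q - u‖ = ‖γ‖ * ‖q‖ := by
      rw [add_sub_cancel_left, norm_mul]
    have e2 : ∀ y : ℂ, ‖u + γ * q - y‖ = ‖γ‖ * ‖q - (y - u) / γ‖ := by
      intro y
      rw [← norm_mul]
      congr 1
      field_simp
      ring
    refine ⟨huX, hvX, u + γ * q, by rw [e1, e2, ← hq2], fun y hy hle => ?_⟩
    have hq4 : ‖γ‖ * ‖q‖ ≤ δ := by
      rw [hδ, mul_comm]
      gcongr
    have hyF : (y - u) / γ ∈ F := by
      apply hnear y hy
      have : u - y = (u + γ * q - y) - (u + γ * q - u) := by ring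
      rw [this]
      refine (norm_sub_le _ _).trans ?_
      rw [e1] at hle ⊢
      have : 0 ≤ ‖γ‖ * ‖q‖ := by positivity
      nlinarith
    have hyY : (y - u) / γ ∈ F.filter (fun f => u + γ * f ∈ X) := by
      refine Finset.mem_filter.2 ⟨hyF, ?_⟩
      have : u + γ * ((y - u) / γ) = y := by
        field_simp
        ring
      rw [this]
      exact hy
    rw [e1, e2] at hle
    have := hq3 _ hyY (by nlinarith)
    rcases this with h | h
    · left
      rw [div_eq_zero_iff] at h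
      exact sub_eq_zero.1 (h.resolve_right hγ)
    · right
      have := (div_left_inj' hγ).1 h
      linear_combination this
  -- the path
  have hmid : chainTube z z' (2 * δ) ∈ 𝓝 ((2 : ℝ)⁻¹ • (x + x')) := by
    have h1 : (2 : ℝ)⁻¹ • (x + x') ∈ chainTube z z' δ := by
      have := chain_tube_convex z z' δ hx1 hx1' (a := 2⁻¹) (b := 2⁻¹) (by norm_num) (by norm_num)
        (by norm_num)
      rwa [← smul_add] at this
    refine Filter.mem_of_superset (Metric.closedBall_mem_nhds _ hδ0) fun p hp => ?_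
    rw [Metric.mem_closedBall, dist_comm, dist_eq_norm] at hp
    rw [two_mul]
    exact chain_tube_add _ _ _ _ _ _ h1 hp
  obtain ⟨P, hP, hxP, hxP', hPK, hPB⟩ := chain_avoid (chainTube z z' (2 * δ)) Bad
    (chain_tube_convex _ _ _) hBad x x' (chain_tube_mono _ _ _ _ (by linarith) _ hx1)
    (chain_tube_mono _ _ _ _ (by linarith) _ hx1') (fun h => h.2 (Or.inl rfl))
    (fun h => h.2 (Or.inr rfl)) hmid
  have hreach : Relation.ReflTransGen (fun u v => Adj ε X u v ∧ v ∈ T) x x' := by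
    by_contra hn
    let Rch : ℂ → Prop := fun u => Relation.ReflTransGen (fun u v => Adj ε X u v ∧ v ∈ T) x u
    have hA : IsClosed (⋃ u ∈ T.filter Rch, cell u) :=
      isClosed_biUnion_finset fun u _ => hcl u
    have hB : IsClosed (⋃ u ∈ T.filter (fun u => ¬ Rch u), cell u) :=
      isClosed_biUnion_finset fun u _ => hcl u
    obtain ⟨p, hpP, hpA, hpB⟩ := isPreconnected_closed_iff.1 hP _ _ hA hB (by
        intro p _
        obtain ⟨u, hu, hpu⟩ := hcov p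
        by_cases h : Rch u
        · exact Or.inl (mem_iUnion₂.2 ⟨u, Finset.mem_filter.2 ⟨hu, h⟩, hpu⟩)
        · exact Or.inr (mem_iUnion₂.2 ⟨u, Finset.mem_filter.2 ⟨hu, h⟩, hpu⟩))
      ⟨x, hxP, mem_iUnion₂.2 ⟨x, Finset.mem_filter.2 ⟨hxT, Relation.ReflTransGen.refl⟩, hself x⟩⟩
      ⟨x', hxP', mem_iUnion₂.2 ⟨x', Finset.mem_filter.2 ⟨hxT', hn⟩, hself x'⟩⟩
    obtain ⟨u, hu, hpu⟩ := mem_iUnion₂.1 hpA
    obtain ⟨v, hv, hpv⟩ := mem_iUnion₂.1 hpB
    rw [Finset.mem_filter] at hu hv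
    have huv : u ≠ v := fun h => hv.2 (h ▸ hu.2)
    exact hv.2 (Relation.ReflTransGen.tail hu.2
      ⟨hadj p (hPK hpP) (hPB p hpP) u hu.1 v hv.1 huv hpu hpv, hv.1⟩)
  obtain ⟨n, hn, g, hg0, hgn, hg1, hg2⟩ := chain_short T (Adj ε X) (chain_symm ε X) x x' hxT hreach
  exact ⟨n, hn.trans hTcard, g, hg0, hgn, hg1, fun i hi => ((hT _).1 (hg2 i hi)).2⟩

end Pool.Agent.H527Z.Per
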