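import Mathlib

/-!
# Self-similar tilings with a complex Perron expansion: shared definitions

Statements of the independent lemmas (`NT`, `CHAIN`, `DEVLIP`, `FINAL`, `TILES`).
-/

set_option autoImplicit false

namespace Pool.Agent.H527Z.Per

open Set

/-- `y` is a point of `Ω` nearest to `x`. -/
def Nst (Ω : Set ℂ) (x y : ℂ) : Prop := y ∈ Ω ∧ ∀ y' ∈ Ω, ‖x - y‖ ≤ ‖x - y'‖

/-- Robust Delaunay adjacency: some point `p` is equidistant from `u` and `v`, and all other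
points of `X` are farther from `p` by a factor `1 + ε`. -/
def Adj (ε : ℝ) (X : Set ℂ) (u v : ℂ) : Prop :=
  u ∈ X ∧ v ∈ X ∧ ∃ p : ℂ, ‖p - u‖ = ‖p - v‖ ∧
    ∀ x ∈ X, ‖p - x‖ ≤ (1 + ε) * ‖p - u‖ → x = u ∨ x = v

/-- interpolation weight -/
noncomputable def wt (Ω : Set ℂ) (x : ℂ) (δ : ℝ) (y : ℂ) : ℝ :=
  Set.indicator Ω (fun y => max 0 (2 * δ - ‖x - y‖)) y

/-- deviation of `v x` from the interpolation at `x` of the values of `v` on `Ω` -/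
noncomputable def dev {W : Type} [NormedAddCommGroup W] [NormedSpace ℝ W] (v : ℂ →+ W)
    (Ω : Set ℂ) (x : ℂ) (δ : ℝ) : W :=
  (∑ᶠ y, wt Ω x δ y)⁻¹ • ∑ᶠ y, wt Ω x δ y • v (x - y)

/-- Number theory input: lattice and internal space of a complex Perron number. -/
def NT : Prop :=
  ∀ c : ℂ, IsIntegral ℤ c → 1 < ‖c‖ →
    (∀ μ : ℂ, Polynomial.aeval μ (minpoly ℚ c) = 0 → μ ≠ c → μ ≠ (starRingEnd ℂ) c →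
      ‖μ‖ < ‖c‖) →
    ∃ (W : Type) (_ : NormedAddCommGroup W) (_ : NormedSpace ℝ W) (w : ℂ →+ W)
      (B : W →ₗ[ℝ] W) (Λ : AddSubgroup ℂ) (β C₀ : ℝ),
      0 ≤ β ∧ β < ‖c‖ ∧ 0 < C₀ ∧ (∀ u, ‖B u‖ ≤ β * ‖u‖) ∧ (∀ x, w (c * x) = B (w x)) ∧
      (∀ x ∈ Λ, c * x ∈ Λ) ∧
      (∀ ρ : ℝ, {x : ℂ | x ∈ Λ ∧ ‖x‖ ≤ ρ ∧ ‖w x‖ ≤ ρ}.Finite) ∧
      (∀ (z : ℂ) (u : W), ∃ x ∈ Λ, ‖x - z‖ ≤ C₀ ∧ ‖w x - u‖ ≤ C₀)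

/-- Chains of robustly adjacent points along a segment. -/
def CHAIN : Prop :=
  ∀ (F : Finset ℂ) (R : ℝ), 0 < R → ∃ ε : ℝ, 0 < ε ∧ ε ≤ 1 ∧
    ∀ (X : Set ℂ) (γ z₀ : ℂ) (ρ : ℝ), γ ≠ 0 →
      (∀ u ∈ X, ∀ v ∈ X, ‖u - z₀‖ ≤ ρ → ‖v - z₀‖ ≤ ρ → ‖u - v‖ ≤ 20 * R * ‖γ‖ →
        (u - v) / γ ∈ F) →
      (∀ z : ℂ, ‖z - z₀‖ ≤ ρ → ∃ u ∈ X, ‖z - u‖ ≤ R * ‖γ‖) →
      ∀ (z z' : ℂ) (M : ℕ), ‖z - z₀‖ + 10 * R * ‖γ‖ ≤ ρ → ‖z' - z₀‖ + 10 * R * ‖γ‖ ≤ ρ →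
        ‖z - z'‖ ≤ M * R * ‖γ‖ →
        ∀ x ∈ X, ∀ x' ∈ X, ‖z - x‖ ≤ R * ‖γ‖ → ‖z' - x'‖ ≤ R * ‖γ‖ →
          ∃ n : ℕ, n ≤ (M + 1) * F.card ∧ ∃ g : ℕ → ℂ, g 0 = x ∧ g n = x' ∧
            (∀ i < n, Adj ε X (g i) (g (i + 1))) ∧
            ∀ i ≤ n, ∃ t : ℝ, 0 ≤ t ∧ t ≤ 1 ∧ ‖g i - (z + (t : ℂ) * (z' - z))‖ ≤ 5 * R * ‖γ‖

/-- The interpolation `x ↦ v x - dev v Ω x` is Lipschitz. -/
def DEVLIP : Prop :=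
  ∀ (W : Type) [NormedAddCommGroup W] [NormedSpace ℝ W] (v : ℂ →+ W) (Ω : Set ℂ)
    (S : Finset ℂ) (x x' y₀ y₀' : ℂ) (σ κ : ℝ), 0 ≤ κ →
    (∀ y ∈ Ω, ‖x - y‖ ≤ 10 * σ → y ∈ S) →
    (∀ y ∈ Ω, ∀ y' ∈ Ω, ‖x - y‖ ≤ 10 * σ → ‖x - y'‖ ≤ 10 * σ →
      ‖v (y - y')‖ ≤ κ * ‖y - y'‖) →
    Nst Ω x y₀ → Nst Ω x' y₀' → ‖x - y₀‖ ≤ σ → ‖x - x'‖ ≤ σ →
    ‖v (x - x') - dev v Ω x ‖x - y₀‖ + dev v Ω x' ‖x' - y₀'‖‖ ≤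
      40 * ((S.card : ℝ) + 1) * κ * ‖x - x'‖

/-- From a self-similar tiling of the punctured plane to one of the plane. -/
def FINAL : Prop :=
  ∀ (c : ℂ) (𝒯 : Set (Set ℂ)), 1 < ‖c‖ →
    (∀ t ∈ 𝒯, IsCompact t ∧ IsConnected t ∧ closure (interior t) = t) →
    (∀ z : ℂ, z ≠ 0 → ∃ t ∈ 𝒯, z ∈ t) →
    (∀ t ∈ 𝒯, ∀ s ∈ 𝒯, t ≠ s → Disjoint (interior t) (interior s)) →
    (∀ t ∈ 𝒯, ∃ S ⊆ 𝒯, (fun w => c * w) '' t = ⋃₀ S) →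
    (∀ s ∈ 𝒯, ∃ t ∈ 𝒯, s ⊆ (fun w => c * w) '' t) →
    (∃ F : Finset (Set ℂ), ∀ t ∈ 𝒯, Disjoint t (Metric.closedBall 0 1) →
      ∃ P ∈ F, ∃ z : ℂ, t = (fun w => w + z) '' P) →
    {t ∈ 𝒯 | ¬ Disjoint t (Metric.closedBall 0 1) ∧ ¬ t ⊆ Metric.closedBall 0 1}.Finite →
    ∃ T : Set (Set ℂ),
      (∀ t ∈ T, IsCompact t ∧ IsConnected t ∧ closure (interior t) = t) ∧
      ⋃₀ T = Set.univ ∧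
      (∀ t ∈ T, ∀ s ∈ T, t ≠ s → Disjoint (interior t) (interior s)) ∧
      (∃ F : Finset (Set ℂ), ∀ t ∈ T, ∃ P ∈ F, ∃ z : ℂ, t = (fun w => w + z) '' P) ∧
      (∀ t ∈ T, ∃ S ⊆ T, (fun w => c * w) '' t = ⋃₀ S)

/-- `Desc Par n m y x`: the point `x` of level `m + n` descends from the point `y` of level `m`. -/
def Desc (Par : ℕ → ℂ → ℂ → Prop) : ℕ → ℕ → ℂ → ℂ → Prop
  | 0, _, y, x => x = y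
  | n + 1, m, y, x => ∃ u, Par m u y ∧ Desc Par n (m + 1) u x

/-- the tile of the point `y` of level `m` -/
def tile (Par : ℕ → ℂ → ℂ → Prop) (m : ℕ) (y : ℂ) : Set ℂ :=
  closure {x | ∃ n, Desc Par n m y x}

/-- A hierarchy of nets of the punctured plane; level `m` has mesh of order `‖z‖ / (A * S ^ m)`
near `z`; `Par m x y` says that `y` (level `m`) is the parent of `x` (level `m + 1`). -/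
structure Hier (Ω : ℕ → Set ℂ) (Par : ℕ → ℂ → ℂ → Prop) (A S r R D E ε : ℝ) : Prop where
  hr : 0 < r
  hε : 0 < ε
  hε1 : ε ≤ 1
  hR : 0 < R
  hD : 0 < D
  hE : 0 ≤ E
  hS : 4 ≤ S
  hA : 16 * (D + R) ≤ A
  hbig : 6 * (E + 4 * D) ≤ ε * r * S
  par_mem : ∀ m x y, Par m x y → x ∈ Ω (m + 1) ∧ y ∈ Ω m
  par_ex : ∀ m, ∀ x ∈ Ω (m + 1), ∃ y, Par m x y
  par_uniq : ∀ m x y y', Par m x y → Par m x y' → y = y'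
  par_self : ∀ m, ∀ y ∈ Ω m, Par m y y
  par_dist : ∀ m x y, Par m x y → ‖x - y‖ ≤ D * (‖y‖ / (A * S ^ m))
  par_near : ∀ m x y, Par m x y → ∀ y' ∈ Ω m,
    ‖x - y‖ ≤ ‖x - y'‖ + E * (‖x‖ / (A * S ^ (m + 1)))
  sep : ∀ m, ∀ y ∈ Ω m, ∀ y' ∈ Ω m, y ≠ y' → r * (‖y‖ / (A * S ^ m)) ≤ ‖y - y'‖
  dens : ∀ m (z : ℂ), z ≠ 0 → ∃ y ∈ Ω m, ‖z - y‖ ≤ R * (‖z‖ / (A * S ^ m))
  zero : ∀ m, (0 : ℂ) ∉ Ω m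
  fin : ∀ m (z : ℂ), z ≠ 0 → {y ∈ Ω m | ‖y - z‖ ≤ ‖z‖ / 2}.Finite
  chain : ∀ m x y, Par m x y →
    Relation.ReflTransGen (fun u v => Adj ε (Ω (m + 1)) u v ∧ Par m v y) y x

/-- The tiles of a hierarchy. -/
def TILES : Prop :=
  ∀ (Ω : ℕ → Set ℂ) (Par : ℕ → ℂ → ℂ → Prop) (A S r R D E ε : ℝ), Hier Ω Par A S r R D E ε →
    (∀ m, ∀ y ∈ Ω m, IsCompact (tile Par m y) ∧ IsConnected (tile Par m y) ∧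
      closure (interior (tile Par m y)) = tile Par m y) ∧
    (∀ m (z : ℂ), z ≠ 0 → ∃ y ∈ Ω m, z ∈ tile Par m y) ∧
    (∀ m, ∀ y ∈ Ω m, ∀ y' ∈ Ω m, y ≠ y' →
      Disjoint (interior (tile Par m y)) (interior (tile Par m y'))) ∧
    (∀ m, ∀ y ∈ Ω m, tile Par m y = ⋃ x ∈ {x | Par m x y}, tile Par (m + 1) x) ∧
    (∀ m, ∀ y ∈ Ω m, ∀ z ∈ tile Par m y, ‖z - y‖ ≤ ‖y‖ / 8)

end Pool.Agent.H527Z.Per
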