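import Pool.Agent.H527Z.Per.Defs

/-!
# Repetitive self-similar tilings: hierarchies with punctures

Statements `TILES2`, `BASE`, `TILING`, `SUBDIV`, `REPET`, `TYPES`.
-/

set_option autoImplicit false

namespace Pool.Agent.H527Z.Per

open Set

/-- A hierarchy of nets `Ω m` of the complement of the puncture sets `V m`; `s m y` is the local
mesh at `y ∈ Ω m`; `Par m x y` says that `y` (level `m`) is the parent of `x` (level `m + 1`).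
The points of level `m` are punctures of level `m + 1`. -/
structure Hier2 (Ω V : ℕ → Set ℂ) (s : ℕ → ℂ → ℝ) (Par : ℕ → ℂ → ℂ → Prop)
    (S r R D E ε Θ M : ℝ) : Prop where
  hr : 0 < r
  hε : 0 < ε
  hε1 : ε ≤ 1
  hR : 0 < R
  hD : 0 < D
  hE : 0 ≤ E
  hS : 4 ≤ S
  hΘ : 1 ≤ Θ
  hM : (2 * D + 3 * R + r + 1) * Θ ≤ M
  hbig : 6 * (E + 4 * D) ≤ ε * r * S
  s_pos : ∀ m, ∀ y ∈ Ω m, 0 < s m y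
  V_succ : ∀ m, V (m + 1) = V m ∪ Ω m
  par_mem : ∀ m x y, Par m x y → x ∈ Ω (m + 1) ∧ y ∈ Ω m
  par_ex : ∀ m, ∀ x ∈ Ω (m + 1), ∃ y, Par m x y
  par_uniq : ∀ m x y y', Par m x y → Par m x y' → y = y'
  par_scale : ∀ m x y, Par m x y → s (m + 1) x * S ≤ s m y
  par_dist : ∀ m x y, Par m x y → ‖x - y‖ ≤ D * s m y
  par_near : ∀ m x y, Par m x y → ∀ y' ∈ Ω m, ‖x - y‖ ≤ ‖x - y'‖ + E * (s m y / S)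
  sep : ∀ m, ∀ y ∈ Ω m, ∀ y' ∈ Ω m, y ≠ y' → r * s m y ≤ ‖y - y'‖
  dens : ∀ m (z : ℂ), z ∉ V m → ∃ y ∈ Ω m, ‖z - y‖ ≤ R * s m y
  far : ∀ m, ∀ y ∈ Ω m, ∀ v ∈ V m, M * s m y ≤ ‖y - v‖
  comp : ∀ m, ∀ y ∈ Ω m, ∀ y' ∈ Ω m, ‖y - y'‖ ≤ M * s m y →
    s m y' ≤ Θ * s m y ∧ s m y ≤ Θ * s m y'
  fin : ∀ m, ∀ y ∈ Ω m, {y' ∈ Ω m | ‖y' - y‖ ≤ M * s m y}.Finite
  chain : ∀ m x y, Par m x y → ∃ x₀, ‖x₀ - y‖ ≤ r / 8 * s m y ∧ Par m x₀ y ∧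
    Relation.ReflTransGen (fun u v => Adj ε (Ω (m + 1)) u v ∧ Par m v y) x₀ x

/-- The properties of the tiles of a hierarchy with punctures. -/
structure TilesOK (Ω V : ℕ → Set ℂ) (s : ℕ → ℂ → ℝ) (Par : ℕ → ℂ → ℂ → Prop) (D : ℝ) : Prop where
  nice : ∀ m, ∀ y ∈ Ω m, IsCompact (tile Par m y) ∧ IsConnected (tile Par m y) ∧
    closure (interior (tile Par m y)) = tile Par m y
  cover : ∀ m (z : ℂ), z ∉ V m → ∃ y ∈ Ω m, z ∈ tile Par m y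
  disj : ∀ m, ∀ y ∈ Ω m, ∀ y' ∈ Ω m, y ≠ y' →
    Disjoint (interior (tile Par m y)) (interior (tile Par m y'))
  split : ∀ m, ∀ y ∈ Ω m, tile Par m y = {y} ∪ ⋃ x ∈ {x | Par m x y}, tile Par (m + 1) x
  rad : ∀ m, ∀ y ∈ Ω m, ∀ z ∈ tile Par m y, ‖z - y‖ ≤ 2 * D * s m y
  near : ∀ m, ∀ y ∈ Ω m, ∀ z ∈ tile Par m y, ∀ y' ∈ Ω m, ‖z - y‖ ≤ 2 * ‖z - y'‖

def TILES2 : Prop :=
  ∀ (Ω V : ℕ → Set ℂ) (s : ℕ → ℂ → ℝ) (Par : ℕ → ℂ → ℂ → Prop) (S r R D E ε Θ M : ℝ),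
    Hier2 Ω V s Par S r R D E ε Θ M → TilesOK Ω V s Par D

/-- The data of a labelled hierarchy: `Y m k` are the points of level `m` with mesh `‖c‖ ^ k`. -/
structure Dat where
  c : ℂ
  N : ℕ
  Y : ℕ → ℤ → Set ℂ
  V : ℕ → Set ℂ
  s : ℕ → ℂ → ℝ
  Par : ℕ → ℂ → ℂ → Prop
  r : ℝ
  R : ℝ
  D : ℝ
  E : ℝ
  ε : ℝ
  Θ : ℝ
  M : ℝ
  ρ : ℝ
  ρ₀ : ℝ
  F : Finset ℂ

namespace Dat

variable (d : Dat)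

/-- points of level `m` -/
def Ω (m : ℕ) : Set ℂ := ⋃ k, d.Y m k

/-- levels `m` and `m'` agree, up to the translation `T`, on the ball of radius `ρ'` round `z` -/
def Agr (m m' : ℕ) (T z : ℂ) (ρ' : ℝ) : Prop :=
  ∀ (k : ℤ) (u : ℂ), ‖u - z‖ ≤ ρ' → (u ∈ d.Y m k ↔ u + T ∈ d.Y m' k)

/-- the axioms -/
structure Sys : Prop where
  hc : 1 < ‖d.c‖
  hier : Hier2 d.Ω d.V d.s d.Par (‖d.c‖ ^ d.N) d.r d.R d.D d.E d.ε d.Θ d.M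
  hM' : 4 * d.D + 10 * ‖d.c‖ ≤ d.M
  hrS : 24 * ‖d.c‖ * d.ρ₀ ≤ d.r * ‖d.c‖ ^ d.N
  hΘS : 4 * d.Θ ≤ ‖d.c‖ ^ d.N
  hρ : 40 * d.D * d.Θ ≤ d.ρ
  hρM : d.ρ ≤ d.M
  hρ₀ : d.ρ + 2 * ‖d.c‖ < d.ρ₀
  hs : ∀ m k, ∀ y ∈ d.Y m k, d.s m y = ‖d.c‖ ^ k
  V0 : d.V 0 = {0}
  eqv_mem : ∀ m k y, y ∈ d.Y m k ↔ d.c * y ∈ d.Y m (k + 1)
  eqv_par : ∀ m x y, d.Par m x y ↔ d.Par m (d.c * x) (d.c * y)
  child : ∀ m x y (k K : ℤ), d.Par m x y → x ∈ d.Y (m + 1) k → y ∈ d.Y m (K + d.N) →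
    k = K ∨ ‖x - y‖ < ‖d.c‖ * d.ρ₀ * ‖d.c‖ ^ K
  loc : ∀ m m' (T y : ℂ) (k : ℤ), y ∈ d.Y m k → d.Agr m m' T y (d.ρ * ‖d.c‖ ^ k) →
    ∀ u : ℂ, ‖u - y‖ ≤ d.ρ / 2 * ‖d.c‖ ^ k →
      (∀ k', u ∈ d.Y (m + 1) k' ↔ u + T ∈ d.Y (m' + 1) k') ∧
      ∀ y', d.Par m u y' ↔ d.Par m' (u + T) (y' + T)
  plant : ∀ m (K : ℤ), ∀ y ∈ d.Y m (K + d.N), ∀ u : ℂ, ‖u‖ < ‖d.c‖ * d.ρ₀ * ‖d.c‖ ^ K →
    ∀ k, u ∈ d.Y 0 k ↔ u + y ∈ d.Y (m + 1) k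
  pat : ∀ m k k', ∀ y ∈ d.Y m k, ∀ y' ∈ d.Y m k', ‖y' - y‖ ≤ d.ρ * ‖d.c‖ ^ k →
    (y' - y) / d.c ^ k ∈ d.F
  base : ∀ k, ∀ y ∈ d.Y 0 k, d.ρ₀ * ‖d.c‖ ^ k ≤ ‖y‖ ∧ ‖y‖ < ‖d.c‖ * d.ρ₀ * ‖d.c‖ ^ k

/-- the tile properties for this data -/
def OK : Prop := TilesOK d.Ω d.V d.s d.Par d.D

/-- active points: label below `N`, parent (if any) with label at least `N` -/
def Act (m : ℕ) (y : ℂ) : Prop :=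
  (∃ k : ℤ, y ∈ d.Y m k ∧ k < d.N) ∧
    ∀ m₀ y' (K : ℤ), m = m₀ + 1 → d.Par m₀ y y' → y' ∈ d.Y m₀ K → (d.N : ℤ) ≤ K

/-- active punctures -/
def AV : Set ℂ := {v | v = 0 ∨ ∃ m, ∃ K : ℤ, v ∈ d.Y m K ∧ (d.N : ℤ) ≤ K}

/-- active points whose tile is not merged into a central tile -/
def Free (m : ℕ) (y : ℂ) : Prop :=
  d.Act m y ∧ ∀ v ∈ d.AV, Disjoint (tile d.Par m y) (Metric.closedBall v 1)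

/-- the central tile of an active puncture -/
def Cen (v : ℂ) : Set ℂ :=
  Metric.closedBall v 1 ∪ {z | ∃ m y, d.Act m y ∧
    ¬ Disjoint (tile d.Par m y) (Metric.closedBall v 1) ∧ z ∈ tile d.Par m y}

/-- the tiling -/
def TT : Set (Set ℂ) :=
  {t | (∃ m y, d.Free m y ∧ t = tile d.Par m y) ∨ ∃ v ∈ d.AV, t = d.Cen v}

/-- the tiles `t` and `t'` have the same type, the reference points differ by `z` -/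
def Rel (t t' : Set ℂ) (z : ℂ) : Prop :=
  (∃ m y m' , ∃ k : ℤ, d.Free m y ∧ d.Free m' (y + z) ∧ t = tile d.Par m y ∧
    t' = tile d.Par m' (y + z) ∧ y ∈ d.Y m k ∧ d.Agr m m' z y (d.ρ * ‖d.c‖ ^ k)) ∨
  ∃ v ∈ d.AV, v + z ∈ d.AV ∧ t = d.Cen v ∧ t' = d.Cen (v + z)

/-- basic facts used by the assembly -/
structure Base : Prop where
  hN : 1 ≤ d.N
  lab_uniq : ∀ m k k' y, y ∈ d.Y m k → y ∈ d.Y m k' → k = k'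
  lab_child : ∀ m x y (k K : ℤ), d.Par m x y → x ∈ d.Y (m + 1) k → y ∈ d.Y m K → k + d.N ≤ K
  tile_mul : ∀ m y, tile d.Par m (d.c * y) = (fun w => d.c * w) '' tile d.Par m y
  step : ∀ m m' (T y x : ℂ) (k k' : ℤ), y ∈ d.Y m k → d.Agr m m' T y (d.ρ * ‖d.c‖ ^ k) →
    d.Par m x y → x ∈ d.Y (m + 1) k' →
    d.Par m' (x + T) (y + T) ∧ d.Agr (m + 1) (m' + 1) T x (d.ρ * ‖d.c‖ ^ k')
  tile_add : ∀ m m' (T y : ℂ) (k : ℤ), y ∈ d.Y m k → d.Agr m m' T y (d.ρ * ‖d.c‖ ^ k) →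
    tile d.Par m' (y + T) = (fun w => w + T) '' tile d.Par m y
  near_zero : ∀ (W : ℝ) m y, d.Act m y → ¬ Disjoint (tile d.Par m y) (Metric.closedBall 0 W) →
    ∃ x ∈ d.Ω 0, Desc d.Par m 0 x y ∧ (d.M - 2 * d.D) * d.s 0 x ≤ W
  near_seed : ∀ m₀ (K : ℤ), ∀ v ∈ d.Y m₀ K, (d.N : ℤ) ≤ K → ∀ W : ℝ, 3 * W < d.r * ‖d.c‖ ^ K →
    ∀ m y, d.Act m y → ¬ Disjoint (tile d.Par m y) (Metric.closedBall v W) →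
    ∃ n x, m = m₀ + 1 + n ∧ Desc d.Par n (m₀ + 1) x y ∧ d.Par m₀ x v ∧
      (d.M - 2 * d.D) * d.s (m₀ + 1) x ≤ W
  near_small : ∀ v ∈ d.AV, ∀ W : ℝ, W ≤ ‖d.c‖ → ∀ m y, d.Act m y →
    ¬ Disjoint (tile d.Par m y) (Metric.closedBall v W) →
    ∃ k : ℤ, k < 0 ∧ y ∈ d.Y m k ∧ y - v ∈ d.Y 0 k ∧ ‖y - v‖ ≤ 2 * W ∧
      tile d.Par m y ⊆ Metric.closedBall v (3 * W) ∧
      d.Agr 0 m v (y - v) (d.ρ * ‖d.c‖ ^ k) ∧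
      ((m = 0 ∧ v = 0) ∨ ∃ m₀, ∃ K : ℤ, m = m₀ + 1 ∧ d.Par m₀ y v ∧ v ∈ d.Y m₀ K ∧ (d.N : ℤ) ≤ K)
  planted : ∀ m₀ (K : ℤ), ∀ v ∈ d.Y m₀ K, (d.N : ℤ) ≤ K → ∀ (k : ℤ), ∀ u ∈ d.Y 0 k,
    k + d.N ≤ K → u + v ∈ d.Y (m₀ + 1) k ∧ d.Par m₀ (u + v) v
  cen_add : ∀ v ∈ d.AV, d.Cen v = (fun w => w + v) '' d.Cen 0
  av_sep : ∀ v ∈ d.AV, ∀ v' ∈ d.AV, v ≠ v' → 10 * ‖d.c‖ ≤ ‖v - v'‖
  act_cover : ∀ z, z ∉ d.AV → ∃ m y, d.Act m y ∧ z ∈ tile d.Par m y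
  act_disj : ∀ m y m' y', d.Act m y → d.Act m' y' → (m, y) ≠ (m', y') →
    Disjoint (interior (tile d.Par m y)) (interior (tile d.Par m' y'))
  free_lab : ∃ k₀ : ℤ, ∀ m y k, d.Free m y → y ∈ d.Y m k → k₀ ≤ k

end Dat

/-- tilings by compact connected tiles that are the closures of their interiors -/
def IsTiling (T : Set (Set ℂ)) : Prop :=
  (∀ t ∈ T, IsCompact t ∧ IsConnected t ∧ closure (interior t) = t) ∧ ⋃₀ T = Set.univ ∧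
    ∀ t ∈ T, ∀ s ∈ T, t ≠ s → Disjoint (interior t) (interior s)

def BASE : Prop := ∀ d : Dat, d.Sys → d.OK → d.Base

def TILING : Prop := ∀ d : Dat, d.Sys → d.OK → d.Base →
  IsTiling d.TT ∧ ∀ t ∈ d.TT, ∃ S ⊆ d.TT, (fun w => d.c * w) '' t = ⋃₀ S

def SUBDIV : Prop := ∀ d : Dat, d.Sys → d.OK → d.Base → IsTiling d.TT →
  ∀ t t' z, d.Rel t t' z → t' = (fun w => w + z) '' t ∧
    ∀ s ∈ d.TT, s ⊆ (fun w => d.c * w) '' t →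
      d.Rel s ((fun w => w + d.c * z) '' s) (d.c * z)

def REPET : Prop := ∀ d : Dat, d.Sys → d.OK → d.Base → IsTiling d.TT →
  (∃ G : Set (Set ℂ), G.Finite ∧ ∀ t ∈ d.TT, ∃ t' ∈ G, ∃ z, d.Rel t t' z) →
  ∀ R : ℝ, ∃ R' : ℝ, ∀ x y : ℂ, ∃ z : ℂ, ‖x + z - y‖ ≤ R' ∧
    ∀ s ∈ d.TT, ¬ Disjoint s (Metric.closedBall x R) → d.Rel s ((fun w => w + z) '' s) z

def TYPES : Prop := ∀ d : Dat, d.Sys → d.OK → d.Base → IsTiling d.TT →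
  (∃ G : Set (Set ℂ), G.Finite ∧ ∀ t ∈ d.TT, ∃ t' ∈ G, ∃ z, d.Rel t t' z) ∧
  (∀ t t' z, d.Rel t t' z → t ∈ d.TT ∧ t' ∈ d.TT) ∧
  ∃ (n : ℕ) (ty : Set ℂ → Fin n), ∀ t ∈ d.TT, ∀ t' ∈ d.TT, ty t = ty t' ↔ ∃ z, d.Rel t t' z

end Pool.Agent.H527Z.Per
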