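import Pool.Agent.H527Z.Per.Defs2

/-!
# The refinement rule

Parameters `Pm`, the rule `Step`, invariants `Inv`, and the statements
`EQV`, `LOC`, `BASE0`, `NET`, `CAND`, `PAR`, `STEP`, `PMEX`.
-/

set_option autoImplicit false

namespace Pool.Agent.H527Z.Per

open Set

/-- parameters of the construction -/
structure Pm (W : Type) [NormedAddCommGroup W] [NormedSpace ℝ W] where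
  c : ℂ
  w : ℂ →+ W
  B : W →ₗ[ℝ] W
  Λ : AddSubgroup ℂ
  β : ℝ
  C₀ : ℝ
  J : ℕ
  N : ℕ
  M₁ : ℕ
  Θ : ℝ
  R : ℝ
  D : ℝ
  ρ : ℝ
  M : ℝ
  H : ℝ
  C₂ : ℝ
  C₄ : ℝ
  r₀ : ℝ
  r : ℝ
  ε : ℝ
  ρ₀ : ℝ
  F : Finset ℂ
  Fs : Finset ℂ

/-- the lexicographic cone -/
def Pos (u : ℂ) : Prop := 0 < u.re ∨ (u.re = 0 ∧ 0 ≤ u.im)

/-- all points of a labelled configuration -/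
def Om (Y : ℤ → Set ℂ) : Set ℂ := ⋃ k, Y k

/-- `y` is the unique point of the configuration nearest to `x` -/
def Q (Y : ℤ → Set ℂ) (y x : ℂ) : Prop := ∀ y' ∈ Om Y, y' ≠ y → ‖x - y‖ < ‖x - y'‖

/-- `y` is almost nearest to `x` -/
def Near (Y : ℤ → Set ℂ) (x y : ℂ) : Prop := ∀ y' ∈ Om Y, ‖x - y‖ ≤ 2 * ‖x - y'‖

namespace Pm

variable {W : Type} [NormedAddCommGroup W] [NormedSpace ℝ W] (P : Pm W)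

/-- bound for the number of rounds -/
def n₁ : ℕ := 2 * P.Fs.card * P.M₁

/-- the constant of `par_near` -/
noncomputable def E : ℝ := 4 * P.R * (P.n₁ : ℝ)

/-- hypotheses on the parameters -/
structure Good : Prop where
  hc : 1 < ‖P.c‖
  hβ0 : 0 ≤ P.β
  hβ : P.β ≤ ‖P.c‖
  hC₀ : 1 ≤ P.C₀
  hB : ∀ u, ‖P.B u‖ ≤ P.β * ‖u‖
  hw : ∀ x, P.w (P.c * x) = P.B (P.w x)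
  hΛ : ∀ x ∈ P.Λ, P.c * x ∈ P.Λ
  hco : ∀ (z : ℂ) (u : W), ∃ x ∈ P.Λ, ‖x - z‖ ≤ P.C₀ ∧ ‖P.w x - u‖ ≤ P.C₀
  hΘ : P.Θ = ‖P.c‖ ^ P.J
  hJ : 2 * ‖P.c‖ ≤ P.Θ
  hR : P.R = 4 * P.C₀ * P.Θ ^ 2
  hD : P.D = 2 * P.R * P.Θ ^ 2
  hρ : P.ρ = 40 * P.D * P.Θ
  hM : P.M = 4 * P.ρ
  hH : P.H = P.M * P.Θ
  hC₂ : P.C₂ = 2 * P.C₀ * P.Θ ^ 2
  hC₄ : P.C₄ = P.C₂ * (1 + P.Θ)
  hF : ∀ l, l ∈ P.F ↔ l ∈ P.Λ ∧ ‖l‖ ≤ P.H ∧ ‖P.w l‖ ≤ P.H + P.C₄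
  hr₀ : 0 < P.r₀
  hr₀1 : P.r₀ ≤ 1
  hr₀F : ∀ l ∈ P.F, l ≠ 0 → P.r₀ ≤ ‖l‖
  hr : P.r = P.r₀ / P.Θ
  hFs : ∀ j : ℕ, j ≤ 2 * P.J → ∀ l ∈ P.F, P.c ^ j * l ∈ P.Fs
  hε : 0 < P.ε
  hε1 : P.ε ≤ 1
  hchain : ∀ (X : Set ℂ) (γ z₀ : ℂ) (ρ : ℝ), γ ≠ 0 →
      (∀ u ∈ X, ∀ v ∈ X, ‖u - z₀‖ ≤ ρ → ‖v - z₀‖ ≤ ρ → ‖u - v‖ ≤ 20 * P.R * ‖γ‖ →
        (u - v) / γ ∈ P.Fs) →
      (∀ z : ℂ, ‖z - z₀‖ ≤ ρ → ∃ u ∈ X, ‖z - u‖ ≤ P.R * ‖γ‖) →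
      ∀ (z z' : ℂ) (M : ℕ), ‖z - z₀‖ + 10 * P.R * ‖γ‖ ≤ ρ → ‖z' - z₀‖ + 10 * P.R * ‖γ‖ ≤ ρ →
        ‖z - z'‖ ≤ M * P.R * ‖γ‖ →
        ∀ x ∈ X, ∀ x' ∈ X, ‖z - x‖ ≤ P.R * ‖γ‖ → ‖z' - x'‖ ≤ P.R * ‖γ‖ →
          ∃ n : ℕ, n ≤ (M + 1) * P.Fs.card ∧ ∃ g : ℕ → ℂ, g 0 = x ∧ g n = x' ∧
            (∀ i < n, Adj P.ε X (g i) (g (i + 1))) ∧
            ∀ i ≤ n, ∃ t : ℝ, 0 ≤ t ∧ t ≤ 1 ∧ ‖g i - (z + (t : ℂ) * (z' - z))‖ ≤ 5 * P.R * ‖γ‖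
  hM₁ : 12 * P.R * P.Θ ≤ (P.M₁ : ℝ) * P.r
  hρ₀ : P.H ≤ (‖P.c‖ - 1) * P.ρ₀
  hρ₀' : 2 * P.H ≤ P.ρ₀
  hN : 2 * P.J ≤ P.N
  hκ : 40 * ((P.Fs.card : ℝ) + 1) * ((P.H + P.C₄) / P.r₀) * (‖P.c‖ * P.ρ₀) *
    P.β ^ (P.N - 2 * P.J) ≤ ‖P.c‖ ^ (P.N - 2 * P.J)
  hbig : 6 * (P.E + 4 * P.D) ≤ P.ε * P.r * ‖P.c‖ ^ P.N
  hrS : 24 * ‖P.c‖ * P.ρ₀ ≤ P.r * ‖P.c‖ ^ P.N

/-- the internal coordinate at scale `c ^ k` -/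
noncomputable def vk (k : ℤ) : ℂ →+ W := P.w.comp (AddMonoidHom.mulRight (P.c ^ k)⁻¹)

/-- the configuration of level `0` -/
def Y0 (k : ℤ) : Set ℂ :=
  {u | u / P.c ^ k ∈ P.Λ ∧ P.ρ₀ ≤ ‖u / P.c ^ k‖ ∧ ‖u / P.c ^ k‖ < ‖P.c‖ * P.ρ₀ ∧
    ‖P.w (u / P.c ^ k)‖ ≤ P.C₀}

/-- lattice points near the graph of the interpolation -/
def Cand (Y : ℤ → Set ℂ) (x : ℂ) : Prop :=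
  ∃ y₀, ∃ k₀ : ℤ, y₀ ∈ Y k₀ ∧ Nst (Om Y) x y₀ ∧ ‖x - y₀‖ ≤ P.R * P.Θ * ‖P.c‖ ^ k₀ ∧
    ∀ (k : ℤ) (y : ℂ), y ∈ Y (k + P.N) → ‖x - y‖ ≤ 2 * ‖x - y₀‖ →
      (x - y) / P.c ^ k ∈ P.Λ ∧ ‖dev (P.vk k) (Om Y) x ‖x - y₀‖‖ ≤ P.C₂

/-- `x` lies in the core of `y` -/
def Core (Y : ℤ → Set ℂ) (x y : ℂ) : Prop :=
  ∃ k : ℤ, y ∈ Y (k + P.N) ∧ ‖x - y‖ < ‖P.c‖ * P.ρ₀ * ‖P.c‖ ^ k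

/-- ordinary new points -/
def Ord (Y : ℤ → Set ℂ) (x : ℂ) : Prop := P.Cand Y x ∧ ∀ y, ¬ P.Core Y x y

/-- planted new points with label `i` -/
def Pl (Y : ℤ → Set ℂ) (i : ℤ) (x : ℂ) : Prop := ∃ y, P.Core Y x y ∧ x - y ∈ P.Y0 i

/-- all new points -/
def X (Y : ℤ → Set ℂ) : Set ℂ := {x | P.Ord Y x ∨ ∃ i, P.Pl Y i x}

/-- points joined to the core of `y` inside the Voronoi cell of `y` -/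
def C0 (Y : ℤ → Set ℂ) (y x : ℂ) : Prop :=
  ∃ x₀ ∈ P.X Y, P.Core Y x₀ y ∧
    Relation.ReflTransGen (fun u v => Adj P.ε (P.X Y) u v ∧ Q Y y v) x₀ x

/-- points at graph distance at most `n` from `C0 Y y` -/
def Lay (Y : ℤ → Set ℂ) : ℕ → ℂ → ℂ → Prop
  | 0, y, x => P.C0 Y y x
  | n + 1, y, x => Lay Y n y x ∨ ∃ x', Lay Y n y x' ∧ Adj P.ε (P.X Y) x' x

/-- the parent relation -/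
def Par (Y : ℤ → Set ℂ) (x y : ℂ) : Prop :=
  ∃ k : ℤ, y ∈ Y k ∧ ∃ n ≤ P.n₁, P.Lay Y n y x ∧ (∀ y' n', n' < n → ¬ P.Lay Y n' y' x) ∧
    ∀ (y' : ℂ) (k' : ℤ), y' ∈ Y k' → P.Lay Y n y' x →
      k < k' ∨ (k = k' ∧ Pos ((y' - y) / P.c ^ k))

/-- the refined configuration -/
def Step (Y : ℤ → Set ℂ) (i : ℤ) : Set ℂ :=
  {x | P.Pl Y i x ∨ (P.Ord Y x ∧ ∃ y ∈ Y (i + P.N), P.Par Y x y)}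

/-- invariants of a configuration `Y` with punctures `V` -/
structure Inv (Y : ℤ → Set ℂ) (V : Set ℂ) : Prop where
  uniq : ∀ k k' y, y ∈ Y k → y ∈ Y k' → k = k'
  pair : ∀ k k', ∀ y ∈ Y k, ∀ y' ∈ Y k', k ≤ k' → ‖y - y'‖ ≤ P.H * ‖P.c‖ ^ k →
    (y - y') / P.c ^ k ∈ P.F
  cmp : ∀ k k', ∀ y ∈ Y k, ∀ y' ∈ Y k', ‖y - y'‖ ≤ P.M * ‖P.c‖ ^ k' → k' ≤ k + P.J
  dens : ∀ z, z ∉ V → ∃ k, ∃ y ∈ Y k, ‖z - y‖ ≤ P.R * ‖P.c‖ ^ k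
  far : ∀ k, ∀ y ∈ Y k, ∀ v ∈ V, P.M * ‖P.c‖ ^ k ≤ ‖y - v‖

/-- facts on the configuration of level `0` -/
structure Base0 : Prop where
  bound : ∀ k, ∀ u ∈ P.Y0 k, P.ρ₀ * ‖P.c‖ ^ k ≤ ‖u‖ ∧ ‖u‖ < ‖P.c‖ * P.ρ₀ * ‖P.c‖ ^ k
  ann : ∀ z : ℂ, z ≠ 0 → ∃ i : ℤ, P.ρ₀ * ‖P.c‖ ^ i ≤ ‖z‖ ∧ ‖z‖ < ‖P.c‖ * P.ρ₀ * ‖P.c‖ ^ i
  dens : ∀ (z : ℂ) (i : ℤ), P.ρ₀ * ‖P.c‖ ^ i ≤ ‖z‖ → ‖z‖ < ‖P.c‖ * P.ρ₀ * ‖P.c‖ ^ i →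
    ∃ u ∈ P.Y0 i, ‖z - u‖ ≤ 3 * P.C₀ * ‖P.c‖ ^ i
  eqv : ∀ (k j : ℤ) (u : ℂ), u ∈ P.Y0 k ↔ P.c ^ j * u ∈ P.Y0 (k + j)
  inv : P.Inv P.Y0 {0}

/-- geometric consequences of the invariants -/
structure NetOK (Y : ℤ → Set ℂ) (V : Set ℂ) : Prop where
  sep : ∀ k, ∀ y ∈ Y k, ∀ y' ∈ Om Y, y ≠ y' → P.r * ‖P.c‖ ^ k ≤ ‖y - y'‖
  lab : ∀ k k', ∀ y ∈ Y k, ∀ y' ∈ Y k', ‖y' - y‖ ≤ P.M * ‖P.c‖ ^ k →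
    k - P.J ≤ k' ∧ k' ≤ k + P.J
  pat : ∀ k, ∀ y ∈ Y k, ∀ y' ∈ Om Y, ∀ y'' ∈ Om Y, ‖y' - y‖ ≤ P.M * ‖P.c‖ ^ k →
    ‖y'' - y‖ ≤ P.M * ‖P.c‖ ^ k → ‖y' - y''‖ ≤ P.M * ‖P.c‖ ^ k →
    (y' - y'') / P.c ^ (k - P.J) ∈ P.Fs
  fin : ∀ k, ∀ y ∈ Y k, {y' ∈ Om Y | ‖y' - y‖ ≤ P.M * ‖P.c‖ ^ k}.Finite
  ldens : ∀ k, ∀ y ∈ Y k, ∀ z : ℂ, ‖z - y‖ ≤ 3 * P.ρ * ‖P.c‖ ^ k →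
    z ∉ V ∧ ∃ y' ∈ Om Y, ‖z - y'‖ ≤ P.R * P.Θ * ‖P.c‖ ^ k
  nst : ∀ z, z ∉ V → ∃ k, ∃ y ∈ Y k, Nst (Om Y) z y ∧ ‖z - y‖ ≤ P.R * P.Θ * ‖P.c‖ ^ k
  core_le : ∀ k, ∀ y ∈ Y k, ∀ x y' : ℂ, ‖x - y‖ ≤ 3 * P.ρ * ‖P.c‖ ^ k → P.Core Y x y' →
    ‖x - y'‖ ≤ ‖P.c‖ ^ k
  core_Q : ∀ x y, P.Core Y x y → ∀ y' ∈ Om Y, y' ≠ y → 2 * ‖x - y‖ < ‖x - y'‖
  lip : ∀ k, ∀ y ∈ Y k, ∀ (x x' y₀ y₀' : ℂ) (i : ℤ), ‖x - y‖ ≤ 2 * P.ρ * ‖P.c‖ ^ k →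
    ‖x - x'‖ ≤ P.R * P.Θ * ‖P.c‖ ^ k → Nst (Om Y) x y₀ → Nst (Om Y) x' y₀' →
    i + P.N ≤ k + P.J →
    ‖P.vk i (x - x') - dev (P.vk i) (Om Y) x ‖x - y₀‖ + dev (P.vk i) (Om Y) x' ‖x' - y₀'‖‖ *
      (‖P.c‖ * P.ρ₀ * ‖P.c‖ ^ i) ≤ ‖x - x'‖
  dev_pow : ∀ k, ∀ y ∈ Y k, ∀ (x y₀ : ℂ) (i : ℤ) (j : ℕ), ‖x - y‖ ≤ 2 * P.ρ * ‖P.c‖ ^ k →
    Nst (Om Y) x y₀ → ‖dev (P.vk i) (Om Y) x ‖x - y₀‖‖ ≤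
      ‖P.c‖ ^ j * ‖dev (P.vk (i + j)) (Om Y) x ‖x - y₀‖‖

/-- facts on the new points -/
structure CandOK (Y : ℤ → Set ℂ) : Prop where
  near_le : ∀ x y (K : ℤ), P.Cand Y x → y ∈ Y K → Near Y x y → ‖x - y‖ ≤ P.D * ‖P.c‖ ^ K
  pair : ∀ u u' y y' (k k' : ℤ), P.Cand Y u → P.Cand Y u' → y ∈ Y (k + P.N) →
    y' ∈ Y (k' + P.N) → Near Y u y → Near Y u' y' → k ≤ k' → ‖u - u'‖ ≤ P.H * ‖P.c‖ ^ k →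
    (u - u') / P.c ^ k ∈ P.F
  top : ∀ x y (k : ℤ), y ∈ Y (k + P.N) → x - y ∈ P.Y0 k → P.Cand Y x
  dens : ∀ k, ∀ y ∈ Y k, ∀ z : ℂ, ‖z - y‖ ≤ P.ρ * ‖P.c‖ ^ k →
    ∃ x ∈ P.X Y, ‖z - x‖ ≤ P.R * ‖P.c‖ ^ (k - P.J - P.N)
  dens_out : ∀ k, ∀ y ∈ Y k, ∀ z : ℂ, ‖z - y‖ ≤ P.ρ * ‖P.c‖ ^ k → (∀ y', ¬ P.Core Y z y') →
    ∃ x, ‖z - x‖ ≤ P.R * ‖P.c‖ ^ (k - P.J - P.N) ∧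
      (P.Ord Y x ∨ ∃ y', ∃ i : ℤ, y' ∈ Y (i + P.N) ∧ x - y' ∈ P.Y0 i)

/-- facts on the parent relation -/
structure ParOK (Y : ℤ → Set ℂ) : Prop where
  mem : ∀ x y, P.Par Y x y → x ∈ P.X Y ∧ y ∈ Om Y
  ex : ∀ x ∈ P.X Y, ∃ y, P.Par Y x y
  uniq : ∀ x y y', P.Par Y x y → P.Par Y x y' → y = y'
  core : ∀ x ∈ P.X Y, ∀ y, P.Core Y x y → P.Par Y x y
  add : ∀ x y (K : ℤ), P.Par Y x y → y ∈ Y K → ∀ y' ∈ Om Y,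
    ‖x - y‖ ≤ ‖x - y'‖ + P.E * (‖P.c‖ ^ K / ‖P.c‖ ^ P.N)
  near : ∀ x y, P.Par Y x y → Near Y x y
  dist : ∀ x y (K : ℤ), P.Par Y x y → y ∈ Y K → ‖x - y‖ ≤ P.D * ‖P.c‖ ^ K
  chain : ∀ x y, P.Par Y x y → ∃ x₀, P.Core Y x₀ y ∧ P.Par Y x₀ y ∧
    Relation.ReflTransGen (fun u v => Adj P.ε (P.X Y) u v ∧ P.Par Y v y) x₀ x

end Pm

/-- equivariance of the rule under the similarities `u ↦ c ^ j * u + T` -/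
def EQV : Prop :=
  ∀ (W : Type) [NormedAddCommGroup W] [NormedSpace ℝ W] (P : Pm W), P.c ≠ 0 →
    ∀ (Y Y' : ℤ → Set ℂ) (j : ℤ) (T : ℂ),
    (∀ k u, u ∈ Y k ↔ P.c ^ j * u + T ∈ Y' (k + j)) → ∀ x : ℂ,
      (∀ i, x ∈ P.Step Y i ↔ P.c ^ j * x + T ∈ P.Step Y' (i + j)) ∧
      ∀ y, P.Par Y x y ↔ P.Par Y' (P.c ^ j * x + T) (P.c ^ j * y + T)

/-- locality of the rule -/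
def LOC : Prop :=
  ∀ (W : Type) [NormedAddCommGroup W] [NormedSpace ℝ W] (P : Pm W), 0 ≤ P.ε → P.ε ≤ 1 →
    ∀ (Y Y' : ℤ → Set ℂ) (z₀ : ℂ) (t tf : ℝ), 0 < tf → tf ≤ t → 2 * (P.n₁ : ℝ) * tf ≤ t →
    (∀ k u, ‖u - z₀‖ ≤ 12 * t → (u ∈ Y k ↔ u ∈ Y' k)) →
    (∀ Z, Z = Y ∨ Z = Y' →
      (∀ z, ‖z - z₀‖ ≤ 12 * t → ∃ y ∈ Om Z, ‖z - y‖ ≤ t) ∧
      (∀ x y, ‖x - z₀‖ ≤ 12 * t → P.Core Z x y → ‖x - y‖ ≤ t) ∧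
      ∀ z, ‖z - z₀‖ ≤ 12 * t → ∃ x ∈ P.X Z, ‖z - x‖ ≤ tf) →
    (∀ i, z₀ ∈ P.Step Y i ↔ z₀ ∈ P.Step Y' i) ∧ ∀ y, P.Par Y z₀ y ↔ P.Par Y' z₀ y

def BASE0 : Prop :=
  ∀ (W : Type) [NormedAddCommGroup W] [NormedSpace ℝ W] (P : Pm W), P.Good → P.Base0

def NET : Prop :=
  ∀ (W : Type) [NormedAddCommGroup W] [NormedSpace ℝ W] (P : Pm W), P.Good →
    ∀ Y V, P.Inv Y V → P.NetOK Y V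

def CAND : Prop :=
  ∀ (W : Type) [NormedAddCommGroup W] [NormedSpace ℝ W] (P : Pm W), P.Good → P.Base0 →
    ∀ Y V, P.Inv Y V → P.NetOK Y V → P.CandOK Y

def PAREX : Prop :=
  ∀ (W : Type) [NormedAddCommGroup W] [NormedSpace ℝ W] (P : Pm W), P.Good → P.Base0 →
    ∀ Y V, P.Inv Y V → P.NetOK Y V → P.CandOK Y →
      ∀ x, P.Ord Y x → ∃ n ≤ P.n₁, ∃ y, P.Lay Y n y x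

def PAR : Prop :=
  ∀ (W : Type) [NormedAddCommGroup W] [NormedSpace ℝ W] (P : Pm W), P.Good → P.Base0 →
    ∀ Y V, P.Inv Y V → P.NetOK Y V → P.CandOK Y →
      (∀ x, P.Ord Y x → ∃ n ≤ P.n₁, ∃ y, P.Lay Y n y x) → P.ParOK Y

def STEP : Prop :=
  ∀ (W : Type) [NormedAddCommGroup W] [NormedSpace ℝ W] (P : Pm W), P.Good → P.Base0 →
    ∀ Y V, P.Inv Y V → P.NetOK Y V → P.CandOK Y → P.ParOK Y →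
      P.Inv (P.Step Y) (V ∪ Om Y) ∧ Om (P.Step Y) = P.X Y

def PMEX : Prop :=
  ∀ c : ℂ, IsIntegral ℤ c → 1 < ‖c‖ →
    (∀ μ : ℂ, Polynomial.aeval μ (minpoly ℚ c) = 0 → μ ≠ c → μ ≠ (starRingEnd ℂ) c →
      ‖μ‖ < ‖c‖) →
    ∃ (W : Type) (_ : NormedAddCommGroup W) (_ : NormedSpace ℝ W) (P : Pm W), P.c = c ∧ P.Good

end Pool.Agent.H527Z.Per
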