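import Pool.Agent.H527Z.Per.Defs

/-!
# The interpolation is Lipschitz
-/

set_option autoImplicit false

namespace Pool.Agent.H527Z.Per

open Set

theorem devlip_sum {ι : Type} (S : Finset ι) (a a' : ι → ℝ) (t : ℝ)
    (ha' : ∀ y, 0 ≤ a' y) (hA : 0 < ∑ y ∈ S, a y) (hA' : 0 < ∑ y ∈ S, a' y)
    (ht : ∀ y, |a y - a' y| ≤ t) :
    ∑ y ∈ S, |(∑ z ∈ S, a z)⁻¹ * a y - (∑ z ∈ S, a' z)⁻¹ * a' y| ≤
      2 * (S.card : ℝ) * t / ∑ z ∈ S, a z := by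
  set A := ∑ z ∈ S, a z with hAdef
  set A' := ∑ z ∈ S, a' z with hA'def
  have hAA : |A - A'| ≤ (S.card : ℝ) * t := by
    rw [hAdef, hA'def, ← Finset.sum_sub_distrib]
    calc |∑ y ∈ S, (a y - a' y)| ≤ ∑ y ∈ S, |a y - a' y| := Finset.abs_sum_le_sum_abs _ _
      _ ≤ ∑ _y ∈ S, t := Finset.sum_le_sum fun y _ => ht y
      _ = (S.card : ℝ) * t := by simp
  have h1 : ∀ y ∈ S, |A⁻¹ * a y - A'⁻¹ * a' y| ≤
      A⁻¹ * t + (A⁻¹ * A'⁻¹ * |A - A'|) * a' y := by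
    intro y _
    have e : A⁻¹ * a y - A'⁻¹ * a' y =
        A⁻¹ * (a y - a' y) - (A⁻¹ * A'⁻¹ * (A - A')) * a' y := by
      field_simp
      ring
    rw [e]
    calc |A⁻¹ * (a y - a' y) - (A⁻¹ * A'⁻¹ * (A - A')) * a' y|
        ≤ |A⁻¹ * (a y - a' y)| + |(A⁻¹ * A'⁻¹ * (A - A')) * a' y| := abs_sub _ _
      _ = A⁻¹ * |a y - a' y| + (A⁻¹ * A'⁻¹ * |A - A'|) * a' y := by
        rw [abs_mul, abs_mul, abs_mul, abs_mul, abs_of_pos (inv_pos.mpr hA),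
          abs_of_pos (inv_pos.mpr hA'), abs_of_nonneg (ha' y)]
      _ ≤ A⁻¹ * t + (A⁻¹ * A'⁻¹ * |A - A'|) * a' y := by
        have := mul_le_mul_of_nonneg_left (ht y) (inv_pos.mpr hA).le
        linarith
  calc ∑ y ∈ S, |A⁻¹ * a y - A'⁻¹ * a' y|
      ≤ ∑ y ∈ S, (A⁻¹ * t + (A⁻¹ * A'⁻¹ * |A - A'|) * a' y) := Finset.sum_le_sum h1
    _ = (S.card : ℝ) * (A⁻¹ * t) + (A⁻¹ * A'⁻¹ * |A - A'|) * A' := by
        rw [Finset.sum_add_distrib, Finset.sum_const, nsmul_eq_mul, ← Finset.mul_sum]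
    _ = (S.card : ℝ) * (A⁻¹ * t) + A⁻¹ * |A - A'| := by
        field_simp
    _ ≤ (S.card : ℝ) * (A⁻¹ * t) + A⁻¹ * ((S.card : ℝ) * t) := by
        have := mul_le_mul_of_nonneg_left hAA (inv_pos.mpr hA).le
        linarith
    _ = 2 * (S.card : ℝ) * t / A := by
        field_simp
        ring

theorem devlip_wt_nonneg (Ω : Set ℂ) (x : ℂ) (δ : ℝ) (y : ℂ) : 0 ≤ wt Ω x δ y := by
  unfold wt
  by_cases h : y ∈ Ω
  · rw [Set.indicator_of_mem h]; exact le_max_left _ _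
  · rw [Set.indicator_of_notMem h]

theorem devlip_wt_ne (Ω : Set ℂ) (x : ℂ) (δ : ℝ) (y : ℂ) (h : wt Ω x δ y ≠ 0) :
    y ∈ Ω ∧ ‖x - y‖ < 2 * δ := by
  unfold wt at h
  by_cases hy : y ∈ Ω
  · refine ⟨hy, ?_⟩
    rw [Set.indicator_of_mem hy] at h
    by_contra hc
    apply h
    apply max_eq_left
    linarith [not_lt.mp hc]
  · rw [Set.indicator_of_notMem hy] at h
    exact absurd rfl h

theorem devlip_wt_diff (Ω : Set ℂ) (x x' : ℂ) (δ δ' : ℝ) (y : ℂ) (hδ : |δ - δ'| ≤ ‖x - x'‖) :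
    |wt Ω x δ y - wt Ω x' δ' y| ≤ 3 * ‖x - x'‖ := by
  unfold wt
  by_cases hy : y ∈ Ω
  · rw [Set.indicator_of_mem hy, Set.indicator_of_mem hy]
    have h1 : |‖x - y‖ - ‖x' - y‖| ≤ ‖x - x'‖ := by
      have := abs_norm_sub_norm_le (x - y) (x' - y)
      simpa using this
    have h2 := abs_max_sub_max_le_max (0 : ℝ) (2 * δ - ‖x - y‖) 0 (2 * δ' - ‖x' - y‖)
    refine h2.trans (max_le (by simp) ?_)
    rw [abs_le] at hδ h1 ⊢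
    constructor <;> linarith [hδ.1, hδ.2, h1.1, h1.2]
  · rw [Set.indicator_of_notMem hy, Set.indicator_of_notMem hy]
    simp

theorem devlip_dev_eq {W : Type} [NormedAddCommGroup W] [NormedSpace ℝ W] (v : ℂ →+ W)
    (Ω : Set ℂ) (S : Finset ℂ) (x : ℂ) (δ : ℝ)
    (hS : ∀ y ∈ Ω, ‖x - y‖ < 2 * δ → y ∈ S) :
    dev v Ω x δ = (∑ y ∈ S, wt Ω x δ y)⁻¹ • ∑ y ∈ S, wt Ω x δ y • v (x - y) := by
  unfold dev
  rw [finsum_eq_sum_of_support_subset (s := S), finsum_eq_sum_of_support_subset (s := S)]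
  · intro y hy
    have h : wt Ω x δ y ≠ 0 := by
      intro h0
      apply hy
      simp [h0]
    exact hS y (devlip_wt_ne Ω x δ y h).1 (devlip_wt_ne Ω x δ y h).2
  · intro y hy
    exact hS y (devlip_wt_ne Ω x δ y hy).1 (devlip_wt_ne Ω x δ y hy).2

theorem devlip_sum_ge (Ω : Set ℂ) (S : Finset ℂ) (x y₀ : ℂ) (hy₀ : y₀ ∈ Ω) (hS : y₀ ∈ S) :
    ‖x - y₀‖ ≤ ∑ y ∈ S, wt Ω x ‖x - y₀‖ y := by
  have h := Finset.single_le_sum (f := fun y => wt Ω x ‖x - y₀‖ y)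
    (fun y _ => devlip_wt_nonneg Ω x _ y) hS
  refine le_trans ?_ h
  unfold wt
  rw [Set.indicator_of_mem hy₀]
  refine le_trans ?_ (le_max_right _ _)
  linarith

theorem devlip_repr {W : Type} [NormedAddCommGroup W] [NormedSpace ℝ W] (v : ℂ →+ W)
    (Ω : Set ℂ) (S : Finset ℂ) (x b : ℂ) (δ : ℝ)
    (hS : ∀ y ∈ Ω, ‖x - y‖ < 2 * δ → y ∈ S) (hA : 0 < ∑ y ∈ S, wt Ω x δ y) :
    v (x - b) - dev v Ω x δ =
      ∑ y ∈ S, ((∑ z ∈ S, wt Ω x δ z)⁻¹ * wt Ω x δ y) • v (y - b) := by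
  rw [devlip_dev_eq v Ω S x δ hS]
  set A := ∑ z ∈ S, wt Ω x δ z with hAdef
  have e : ∀ y, v (y - b) = v (x - b) - v (x - y) := by
    intro y
    rw [← map_sub]
    congr 1
    ring
  have e2 : ∀ y ∈ S, (A⁻¹ * wt Ω x δ y) • v (y - b) =
      (A⁻¹ * wt Ω x δ y) • v (x - b) - A⁻¹ • (wt Ω x δ y • v (x - y)) := by
    intro y _
    rw [e y, smul_sub, smul_smul]
  rw [Finset.sum_congr rfl e2, Finset.sum_sub_distrib, ← Finset.sum_smul, ← Finset.mul_sum,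
    ← Finset.smul_sum, ← hAdef, inv_mul_cancel₀ hA.ne', one_smul]

theorem devlip_base {W : Type} [NormedAddCommGroup W] [NormedSpace ℝ W] (v : ℂ →+ W)
    (Ω : Set ℂ) (S : Finset ℂ) (x y₀ : ℂ) (κ : ℝ) (hκ : 0 ≤ κ) (hy₀ : y₀ ∈ Ω)
    (hS : ∀ y ∈ Ω, ‖x - y‖ < 2 * ‖x - y₀‖ → y ∈ S)
    (hv : ∀ y ∈ Ω, ‖x - y‖ < 2 * ‖x - y₀‖ → ‖v (y - y₀)‖ ≤ κ * ‖y - y₀‖) :
    ‖v (x - y₀) - dev v Ω x ‖x - y₀‖‖ ≤ 3 * κ * ‖x - y₀‖ := by
  rcases (norm_nonneg (x - y₀)).eq_or_lt with h0 | hpos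
  · have hx : x - y₀ = 0 := norm_eq_zero.mp h0.symm
    have hw : ∀ y, wt Ω x ‖x - y₀‖ y = 0 := by
      intro y
      by_contra h
      have := (devlip_wt_ne Ω x _ y h).2
      have h2 := norm_nonneg (x - y)
      linarith
    rw [devlip_dev_eq v Ω S x _ hS]
    simp only [hw]
    simp [hx]
  · have hA : 0 < ∑ y ∈ S, wt Ω x ‖x - y₀‖ y :=
      lt_of_lt_of_le hpos (devlip_sum_ge Ω S x y₀ hy₀ (hS y₀ hy₀ (by linarith)))
    rw [devlip_repr v Ω S x y₀ _ hS hA]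
    set d := ‖x - y₀‖ with hd
    set A := ∑ z ∈ S, wt Ω x d z with hAdef
    have h1 : ∀ y ∈ S, ‖(A⁻¹ * wt Ω x d y) • v (y - y₀)‖ ≤ (A⁻¹ * wt Ω x d y) * (3 * κ * d) := by
      intro y _
      have hw0 : 0 ≤ A⁻¹ * wt Ω x d y :=
        mul_nonneg (inv_pos.mpr hA).le (devlip_wt_nonneg _ _ _ _)
      by_cases hw : wt Ω x d y = 0
      · simp [hw]
      · obtain ⟨hy, hlt⟩ := devlip_wt_ne Ω x d y hw
        rw [norm_smul, Real.norm_of_nonneg hw0]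
        refine mul_le_mul_of_nonneg_left ((hv y hy hlt).trans ?_) hw0
        have h3 : ‖y - y₀‖ ≤ 3 * d := by
          have e : y - y₀ = (x - y₀) - (x - y) := by ring
          rw [e]
          have := norm_sub_le (x - y₀) (x - y)
          linarith
        calc κ * ‖y - y₀‖ ≤ κ * (3 * d) := mul_le_mul_of_nonneg_left h3 hκ
          _ = 3 * κ * d := by ring
    calc ‖∑ y ∈ S, (A⁻¹ * wt Ω x d y) • v (y - y₀)‖
        ≤ ∑ y ∈ S, ‖(A⁻¹ * wt Ω x d y) • v (y - y₀)‖ := norm_sum_le _ _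
      _ ≤ ∑ y ∈ S, (A⁻¹ * wt Ω x d y) * (3 * κ * d) := Finset.sum_le_sum h1
      _ = 3 * κ * d := by
        rw [← Finset.sum_mul, ← Finset.mul_sum, ← hAdef, inv_mul_cancel₀ hA.ne', one_mul]

theorem devlip : DEVLIP := by
  intro W _ _ v Ω S x x' y₀ y₀' σ κ hκ hS hv hN hN' hd hh
  obtain ⟨hy₀, hn⟩ := hN
  obtain ⟨hy₀', hn'⟩ := hN'
  have tri : ∀ a b c : ℂ, ‖a - c‖ ≤ ‖a - b‖ + ‖b - c‖ := fun a b c => by
    have := dist_triangle a b c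
    simpa [dist_eq_norm] using this
  have hsym : ‖x' - x‖ = ‖x - x'‖ := norm_sub_rev _ _
  have hh0 : 0 ≤ ‖x - x'‖ := norm_nonneg _
  have hd0 : 0 ≤ ‖x - y₀‖ := norm_nonneg _
  have hd0' : 0 ≤ ‖x' - y₀'‖ := norm_nonneg _
  have h1 : ‖x' - y₀'‖ ≤ ‖x - y₀‖ + ‖x - x'‖ := by
    have := hn' y₀ hy₀
    have := tri x' x y₀
    linarith
  have h2 : ‖x - y₀‖ ≤ ‖x' - y₀'‖ + ‖x - x'‖ := by
    have := hn y₀' hy₀'
    have := tri x x' y₀'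
    linarith
  have hσ : 0 ≤ σ := hh0.trans hh
  have hnear : ∀ y, ‖x - y‖ < 2 * ‖x - y₀‖ → ‖x - y‖ ≤ 10 * σ := fun y hy => by linarith
  have hnear' : ∀ y, ‖x' - y‖ < 2 * ‖x' - y₀'‖ → ‖x - y‖ ≤ 10 * σ := fun y hy => by
    have := tri x x' y
    linarith
  have hy₀n : ‖x - y₀‖ ≤ 10 * σ := by linarith
  have hy₀n' : ‖x - y₀'‖ ≤ 10 * σ := by
    have := tri x x' y₀'
    linarith
  have hS1 : ∀ y ∈ Ω, ‖x - y‖ < 2 * ‖x - y₀‖ → y ∈ S := fun y hy h => hS y hy (hnear y h)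
  have hS2 : ∀ y ∈ Ω, ‖x' - y‖ < 2 * ‖x' - y₀'‖ → y ∈ S := fun y hy h => hS y hy (hnear' y h)
  have hn0 : (0 : ℝ) ≤ S.card := Nat.cast_nonneg _
  have hκh : 0 ≤ κ * ‖x - x'‖ := mul_nonneg hκ hh0
  by_cases hc : ‖x - y₀‖ ≤ 2 * ‖x - x'‖
  · have b1 := devlip_base v Ω S x y₀ κ hκ hy₀ hS1
      (fun y hy h => hv y hy y₀ hy₀ (hnear y h) hy₀n)
    have b2 := devlip_base v Ω S x' y₀' κ hκ hy₀' hS2
      (fun y hy h => hv y hy y₀' hy₀' (hnear' y h) hy₀n')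
    have b3 := hv y₀ hy₀ y₀' hy₀' hy₀n hy₀n'
    have b4 : ‖y₀ - y₀'‖ ≤ 6 * ‖x - x'‖ := by
      have t1 := tri y₀ x y₀'
      have t2 := tri x x' y₀'
      have t3 : ‖y₀ - x‖ = ‖x - y₀‖ := norm_sub_rev _ _
      linarith
    have e : v (x - x') - dev v Ω x ‖x - y₀‖ + dev v Ω x' ‖x' - y₀'‖ =
        (v (x - y₀) - dev v Ω x ‖x - y₀‖) - (v (x' - y₀') - dev v Ω x' ‖x' - y₀'‖) +
          v (y₀ - y₀') := by
      simp only [map_sub]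
      abel
    rw [e]
    have n1 := norm_add_le ((v (x - y₀) - dev v Ω x ‖x - y₀‖) -
      (v (x' - y₀') - dev v Ω x' ‖x' - y₀'‖)) (v (y₀ - y₀'))
    have n2 := norm_sub_le (v (x - y₀) - dev v Ω x ‖x - y₀‖)
      (v (x' - y₀') - dev v Ω x' ‖x' - y₀'‖)
    have m1 : κ * ‖x - y₀‖ ≤ κ * (2 * ‖x - x'‖) := mul_le_mul_of_nonneg_left hc hκ
    have m2 : κ * ‖x' - y₀'‖ ≤ κ * (3 * ‖x - x'‖) :=
      mul_le_mul_of_nonneg_left (by linarith) hκ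
    have m3 : κ * ‖y₀ - y₀'‖ ≤ κ * (6 * ‖x - x'‖) := mul_le_mul_of_nonneg_left b4 hκ
    have m4 : 0 ≤ (S.card : ℝ) * (κ * ‖x - x'‖) := mul_nonneg hn0 hκh
    nlinarith
  · have hc' : 2 * ‖x - x'‖ < ‖x - y₀‖ := not_le.mp hc
    have hpos : 0 < ‖x - y₀‖ := by linarith
    have hpos' : 0 < ‖x' - y₀'‖ := by linarith
    have hge := devlip_sum_ge Ω S x y₀ hy₀ (hS y₀ hy₀ hy₀n)
    have hA : 0 < ∑ y ∈ S, wt Ω x ‖x - y₀‖ y := lt_of_lt_of_le hpos hge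
    have hA' : 0 < ∑ y ∈ S, wt Ω x' ‖x' - y₀'‖ y :=
      lt_of_lt_of_le hpos' (devlip_sum_ge Ω S x' y₀' hy₀' (hS y₀' hy₀' hy₀n'))
    have e : v (x - x') - dev v Ω x ‖x - y₀‖ + dev v Ω x' ‖x' - y₀'‖ =
        (v (x - y₀) - dev v Ω x ‖x - y₀‖) - (v (x' - y₀) - dev v Ω x' ‖x' - y₀'‖) := by
      simp only [map_sub]
      abel
    rw [e, devlip_repr v Ω S x y₀ _ hS1 hA, devlip_repr v Ω S x' y₀ _ hS2 hA',
      ← Finset.sum_sub_distrib]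
    have hsum := devlip_sum S (fun y => wt Ω x ‖x - y₀‖ y) (fun y => wt Ω x' ‖x' - y₀'‖ y)
      (3 * ‖x - x'‖) (fun y => devlip_wt_nonneg _ _ _ _) hA hA'
      (fun y => devlip_wt_diff Ω x x' _ _ y (by rw [abs_le]; constructor <;> linarith))
    set d := ‖x - y₀‖ with hddef
    set d' := ‖x' - y₀'‖ with hd'def
    set A := ∑ z ∈ S, wt Ω x d z with hAdef
    set A' := ∑ z ∈ S, wt Ω x' d' z with hA'def
    have hterm : ∀ y ∈ S, ‖(A⁻¹ * wt Ω x d y) • v (y - y₀) - (A'⁻¹ * wt Ω x' d' y) • v (y - y₀)‖ ≤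
        |A⁻¹ * wt Ω x d y - A'⁻¹ * wt Ω x' d' y| * (κ * (5 * d)) := by
      intro y _
      rw [← sub_smul, norm_smul, Real.norm_eq_abs]
      by_cases hw : wt Ω x d y = 0 ∧ wt Ω x' d' y = 0
      · simp [hw.1, hw.2]
      · refine mul_le_mul_of_nonneg_left ?_ (abs_nonneg _)
        have t3 : ‖y - x‖ = ‖x - y‖ := norm_sub_rev _ _
        have t1 := tri y x y₀
        have key : y ∈ Ω ∧ ‖x - y‖ ≤ 10 * σ ∧ ‖x - y‖ ≤ 4 * d := by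
          rcases not_and_or.mp hw with hw | hw
          · obtain ⟨hy, hlt⟩ := devlip_wt_ne Ω x d y hw
            exact ⟨hy, hnear y hlt, by linarith⟩
          · obtain ⟨hy, hlt⟩ := devlip_wt_ne Ω x' d' y hw
            have := tri x x' y
            exact ⟨hy, hnear' y hlt, by linarith⟩
        exact (hv y key.1 y₀ hy₀ key.2.1 hy₀n).trans
          (mul_le_mul_of_nonneg_left (by linarith [key.2.2]) hκ)
    have hκd : 0 ≤ κ * (5 * d) := mul_nonneg hκ (by linarith)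
    have hfin : 2 * (S.card : ℝ) * (3 * ‖x - x'‖) / A ≤ 2 * (S.card : ℝ) * (3 * ‖x - x'‖) / d :=
      div_le_div_of_nonneg_left (by positivity) hpos hge
    calc ‖∑ y ∈ S, ((A⁻¹ * wt Ω x d y) • v (y - y₀) - (A'⁻¹ * wt Ω x' d' y) • v (y - y₀))‖
        ≤ ∑ y ∈ S, ‖(A⁻¹ * wt Ω x d y) • v (y - y₀) - (A'⁻¹ * wt Ω x' d' y) • v (y - y₀)‖ :=
          norm_sum_le _ _
      _ ≤ ∑ y ∈ S, |A⁻¹ * wt Ω x d y - A'⁻¹ * wt Ω x' d' y| * (κ * (5 * d)) :=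
          Finset.sum_le_sum hterm
      _ = (∑ y ∈ S, |A⁻¹ * wt Ω x d y - A'⁻¹ * wt Ω x' d' y|) * (κ * (5 * d)) := by
          rw [Finset.sum_mul]
      _ ≤ (2 * (S.card : ℝ) * (3 * ‖x - x'‖) / d) * (κ * (5 * d)) :=
          mul_le_mul_of_nonneg_right (hsum.trans hfin) hκd
      _ = 30 * ((S.card : ℝ) * (κ * ‖x - x'‖)) := by
          field_simp
          ring
      _ ≤ 40 * ((S.card : ℝ) + 1) * κ * ‖x - x'‖ := by
          have m4 : 0 ≤ (S.card : ℝ) * (κ * ‖x - x'‖) := mul_nonneg hn0 hκh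
          nlinarith

end Pool.Agent.H527Z.Per
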