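import Pool.Agent.H527Z.Per.Defs3

/-!
# Equivariance of the refinement rule under similarities
-/

set_option autoImplicit false

namespace Pool.Agent.H527Z.Per

open Set

/-- the similarity `u ↦ s * u + T` -/
def eqv_f (s T u : ℂ) : ℂ := s * u + T

theorem eqv_all {α β : Type} {f : α → β} (hf : Function.Surjective f) {p : α → Prop}
    {q : β → Prop} (h : ∀ x, p x ↔ q (f x)) : (∀ x, p x) ↔ ∀ y, q y :=
  (forall_congr' h).trans (hf.forall (p := q)).symm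

theorem eqv_ex {α β : Type} {f : α → β} (hf : Function.Surjective f) {p : α → Prop}
    {q : β → Prop} (h : ∀ x, p x ↔ q (f x)) : (∃ x, p x) ↔ ∃ y, q y :=
  (exists_congr h).trans (hf.exists (p := q)).symm

section generic

variable {s T : ℂ}

theorem eqv_sub (x y : ℂ) : eqv_f s T x - eqv_f s T y = s * (x - y) := by
  unfold eqv_f; ring

theorem eqv_norm (x y : ℂ) : ‖eqv_f s T x - eqv_f s T y‖ = ‖s‖ * ‖x - y‖ := by
  rw [eqv_sub, norm_mul]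

theorem eqv_surj (hs : s ≠ 0) : Function.Surjective (eqv_f s T) := fun v =>
  ⟨(v - T) / s, by unfold eqv_f; field_simp; ring⟩

theorem eqv_inj (hs : s ≠ 0) : Function.Injective (eqv_f s T) := fun u v h => by
  unfold eqv_f at h
  exact mul_left_cancel₀ hs (add_right_cancel h)

theorem eqv_le (hs : s ≠ 0) (a b : ℝ) : ‖s‖ * a ≤ ‖s‖ * b ↔ a ≤ b :=
  mul_le_mul_iff_right₀ (norm_pos_iff.mpr hs)

theorem eqv_lt (hs : s ≠ 0) (a b : ℝ) : ‖s‖ * a < ‖s‖ * b ↔ a < b :=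
  mul_lt_mul_iff_right₀ (norm_pos_iff.mpr hs)

theorem eqv_nst (hs : s ≠ 0) {Ω Ω' : Set ℂ} (h : ∀ u, u ∈ Ω ↔ eqv_f s T u ∈ Ω') (x y : ℂ) :
    Nst Ω x y ↔ Nst Ω' (eqv_f s T x) (eqv_f s T y) := by
  unfold Nst
  refine and_congr (h _) (eqv_all (eqv_surj (T := T) hs) fun z => ?_)
  rw [← h, eqv_norm, eqv_norm, eqv_le hs]

theorem eqv_adj (hs : s ≠ 0) {Ω Ω' : Set ℂ} (h : ∀ u, u ∈ Ω ↔ eqv_f s T u ∈ Ω') (ε : ℝ)
    (x y : ℂ) : Adj ε Ω x y ↔ Adj ε Ω' (eqv_f s T x) (eqv_f s T y) := by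
  unfold Adj
  refine and_congr (h _) (and_congr (h _) (eqv_ex (eqv_surj (T := T) hs) fun p => ?_))
  refine and_congr ?_ (eqv_all (eqv_surj (T := T) hs) fun z => ?_)
  · rw [eqv_norm, eqv_norm, mul_right_inj' (norm_ne_zero_iff.mpr hs)]
  · rw [← h, eqv_norm, eqv_norm, (eqv_inj hs).eq_iff, (eqv_inj hs).eq_iff, mul_left_comm,
      eqv_le hs]

theorem eqv_wt {Ω Ω' : Set ℂ} (h : ∀ u, u ∈ Ω ↔ eqv_f s T u ∈ Ω') (x y : ℂ) (δ : ℝ) :
    wt Ω' (eqv_f s T x) (‖s‖ * δ) (eqv_f s T y) = ‖s‖ * wt Ω x δ y := by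
  unfold wt
  by_cases hy : y ∈ Ω
  · rw [indicator_of_mem hy, indicator_of_mem ((h y).mp hy), eqv_norm,
      mul_max_of_nonneg _ _ (norm_nonneg s), mul_zero]
    congr 1
    ring
  · rw [indicator_of_notMem hy, indicator_of_notMem (fun h' => hy ((h y).mpr h')), mul_zero]

theorem eqv_smul_finsum {W : Type} [NormedAddCommGroup W] [NormedSpace ℝ W] (a : ℝ)
    (f : ℂ → W) : ∑ᶠ y, a • f y = a • ∑ᶠ y, f y := (smul_finsum a f).symm

theorem eqv_dev (hs : s ≠ 0) {W : Type} [NormedAddCommGroup W] [NormedSpace ℝ W]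
    {Ω Ω' : Set ℂ} (h : ∀ u, u ∈ Ω ↔ eqv_f s T u ∈ Ω') (v v' : ℂ →+ W)
    (hv : ∀ z, v' (s * z) = v z) (x : ℂ) (δ : ℝ) :
    dev v' Ω' (eqv_f s T x) (‖s‖ * δ) = dev v Ω x δ := by
  unfold dev
  have hb : Function.Bijective (eqv_f s T) := ⟨eqv_inj hs, eqv_surj hs⟩
  have h0 : ‖s‖ ≠ 0 := norm_ne_zero_iff.mpr hs
  have h1 : ∑ᶠ y, wt Ω' (eqv_f s T x) (‖s‖ * δ) y = ‖s‖ * ∑ᶠ y, wt Ω x δ y := by
    rw [← finsum_comp (eqv_f s T) hb]
    simp only [eqv_wt h]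
    exact eqv_smul_finsum (W := ℝ) ‖s‖ _
  have h2 : ∑ᶠ y, wt Ω' (eqv_f s T x) (‖s‖ * δ) y • v' (eqv_f s T x - y) =
      ‖s‖ • ∑ᶠ y, wt Ω x δ y • v (x - y) := by
    rw [← finsum_comp (eqv_f s T) hb]
    simp only [eqv_wt h, eqv_sub, hv, mul_smul]
    exact eqv_smul_finsum ‖s‖ _
  rw [h1, h2, smul_smul]
  congr 1
  rw [mul_inv, mul_comm ‖s‖⁻¹, mul_assoc, inv_mul_cancel₀ h0, mul_one]

theorem eqv_rtg (hs : s ≠ 0) {r r' : ℂ → ℂ → Prop}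
    (h : ∀ u v, r u v ↔ r' (eqv_f s T u) (eqv_f s T v)) (x y : ℂ) :
    Relation.ReflTransGen r x y ↔ Relation.ReflTransGen r' (eqv_f s T x) (eqv_f s T y) := by
  constructor
  · intro H
    induction H with
    | refl => exact Relation.ReflTransGen.refl
    | tail _ hbc ih => exact ih.tail ((h _ _).mp hbc)
  · intro H
    have key : ∀ b, Relation.ReflTransGen r' (eqv_f s T x) b →
        ∀ y, eqv_f s T y = b → Relation.ReflTransGen r x y := by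
      intro b hb
      induction hb with
      | refl => intro y hy; rw [eqv_inj hs hy]
      | @tail b c _ hbc ih =>
        intro y hy
        obtain ⟨b', rfl⟩ := eqv_surj (T := T) hs b
        subst hy
        exact (ih b' rfl).tail ((h _ _).mpr hbc)
    exact key _ H y rfl

end generic

theorem eqv_int (j : ℤ) : Function.Surjective (fun k : ℤ => k + j) := fun k =>
  ⟨k - j, by simp⟩

section main

variable {W : Type} [NormedAddCommGroup W] [NormedSpace ℝ W] {P : Pm W}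
  {Y Y' : ℤ → Set ℂ} {j : ℤ} {T : ℂ}

theorem eqv_pow (hc : P.c ≠ 0) (k : ℤ) : ‖P.c‖ ^ (k + j) = ‖P.c ^ j‖ * ‖P.c‖ ^ k := by
  rw [norm_zpow, zpow_add₀ (norm_ne_zero_iff.mpr hc), mul_comm]

theorem eqv_div (hc : P.c ≠ 0) (k : ℤ) (z : ℂ) : P.c ^ j * z / P.c ^ (k + j) = z / P.c ^ k := by
  have := zpow_ne_zero j hc
  have := zpow_ne_zero k hc
  rw [zpow_add₀ hc]
  field_simp

theorem eqv_vk (hc : P.c ≠ 0) (k : ℤ) (z : ℂ) : P.vk (k + j) (P.c ^ j * z) = P.vk k z := by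
  unfold Pm.vk
  simp only [AddMonoidHom.comp_apply, AddMonoidHom.coe_mulRight]
  rw [← div_eq_mul_inv, ← div_eq_mul_inv, eqv_div hc]

theorem eqv_Y0 (hc : P.c ≠ 0) (k : ℤ) (z : ℂ) : P.c ^ j * z ∈ P.Y0 (k + j) ↔ z ∈ P.Y0 k := by
  unfold Pm.Y0
  simp only [mem_setOf_eq, eqv_div hc]

theorem eqv_om (h : ∀ k u, u ∈ Y k ↔ eqv_f (P.c ^ j) T u ∈ Y' (k + j)) (u : ℂ) :
    u ∈ Om Y ↔ eqv_f (P.c ^ j) T u ∈ Om Y' := by
  unfold Om
  simp only [mem_iUnion]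
  exact eqv_ex (eqv_int j) fun k => h k u

theorem eqv_N (h : ∀ k u, u ∈ Y k ↔ eqv_f (P.c ^ j) T u ∈ Y' (k + j)) (k : ℤ) (u : ℂ) :
    eqv_f (P.c ^ j) T u ∈ Y' (k + j + P.N) ↔ u ∈ Y (k + P.N) := by
  rw [h, add_right_comm]

theorem eqv_Q (hc : P.c ≠ 0) (h : ∀ k u, u ∈ Y k ↔ eqv_f (P.c ^ j) T u ∈ Y' (k + j))
    (y x : ℂ) : Q Y y x ↔ Q Y' (eqv_f (P.c ^ j) T y) (eqv_f (P.c ^ j) T x) := by
  have hs := zpow_ne_zero j hc
  unfold Q
  refine eqv_all (eqv_surj (T := T) hs) fun z => ?_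
  rw [← eqv_om h, eqv_norm, eqv_norm, eqv_lt hs, Ne, Ne, (eqv_inj hs).eq_iff]

theorem eqv_cand (hc : P.c ≠ 0) (h : ∀ k u, u ∈ Y k ↔ eqv_f (P.c ^ j) T u ∈ Y' (k + j))
    (x : ℂ) : P.Cand Y x ↔ P.Cand Y' (eqv_f (P.c ^ j) T x) := by
  have hs := zpow_ne_zero j hc
  unfold Pm.Cand
  refine eqv_ex (eqv_surj (T := T) hs) fun y₀ => eqv_ex (eqv_int j) fun k₀ => ?_
  refine and_congr (h _ _) (and_congr (eqv_nst hs (eqv_om h) _ _) (and_congr ?_ ?_))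
  · rw [eqv_norm, eqv_pow hc, mul_left_comm, eqv_le hs]
  · refine eqv_all (eqv_int j) fun k => eqv_all (eqv_surj (T := T) hs) fun y => ?_
    rw [eqv_N h, eqv_norm, eqv_norm, mul_left_comm, eqv_le hs, eqv_sub, eqv_div hc,
      eqv_dev hs (eqv_om h) (P.vk k) (P.vk (k + j)) (eqv_vk hc k)]

theorem eqv_core (hc : P.c ≠ 0) (h : ∀ k u, u ∈ Y k ↔ eqv_f (P.c ^ j) T u ∈ Y' (k + j))
    (x y : ℂ) : P.Core Y x y ↔ P.Core Y' (eqv_f (P.c ^ j) T x) (eqv_f (P.c ^ j) T y) := by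
  have hs := zpow_ne_zero j hc
  unfold Pm.Core
  rw [(eqv_int j).exists (f := fun k : ℤ => k + j)
    (p := fun k => eqv_f (P.c ^ j) T y ∈ Y' (k + P.N) ∧ _)]
  refine exists_congr fun k => ?_
  rw [eqv_N h, eqv_norm, eqv_pow hc, mul_left_comm, eqv_lt hs]

theorem eqv_ord (hc : P.c ≠ 0) (h : ∀ k u, u ∈ Y k ↔ eqv_f (P.c ^ j) T u ∈ Y' (k + j))
    (x : ℂ) : P.Ord Y x ↔ P.Ord Y' (eqv_f (P.c ^ j) T x) := by
  have hs := zpow_ne_zero j hc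
  unfold Pm.Ord
  rw [(eqv_surj (T := T) hs).forall (p := fun y => ¬ P.Core Y' _ y)]
  simp only [← eqv_core hc h, ← eqv_cand hc h]

theorem eqv_pl (hc : P.c ≠ 0) (h : ∀ k u, u ∈ Y k ↔ eqv_f (P.c ^ j) T u ∈ Y' (k + j))
    (i : ℤ) (x : ℂ) : P.Pl Y i x ↔ P.Pl Y' (i + j) (eqv_f (P.c ^ j) T x) := by
  have hs := zpow_ne_zero j hc
  unfold Pm.Pl
  rw [(eqv_surj (T := T) hs).exists (p := fun y => P.Core Y' _ y ∧ _)]
  simp only [← eqv_core hc h, eqv_sub, eqv_Y0 hc]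

theorem eqv_X (hc : P.c ≠ 0) (h : ∀ k u, u ∈ Y k ↔ eqv_f (P.c ^ j) T u ∈ Y' (k + j))
    (x : ℂ) : x ∈ P.X Y ↔ eqv_f (P.c ^ j) T x ∈ P.X Y' := by
  unfold Pm.X
  simp only [mem_setOf_eq]
  rw [(eqv_int j).exists (p := fun i => P.Pl Y' i _)]
  simp only [← eqv_ord hc h, ← eqv_pl hc h]

theorem eqv_C0 (hc : P.c ≠ 0) (h : ∀ k u, u ∈ Y k ↔ eqv_f (P.c ^ j) T u ∈ Y' (k + j))
    (y x : ℂ) : P.C0 Y y x ↔ P.C0 Y' (eqv_f (P.c ^ j) T y) (eqv_f (P.c ^ j) T x) := by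
  have hs := zpow_ne_zero j hc
  unfold Pm.C0
  rw [(eqv_surj (T := T) hs).exists (p := fun x₀ => x₀ ∈ P.X Y' ∧ _)]
  refine exists_congr fun x₀ => ?_
  refine and_congr (eqv_X hc h _) (and_congr (eqv_core hc h _ _) (eqv_rtg hs (fun u v => ?_) _ _))
  exact and_congr (eqv_adj hs (eqv_X hc h) _ _ _) (eqv_Q hc h _ _)

theorem eqv_lay (hc : P.c ≠ 0) (h : ∀ k u, u ∈ Y k ↔ eqv_f (P.c ^ j) T u ∈ Y' (k + j))
    (n : ℕ) : ∀ y x : ℂ,
      P.Lay Y n y x ↔ P.Lay Y' n (eqv_f (P.c ^ j) T y) (eqv_f (P.c ^ j) T x) := by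
  have hs := zpow_ne_zero j hc
  induction n with
  | zero => exact fun y x => eqv_C0 hc h y x
  | succ n ih =>
    intro y x
    simp only [Pm.Lay]
    rw [(eqv_surj (T := T) hs).exists (p := fun x' => P.Lay Y' n _ x' ∧ _)]
    simp only [← ih, ← eqv_adj hs (eqv_X hc h)]

theorem eqv_par (hc : P.c ≠ 0) (h : ∀ k u, u ∈ Y k ↔ eqv_f (P.c ^ j) T u ∈ Y' (k + j))
    (x y : ℂ) : P.Par Y x y ↔ P.Par Y' (eqv_f (P.c ^ j) T x) (eqv_f (P.c ^ j) T y) := by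
  have hs := zpow_ne_zero j hc
  unfold Pm.Par
  rw [(eqv_int j).exists (p := fun k => eqv_f (P.c ^ j) T y ∈ Y' k ∧ _)]
  refine exists_congr fun k => and_congr (h _ _) (exists_congr fun n => ?_)
  refine and_congr_right fun _ => and_congr (eqv_lay hc h _ _ _) (and_congr ?_ ?_)
  · rw [(eqv_surj (T := T) hs).forall (p := fun y' => ∀ n', n' < n → ¬ P.Lay Y' n' y' _)]
    simp only [← eqv_lay hc h]
  · rw [(eqv_surj (T := T) hs).forall (p := fun y' => ∀ k' : ℤ, y' ∈ Y' k' → _)]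
    refine forall_congr' fun y' => ?_
    rw [(eqv_int j).forall (p := fun k' => eqv_f (P.c ^ j) T y' ∈ Y' k' → _)]
    refine forall_congr' fun k' => ?_
    rw [← h, ← eqv_lay hc h, eqv_sub, eqv_div hc, add_lt_add_iff_right, add_left_inj]

theorem eqv_step (hc : P.c ≠ 0) (h : ∀ k u, u ∈ Y k ↔ eqv_f (P.c ^ j) T u ∈ Y' (k + j))
    (i : ℤ) (x : ℂ) : x ∈ P.Step Y i ↔ eqv_f (P.c ^ j) T x ∈ P.Step Y' (i + j) := by
  have hs := zpow_ne_zero j hc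
  unfold Pm.Step
  simp only [mem_setOf_eq]
  rw [(eqv_surj (T := T) hs).exists (p := fun y => y ∈ Y' (i + j + P.N) ∧ _)]
  simp only [← eqv_pl hc h, ← eqv_ord hc h, eqv_N h, ← eqv_par hc h]

end main

theorem eqv : EQV := by
  intro W _ _ P hc Y Y' j T h x
  exact ⟨fun i => eqv_step (T := T) hc h i x, fun y => eqv_par (T := T) hc h x y⟩

end Pool.Agent.H527Z.Per
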