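import Pool.Agent.H527Z.Per.Defs3

/-!
# Locality of the refinement rule
-/

set_option autoImplicit false

namespace Pool.Agent.H527Z.Per

open Set

variable {W : Type} [NormedAddCommGroup W] [NormedSpace ℝ W]

/-- the density hypotheses -/
def loc_D (P : Pm W) (Z : ℤ → Set ℂ) (z₀ : ℂ) (t tf : ℝ) : Prop :=
  (∀ z, ‖z - z₀‖ ≤ 12 * t → ∃ y ∈ Om Z, ‖z - y‖ ≤ t) ∧
    (∀ x y, ‖x - z₀‖ ≤ 12 * t → P.Core Z x y → ‖x - y‖ ≤ t) ∧
    ∀ z, ‖z - z₀‖ ≤ 12 * t → ∃ x ∈ P.X Z, ‖z - x‖ ≤ tf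

/-- all hypotheses -/
structure loc_H (P : Pm W) (Y Y' : ℤ → Set ℂ) (z₀ : ℂ) (t tf : ℝ) : Prop where
  e0 : 0 ≤ P.ε
  e1 : P.ε ≤ 1
  t0 : 0 < tf
  t1 : tf ≤ t
  ag : ∀ k u, ‖u - z₀‖ ≤ 12 * t → (u ∈ Y k ↔ u ∈ Y' k)
  d : loc_D P Y z₀ t tf
  d' : loc_D P Y' z₀ t tf

lemma loc_tri (a b c : ℂ) : ‖a - c‖ ≤ ‖b - a‖ + ‖b - c‖ := by
  rw [norm_sub_rev b a]; exact norm_sub_le_norm_sub_add_norm_sub a b c

lemma loc_adj_symm {ε : ℝ} {X : Set ℂ} {u v : ℂ} (h : Adj ε X u v) : Adj ε X v u := by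
  obtain ⟨h1, h2, p, h3, h4⟩ := h
  exact ⟨h2, h1, p, h3.symm, fun x hx e => (h4 x hx (h3 ▸ e)).symm⟩

variable {P : Pm W} {Y Y' : ℤ → Set ℂ} {z₀ : ℂ} {t tf : ℝ}

namespace loc_H

lemma symm (h : loc_H P Y Y' z₀ t tf) : loc_H P Y' Y z₀ t tf :=
  ⟨h.e0, h.e1, h.t0, h.t1, fun k u hu => (h.ag k u hu).symm, h.d', h.d⟩

variable (h : loc_H P Y Y' z₀ t tf)
include h

lemma tpos : 0 < t := lt_of_lt_of_le h.t0 h.t1

lemma om {u : ℂ} (hu : ‖u - z₀‖ ≤ 12 * t) (hm : u ∈ Om Y) : u ∈ Om Y' := by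
  obtain ⟨k, hk⟩ := mem_iUnion.mp hm
  exact mem_iUnion.mpr ⟨k, (h.ag k u hu).mp hk⟩

lemma nst {x y : ℂ} (hx : ‖x - z₀‖ ≤ 10 * t) (hn : Nst (Om Y) x y) :
    ‖x - y‖ ≤ t ∧ Nst (Om Y') x y := by
  have := h.tpos
  obtain ⟨y1, a1, a2⟩ := h.d.1 x (by linarith)
  have a3 : ‖x - y‖ ≤ t := (hn.2 y1 a1).trans a2
  refine ⟨a3, h.om (by linarith [loc_tri y x z₀]) hn.1, fun y' hy' => ?_⟩
  by_cases c : ‖x - y'‖ ≤ t
  · exact hn.2 y' (h.symm.om (by linarith [loc_tri y' x z₀]) hy')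
  · linarith

lemma wt_eq {x : ℂ} {δ : ℝ} (hx : ‖x - z₀‖ ≤ 10 * t) (hδ : δ ≤ t) :
    wt (Om Y) x δ = wt (Om Y') x δ := by
  funext y
  unfold wt
  by_cases c : ‖x - y‖ ≤ 2 * t
  · have e : ‖y - z₀‖ ≤ 12 * t := by linarith [loc_tri y x z₀]
    by_cases m : y ∈ Om Y
    · rw [indicator_of_mem m, indicator_of_mem (h.om e m)]
    · rw [indicator_of_notMem m, indicator_of_notMem fun m' => m (h.symm.om e m')]
  · have e : max 0 (2 * δ - ‖x - y‖) = 0 := max_eq_left (by linarith)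
    have e1 : ∀ Z : Set ℂ, Set.indicator Z (fun y => max 0 (2 * δ - ‖x - y‖)) y = 0 :=
      fun Z => Set.indicator_apply_eq_zero.2 fun _ => e
    rw [e1, e1]

lemma cand {x : ℂ} (hx : ‖x - z₀‖ ≤ 10 * t) (hc : P.Cand Y x) : P.Cand Y' x := by
  have := h.tpos
  obtain ⟨y₀, k₀, a1, a2, a3, a4⟩ := hc
  obtain ⟨b1, b2⟩ := h.nst hx a2
  refine ⟨y₀, k₀, (h.ag _ _ (by linarith [loc_tri y₀ x z₀])).mp a1, b2, a3, fun k y hy e => ?_⟩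
  have := a4 k y ((h.ag _ _ (by linarith [loc_tri y x z₀])).mpr hy) e
  unfold dev at this ⊢
  rwa [← h.wt_eq hx b1]

lemma core {x y : ℂ} (hx : ‖x - z₀‖ ≤ 11 * t) (hc : P.Core Y x y) : P.Core Y' x y := by
  have := h.tpos
  have a1 := h.d.2.1 x y (by linarith) hc
  obtain ⟨k, a2, a3⟩ := hc
  exact ⟨k, (h.ag _ _ (by linarith [loc_tri y x z₀])).mp a2, a3⟩

lemma ord {x : ℂ} (hx : ‖x - z₀‖ ≤ 10 * t) (hc : P.Ord Y x) : P.Ord Y' x :=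
  ⟨h.cand hx hc.1, fun y hy => hc.2 y (h.symm.core (by linarith [h.tpos]) hy)⟩

lemma pl {x : ℂ} {i : ℤ} (hx : ‖x - z₀‖ ≤ 10 * t) (hc : P.Pl Y i x) : P.Pl Y' i x := by
  obtain ⟨y, a1, a2⟩ := hc
  exact ⟨y, h.core (by linarith [h.tpos]) a1, a2⟩

lemma memX {x : ℂ} (hx : ‖x - z₀‖ ≤ 10 * t) (hc : x ∈ P.X Y) : x ∈ P.X Y' :=
  hc.imp (h.ord hx) fun ⟨i, hi⟩ => ⟨i, h.pl hx hi⟩

lemma adj {u v : ℂ} (hu : ‖u - z₀‖ ≤ 7 * t) (ha : Adj P.ε (P.X Y) u v) :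
    ‖u - v‖ ≤ 2 * tf ∧ Adj P.ε (P.X Y') u v := by
  have := h.tpos
  have t0 := h.t0
  have t1 := h.t1
  obtain ⟨a1, a2, p, a3, a4⟩ := ha
  have b1 : ‖p - u‖ ≤ tf := by
    by_contra c
    push Not at c
    have c0 : 0 < ‖p - u‖ := by linarith
    obtain ⟨s, s1, s2, s3⟩ : ∃ s, tf < s ∧ s ≤ 2 * tf ∧ s ≤ ‖p - u‖ :=
      ⟨min ‖p - u‖ (2 * tf), lt_min c (by linarith), min_le_right _ _, min_le_left _ _⟩
    have s4 : s / ‖p - u‖ ≤ 1 := (div_le_one c0).mpr s3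
    have q1 : ‖u + (s / ‖p - u‖) • (p - u) - u‖ = s := by
      rw [add_sub_cancel_left, norm_smul, Real.norm_of_nonneg (by
        have : 0 < s := by linarith
        positivity), div_mul_cancel₀ _ c0.ne']
    have q2 : ‖p - (u + (s / ‖p - u‖) • (p - u))‖ = ‖p - u‖ - s := by
      rw [show p - (u + (s / ‖p - u‖) • (p - u)) = (1 - s / ‖p - u‖) • (p - u) by
        rw [sub_smul, one_smul]; ring, norm_smul, Real.norm_of_nonneg (by linarith), sub_mul,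
        div_mul_cancel₀ _ c0.ne', one_mul]
    generalize u + (s / ‖p - u‖) • (p - u) = q at q1 q2
    obtain ⟨x, x1, x2⟩ := h.d.2.2 q (by
      linarith [norm_sub_le_norm_sub_add_norm_sub q u z₀])
    have x3 : ‖p - x‖ < ‖p - u‖ := by linarith [norm_sub_le_norm_sub_add_norm_sub p q x]
    rcases a4 x x1 (by nlinarith [h.e0]) with e | e
    · rw [e] at x3; exact lt_irrefl _ x3
    · rw [e, ← a3] at x3; exact lt_irrefl _ x3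
  have b2 : ‖u - v‖ ≤ 2 * tf := by linarith [loc_tri u p v]
  refine ⟨b2, h.memX (by linarith) a1, h.memX (by linarith [loc_tri v u z₀]) a2, p, a3,
    fun x hx e => a4 x (h.symm.memX ?_ hx) e⟩
  have : (1 + P.ε) * ‖p - u‖ ≤ 2 * tf := by nlinarith [h.e0, h.e1, norm_nonneg (p - u)]
  linarith [loc_tri x p z₀, norm_sub_le_norm_sub_add_norm_sub p u z₀]

lemma qq {x y : ℂ} (hx : ‖x - z₀‖ ≤ 11 * t) (hq : Q Y y x) : ‖x - y‖ ≤ t ∧ Q Y' y x := by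
  have := h.tpos
  obtain ⟨y1, a1, a2⟩ := h.d.1 x (by linarith)
  have a3 : ‖x - y‖ ≤ t := by
    by_cases e : y1 = y
    · rwa [← e]
    · exact (hq y1 a1 e).le.trans a2
  refine ⟨a3, fun y' hy' hne => ?_⟩
  by_cases c : ‖x - y'‖ ≤ t
  · exact hq y' (h.symm.om (by linarith [loc_tri y' x z₀]) hy') hne
  · linarith

lemma c0 {x y : ℂ} (hx : ‖x - z₀‖ ≤ t) (hc : P.C0 Y y x) : ‖y - z₀‖ ≤ 2 * t ∧ P.C0 Y' y x := by
  have := h.tpos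
  have t0 := h.t0
  have t1 := h.t1
  obtain ⟨x₀, a1, a2, a3⟩ := hc
  have b1 : ‖x - y‖ ≤ t := by
    rcases a3.cases_tail with e | ⟨c, -, e⟩
    · exact h.d.2.1 x y (by linarith) (e ▸ a2)
    · exact (h.qq (by linarith) e.2).1
  have b2 : ‖y - z₀‖ ≤ 2 * t := by linarith [loc_tri y x z₀]
  have b3 : ‖x₀ - y‖ ≤ 3 * t ∧
      Relation.ReflTransGen (fun u v => Adj P.ε (P.X Y') u v ∧ Q Y' y v) x₀ x := by
    clear a1 a2
    induction a3 using Relation.ReflTransGen.head_induction_on with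
    | refl => exact ⟨by linarith, .refl⟩
    | @head a c e _ ih =>
      have c1 := norm_sub_le_norm_sub_add_norm_sub c y z₀
      obtain ⟨c2, c3⟩ := h.qq (x := c) (by linarith [ih.1]) e.2
      obtain ⟨c4, c5⟩ := h.adj (u := c) (by linarith) (loc_adj_symm e.1)
      exact ⟨by linarith [loc_tri a c y], .head ⟨loc_adj_symm c5, c3⟩ ih.2⟩
  have b4 := norm_sub_le_norm_sub_add_norm_sub x₀ y z₀
  exact ⟨b2, x₀, h.memX (by linarith [b3.1]) a1, h.core (by linarith [b3.1]) a2, b3.2⟩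

lemma lay (n : ℕ) {x y : ℂ} (hx : ‖x - z₀‖ + 2 * n * tf ≤ t) (hc : P.Lay Y n y x) :
    ‖y - z₀‖ ≤ 2 * t ∧ P.Lay Y' n y x := by
  have := h.tpos
  have t0 := h.t0
  induction n generalizing x with
  | zero => exact h.c0 (by simpa using hx) hc
  | succ n ih =>
    push_cast at hx
    have hn : 0 ≤ (n : ℝ) * tf := by positivity
    rcases hc with c | ⟨x', c1, c2⟩
    · obtain ⟨a1, a2⟩ := ih (by linarith) c
      exact ⟨a1, Or.inl a2⟩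
    · obtain ⟨c3, c4⟩ := h.adj (u := x) (by linarith) (loc_adj_symm c2)
      obtain ⟨a1, a2⟩ := ih (x := x') (by linarith [loc_tri x' x z₀]) c1
      exact ⟨a1, Or.inr ⟨x', a2, loc_adj_symm c4⟩⟩

lemma par (hn : 2 * (P.n₁ : ℝ) * tf ≤ t) {y : ℂ} (hc : P.Par Y z₀ y) :
    ‖y - z₀‖ ≤ 2 * t ∧ P.Par Y' z₀ y := by
  have := h.tpos
  have t0 := h.t0
  obtain ⟨k, a1, n, a2, a3, a4, a5⟩ := hc
  have e : ∀ m : ℕ, m ≤ n → ‖z₀ - z₀‖ + 2 * m * tf ≤ t := fun m hm => by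
    have : (m : ℝ) ≤ P.n₁ := by exact_mod_cast hm.trans a2
    rw [sub_self, norm_zero]; nlinarith
  obtain ⟨b1, b2⟩ := h.lay n (e n le_rfl) a3
  refine ⟨b1, k, (h.ag _ _ (by linarith)).mp a1, n, a2, b2,
    fun y' n' c1 c2 => a4 y' n' c1 (h.symm.lay n' (e n' c1.le) c2).2, fun y' k' c1 c2 => ?_⟩
  obtain ⟨c3, c4⟩ := h.symm.lay n (e n le_rfl) c2
  exact a5 y' k' ((h.ag _ _ (by linarith)).mpr c1) c4

lemma step (hn : 2 * (P.n₁ : ℝ) * tf ≤ t) {i : ℤ} (hc : z₀ ∈ P.Step Y i) : z₀ ∈ P.Step Y' i := by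
  have := h.tpos
  have e : ‖z₀ - z₀‖ ≤ 10 * t := by rw [sub_self, norm_zero]; linarith
  refine hc.imp (h.pl e) fun ⟨a1, y, a2, a3⟩ => ⟨h.ord e a1, y, ?_, (h.par hn a3).2⟩
  exact (h.ag _ _ (by linarith [(h.par hn a3).1])).mp a2

end loc_H

theorem loc : LOC := by
  intro W _ _ P e0 e1 Y Y' z₀ t tf t0 t1 hn ag hd
  have h : loc_H P Y Y' z₀ t tf := ⟨e0, e1, t0, t1, ag, hd Y (Or.inl rfl), hd Y' (Or.inr rfl)⟩
  exact ⟨fun i => ⟨h.step hn, h.symm.step hn⟩,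
    fun y => ⟨fun c => (h.par hn c).2, fun c => (h.symm.par hn c).2⟩⟩

end Pool.Agent.H527Z.Per
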