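import Pool.Agent.H527Z.Per.Defs3
import Pool.Agent.H527Z.Per.DevLip

/-!
# Geometric consequences of the invariants
-/

set_option autoImplicit false

namespace Pool.Agent.H527Z.Per

open Set

section

variable {W : Type} [NormedAddCommGroup W] [NormedSpace ℝ W] {P : Pm W} (hP : P.Good)
include hP

theorem net_c0 : P.c ≠ 0 := by
  intro h
  have := hP.hc
  rw [h, norm_zero] at this
  linarith

theorem net_pos (k : ℤ) : 0 < ‖P.c‖ ^ k := zpow_pos (by linarith [hP.hc]) k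

theorem net_mono {k k' : ℤ} (h : k ≤ k') : ‖P.c‖ ^ k ≤ ‖P.c‖ ^ k' :=
  zpow_le_zpow_right₀ hP.hc.le h

theorem net_addJ (k : ℤ) : ‖P.c‖ ^ (k + P.J) = P.Θ * ‖P.c‖ ^ k := by
  rw [zpow_add₀ (by linarith [hP.hc]), zpow_natCast, hP.hΘ, mul_comm]

theorem net_addN (k : ℤ) : ‖P.c‖ ^ (k + P.N) = ‖P.c‖ ^ P.N * ‖P.c‖ ^ k := by
  rw [zpow_add₀ (by linarith [hP.hc]), zpow_natCast, mul_comm]

/-- `k ≤ k' + J` compares the scales -/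
theorem net_leJ {k k' : ℤ} (h : k ≤ k' + P.J) : ‖P.c‖ ^ k ≤ P.Θ * ‖P.c‖ ^ k' := by
  rw [← net_addJ hP]
  exact net_mono hP h

theorem net_num : 2 ≤ P.Θ ∧ 1 ≤ P.R ∧ 40 * (P.R * P.Θ) ≤ P.ρ ∧ 40 * P.R ≤ P.ρ ∧ P.M = 4 * P.ρ ∧
    1 ≤ P.H ∧ 0 ≤ P.C₄ ∧ 0 < P.r ∧ P.r * P.Θ = P.r₀ ∧ P.r ≤ 1 := by
  have h1 : 2 ≤ P.Θ := by linarith [hP.hJ, hP.hc]
  have h2 : 1 ≤ P.Θ ^ 2 := by nlinarith
  have h3 : 1 ≤ P.R := by rw [hP.hR]; nlinarith [hP.hC₀]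
  have h4 : P.R ≤ P.D := by rw [hP.hD]; nlinarith
  have h5 : 40 * (P.R * P.Θ) ≤ P.ρ := by rw [hP.hρ]; nlinarith
  have h6 : 40 * P.R ≤ P.ρ := by nlinarith
  have h7 : P.r * P.Θ = P.r₀ := by rw [hP.hr]; field_simp
  have h8 : 0 < P.r := by rw [hP.hr]; exact div_pos hP.hr₀ (by linarith)
  refine ⟨h1, h3, h5, h6, hP.hM, ?_, ?_, h8, h7, ?_⟩
  · rw [hP.hH, hP.hM]; nlinarith
  · rw [hP.hC₄, hP.hC₂]
    have := hP.hC₀
    positivity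
  · nlinarith [hP.hr₀1]

theorem net_wpow (j : ℕ) (l : ℂ) : P.w (P.c ^ j * l) = (P.B ^ j) (P.w l) := by
  induction j with
  | zero => simp
  | succ j ih => rw [pow_succ', mul_assoc, hP.hw, ih, pow_succ']; rfl

theorem net_Bpow (j : ℕ) (u : W) : ‖(P.B ^ j) u‖ ≤ P.β ^ j * ‖u‖ := by
  induction j with
  | zero => simp
  | succ j ih =>
    rw [pow_succ', pow_succ', mul_assoc]
    exact (hP.hB _).trans (mul_le_mul_of_nonneg_left ih hP.hβ0)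

theorem net_vk (i : ℤ) (j : ℕ) (u : ℂ) : P.vk i u = (P.B ^ j) (P.vk (i + j) u) := by
  show P.w (u * (P.c ^ i)⁻¹) = (P.B ^ j) (P.w (u * (P.c ^ (i + j))⁻¹))
  rw [← net_wpow hP, zpow_add₀ (net_c0 hP), zpow_natCast]
  congr 1
  have := net_c0 hP
  field_simp

variable {Y : ℤ → Set ℂ} {V : Set ℂ} (hI : P.Inv Y V)
include hI

theorem net_pair {k k' : ℤ} {y y' : ℂ} (hy : y ∈ Y k) (hy' : y' ∈ Y k')
    (h : ‖y - y'‖ ≤ P.H * ‖P.c‖ ^ (min k k')) : (y - y') / P.c ^ (min k k') ∈ P.F := by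
  rcases le_total k k' with hk | hk
  · rw [min_eq_left hk] at h ⊢
    exact hI.pair k k' y hy y' hy' hk h
  · rw [min_eq_right hk] at h ⊢
    have h1 := (hP.hF _).1 (hI.pair k' k y' hy' y hy hk (by rwa [norm_sub_rev]))
    have e : (y - y') / P.c ^ k' = -((y' - y) / P.c ^ k') := by ring
    rw [e, hP.hF, map_neg, norm_neg, norm_neg]
    exact ⟨P.Λ.neg_mem h1.1, h1.2⟩

theorem net_lab (k k' : ℤ) (y : ℂ) (hy : y ∈ Y k) (y' : ℂ) (hy' : y' ∈ Y k')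
    (h : ‖y' - y‖ ≤ P.M * ‖P.c‖ ^ k) : k - P.J ≤ k' ∧ k' ≤ k + P.J := by
  obtain ⟨n1, n2, n3, n4, n5, -⟩ := net_num hP
  have h1 := hI.cmp k' k y' hy' y hy h
  refine ⟨by omega, ?_⟩
  rcases le_total k' k with hk | hk
  · omega
  · refine hI.cmp k k' y hy y' hy' ?_
    rw [norm_sub_rev]
    exact h.trans (mul_le_mul_of_nonneg_left (net_mono hP hk) (by linarith))

/-- two points close to a point of label `k` differ by an element of `F` -/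
theorem net_pair' {k k1 k2 : ℤ} {y y1 y2 : ℂ} (hy : y ∈ Y k) (hy1 : y1 ∈ Y k1) (hy2 : y2 ∈ Y k2)
    (h1 : ‖y1 - y‖ ≤ P.M * ‖P.c‖ ^ k) (h2 : ‖y2 - y‖ ≤ P.M * ‖P.c‖ ^ k)
    (h : ‖y1 - y2‖ ≤ P.M * ‖P.c‖ ^ k) :
    ∃ k0 : ℤ, k - P.J ≤ k0 ∧ k0 ≤ k + P.J ∧ (y1 - y2) / P.c ^ k0 ∈ P.F := by
  obtain ⟨n1, n2, n3, n4, n5, -⟩ := net_num hP
  have a1 := net_lab hP hI k k1 y hy y1 hy1 h1
  have a2 := net_lab hP hI k k2 y hy y2 hy2 h2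
  refine ⟨min k1 k2, by omega, by omega, net_pair hP hI hy1 hy2 (h.trans ?_)⟩
  rw [hP.hH, mul_assoc]
  exact mul_le_mul_of_nonneg_left (net_leJ hP (by omega)) (by linarith)

theorem net_sep (k : ℤ) (y : ℂ) (hy : y ∈ Y k) (y' : ℂ) (hy' : y' ∈ Om Y) (hne : y ≠ y') :
    P.r * ‖P.c‖ ^ k ≤ ‖y - y'‖ := by
  obtain ⟨n1, n2, n3, n4, n5, n6, n7, n8, n9, n10⟩ := net_num hP
  obtain ⟨k', hk'⟩ := mem_iUnion.1 hy'
  by_contra hlt
  rw [not_le] at hlt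
  have p := net_pos hP k
  have h0 : P.r * ‖P.c‖ ^ k ≤ P.M * ‖P.c‖ ^ k := mul_le_mul_of_nonneg_right (by linarith) p.le
  obtain ⟨k0, a1, -, a3⟩ := net_pair' hP hI hy hy hk' (by rw [sub_self, norm_zero]; nlinarith)
    (by rw [norm_sub_rev]; linarith) (by linarith)
  have a4 := hP.hr₀F _ a3 (div_ne_zero (sub_ne_zero.2 hne) (zpow_ne_zero _ (net_c0 hP)))
  rw [norm_div, norm_zpow, le_div_iff₀ (net_pos hP k0), ← n9, mul_assoc] at a4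
  have a5 := mul_le_mul_of_nonneg_left (net_leJ hP (show k ≤ k0 + P.J by omega)) n8.le
  linarith

theorem net_pat (k : ℤ) (y : ℂ) (hy : y ∈ Y k) (y' : ℂ) (hy' : y' ∈ Om Y) (y'' : ℂ)
    (hy'' : y'' ∈ Om Y) (h1 : ‖y' - y‖ ≤ P.M * ‖P.c‖ ^ k) (h2 : ‖y'' - y‖ ≤ P.M * ‖P.c‖ ^ k)
    (h : ‖y' - y''‖ ≤ P.M * ‖P.c‖ ^ k) : (y' - y'') / P.c ^ (k - P.J) ∈ P.Fs := by
  obtain ⟨k1, hk1⟩ := mem_iUnion.1 hy'
  obtain ⟨k2, hk2⟩ := mem_iUnion.1 hy''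
  obtain ⟨k0, a1, a2, a3⟩ := net_pair' hP hI hy hk1 hk2 h1 h2 h
  obtain ⟨j, hj⟩ : ∃ j : ℕ, k0 = k - P.J + j := ⟨(k0 - (k - P.J)).toNat, by omega⟩
  have a4 := hP.hFs j (by omega) _ a3
  convert a4 using 1
  rw [hj, zpow_add₀ (net_c0 hP), zpow_natCast]
  have := net_c0 hP
  field_simp

open Classical in
theorem net_img (k : ℤ) (y : ℂ) (hy : y ∈ Y k) (y' : ℂ) (hy' : y' ∈ Om Y)
    (h : ‖y' - y‖ ≤ P.M * ‖P.c‖ ^ k) :
    y' ∈ P.Fs.image fun l => y + P.c ^ (k - P.J) * l := by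
  have h0 := (norm_nonneg _).trans h
  refine Finset.mem_image.2 ⟨_, net_pat hP hI k y hy y' hy' y (mem_iUnion.2 ⟨k, hy⟩) h
    (by rwa [sub_self, norm_zero]) h, ?_⟩
  have := zpow_ne_zero (k - P.J) (net_c0 hP)
  field_simp
  ring

theorem net_fin (k : ℤ) (y : ℂ) (hy : y ∈ Y k) :
    {y' ∈ Om Y | ‖y' - y‖ ≤ P.M * ‖P.c‖ ^ k}.Finite :=
  (Finset.finite_toSet _).subset fun y' h => net_img hP hI k y hy y' h.1 h.2

theorem net_ldens (k : ℤ) (y : ℂ) (hy : y ∈ Y k) (z : ℂ) (hz : ‖z - y‖ ≤ 3 * P.ρ * ‖P.c‖ ^ k) :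
    z ∉ V ∧ ∃ y' ∈ Om Y, ‖z - y'‖ ≤ P.R * P.Θ * ‖P.c‖ ^ k := by
  obtain ⟨n1, n2, n3, n4, n5, -⟩ := net_num hP
  have p := net_pos hP k
  have h1 : z ∉ V := fun hv => by
    have := hI.far k y hy z hv
    rw [norm_sub_rev, n5] at this
    nlinarith
  refine ⟨h1, ?_⟩
  obtain ⟨k', y', hy', h2⟩ := hI.dens z h1
  refine ⟨y', mem_iUnion.2 ⟨k', hy'⟩, h2.trans ?_⟩
  rw [mul_assoc]
  refine mul_le_mul_of_nonneg_left (net_leJ hP ?_) (by linarith)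
  rcases le_total k' k with hk | hk
  · omega
  · refine hI.cmp k k' y hy y' hy' ?_
    have t := norm_sub_le_norm_sub_add_norm_sub y z y'
    rw [norm_sub_rev y z] at t
    have p' := net_pos hP k'
    have q := mul_le_mul_of_nonneg_left (net_mono hP hk) (show 0 ≤ 3 * P.ρ by linarith)
    rw [n5]
    nlinarith

theorem net_nst (z : ℂ) (hz : z ∉ V) :
    ∃ k, ∃ y ∈ Y k, Nst (Om Y) z y ∧ ‖z - y‖ ≤ P.R * P.Θ * ‖P.c‖ ^ k := by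
  obtain ⟨n1, n2, n3, n4, n5, -⟩ := net_num hP
  obtain ⟨k, y, hy, h⟩ := hI.dens z hz
  have p := net_pos hP k
  have hyS : y ∈ {y' ∈ Om Y | ‖y' - y‖ ≤ P.M * ‖P.c‖ ^ k} :=
    ⟨mem_iUnion.2 ⟨k, hy⟩, by rw [sub_self, norm_zero]; nlinarith⟩
  obtain ⟨y0, hy0, hmin⟩ := Set.exists_min_image _ (fun u => ‖z - u‖) (net_fin hP hI k y hy)
    ⟨y, hyS⟩
  have h0 : ‖z - y0‖ ≤ ‖z - y‖ := hmin y hyS
  obtain ⟨k0, hk0⟩ := mem_iUnion.1 hy0.1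
  refine ⟨k0, y0, hk0, ⟨hy0.1, fun y' hy' => ?_⟩, (h0.trans h).trans ?_⟩
  · by_cases hc : ‖y' - y‖ ≤ P.M * ‖P.c‖ ^ k
    · exact hmin y' ⟨hy', hc⟩
    · have t := norm_sub_le_norm_sub_add_norm_sub y' z y
      rw [norm_sub_rev y' z] at t
      rw [n5] at hc
      nlinarith
  · have := net_lab hP hI k k0 y hy y0 hk0 hy0.2
    rw [mul_assoc]
    exact mul_le_mul_of_nonneg_left (net_leJ hP (by omega)) (by linarith)

omit hI in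
theorem net_core {x y : ℂ} (h : P.Core Y x y) :
    ∃ k, y ∈ Y k ∧ 24 * ‖x - y‖ < P.r * ‖P.c‖ ^ k := by
  obtain ⟨k, hk, h⟩ := h
  refine ⟨_, hk, ?_⟩
  have := mul_le_mul_of_nonneg_right hP.hrS (net_pos hP k).le
  rw [net_addN hP]
  linarith

theorem net_core_le (k : ℤ) (y : ℂ) (hy : y ∈ Y k) (x y' : ℂ)
    (hx : ‖x - y‖ ≤ 3 * P.ρ * ‖P.c‖ ^ k) (h : P.Core Y x y') : ‖x - y'‖ ≤ ‖P.c‖ ^ k := by
  obtain ⟨n1, n2, n3, n4, n5, n6, n7, n8, n9, n10⟩ := net_num hP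
  obtain ⟨k', hk', h⟩ := net_core hP h
  have p := net_pos hP k
  have p' := net_pos hP k'
  have nn := norm_nonneg (x - y')
  have h1 : k' ≤ k + P.J := by
    rcases le_total k' k with hk | hk
    · omega
    · refine hI.cmp k k' y hy y' hk' ?_
      have t := norm_sub_le_norm_sub_add_norm_sub y x y'
      rw [norm_sub_rev y x] at t
      have q := mul_le_mul_of_nonneg_left (net_mono hP hk) (show 0 ≤ 3 * P.ρ by linarith)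
      have q' := mul_le_mul_of_nonneg_right n10 p'.le
      have q'' := mul_le_mul_of_nonneg_right (show 1 ≤ P.ρ by linarith) p'.le
      rw [n5]
      linarith
  have h2 := mul_le_mul_of_nonneg_left (net_leJ hP h1) n8.le
  rw [← mul_assoc, n9] at h2
  have h3 := mul_le_mul_of_nonneg_right hP.hr₀1 p.le
  linarith

theorem net_core_Q (x y : ℂ) (h : P.Core Y x y) (y' : ℂ) (hy' : y' ∈ Om Y) (hne : y' ≠ y) :
    2 * ‖x - y‖ < ‖x - y'‖ := by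
  obtain ⟨k, hk, h⟩ := net_core hP h
  have h1 := net_sep hP hI k y hk y' hy' hne.symm
  have t := norm_sub_le_norm_sub_add_norm_sub y x y'
  rw [norm_sub_rev y x] at t
  linarith [norm_nonneg (x - y)]

/-- points in the ball of radius `10 σ` are `M`-close to the centre -/
theorem net_ball {k : ℤ} {x y u : ℂ} (hx : ‖x - y‖ ≤ 2 * P.ρ * ‖P.c‖ ^ k)
    (hu : ‖x - u‖ ≤ 10 * (P.R * P.Θ * ‖P.c‖ ^ k)) : ‖u - y‖ ≤ P.M * ‖P.c‖ ^ k := by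
  obtain ⟨n1, n2, n3, n4, n5, -⟩ := net_num hP
  have t := norm_sub_le_norm_sub_add_norm_sub u x y
  rw [norm_sub_rev u x] at t
  have q := mul_le_mul_of_nonneg_right n3 (net_pos hP k).le
  have q' : 0 ≤ P.ρ * ‖P.c‖ ^ k := mul_nonneg (by linarith) (net_pos hP k).le
  rw [n5]
  linarith

theorem net_near {k : ℤ} {x y y₀ : ℂ} (hy : y ∈ Y k) (hx : ‖x - y‖ ≤ 2 * P.ρ * ‖P.c‖ ^ k)
    (h : Nst (Om Y) x y₀) : ‖x - y₀‖ ≤ P.R * P.Θ * ‖P.c‖ ^ k := by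
  obtain ⟨n1, n2, n3, n4, n5, -⟩ := net_num hP
  have q' : 0 ≤ P.ρ * ‖P.c‖ ^ k := mul_nonneg (by linarith) (net_pos hP k).le
  obtain ⟨-, y', hy', h1⟩ := net_ldens hP hI k y hy x (by linarith)
  exact (h.2 y' hy').trans h1

theorem net_lip (k : ℤ) (y : ℂ) (hy : y ∈ Y k) (x x' y₀ y₀' : ℂ) (i : ℤ)
    (hx : ‖x - y‖ ≤ 2 * P.ρ * ‖P.c‖ ^ k) (hx' : ‖x - x'‖ ≤ P.R * P.Θ * ‖P.c‖ ^ k)
    (h0 : Nst (Om Y) x y₀) (h0' : Nst (Om Y) x' y₀') (hi : i + P.N ≤ k + P.J) :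
    ‖P.vk i (x - x') - dev (P.vk i) (Om Y) x ‖x - y₀‖ + dev (P.vk i) (Om Y) x' ‖x' - y₀'‖‖ *
      (‖P.c‖ * P.ρ₀ * ‖P.c‖ ^ i) ≤ ‖x - x'‖ := by
  classical
  obtain ⟨n1, n2, n3, n4, n5, n6, n7, n8, n9, n10⟩ := net_num hP
  have a0 : 0 < ‖P.c‖ := by linarith [hP.hc]
  have p := net_pos hP k
  have pi := net_pos hP i
  have hK : 0 ≤ (P.H + P.C₄) / P.r₀ := div_nonneg (by linarith) hP.hr₀.le
  have hq0 : 0 ≤ P.β / ‖P.c‖ := div_nonneg hP.hβ0 a0.le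
  have hq1 : P.β / ‖P.c‖ ≤ 1 := (div_le_one a0).2 hP.hβ
  have hρ0 : 0 ≤ P.ρ₀ := by linarith [hP.hρ₀']
  have hκ0 : 0 ≤ (P.β / ‖P.c‖) ^ (P.N - 2 * P.J) * ((P.H + P.C₄) / P.r₀) / ‖P.c‖ ^ i := by
    positivity
  have key := devlip W (P.vk i) (Om Y) (P.Fs.image fun l => y + P.c ^ (k - P.J) * l) x x' y₀ y₀'
    (P.R * P.Θ * ‖P.c‖ ^ k) _ hκ0
    (fun u hu h => net_img hP hI k y hy u hu (net_ball hP hI hx h)) ?_ h0 h0'
    (net_near hP hI hy hx h0) hx'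
  · have c1 : ((P.Fs.image fun l => y + P.c ^ (k - P.J) * l).card : ℝ) ≤ P.Fs.card := by
      exact_mod_cast Finset.card_image_le
    have c2 : 40 * ((P.Fs.card : ℝ) + 1) * ((P.H + P.C₄) / P.r₀) * (‖P.c‖ * P.ρ₀) *
        (P.β / ‖P.c‖) ^ (P.N - 2 * P.J) ≤ 1 := by
      rw [div_pow, ← mul_div_assoc, div_le_one (by positivity)]
      exact hP.hκ
    refine (mul_le_mul_of_nonneg_right (key.trans (mul_le_mul_of_nonneg_right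
      (mul_le_mul_of_nonneg_right (show _ ≤ 40 * ((P.Fs.card : ℝ) + 1) by linarith) hκ0)
      (norm_nonneg _))) (by positivity)).trans ?_
    calc _ = (40 * ((P.Fs.card : ℝ) + 1) * ((P.H + P.C₄) / P.r₀) * (‖P.c‖ * P.ρ₀) *
          (P.β / ‖P.c‖) ^ (P.N - 2 * P.J)) * ‖x - x'‖ := by field_simp
      _ ≤ 1 * ‖x - x'‖ := mul_le_mul_of_nonneg_right c2 (norm_nonneg _)
      _ = _ := one_mul _
  · intro u hu u' hu' h1 h2
    obtain ⟨k1, hk1⟩ := mem_iUnion.1 hu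
    obtain ⟨k2, hk2⟩ := mem_iUnion.1 hu'
    have t := norm_sub_le_norm_sub_add_norm_sub u x u'
    rw [norm_sub_rev u x] at t
    have q := mul_le_mul_of_nonneg_right n3 p.le
    have q' : 0 ≤ P.ρ * ‖P.c‖ ^ k := mul_nonneg (by linarith) p.le
    obtain ⟨k0, a1, -, a3⟩ := net_pair' hP hI hy hk1 hk2 (net_ball hP hI hx h1)
      (net_ball hP hI hx h2) (by rw [n5]; linarith)
    have hN := hP.hN
    obtain ⟨j, hj⟩ : ∃ j : ℕ, k0 = i + j := ⟨(k0 - i).toNat, by omega⟩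
    have e : P.vk (i + j) (u - u') = P.w ((u - u') / P.c ^ k0) := by
      rw [hj, div_eq_mul_inv]; rfl
    have b1 : ‖P.w ((u - u') / P.c ^ k0)‖ ≤ (P.H + P.C₄) / P.r₀ * ‖(u - u') / P.c ^ k0‖ := by
      by_cases hl : (u - u') / P.c ^ k0 = 0
      · rw [hl, map_zero, norm_zero, norm_zero, mul_zero]
      · have b2 := hP.hr₀F _ a3 hl
        refine ((hP.hF _).1 a3).2.2.trans ?_
        have b3 := mul_le_mul_of_nonneg_left b2 hK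
        rwa [div_mul_cancel₀ _ hP.hr₀.ne'] at b3
    have b4 : (P.β / ‖P.c‖) ^ j ≤ (P.β / ‖P.c‖) ^ (P.N - 2 * P.J) :=
      pow_le_pow_of_le_one hq0 hq1 (by omega)
    rw [net_vk hP i j, e]
    refine (net_Bpow hP j _).trans ((mul_le_mul_of_nonneg_left b1 (pow_nonneg hP.hβ0 j)).trans ?_)
    rw [norm_div, norm_zpow, hj, zpow_add₀ a0.ne', zpow_natCast]
    calc _ = (P.β / ‖P.c‖) ^ j * ((P.H + P.C₄) / P.r₀ / ‖P.c‖ ^ i * ‖u - u'‖) := by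
          rw [div_pow]; field_simp
      _ ≤ (P.β / ‖P.c‖) ^ (P.N - 2 * P.J) * ((P.H + P.C₄) / P.r₀ / ‖P.c‖ ^ i * ‖u - u'‖) :=
          mul_le_mul_of_nonneg_right b4 (by positivity)
      _ = _ := by ring

theorem net_dev_pow (k : ℤ) (y : ℂ) (hy : y ∈ Y k) (x y₀ : ℂ) (i : ℤ) (j : ℕ)
    (hx : ‖x - y‖ ≤ 2 * P.ρ * ‖P.c‖ ^ k) (h0 : Nst (Om Y) x y₀) :
    ‖dev (P.vk i) (Om Y) x ‖x - y₀‖‖ ≤ ‖P.c‖ ^ j * ‖dev (P.vk (i + j)) (Om Y) x ‖x - y₀‖‖ := by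
  classical
  have h1 := net_near hP hI hy hx h0
  have h2 := (norm_nonneg _).trans h1
  have hS : ∀ u ∈ Om Y, ‖x - u‖ < 2 * ‖x - y₀‖ →
      u ∈ P.Fs.image fun l => y + P.c ^ (k - P.J) * l :=
    fun u hu h => net_img hP hI k y hy u hu (net_ball hP hI hx (by linarith))
  have e : dev (P.vk i) (Om Y) x ‖x - y₀‖ = (P.B ^ j) (dev (P.vk (i + j)) (Om Y) x ‖x - y₀‖) := by
    rw [devlip_dev_eq _ _ _ _ _ hS, devlip_dev_eq _ _ _ _ _ hS, map_smul, map_sum]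
    simp only [map_smul, ← net_vk hP]
  rw [e]
  exact (net_Bpow hP j _).trans
    (mul_le_mul_of_nonneg_right (pow_le_pow_left₀ hP.hβ0 hP.hβ j) (norm_nonneg _))

end

theorem net : NET := fun _ _ _ _ hP _ _ hI =>
  ⟨net_sep hP hI, net_lab hP hI, net_pat hP hI, net_fin hP hI, net_ldens hP hI, net_nst hP hI,
    net_core_le hP hI, net_core_Q hP hI, net_lip hP hI, net_dev_pow hP hI⟩

end Pool.Agent.H527Z.Per
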