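import Pool.Agent.H527Z.Per.Defs3

/-!
# Every ordinary point lies in a layer
-/

set_option autoImplicit false

namespace Pool.Agent.H527Z.Per

open Set

theorem parex_Q (x y y2 v : ℂ) (τ η : ℝ) (hτ1 : τ ≤ 1) (hx : ‖x - y‖ ≤ ‖x - y2‖)
    (hv : ‖v - (x + (τ : ℂ) * (y - x))‖ ≤ η) (hL : 2 * η < τ * ‖y - y2‖) :
    ‖v - y‖ < ‖v - y2‖ := by
  set w := v - (x + (τ : ℂ) * (y - x)) with hw
  have hid : ‖v - y2‖ ^ 2 - ‖v - y‖ ^ 2 = (1 - τ) * (‖x - y2‖ ^ 2 - ‖x - y‖ ^ 2) +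
      τ * ‖y - y2‖ ^ 2 + 2 * (w * (starRingEnd ℂ) (y - y2)).re := by
    simp only [hw, Complex.sq_norm, Complex.normSq_apply, Complex.sub_re, Complex.sub_im,
      Complex.mul_re, Complex.add_re, Complex.add_im, Complex.mul_im, Complex.ofReal_re,
      Complex.ofReal_im, Complex.conj_re, Complex.conj_im]
    ring
  have h1 : |(w * (starRingEnd ℂ) (y - y2)).re| ≤ ‖w‖ * ‖y - y2‖ := by
    have := Complex.abs_re_le_norm (w * (starRingEnd ℂ) (y - y2))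
    rwa [norm_mul, Complex.norm_conj] at this
  have h2 := (abs_le.1 h1).1
  have hη : 0 ≤ η := (norm_nonneg _).trans hv
  have hL0 : 0 < ‖y - y2‖ := by
    rcases (norm_nonneg (y - y2)).eq_or_lt with h | h
    · rw [← h] at hL
      linarith
    · exact h
  have h3 : 0 ≤ (1 - τ) * (‖x - y2‖ ^ 2 - ‖x - y‖ ^ 2) := by
    apply mul_nonneg (by linarith)
    have := pow_le_pow_left₀ (norm_nonneg _) hx 2
    linarith
  have h4 : ‖w‖ * ‖y - y2‖ ≤ η * ‖y - y2‖ := mul_le_mul_of_nonneg_right hv hL0.le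
  have h5 : 2 * η * ‖y - y2‖ < τ * ‖y - y2‖ * ‖y - y2‖ := mul_lt_mul_of_pos_right hL hL0
  apply lt_of_pow_lt_pow_left₀ 2 (norm_nonneg _)
  nlinarith

theorem parex_adj_symm {ε : ℝ} {X : Set ℂ} {u v : ℂ} (h : Adj ε X u v) : Adj ε X v u := by
  obtain ⟨hu, hv, p, hp, h⟩ := h
  exact ⟨hv, hu, p, hp.symm, fun x hx hx' => (h x hx (hp ▸ hx')).symm⟩

theorem parex_seg (x y : ℂ) (t t' : ℝ) :
    ‖(x + (t : ℂ) * (y - x)) - (x + (t' : ℂ) * (y - x))‖ = |t - t'| * ‖x - y‖ := by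
  have : (x + (t : ℂ) * (y - x)) - (x + (t' : ℂ) * (y - x)) = ((t - t' : ℝ) : ℂ) * (y - x) := by
    push_cast
    ring
  rw [this, norm_mul, Complex.norm_real, Real.norm_eq_abs, norm_sub_rev y x]

theorem parex_seg_end (x y : ℂ) (t : ℝ) (ht : t ≤ 1) :
    ‖(x + (t : ℂ) * (y - x)) - y‖ = (1 - t) * ‖x - y‖ := by
  have h := parex_seg x y t 1
  rw [abs_of_nonpos (by linarith)] at h
  simpa using h

theorem parex_seg_start (x y : ℂ) (t : ℝ) (ht : 0 ≤ t) :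
    ‖x - (x + (t : ℂ) * (y - x))‖ = t * ‖x - y‖ := by
  have h := parex_seg x y 0 t
  rw [abs_of_nonpos (by linarith)] at h
  simpa using h

variable {W : Type} [NormedAddCommGroup W] [NormedSpace ℝ W] {P : Pm W}

theorem parex_lay_mono {Y : ℤ → Set ℂ} {y x : ℂ} {n m : ℕ} (h : P.Lay Y n y x) (hnm : n ≤ m) :
    P.Lay Y m y x := by
  induction m, hnm using Nat.le_induction with
  | base => exact h
  | succ m _ ih => exact Or.inl ih

theorem parex_consts (hG : P.Good) : 2 ≤ P.Θ ∧ 16 ≤ P.R ∧ 40 * (P.R * P.Θ) ≤ P.ρ ∧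
    40 * P.R ≤ P.H ∧ P.M = 4 * P.ρ ∧ 0 < P.r := by
  have ha := hG.hc
  have hT : 2 ≤ P.Θ := by linarith [hG.hJ]
  have hT2 : 4 ≤ P.Θ ^ 2 := by nlinarith
  have hR : 16 ≤ P.R := by
    rw [hG.hR]
    nlinarith [hG.hC₀]
  have hD : P.R ≤ P.D := by
    rw [hG.hD]
    nlinarith
  have hρ : 40 * (P.R * P.Θ) ≤ P.ρ := by
    rw [hG.hρ]
    nlinarith
  have hRT : P.R ≤ P.R * P.Θ := by nlinarith
  refine ⟨hT, hR, hρ, ?_, hG.hM, ?_⟩
  · rw [hG.hH, hG.hM]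
    nlinarith
  · rw [hG.hr]
    exact div_pos hG.hr₀ (by linarith)

/-- the points of `X` close to the segment are candidates with a near seed of comparable label -/
theorem parex_cand (hG : P.Good) (hB : P.Base0) {Y : ℤ → Set ℂ} {V : Set ℂ} (hI : P.Inv Y V)
    (hN : P.NetOK Y V) (hC : P.CandOK Y) {y z u : ℂ} {K : ℤ} {δ : ℝ} (hy : y ∈ Y K)
    (hδ : δ = P.R * ‖P.c‖ ^ (K - P.N) / P.Θ) (hz : ∀ y' ∈ Om Y, ‖z - y‖ ≤ ‖z - y'‖)
    (hz1 : (‖P.c‖ + 1) / 2 * P.ρ₀ * ‖P.c‖ ^ (K - P.N) ≤ ‖z - y‖)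
    (hz2 : ‖z - y‖ + 11 * δ ≤ P.ρ * ‖P.c‖ ^ K) (hu : u ∈ P.X Y) (huz : ‖u - z‖ ≤ 11 * δ) :
    P.Cand Y u ∧ ∃ (k : ℤ) (y' : ℂ), y' ∈ Y (k + P.N) ∧ Near Y u y' ∧ K - P.J - P.N ≤ k ∧
      k ≤ K + P.J - P.N := by
  obtain ⟨hT, hR, hρ, hH, hM, hr⟩ := parex_consts hG
  have ha := hG.hc
  have ha0 : 0 < ‖P.c‖ := by linarith
  have hs : 0 < ‖P.c‖ ^ (K - P.N) := zpow_pos ha0 _
  have hyO : y ∈ Om Y := mem_iUnion.2 ⟨K, hy⟩
  have hδ1 : δ ≤ P.R * ‖P.c‖ ^ (K - P.N) := by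
    rw [hδ]
    exact div_le_self (by positivity) (by linarith)
  have huy : ‖u - y‖ ≤ P.ρ * ‖P.c‖ ^ K := by
    have := norm_sub_le_norm_sub_add_norm_sub u z y
    linarith
  rcases hu with hu | ⟨i, y2, hcore, hpl⟩
  · refine ⟨hu.1, ?_⟩
    obtain ⟨y0, k0, hy0, hn, -⟩ := hu.1
    have h1 : ‖y0 - y‖ ≤ P.M * ‖P.c‖ ^ K := by
      have h1 := norm_sub_le_norm_sub_add_norm_sub y0 u y
      have h2 := hn.2 y hyO
      rw [norm_sub_rev y0 u] at h1
      have h3 := norm_nonneg (u - y)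
      rw [hM]
      linarith
    have h2 := hN.lab K k0 y hy y0 hy0 h1
    refine ⟨k0 - P.N, y0, by rwa [sub_add_cancel], ?_, by omega, by omega⟩
    intro y' hy'
    have := hn.2 y' hy'
    have := norm_nonneg (u - y')
    linarith
  · obtain ⟨k, hy2, hlt⟩ := id hcore
    have hk0 : 0 < ‖P.c‖ ^ k := zpow_pos ha0 _
    have hρ0 : 80 * P.R ≤ P.ρ₀ := by linarith [hG.hρ₀']
    by_cases he : y2 = y
    · subst he
      have hk : k + P.N = K := hI.uniq _ _ _ hy2 hy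
      have hk' : K - P.N = k := by omega
      rw [hk'] at hz1 hδ1
      have hlow : P.ρ₀ * ‖P.c‖ ^ k ≤ ‖u - y2‖ := by
        have h1 := norm_sub_le_norm_sub_add_norm_sub z u y2
        rw [norm_sub_rev z u] at h1
        have h2 : 40 * P.R * ‖P.c‖ ^ k ≤ (‖P.c‖ - 1) * P.ρ₀ * ‖P.c‖ ^ k :=
          mul_le_mul_of_nonneg_right (hH.trans hG.hρ₀) hk0.le
        have h3 : 0 ≤ P.R * ‖P.c‖ ^ k := by positivity
        linarith
      obtain ⟨b1, b2⟩ := hB.bound i _ hpl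
      have hρp : 0 < P.ρ₀ := by linarith
      have hik : i = k := by
        have e1 : ‖P.c‖ ^ i < ‖P.c‖ ^ (k + 1) := by
          rw [zpow_add_one₀ ha0.ne']
          have : P.ρ₀ * ‖P.c‖ ^ i < P.ρ₀ * (‖P.c‖ ^ k * ‖P.c‖) := by linarith
          exact lt_of_mul_lt_mul_left this hρp.le
        have e2 : ‖P.c‖ ^ k < ‖P.c‖ ^ (i + 1) := by
          rw [zpow_add_one₀ ha0.ne']
          have : P.ρ₀ * ‖P.c‖ ^ k < P.ρ₀ * (‖P.c‖ ^ i * ‖P.c‖) := by linarith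
          exact lt_of_mul_lt_mul_left this hρp.le
        rw [zpow_lt_zpow_iff_right₀ ha] at e1 e2
        omega
      subst hik
      refine ⟨hC.top u y2 i hy2 hpl, i, y2, hy2, ?_, by omega, by omega⟩
      intro y' hy'
      have h0 := norm_nonneg (u - y')
      have h0' := norm_nonneg (u - y2)
      by_cases h : y' = y2
      · rw [h]
        linarith
      · have := hN.core_Q u y2 hcore y' hy' h
        linarith
    · exfalso
      have hy2O : y2 ∈ Om Y := mem_iUnion.2 ⟨_, hy2⟩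
      have s1 := hN.sep K y hy y2 hy2O (Ne.symm he)
      have s2 := hN.sep _ y2 hy2 y hyO he
      rw [norm_sub_rev] at s2
      have h1 := hz y2 hy2O
      have h2 := norm_sub_le_norm_sub_add_norm_sub y z y2
      rw [norm_sub_rev y z] at h2
      have h3 := norm_sub_le_norm_sub_add_norm_sub z u y2
      rw [norm_sub_rev z u] at h3
      have e1 : ‖P.c‖ ^ K = ‖P.c‖ ^ P.N * ‖P.c‖ ^ (K - P.N) := by
        rw [← zpow_natCast, ← zpow_add₀ ha0.ne']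
        congr 1
        ring
      have e2 : ‖P.c‖ ^ (k + P.N) = ‖P.c‖ ^ P.N * ‖P.c‖ ^ k := by
        rw [← zpow_natCast, ← zpow_add₀ ha0.ne', add_comm]
      rw [e1, ← mul_assoc] at s1
      rw [e2, ← mul_assoc] at s2
      have t1 := mul_le_mul_of_nonneg_right hG.hrS hs.le
      have t2 := mul_le_mul_of_nonneg_right hG.hrS hk0.le
      have t3 : 80 * P.R * ‖P.c‖ ^ (K - P.N) ≤ ‖P.c‖ * P.ρ₀ * ‖P.c‖ ^ (K - P.N) := by
        apply mul_le_mul_of_nonneg_right _ hs.le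
        nlinarith
      have t4 : 0 < P.R * ‖P.c‖ ^ (K - P.N) := by positivity
      linarith

theorem parex_pair (hG : P.Good) {Y : ℤ → Set ℂ} (hC : P.CandOK Y) {u v : ℂ} {K : ℤ}
    (hu : P.Cand Y u ∧ ∃ (k : ℤ) (y' : ℂ), y' ∈ Y (k + P.N) ∧ Near Y u y' ∧ K - P.J - P.N ≤ k ∧
      k ≤ K + P.J - P.N)
    (hv : P.Cand Y v ∧ ∃ (k : ℤ) (y' : ℂ), y' ∈ Y (k + P.N) ∧ Near Y v y' ∧ K - P.J - P.N ≤ k ∧
      k ≤ K + P.J - P.N)
    (huv : ‖u - v‖ ≤ 20 * P.R * ‖P.c ^ (K - P.J - P.N)‖) :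
    (u - v) / P.c ^ (K - P.J - P.N) ∈ P.Fs := by
  obtain ⟨hT, hR, hρ, hH, hM, hr⟩ := parex_consts hG
  have ha := hG.hc
  have ha0 : 0 < ‖P.c‖ := by linarith
  have hc0 : P.c ≠ 0 := norm_pos_iff.1 ha0
  obtain ⟨hu, k, y, hy, hn, k1, k2⟩ := hu
  obtain ⟨hv, k', y', hy', hn', k1', k2'⟩ := hv
  have hle : ∀ j : ℤ, K - P.J - P.N ≤ j → ‖u - v‖ ≤ P.H * ‖P.c‖ ^ j := by
    intro j hj
    rw [norm_zpow] at huv
    refine huv.trans (mul_le_mul (by linarith) (zpow_le_zpow_right₀ ha.le hj)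
      (zpow_pos ha0 _).le (by linarith))
  have key : ∀ j : ℤ, K - P.J - P.N ≤ j → j ≤ K + P.J - P.N → (u - v) / P.c ^ j ∈ P.F →
      (u - v) / P.c ^ (K - P.J - P.N) ∈ P.Fs := by
    intro j h1 h2 h
    obtain ⟨n, hn⟩ : ∃ n : ℕ, j = (K - P.J - P.N) + n := ⟨(j - (K - P.J - P.N)).toNat, by omega⟩
    have := hG.hFs n (by omega) _ h
    convert this using 1
    rw [hn, zpow_add₀ hc0, zpow_natCast]
    have := zpow_ne_zero (K - P.J - P.N) hc0
    field_simp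
  rcases le_total k k' with h | h
  · exact key k k1 k2 (hC.pair u v y y' k k' hu hv hy hy' hn hn' h (hle k k1))
  · have := hC.pair v u y' y k' k hv hu hy' hy hn' hn h (by rw [norm_sub_rev]; exact hle k' k1')
    apply key k' k1' k2'
    have e : (u - v) / P.c ^ k' = -((v - u) / P.c ^ k') := by ring
    rw [e, hG.hF]
    rw [hG.hF] at this
    exact ⟨P.Λ.neg_mem this.1, by rw [norm_neg]; exact this.2.1,
      by rw [map_neg, norm_neg]; exact this.2.2⟩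

theorem parex : PAREX := by
  intro W _ _ P hG hB Y V hI hN hC x hx
  obtain ⟨hT, hR, hρ, hH, hM, hr⟩ := parex_consts hG
  have ha := hG.hc
  have ha0 : 0 < ‖P.c‖ := by linarith
  have hc0 : P.c ≠ 0 := norm_pos_iff.1 ha0
  obtain ⟨y, K, hy, hn, hd2, -⟩ := hx.1
  have hy' : y ∈ Y (K - P.N + P.N) := by rwa [sub_add_cancel]
  have hd1 : ‖P.c‖ * P.ρ₀ * ‖P.c‖ ^ (K - P.N) ≤ ‖x - y‖ := by
    by_contra h
    exact hx.2 y ⟨K - P.N, hy', lt_of_not_ge h⟩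
  have hs : 0 < ‖P.c‖ ^ (K - P.N) := zpow_pos ha0 _
  have hK : 0 < ‖P.c‖ ^ K := zpow_pos ha0 _
  have hsK : ‖P.c‖ ^ (K - P.N) ≤ ‖P.c‖ ^ K := zpow_le_zpow_right₀ ha.le (by omega)
  have hρ0 : 80 * P.R ≤ P.ρ₀ := by linarith [hG.hρ₀']
  obtain ⟨δ, hδ⟩ : ∃ δ, δ = P.R * ‖P.c‖ ^ (K - P.N) / P.Θ := ⟨_, rfl⟩
  have hδe : P.R * ‖P.c‖ ^ (K - P.J - P.N) = δ := by
    rw [hδ, hG.hΘ, ← zpow_natCast, mul_div_assoc, ← zpow_sub₀ ha0.ne']
    congr 2
    ring
  have hδγ : P.R * ‖P.c ^ (K - P.J - P.N)‖ = δ := by rw [norm_zpow, hδe]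
  have hδ0 : 0 < δ := by
    rw [hδ]
    apply div_pos (by positivity) (by linarith)
  have hδ1 : δ ≤ P.R * ‖P.c‖ ^ (K - P.N) := by
    rw [hδ]
    exact div_le_self (by positivity) (by linarith)
  have hδ2 : δ ≤ P.R * P.Θ * ‖P.c‖ ^ K := by
    refine hδ1.trans (mul_le_mul (by nlinarith) hsK hs.le (by positivity))
  have hρK : 40 * (P.R * P.Θ * ‖P.c‖ ^ K) ≤ P.ρ * ‖P.c‖ ^ K := by
    have := mul_le_mul_of_nonneg_right hρ hK.le
    linarith
  have hgap : 40 * δ ≤ (‖P.c‖ - 1) * P.ρ₀ * ‖P.c‖ ^ (K - P.N) := by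
    have := mul_le_mul_of_nonneg_right (hH.trans hG.hρ₀) hs.le
    linarith
  have hbase : 80 * δ ≤ P.ρ₀ * ‖P.c‖ ^ (K - P.N) := by
    have := mul_le_mul_of_nonneg_right hρ0 hs.le
    linarith
  obtain ⟨mid, hmid⟩ : ∃ mid, mid = (‖P.c‖ + 1) / 2 * P.ρ₀ * ‖P.c‖ ^ (K - P.N) := ⟨_, rfl⟩
  have hm1 : mid + 20 * δ ≤ ‖P.c‖ * P.ρ₀ * ‖P.c‖ ^ (K - P.N) := by
    rw [hmid]
    linarith
  have hm2 : 80 * δ ≤ mid := by
    rw [hmid]
    linarith
  have hd0 : 0 < ‖x - y‖ := by linarith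
  obtain ⟨θ, hθ⟩ : ∃ θ, θ = δ / ‖x - y‖ := ⟨_, rfl⟩
  have hθd : θ * ‖x - y‖ = δ := by
    rw [hθ]
    field_simp
  have hθ0 : 0 < θ := by
    rw [hθ]
    positivity
  have hex : ∃ I : ℕ, ‖x - y‖ - I * δ ≤ mid := by
    obtain ⟨I, hI⟩ := exists_nat_ge (‖x - y‖ / δ)
    rw [div_le_iff₀ hδ0] at hI
    exact ⟨I, by linarith⟩
  classical
  obtain ⟨I, hI1, hI2⟩ : ∃ I : ℕ, ‖x - y‖ - I * δ ≤ mid ∧ ∀ i < I, mid < ‖x - y‖ - i * δ :=
    ⟨Nat.find hex, Nat.find_spec hex, fun i hi => lt_of_not_ge (Nat.find_min hex hi)⟩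
  have hle1 : ∀ t : ℝ, t * δ ≤ ‖x - y‖ → t * θ ≤ 1 := by
    intro t ht
    rw [hθ, ← mul_div_assoc, div_le_one hd0]
    exact ht
  have hId : (I : ℝ) * δ ≤ ‖x - y‖ := by
    rcases I with _ | I
    · simp
    · have := hI2 I (by omega)
      push_cast
      linarith
  set z : ℝ → ℂ := fun t => x + ((t * θ : ℝ) : ℂ) * (y - x) with hz
  have hzy : ∀ t : ℝ, t * δ ≤ ‖x - y‖ → ‖z t - y‖ = ‖x - y‖ - t * δ := by
    intro t ht
    rw [hz]
    dsimp only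
    rw [parex_seg_end x y _ (hle1 t ht), sub_mul, mul_assoc, hθd, one_mul]
  have hstep : ∀ i : ℕ, i < I → ∀ u ∈ P.X Y, ‖z i - u‖ ≤ δ → ∃ u' ∈ P.X Y,
      ‖z (i + 1 : ℕ) - u'‖ ≤ δ ∧ ∃ n ≤ 2 * P.Fs.card, ∃ g : ℕ → ℂ, g 0 = u ∧ g n = u' ∧
        (∀ j < n, Adj P.ε (P.X Y) (g j) (g (j + 1))) ∧ (P.M₁ ≤ i → ∀ j ≤ n, Q Y y (g j)) := by
    intro i hi u hu hzu
    have hi0 : (0 : ℝ) ≤ i := Nat.cast_nonneg i
    have hi1 : ((i : ℝ) + 1) * δ ≤ ‖x - y‖ := by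
      refine le_trans (mul_le_mul_of_nonneg_right ?_ hδ0.le) hId
      exact_mod_cast hi
    have hiδ : 0 ≤ (i : ℝ) * δ := by positivity
    have hzi := hzy i (by linarith)
    have hdens : ∀ p : ℂ, ‖p - z i‖ ≤ 11 * δ → ∃ u ∈ P.X Y, ‖p - u‖ ≤ δ := by
      intro p hp
      rw [← hδe]
      apply hC.dens K y hy
      have := norm_sub_le_norm_sub_add_norm_sub p (z i) y
      linarith
    have hzz : ‖z (i + 1 : ℕ) - z i‖ = δ := by
      rw [hz]
      dsimp only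
      rw [parex_seg]
      push_cast
      rw [show ((i : ℝ) + 1) * θ - i * θ = θ by ring, abs_of_pos hθ0, hθd]
    obtain ⟨u', hu', hzu'⟩ := hdens (z (i + 1 : ℕ)) (by linarith)
    have hnear : ∀ y' ∈ Om Y, ‖z i - y‖ ≤ ‖z i - y'‖ := by
      intro y' hy'
      have h1 := hn.2 y' hy'
      have h2 := norm_sub_le_norm_sub_add_norm_sub x (z i) y'
      have h3 : ‖x - z i‖ = i * δ := by
        rw [hz]
        dsimp only
        rw [parex_seg_start x y _ (by positivity), mul_assoc, hθd]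
      linarith
    have hcand : ∀ v ∈ P.X Y, ‖v - z i‖ ≤ 11 * δ → _ := fun v hv hvz =>
      parex_cand hG hB hI hN hC hy hδ hnear (by have := hI2 i hi; linarith) (by linarith) hv hvz
    obtain ⟨n, hn1, g, g0, gn, gadj, gt⟩ := hG.hchain (P.X Y) (P.c ^ (K - P.J - P.N)) (z i)
      (11 * δ) (zpow_ne_zero _ hc0)
      (fun v hv v' hv' h1 h2 h3 => parex_pair hG hC (hcand v hv h1) (hcand v' hv' h2) h3)
      (by rw [hδγ]; exact hdens) (z i) (z (i + 1 : ℕ)) 1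
      (by rw [mul_assoc, hδγ, sub_self, norm_zero]; linarith)
      (by rw [mul_assoc, hδγ, hzz]; linarith)
      (by rw [mul_assoc, hδγ, norm_sub_rev, hzz]; simp)
      u hu u' hu' (by rw [hδγ]; exact hzu) (by rw [hδγ]; exact hzu')
    refine ⟨u', hu', hzu', n, by omega, g, g0, gn, gadj, ?_⟩
    intro hM1 j hj y2 hy2 hne
    obtain ⟨t, t0, t1, ht⟩ := gt j hj
    rw [mul_assoc, hδγ] at ht
    have e : z i + (t : ℂ) * (z (i + 1 : ℕ) - z i) =
        x + (((i + t) * θ : ℝ) : ℂ) * (y - x) := by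
      rw [hz]
      push_cast
      ring
    rw [e] at ht
    refine parex_Q x y y2 (g j) ((i + t) * θ) (5 * δ) (hle1 _ ?_) (hn.2 y2 hy2) ht ?_
    · exact le_trans (mul_le_mul_of_nonneg_right (by linarith) hδ0.le) hi1
    · have s1 := hN.sep K y hy y2 hy2 (Ne.symm hne)
      have hM1' : (P.M₁ : ℝ) ≤ i + t := by
        have : (P.M₁ : ℝ) ≤ i := by exact_mod_cast hM1
        linarith
      have s2 : 12 * ‖x - y‖ ≤ (i + t) * ‖y - y2‖ := by
        have h1 := mul_le_mul_of_nonneg_right hG.hM₁ hK.le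
        have h2 : (P.M₁ : ℝ) * (P.r * ‖P.c‖ ^ K) ≤ (i + t) * ‖y - y2‖ :=
          mul_le_mul hM1' s1 (by positivity) (by linarith)
        linarith
      have s3 := mul_le_mul_of_nonneg_left s2 hθ0.le
      nlinarith
  have hall : ∀ m i : ℕ, i + m = I → ∀ u ∈ P.X Y, ‖z i - u‖ ≤ δ →
      P.Lay Y (2 * P.Fs.card * (P.M₁ - i)) y u := by
    intro m
    induction m with
    | zero =>
      intro i hi u hu hzu
      obtain rfl : i = I := by omega
      refine parex_lay_mono (n := 0) ⟨u, hu, ⟨K - P.N, hy', ?_⟩, Relation.ReflTransGen.refl⟩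
        (Nat.zero_le _)
      have h1 := norm_sub_le_norm_sub_add_norm_sub u (z i) y
      rw [norm_sub_rev u (z i), hzy i hId] at h1
      linarith
    | succ m ih =>
      intro i hi u hu hzu
      obtain ⟨u', hu', hzu', n, hn1, g, g0, gn, gadj, gQ⟩ := hstep i (by omega) u hu hzu
      have h1 := ih (i + 1) (by omega) u' hu' hzu'
      by_cases hM1 : P.M₁ ≤ i
      · have e1 : P.M₁ - (i + 1) = 0 := by omega
        have e2 : P.M₁ - i = 0 := by omega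
        rw [e1, mul_zero] at h1
        rw [e2, mul_zero]
        have : ∀ j ≤ n, P.C0 Y y (g (n - j)) := by
          intro j
          induction j with
          | zero => exact fun _ => by rw [Nat.sub_zero, gn]; exact h1
          | succ j ihj =>
            intro hj
            obtain ⟨x0, hx0, hc, hr⟩ := ihj (by omega)
            refine ⟨x0, hx0, hc, hr.tail ⟨?_, gQ hM1 _ (by omega)⟩⟩
            have := parex_adj_symm (gadj (n - (j + 1)) (by omega))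
            rwa [show n - (j + 1) + 1 = n - j by omega] at this
        have := this n le_rfl
        rwa [Nat.sub_self, g0] at this
      · have : ∀ j ≤ n, P.Lay Y (2 * P.Fs.card * (P.M₁ - (i + 1)) + j) y (g (n - j)) := by
          intro j
          induction j with
          | zero => exact fun _ => by rw [Nat.sub_zero, gn]; exact h1
          | succ j ihj =>
            intro hj
            refine Or.inr ⟨_, ihj (by omega), ?_⟩
            have := parex_adj_symm (gadj (n - (j + 1)) (by omega))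
            rwa [show n - (j + 1) + 1 = n - j by omega] at this
        have := this n le_rfl
        rw [Nat.sub_self, g0] at this
        refine parex_lay_mono this ?_
        rw [show P.M₁ - i = P.M₁ - (i + 1) + 1 by omega, mul_add]
        omega
  refine ⟨P.n₁, le_rfl, y, hall I 0 (by omega) x (Or.inl hx) ?_⟩
  simp [hz, hδ0.le]

end Pool.Agent.H527Z.Per
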