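import Pool.Agent.H527Z.Per.Defs

/-!
# The number theory input `NT`
-/

set_option autoImplicit false

namespace Pool.Agent.H527Z.Per

open NumberField NumberField.InfinitePlace NumberField.mixedEmbedding

/-- the internal space: all infinite places but `v₀` -/
abbrev nt_W (K : Type) [Field K] (v₀ : InfinitePlace K) : Type :=
  ({v : InfinitePlace K // IsReal v} → ℝ) × ({v : InfinitePlace K // IsComplex v ∧ v ≠ v₀} → ℂ)

/-- projection of the mixed space to the internal space -/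
noncomputable def nt_proj (K : Type) [Field K] (v₀ : InfinitePlace K) :
    mixedSpace K →+* nt_W K v₀ where
  toFun x := (x.1, fun v => x.2 ⟨v.1, v.2.1⟩)
  map_one' := rfl
  map_mul' _ _ := rfl
  map_zero' := rfl
  map_add' _ _ := rfl

theorem nt_retract (K : Type) [Field K] (f₀ : K →+* ℂ) :
    ∃ r : ℂ →+ K, (∀ x : K, r (f₀ x) = x) ∧ ∀ (a : K) (z : ℂ), r (f₀ a * z) = a * r z := by
  let _ : Algebra K ℂ := f₀.toAlgebra
  obtain ⟨g, hg⟩ := LinearMap.exists_leftInverse_of_injective (Algebra.linearMap K ℂ)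
    (LinearMap.ker_eq_bot.mpr (algebraMap K ℂ).injective)
  refine ⟨g.toAddMonoidHom, fun x => ?_, fun a z => ?_⟩
  · exact LinearMap.congr_fun hg x
  · have h : f₀ a * z = a • z := (Algebra.smul_def a z).symm
    show g (f₀ a * z) = a * g z
    rw [h, map_smul, smul_eq_mul]

open scoped Classical in
theorem nt_core (K : Type) [Field K] [NumberField K] (f₀ : K →+* ℂ)
    (hf₀ : ¬ ComplexEmbedding.IsReal f₀) (a : K) (ha : IsIntegral ℤ a) (β : ℝ) (hβ0 : 0 ≤ β)
    (hβ : ∀ v : InfinitePlace K, v ≠ mk f₀ → v a ≤ β) :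
    ∃ (W : Type) (_ : NormedAddCommGroup W) (_ : NormedSpace ℝ W) (w : ℂ →+ W)
      (B : W →ₗ[ℝ] W) (Λ : AddSubgroup ℂ) (C₀ : ℝ),
      0 < C₀ ∧ (∀ u, ‖B u‖ ≤ β * ‖u‖) ∧ (∀ x, w (f₀ a * x) = B (w x)) ∧
      (∀ x ∈ Λ, f₀ a * x ∈ Λ) ∧
      (∀ ρ : ℝ, {x : ℂ | x ∈ Λ ∧ ‖x‖ ≤ ρ ∧ ‖w x‖ ≤ ρ}.Finite) ∧
      (∀ (z : ℂ) (u : W), ∃ x ∈ Λ, ‖x - z‖ ≤ C₀ ∧ ‖w x - u‖ ≤ C₀) := by
  obtain ⟨r, hr1, hr2⟩ := nt_retract K f₀
  set v₀ : InfinitePlace K := mk f₀ with hv₀
  have hc₀ : IsComplex v₀ := isComplex_mk_iff.mpr hf₀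
  let w₀ : K →+* nt_W K v₀ := (nt_proj K v₀).comp (mixedEmbedding K)
  have hw1 : ∀ (x : K) (v : {v : InfinitePlace K // IsReal v}),
      (w₀ x).1 v = embedding_of_isReal v.2 x := fun x v => mixedEmbedding_apply_isReal K x v
  have hw2 : ∀ (x : K) (v : {v : InfinitePlace K // IsComplex v ∧ v ≠ v₀}),
      (w₀ x).2 v = v.1.embedding x := fun x v => mixedEmbedding_apply_isComplex K x ⟨v.1, v.2.1⟩
  have hwa : ‖w₀ a‖ ≤ β := by
    rw [Prod.norm_def]
    refine max_le ?_ ?_
    · refine (pi_norm_le_iff_of_nonneg hβ0).mpr fun v => ?_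
      rw [hw1, norm_embedding_of_isReal]
      exact hβ v.1 (ne_of_isReal_isComplex v.2 hc₀)
    · refine (pi_norm_le_iff_of_nonneg hβ0).mpr fun v => ?_
      rw [hw2, norm_embedding_eq]
      exact hβ v.1 v.2.2
  let Λ : AddSubgroup ℂ :=
    AddSubgroup.map f₀.toAddMonoidHom (integralClosure ℤ K).toSubring.toAddSubgroup
  have hΛ : ∀ x : ℂ, x ∈ Λ ↔ ∃ y : K, IsIntegral ℤ y ∧ f₀ y = x := fun x => Iff.rfl
  refine ⟨nt_W K v₀, inferInstance, inferInstance, w₀.toAddMonoidHom.comp r,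
    LinearMap.mulLeft ℝ (w₀ a), Λ, 1 + ∑ i, ‖latticeBasis K i‖, ?_, ?_, ?_, ?_, ?_, ?_⟩
  · have : 0 ≤ ∑ i, ‖latticeBasis K i‖ := Finset.sum_nonneg fun i _ => norm_nonneg _
    linarith
  · intro u
    exact (norm_mul_le _ _).trans (mul_le_mul_of_nonneg_right hwa (norm_nonneg _))
  · intro x
    show w₀ (r (f₀ a * x)) = w₀ a * w₀ (r x)
    rw [hr2, map_mul]
  · intro x hx
    obtain ⟨y, hy, rfl⟩ := (hΛ x).mp hx
    exact (hΛ _).mpr ⟨a * y, ha.mul hy, map_mul _ _ _⟩
  · intro ρ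
    refine ((Embeddings.finite_of_norm_le K ℂ ρ).image f₀).subset ?_
    rintro x ⟨hx, h1, h2⟩
    obtain ⟨y, hy, rfl⟩ := (hΛ x).mp hx
    refine ⟨y, ⟨hy, ?_⟩, rfl⟩
    have h3 : ‖w₀ y‖ ≤ ρ := by
      have : (w₀.toAddMonoidHom.comp r) (f₀ y) = w₀ y := by
        show w₀ (r (f₀ y)) = w₀ y
        rw [hr1]
      rwa [this] at h2
    rw [← le_iff_le]
    intro v
    by_cases hv : v = v₀
    · rw [hv]; exact h1
    · rcases isReal_or_isComplex v with h | h
      · rw [← norm_embedding_of_isReal h, ← hw1 y ⟨v, h⟩]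
        exact ((norm_le_pi_norm _ _).trans (norm_fst_le _)).trans h3
      · rw [← norm_embedding_eq, ← hw2 y ⟨v, h, hv⟩]
        exact ((norm_le_pi_norm _ _).trans (norm_snd_le _)).trans h3
  · intro z u
    obtain ⟨z', hz'⟩ : ∃ z' : ℂ, ∀ y : K, ‖f₀ y - z‖ = ‖v₀.embedding y - z'‖ := by
      rcases embedding_mk_eq f₀ with h | h
      · exact ⟨z, fun y => by rw [hv₀, h]⟩
      · refine ⟨(starRingEnd ℂ) z, fun y => ?_⟩
        rw [hv₀, h, ComplexEmbedding.conjugate_coe_eq, ← map_sub, Complex.norm_conj]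
    let m : mixedSpace K :=
      (u.1, fun v => if h : v.1 = v₀ then z' else u.2 ⟨v.1, v.2, h⟩)
    have hm := ZSpan.norm_fract_le (latticeBasis K) m
    obtain ⟨y, hy⟩ := (mem_span_latticeBasis K).mp (ZSpan.floor (latticeBasis K) m).2
    have hy' : mixedEmbedding K (y : K) = ZSpan.floor (latticeBasis K) m := hy
    rw [ZSpan.fract_apply, ← hy', norm_sub_rev] at hm
    have hm' : ‖mixedEmbedding K (y : K) - m‖ ≤ 1 + ∑ i, ‖latticeBasis K i‖ := by linarith
    refine ⟨f₀ y, (hΛ _).mpr ⟨y, y.2, rfl⟩, ?_, ?_⟩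
    · rw [hz']
      have e : v₀.embedding (y : K) - z' = (mixedEmbedding K (y : K) - m).2 ⟨v₀, hc₀⟩ := by
        simp [m]
      rw [e]
      exact ((norm_le_pi_norm _ _).trans (norm_snd_le _)).trans hm'
    · have e : (w₀.toAddMonoidHom.comp r) (f₀ y) = w₀ y := by
        show w₀ (r (f₀ y)) = w₀ y
        rw [hr1]
      rw [e]
      have h0 : 0 ≤ 1 + ∑ i, ‖latticeBasis K i‖ := (norm_nonneg _).trans hm'
      rw [Prod.norm_def]
      refine max_le ?_ ?_
      · exact (norm_fst_le (mixedEmbedding K (y : K) - m)).trans hm'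
      · refine (pi_norm_le_iff_of_nonneg h0).mpr fun v => ?_
        have e2 : (w₀ y - u).2 v = (mixedEmbedding K (y : K) - m).2 ⟨v.1, v.2.1⟩ := by
          simp [m, hw2, v.2.2]
        rw [e2]
        exact ((norm_le_pi_norm _ _).trans (norm_snd_le _)).trans hm'

theorem nt_field (c : ℂ) (hc : IsIntegral ℤ c) :
    ∃ K : IntermediateField ℚ ℂ, FiniteDimensional ℚ K ∧ ∃ hcK : c ∈ K,
      ¬ ComplexEmbedding.IsReal (algebraMap K ℂ) ∧
      ∀ s : K →+* ℂ, (s ⟨c, hcK⟩ = c ∨ s ⟨c, hcK⟩ = (starRingEnd ℂ) c) →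
        mk s = mk (algebraMap K ℂ) := by
  have hcq : IsIntegral ℚ c := hc.tower_top
  have key : ∀ (S : Set ℂ) (s t : IntermediateField.adjoin ℚ S →+* ℂ),
      (∀ x (hx : x ∈ S), s ⟨x, IntermediateField.subset_adjoin ℚ S hx⟩ =
        t ⟨x, IntermediateField.subset_adjoin ℚ S hx⟩) → s = t := by
    intro S s t h
    have := IntermediateField.adjoin_algHom_ext ℚ (φ₁ := s.toRatAlgHom) (φ₂ := t.toRatAlgHom) h
    ext x
    exact AlgHom.congr_fun this x
  by_cases hreal : (starRingEnd ℂ) c = c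
  · have hI : IsIntegral ℚ Complex.I := by
      refine ⟨Polynomial.X ^ 2 + 1, by monicity!, ?_⟩
      simp
    have hIK : Complex.I ∈ IntermediateField.adjoin ℚ ({c, Complex.I} : Set ℂ) :=
      IntermediateField.subset_adjoin ℚ _ (by simp)
    refine ⟨IntermediateField.adjoin ℚ {c, Complex.I}, ?_,
      IntermediateField.subset_adjoin ℚ _ (by simp), ?_, ?_⟩
    · refine IntermediateField.finiteDimensional_adjoin ?_
      intro x hx
      rcases hx with rfl | rfl
      · exact hcq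
      · exact hI
    · intro h
      have h1 := RingHom.congr_fun (ComplexEmbedding.isReal_iff.mp h) ⟨Complex.I, hIK⟩
      rw [ComplexEmbedding.conjugate_coe_eq] at h1
      have h2 : (starRingEnd ℂ) Complex.I = Complex.I := h1
      have h3 := congrArg Complex.im h2
      norm_num at h3
    · intro s hs
      rw [hreal, or_self] at hs
      have hsq : s ⟨Complex.I, hIK⟩ * s ⟨Complex.I, hIK⟩ = Complex.I * Complex.I := by
        rw [← map_mul, Complex.I_mul_I, ← map_one s, ← map_neg]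
        congr 1
        ext
        simp
      rcases mul_self_eq_mul_self_iff.mp hsq with h | h
      · congr 1
        refine key _ _ _ fun x hx => ?_
        rcases hx with rfl | rfl
        · exact hs
        · exact h
      · rw [← mk_conjugate_eq (algebraMap _ ℂ)]
        congr 1
        refine key _ _ _ fun x hx => ?_
        rcases hx with rfl | rfl
        · rw [ComplexEmbedding.conjugate_coe_eq]
          exact hs.trans hreal.symm
        · rw [ComplexEmbedding.conjugate_coe_eq]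
          exact h.trans Complex.conj_I.symm
  · have hcK : c ∈ IntermediateField.adjoin ℚ ({c} : Set ℂ) :=
      IntermediateField.subset_adjoin ℚ _ (by simp)
    refine ⟨IntermediateField.adjoin ℚ {c}, IntermediateField.adjoin.finiteDimensional hcq,
      hcK, ?_, ?_⟩
    · intro h
      have h1 := RingHom.congr_fun (ComplexEmbedding.isReal_iff.mp h) ⟨c, hcK⟩
      rw [ComplexEmbedding.conjugate_coe_eq] at h1
      exact hreal h1
    · intro s hs
      rcases hs with h | h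
      · congr 1
        refine key _ _ _ fun x hx => ?_
        rcases hx with rfl
        exact h
      · rw [← mk_conjugate_eq (algebraMap _ ℂ)]
        congr 1
        refine key _ _ _ fun x hx => ?_
        rcases hx with rfl
        rw [ComplexEmbedding.conjugate_coe_eq]
        exact h

theorem nt : NT := by
  classical
  intro c hc h1 hμ
  obtain ⟨K, hK, hcK, hf₀, hs⟩ := nt_field c hc
  have _ : NumberField K := NumberField.mk
  let a : K := ⟨c, hcK⟩
  have ha : IsIntegral ℤ a :=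
    (isIntegral_algHom_iff (K.val.toRingHom.toIntAlgHom) Subtype.val_injective).mp hc
  have hlt : ∀ v : InfinitePlace K, v ≠ mk (algebraMap K ℂ) → v a < ‖c‖ := by
    intro v hv
    rw [← norm_embedding_eq]
    refine hμ _ ?_ ?_ ?_
    · have h2 : minpoly ℚ a = minpoly ℚ c := IntermediateField.minpoly_eq a
      have h3 := Polynomial.aeval_algHom_apply v.embedding.toRatAlgHom a (minpoly ℚ a)
      rw [minpoly.aeval, map_zero, h2] at h3
      exact h3
    · intro h
      exact hv ((mk_embedding v).symm.trans (hs _ (Or.inl h)))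
    · intro h
      exact hv ((mk_embedding v).symm.trans (hs _ (Or.inr h)))
  obtain ⟨β, hβ0, hβ1, hβ⟩ : ∃ β : ℝ, 0 ≤ β ∧ β < ‖c‖ ∧
      ∀ v : InfinitePlace K, v ≠ mk (algebraMap K ℂ) → v a ≤ β := by
    by_cases hne : (Finset.univ.filter fun v : InfinitePlace K => v ≠ mk (algebraMap K ℂ)).Nonempty
    · obtain ⟨v, hv, hmax⟩ := Finset.exists_max_image _ (fun v : InfinitePlace K => v a) hne
      refine ⟨v a, apply_nonneg _ _, hlt v (Finset.mem_filter.mp hv).2, fun v' hv' => ?_⟩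
      exact hmax v' (Finset.mem_filter.mpr ⟨Finset.mem_univ _, hv'⟩)
    · refine ⟨0, le_rfl, by linarith, fun v hv => ?_⟩
      exact absurd ⟨v, Finset.mem_filter.mpr ⟨Finset.mem_univ _, hv⟩⟩ hne
  obtain ⟨W, i1, i2, w, B, Λ, C₀, h⟩ := nt_core K (algebraMap K ℂ) hf₀ a ha β hβ0 hβ
  exact ⟨W, i1, i2, w, B, Λ, β, C₀, hβ0, hβ1, h⟩

end Pool.Agent.H527Z.Per
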