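import Pool.Agent.H527Z.Per.Defs3
import Pool.Agent.H527Z.Per.Nt
import Pool.Agent.H527Z.Per.Chain

set_option autoImplicit false

namespace Pool.Agent.H527Z.Per

open Set Filter Topology

lemma pmex_min (F : Finset ℂ) : ∃ r₀ : ℝ, 0 < r₀ ∧ r₀ ≤ 1 ∧ ∀ l ∈ F, l ≠ 0 → r₀ ≤ ‖l‖ := by
  classical
  induction F using Finset.induction_on with
  | empty => exact ⟨1, one_pos, le_rfl, by simp⟩
  | insert a s _ ih =>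
    obtain ⟨r, h0, h1, h2⟩ := ih
    by_cases ha : a = 0
    · refine ⟨r, h0, h1, fun l hl hl0 => ?_⟩
      rcases Finset.mem_insert.1 hl with rfl | hl
      · exact absurd ha hl0
      · exact h2 l hl hl0
    · refine ⟨min r ‖a‖, lt_min h0 (norm_pos_iff.2 ha), (min_le_left _ _).trans h1,
        fun l hl hl0 => ?_⟩
      rcases Finset.mem_insert.1 hl with rfl | hl
      · exact min_le_right _ _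
      · exact (min_le_left _ _).trans (h2 l hl hl0)

lemma pmex_big {a t : ℝ} (ha : 1 < a) (ht : 0 < t) (K : ℝ) :
    ∀ᶠ n : ℕ in atTop, K ≤ t * a ^ n :=
  ((tendsto_pow_atTop_atTop_of_one_lt ha).const_mul_atTop ht).eventually_ge_atTop K

lemma pmex_N {a β K₁ K₂ K₃ s t : ℝ} (ha : 1 < a) (h0 : 0 ≤ β) (h1 : β < a) (hs : 0 < s)
    (ht : 0 < t) (m : ℕ) :
    ∃ N : ℕ, m ≤ N ∧ K₁ * β ^ (N - m) ≤ a ^ (N - m) ∧ K₂ ≤ s * a ^ N ∧ K₃ ≤ t * a ^ N := by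
  have a0 : 0 < a := by linarith
  have e1 : Tendsto (fun n : ℕ => K₁ * (β / a) ^ n) atTop (𝓝 0) := by
    simpa using (tendsto_pow_atTop_nhds_zero_of_lt_one (div_nonneg h0 a0.le)
      ((div_lt_one a0).2 h1)).const_mul K₁
  have e2 := (tendsto_sub_atTop_nat m).eventually (e1.eventually (gt_mem_nhds one_pos))
  obtain ⟨N, n1, n2, n3, n4⟩ := ((eventually_ge_atTop m).and (e2.and
    ((pmex_big ha hs K₂).and (pmex_big ha ht K₃)))).exists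
  refine ⟨N, n1, ?_, n3, n4⟩
  rw [div_pow, ← mul_div_assoc, div_lt_one (pow_pos a0 _)] at n2
  exact n2.le

theorem pmex : PMEX := by
  classical
  intro c hi hc hμ
  obtain ⟨W, i1, i2, w, B, Λ, β, C, b0, b1, -, hB, hw, hΛ, hfin, hco⟩ := nt c hi hc hμ
  obtain ⟨C₀, c1, c2⟩ : ∃ C₀ : ℝ, 1 ≤ C₀ ∧ C ≤ C₀ := ⟨max 1 C, le_max_left _ _, le_max_right _ _⟩
  obtain ⟨J, hJ⟩ := (pmex_big hc one_pos (2 * ‖c‖)).exists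
  rw [one_mul] at hJ
  obtain ⟨Θ, hΘ⟩ : ∃ Θ : ℝ, Θ = ‖c‖ ^ J := ⟨_, rfl⟩
  have t0 : 0 < Θ := by rw [hΘ]; positivity
  obtain ⟨R, hR⟩ : ∃ R : ℝ, R = 4 * C₀ * Θ ^ 2 := ⟨_, rfl⟩
  have r0 : 0 < R := by rw [hR]; positivity
  obtain ⟨D, hD⟩ : ∃ D : ℝ, D = 2 * R * Θ ^ 2 := ⟨_, rfl⟩
  obtain ⟨H, hH⟩ : ∃ H : ℝ, H = 4 * (40 * D * Θ) * Θ := ⟨_, rfl⟩
  obtain ⟨C₄, hC₄⟩ : ∃ C₄ : ℝ, C₄ = 2 * C₀ * Θ ^ 2 * (1 + Θ) := ⟨_, rfl⟩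
  have c4 : 0 ≤ C₄ := by rw [hC₄]; positivity
  have f1 : {l : ℂ | l ∈ Λ ∧ ‖l‖ ≤ H ∧ ‖w l‖ ≤ H + C₄}.Finite :=
    (hfin (H + C₄)).subset fun l hl => ⟨hl.1, hl.2.1.trans (by linarith), hl.2.2⟩
  obtain ⟨r₀, p0, p1, p2⟩ := pmex_min f1.toFinset
  obtain ⟨Fs, hFs⟩ : ∃ Fs : Finset ℂ, ∀ j : ℕ, j ≤ 2 * J → ∀ l ∈ f1.toFinset, c ^ j * l ∈ Fs :=
    ⟨((Finset.range (2 * J + 1)) ×ˢ f1.toFinset).image fun p => c ^ p.1 * p.2,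
      fun j hj l hl => Finset.mem_image.2
        ⟨(j, l), Finset.mem_product.2 ⟨Finset.mem_range.2 (by omega), hl⟩, rfl⟩⟩
  obtain ⟨ε, e0, e1, hch⟩ := chain Fs R r0
  have q0 : 0 < r₀ / Θ := by positivity
  obtain ⟨M₁, hM₁⟩ := exists_nat_ge (12 * R * Θ / (r₀ / Θ))
  rw [div_le_iff₀ q0] at hM₁
  obtain ⟨ρ₀, s1, s2⟩ : ∃ ρ₀ : ℝ, H / (‖c‖ - 1) ≤ ρ₀ ∧ 2 * H ≤ ρ₀ :=
    ⟨max _ _, le_max_left _ _, le_max_right _ _⟩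
  rw [div_le_iff₀' (by linarith)] at s1
  obtain ⟨N, n1, n2, n3, n4⟩ := pmex_N
    (K₁ := 40 * ((Fs.card : ℝ) + 1) * ((H + C₄) / r₀) * (‖c‖ * ρ₀))
    (K₂ := 6 * (4 * R * ((2 * Fs.card * M₁ : ℕ) : ℝ) + 4 * D)) (K₃ := 24 * ‖c‖ * ρ₀)
    hc b0 b1 (mul_pos e0 q0) q0 (2 * J)
  refine ⟨W, i1, i2, ⟨c, w, B, Λ, β, C₀, J, N, M₁, Θ, R, D, 40 * D * Θ, 4 * (40 * D * Θ), H,
    2 * C₀ * Θ ^ 2, C₄, r₀, r₀ / Θ, ε, ρ₀, f1.toFinset, Fs⟩, rfl, hc, b0, b1.le, c1, hB, hw, hΛ,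
    fun z u => ?_, hΘ, hΘ ▸ hJ, hR, hD, rfl, rfl, hH, rfl, hC₄, fun l => f1.mem_toFinset, p0, p1,
    p2, rfl, hFs, e0, e1, hch, hM₁, s1, s2, n1, n2, n3, n4⟩
  obtain ⟨x, h1, h2, h3⟩ := hco z u
  exact ⟨x, h1, h2.trans c2, h3.trans c2⟩

end Pool.Agent.H527Z.Per
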