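import Pool.Agent.H527Z.Per.Defs2

set_option autoImplicit false

namespace Pool.Agent.H527Z.Per

open Set

namespace Dat

variable (d : Dat)

/-- `p` is the parent of `x`, or the origin at level zero -/
def repet_Up (m : ℕ) (x p : ℂ) : Prop :=
  (m = 0 ∧ p = 0) ∨ ∃ m₀, m = m₀ + 1 ∧ d.Par m₀ x p

def repet_Big (m : ℕ) (p : ℂ) : Prop :=
  m = 0 ∨ ∃ m₀, ∃ K : ℤ, m = m₀ + 1 ∧ p ∈ d.Y m₀ K ∧ (d.N : ℤ) ≤ K

def repet_Link (m : ℕ) (x : ℂ) (m' : ℕ) (T : ℂ) : Prop :=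
  ∃ (k : ℤ) (p : ℂ), x ∈ d.Y m k ∧ d.Agr m m' T x (d.ρ * ‖d.c‖ ^ k) ∧ d.repet_Up m x p ∧
    d.repet_Up m' (x + T) (p + T) ∧ (d.repet_Big m p ↔ d.repet_Big m' (p + T))

def repet_LE (x : ℂ) (W : ℝ) (T : ℂ) : Prop :=
  ∀ m y, d.Act m y → ¬ Disjoint (tile d.Par m y) (Metric.closedBall x W) →
    ∃ m', d.repet_Link m y m' T

variable {d}

theorem repet_a_pos (h : d.Sys) : 0 < ‖d.c‖ := lt_trans one_pos h.hc

theorem repet_rho_pos (h : d.Sys) : 0 < d.ρ := by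
  have h1 := h.hρ
  have h2 := h.hier.hD
  have h3 := h.hier.hΘ
  nlinarith

theorem repet_D_le (h : d.Sys) : 40 * d.D ≤ d.ρ := by
  have h1 := h.hρ
  have h2 := h.hier.hD
  have h3 := h.hier.hΘ
  nlinarith

theorem repet_mem {m : ℕ} {k : ℤ} {y : ℂ} (hy : y ∈ d.Y m k) : y ∈ d.Ω m :=
  mem_iUnion.2 ⟨k, hy⟩

theorem repet_agr_self (h : d.Sys) {m m' : ℕ} {T y : ℂ} {k : ℤ}
    (ha : d.Agr m m' T y (d.ρ * ‖d.c‖ ^ k)) (K : ℤ) : y ∈ d.Y m K ↔ y + T ∈ d.Y m' K := by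
  apply ha
  rw [sub_self, norm_zero]
  exact (mul_pos (repet_rho_pos h) (zpow_pos (repet_a_pos h) k)).le

theorem repet_up_uniq (h : d.Sys) {m : ℕ} {x p p' : ℂ} (h1 : d.repet_Up m x p)
    (h2 : d.repet_Up m x p') : p = p' := by
  rcases h1 with ⟨a1, a2⟩ | ⟨m₀, a1, a2⟩ <;> rcases h2 with ⟨b1, b2⟩ | ⟨m₁, b1, b2⟩
  · rw [a2, b2]
  · omega
  · omega
  · have : m₀ = m₁ := by omega
    subst this
    exact h.hier.par_uniq _ _ _ _ a2 b2

theorem repet_big_av {m : ℕ} {x p : ℂ} (h1 : d.repet_Up m x p) (h2 : d.repet_Big m p) :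
    p ∈ d.AV := by
  rcases h2 with b1 | ⟨m₁, K, _, b2, b3⟩
  · rcases h1 with ⟨_, a2⟩ | ⟨m₀, a1, _⟩
    · exact Or.inl a2
    · omega
  · exact Or.inr ⟨m₁, K, b2, b3⟩

theorem repet_big_succ {m : ℕ} {p : ℂ} :
    d.repet_Big (m + 1) p ↔ ∃ K : ℤ, p ∈ d.Y m K ∧ (d.N : ℤ) ≤ K := by
  constructor
  · rintro (h | ⟨m₀, K, h1, h2, h3⟩)
    · omega
    · have : m = m₀ := by omega
      subst this
      exact ⟨K, h2, h3⟩
  · rintro ⟨K, h2, h3⟩
    exact Or.inr ⟨m, K, rfl, h2, h3⟩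

theorem repet_act_big (h : d.Sys) {m : ℕ} {x p : ℂ} (ha : d.Act m x) (h1 : d.repet_Up m x p) :
    d.repet_Big m p := by
  rcases h1 with ⟨a1, _⟩ | ⟨m₀, a1, a2⟩
  · exact Or.inl a1
  · obtain ⟨K, hK⟩ := mem_iUnion.1 (h.hier.par_mem _ _ _ a2).2
    exact Or.inr ⟨m₀, K, a1, hK, ha.2 m₀ p K a1 a2 hK⟩

theorem repet_act_of (h : d.Sys) (hb : d.Base) {m : ℕ} {x p : ℂ} {k : ℤ} (hx : x ∈ d.Y m k)
    (hk : k < d.N) (h1 : d.repet_Up m x p) (h2 : d.repet_Big m p) : d.Act m x := by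
  refine ⟨⟨k, hx, hk⟩, fun m₀ y' K a1 a2 a3 => ?_⟩
  have := repet_up_uniq h h1 (Or.inr ⟨m₀, a1, a2⟩)
  subst this
  subst a1
  obtain ⟨K', b1, b2⟩ := repet_big_succ.1 h2
  rw [hb.lab_uniq _ _ _ _ a3 b1]
  exact b2

theorem repet_link_child (h : d.Sys) (hb : d.Base) {m m' : ℕ} {x T u : ℂ}
    (hl : d.repet_Link m x m' T) (hu : d.Par m u x) : d.repet_Link (m + 1) u (m' + 1) T := by
  obtain ⟨k, _, h1, h2, _⟩ := hl
  obtain ⟨k', hk'⟩ := mem_iUnion.1 (h.hier.par_mem _ _ _ hu).1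
  obtain ⟨a1, a2⟩ := hb.step m m' T x u k k' h1 h2 hu hk'
  refine ⟨k', x, hk', a2, Or.inr ⟨m, rfl, hu⟩, Or.inr ⟨m', rfl, a1⟩, ?_⟩
  rw [repet_big_succ, repet_big_succ]
  exact exists_congr fun K => and_congr_left' (repet_agr_self h h2 K)

theorem repet_link_desc (h : d.Sys) (hb : d.Base) {T u : ℂ} (n : ℕ) : ∀ {m m' : ℕ} {x : ℂ},
    d.repet_Link m x m' T → Desc d.Par n m x u → ∃ m'', d.repet_Link (m + n) u m'' T := by
  induction n with
  | zero =>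
    intro m m' x hl hu
    have : u = x := hu
    rw [this]
    exact ⟨m', hl⟩
  | succ n ih =>
    rintro m m' x hl ⟨w, h1, h2⟩
    have := ih (repet_link_child h hb hl h1) h2
    rwa [show m + 1 + n = m + (n + 1) by omega] at this

theorem repet_link_act (h : d.Sys) (hb : d.Base) {m m' : ℕ} {x T : ℂ}
    (hl : d.repet_Link m x m' T) (ha : d.Act m x) : d.Act m' (x + T) := by
  obtain ⟨k, p, h1, h2, h3, h4, h5⟩ := hl
  obtain ⟨k', a1, a2⟩ := ha.1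
  exact repet_act_of h hb ((repet_agr_self h h2 k').1 a1) a2 h4 (h5.1 (repet_act_big h ha h3))

theorem repet_meet_add {t : Set ℂ} {x T : ℂ} {W : ℝ} :
    ¬ Disjoint ((fun w => w + T) '' t) (Metric.closedBall (x + T) W) ↔
      ¬ Disjoint t (Metric.closedBall x W) := by
  rw [not_disjoint_iff, not_disjoint_iff]
  constructor
  · rintro ⟨_, ⟨q, h1, rfl⟩, h2⟩
    exact ⟨q, h1, by simpa using h2⟩
  · rintro ⟨q, h1, h2⟩
    exact ⟨q + T, ⟨q, h1, rfl⟩, by simpa using h2⟩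

theorem repet_link_free (h : d.Sys) (hb : d.Base) {m m' : ℕ} {x T : ℂ}
    (hl : d.repet_Link m x m' T) (hf : d.Free m x) :
    d.Rel (tile d.Par m x) ((fun w => w + T) '' tile d.Par m x) T := by
  have ha := repet_link_act h hb hl hf.1
  obtain ⟨k, p, h1, h2, h3, h4, h5⟩ := hl
  have ht := hb.tile_add m m' T x k h1 h2
  refine Or.inl ⟨m, x, m', k, hf, ⟨ha, fun v hv => ?_⟩, rfl, ht.symm, h1, h2⟩
  by_contra hc
  obtain ⟨_, _, _, _, _, _, _, a⟩ := hb.near_small v hv 1 h.hc.le m' (x + T) ha hc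
  have hup : d.repet_Up m' (x + T) v := by
    rcases a with a | ⟨m₀, K, a1, a2, _⟩
    · exact Or.inl a
    · exact Or.inr ⟨m₀, a1, a2⟩
  have hv' := repet_up_uniq h hup h4
  rw [hv', ht, repet_meet_add] at hc
  exact hc (hf.2 p (repet_big_av h3 (repet_act_big h hf.1 h3)))

theorem repet_cen_sub (h : d.Sys) (hb : d.Base) {v : ℂ} (hv : v ∈ d.AV) :
    d.Cen v ⊆ Metric.closedBall v 3 := by
  rintro z (hz | ⟨m, y, h1, h2, h3⟩)
  · exact Metric.closedBall_subset_closedBall (by norm_num) hz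
  · obtain ⟨_, _, _, _, _, a, _⟩ := hb.near_small v hv 1 h.hc.le m y h1 h2
    simpa using a h3

theorem repet_self_mem (m : ℕ) (y : ℂ) : y ∈ tile d.Par m y :=
  subset_closure ⟨0, rfl⟩

theorem repet_pow_mem (h : d.Sys) {m : ℕ} {y : ℂ} (n : ℕ) (k : ℤ) :
    y ∈ d.Y m k ↔ d.c ^ n * y ∈ d.Y m (k + n) := by
  induction n with
  | zero => simp
  | succ n ih =>
    rw [ih, h.eqv_mem, pow_succ', mul_assoc]
    push_cast
    rw [add_assoc]

theorem repet_pow_tile (hb : d.Base) {m : ℕ} {y q : ℂ} (n : ℕ) (hq : q ∈ tile d.Par m y) :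
    d.c ^ n * q ∈ tile d.Par m (d.c ^ n * y) := by
  induction n with
  | zero => simpa using hq
  | succ n ih =>
    rw [pow_succ', mul_assoc, mul_assoc, hb.tile_mul]
    exact ⟨_, ih, rfl⟩

theorem repet_large (h : d.Sys) (C : ℝ) (k : ℤ) : ∃ n₀ : ℕ, ∀ n : ℕ, n₀ ≤ n →
    ∀ k' : ℤ, k ≤ k' → C ≤ ‖d.c‖ ^ (k' + n) := by
  have ha := repet_a_pos h
  obtain ⟨n₀, h1⟩ := pow_unbounded_of_one_lt (C / ‖d.c‖ ^ k) h.hc
  refine ⟨n₀, fun n hn k' hk => ?_⟩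
  rw [div_lt_iff₀ (zpow_pos ha k), ← zpow_natCast, ← zpow_add₀ ha.ne'] at h1
  exact h1.le.trans (zpow_le_zpow_right₀ h.hc.le (by omega))

theorem repet_small (h : d.Sys) : ∃ k : ℤ, k ≤ 0 ∧ ∃ u ∈ d.Y 0 k, ‖u‖ ≤ 1 := by
  have ha := repet_a_pos h
  have hc0 : d.c ≠ 0 := norm_pos_iff.1 ha
  obtain ⟨y, hy, _⟩ := h.hier.dens 0 1 (by rw [h.V0]; simp)
  obtain ⟨k, hk⟩ := mem_iUnion.1 hy
  obtain ⟨n₀, h1⟩ := pow_unbounded_of_one_lt ‖y‖ h.hc
  refine ⟨k - (n₀ + k.toNat : ℕ), by omega, y / d.c ^ (n₀ + k.toNat), ?_, ?_⟩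
  · rw [repet_pow_mem h (n₀ + k.toNat), mul_div_cancel₀ _ (pow_ne_zero _ hc0), sub_add_cancel]
    exact hk
  · rw [norm_div, norm_pow, div_le_one (pow_pos ha _)]
    exact h1.le.trans (pow_le_pow_right₀ h.hc.le (by omega))

theorem repet_pe (h : d.Sys) (hb : d.Base) {x T : ℂ} {R : ℝ} (hl : d.repet_LE x (R + 4) T) :
    ∀ s ∈ d.TT, ¬ Disjoint s (Metric.closedBall x R) → d.Rel s ((fun w => w + T) '' s) T := by
  rintro s (⟨m, y, hf, rfl⟩ | ⟨v, hv, rfl⟩) hs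
  · obtain ⟨m', h1⟩ := hl m y hf.1 fun hc =>
      hs (hc.mono_right (Metric.closedBall_subset_closedBall (by linarith)))
    exact repet_link_free h hb h1 hf
  · obtain ⟨q, q1, q2⟩ := not_disjoint_iff.1 hs
    have q3 := repet_cen_sub h hb hv q1
    obtain ⟨k, hk, u, hu, hu1⟩ := repet_small h
    have hN := hb.hN
    have key : ∃ m, u + v ∈ d.Y m k ∧ d.repet_Up m (u + v) v ∧ d.repet_Big m v := by
      rcases hv with rfl | ⟨m, K, a1, a2⟩
      · exact ⟨0, by simpa using hu, Or.inl ⟨rfl, rfl⟩, Or.inl rfl⟩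
      · obtain ⟨b1, b2⟩ := hb.planted m K v a1 a2 k u hu (by omega)
        exact ⟨m + 1, b1, Or.inr ⟨m, rfl, b2⟩, Or.inr ⟨m, K, rfl, a1, a2⟩⟩
    obtain ⟨m, a1, a2, a3⟩ := key
    obtain ⟨m', _, p, _, _, b3, b4, b5⟩ := hl m (u + v) (repet_act_of h hb a1 (by omega) a2 a3)
      (not_disjoint_iff.2 ⟨u + v, repet_self_mem _ _, by
        rw [Metric.mem_closedBall] at q2 q3 ⊢
        have c1 := dist_triangle4 (u + v) v q x
        have c2 : dist (u + v) v = ‖u‖ := by simp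
        rw [dist_comm] at q3
        linarith⟩)
    have := repet_up_uniq h b3 a2
    subst this
    have hv' := repet_big_av b4 (b5.1 a3)
    refine Or.inr ⟨p, hv, hv', rfl, ?_⟩
    rw [hb.cen_add p hv, hb.cen_add _ hv', image_image]
    simp only [add_assoc]

theorem repet_le_mono {x x' T : ℂ} {W W' : ℝ} (hl : d.repet_LE x W T)
    (hW : ‖x' - x‖ + W' ≤ W) : d.repet_LE x' W' T := by
  intro m y h1 h2
  refine hl m y h1 fun hc => h2 (hc.mono_right (Metric.closedBall_subset_closedBall' ?_))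
  rw [dist_eq_norm]
  linarith

theorem repet_le_refl (h : d.Sys) (x : ℂ) (W : ℝ) : d.repet_LE x W 0 := by
  intro m y h1 _
  obtain ⟨k, hk, _⟩ := h1.1
  have : ∃ p, d.repet_Up m y p := by
    cases m with
    | zero => exact ⟨0, Or.inl ⟨rfl, rfl⟩⟩
    | succ m =>
      obtain ⟨p, hp⟩ := h.hier.par_ex m y (repet_mem hk)
      exact ⟨p, Or.inr ⟨m, rfl, hp⟩⟩
  obtain ⟨p, hp⟩ := this
  exact ⟨m, k, p, hk, fun _ _ _ => by simp, hp, by simpa using hp, by simp⟩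

theorem repet_le_trans (h : d.Sys) (hb : d.Base) {x T T' : ℂ} {W : ℝ} (h1 : d.repet_LE x W T)
    (h2 : d.repet_LE (x + T) W T') : d.repet_LE x W (T + T') := by
  intro m y a1 a2
  obtain ⟨m', hl⟩ := h1 m y a1 a2
  have a3 := repet_link_act h hb hl a1
  obtain ⟨k, p, b1, b2, b3, b4, b5⟩ := hl
  obtain ⟨m'', k', p', c1, c2, c3, c4, c5⟩ := h2 m' (y + T) a3 (by
    rw [hb.tile_add m m' T y k b1 b2, repet_meet_add]; exact a2)
  have e1 := repet_up_uniq h c3 b4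
  subst e1
  have e2 := hb.lab_uniq _ _ _ _ c1 ((repet_agr_self h b2 k).1 b1)
  subst e2
  refine ⟨m'', k', p, b1, fun K u hu => ?_, b3, by simpa only [add_assoc] using c4,
    by simpa only [add_assoc] using b5.trans c5⟩
  rw [b2 K u hu, c2 K (u + T) (by simpa using hu), add_assoc]

theorem repet_num (h : d.Sys) {W : ℝ} {k K : ℤ} (h1 : (d.M - 2 * d.D) * ‖d.c‖ ^ k ≤ W)
    (h2 : W ≤ 4 * ‖d.c‖ ^ K) : k < K ∧ ∀ x u : ℂ, ‖x‖ < ‖d.c‖ * d.ρ₀ * ‖d.c‖ ^ k →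
      ‖u - x‖ ≤ d.ρ * ‖d.c‖ ^ k → ‖u‖ < ‖d.c‖ * d.ρ₀ * ‖d.c‖ ^ K := by
  have ha := repet_a_pos h
  have hc := h.hc
  have hM := h.hM'
  have hD := h.hier.hD
  have hk := zpow_pos ha k
  have hK := zpow_pos ha K
  have h3 : 10 * ‖d.c‖ ^ k ≤ 4 * ‖d.c‖ ^ K := by nlinarith
  refine ⟨(zpow_lt_zpow_iff_right₀ hc).1 (by linarith), fun x u a1 a2 => ?_⟩
  have a3 : ‖u‖ ≤ ‖u - x‖ + ‖x‖ := by simpa using norm_add_le (u - x) x
  have a4 := h.hρ₀
  have a5 := repet_rho_pos h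
  have a6 : d.ρ ≤ ‖d.c‖ * d.ρ₀ := by nlinarith
  have a7 := mul_le_mul_of_nonneg_right a6 hk.le
  have a8 := mul_le_mul_of_nonneg_left h3 (a5.le.trans a6)
  nlinarith [mul_pos (a5.trans_le a6) hK]

theorem repet_le_zero (h : d.Sys) (hb : d.Base) {m₀ : ℕ} {K : ℤ} {v : ℂ} {W : ℝ}
    (hv : v ∈ d.Y m₀ (K + d.N)) (hK : 0 ≤ K) (hW : W ≤ 4 * ‖d.c‖ ^ K) : d.repet_LE 0 W v := by
  intro m y h1 h2
  obtain ⟨x, hx, a1, a2⟩ := hb.near_zero W m y h1 h2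
  obtain ⟨k, hk⟩ := mem_iUnion.1 hx
  rw [h.hs _ _ _ hk] at a2
  obtain ⟨b1, b2⟩ := repet_num h a2 hW
  have hl : d.repet_Link 0 x (m₀ + 1) v := by
    refine ⟨k, 0, hk, fun k' u hu => h.plant m₀ K v hv u (b2 x u (h.base k x hk).2 hu) k',
      Or.inl ⟨rfl, rfl⟩, Or.inr ⟨m₀, rfl, ?_⟩, iff_of_true (Or.inl rfl)
      (Or.inr ⟨m₀, K + d.N, rfl, by simpa using hv, by omega⟩)⟩
    rw [zero_add]
    exact (hb.planted m₀ _ v hv (by omega) k x hk (by omega)).2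
  simpa using repet_link_desc h hb m hl a1

theorem repet_le_seed (h : d.Sys) (hb : d.Base) {m₀ : ℕ} {K : ℤ} {v : ℂ} {W : ℝ}
    (hv : v ∈ d.Y m₀ (K + d.N)) (hK : 0 ≤ K) (hW : W ≤ 4 * ‖d.c‖ ^ K) :
    d.repet_LE v W (-v) := by
  intro m y h1 h2
  have ha := repet_a_pos h
  have hW3 : 3 * W < d.r * ‖d.c‖ ^ (K + d.N) := by
    rw [zpow_add₀ ha.ne', zpow_natCast]
    have a1 := h.hrS
    have a2 := h.hρ₀
    have a3 := repet_rho_pos h
    have a4 := h.hc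
    have a5 := zpow_pos ha K
    have a6 : 24 ≤ d.r * ‖d.c‖ ^ d.N := by nlinarith
    nlinarith
  obtain ⟨n, x, rfl, a1, a2, a3⟩ := hb.near_seed m₀ _ v hv (by omega) W hW3 m y h1 h2
  obtain ⟨k, hk⟩ := mem_iUnion.1 (h.hier.par_mem _ _ _ a2).1
  rw [h.hs _ _ _ hk] at a3
  obtain ⟨b1, b2⟩ := repet_num h a3 hW
  have b3 := (h.child m₀ x v k K a2 hk hv).resolve_left b1.ne
  have b4 : x - v ∈ d.Y 0 k := (h.plant m₀ K v hv _ b3 k).2 (by simpa using hk)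
  have hl : d.repet_Link (m₀ + 1) x 0 (-v) := by
    refine ⟨k, v, hk, fun k' u hu => ?_, Or.inr ⟨m₀, rfl, a2⟩, Or.inl ⟨rfl, by simp⟩,
      iff_of_true (Or.inr ⟨m₀, K + d.N, rfl, hv, by omega⟩) (Or.inl rfl)⟩
    have := h.plant m₀ K v hv (u + -v) (b2 (x - v) _ (h.base k _ b4).2 (by
      rwa [show u + -v - (x - v) = u - x by ring])) k'
    rw [this]
    simp
  exact repet_link_desc h hb n hl a1

theorem repet_anc (h : d.Sys) (ho : d.OK) (m n : ℕ) : ∀ y ∈ d.Ω (m + n), ∃ x ∈ d.Ω m,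
    Desc d.Par n m x y ∧ tile d.Par (m + n) y ⊆ tile d.Par m x := by
  induction n generalizing m with
  | zero => exact fun y hy => ⟨y, hy, rfl, subset_rfl⟩
  | succ n ih =>
    intro y hy
    rw [show m + (n + 1) = m + 1 + n by omega] at hy ⊢
    obtain ⟨u, h1, h2, h3⟩ := ih (m + 1) y hy
    obtain ⟨x, hx⟩ := h.hier.par_ex m u h1
    refine ⟨x, (h.hier.par_mem _ _ _ hx).2, ⟨u, hx, h2⟩, h3.trans ?_⟩
    rw [ho.split m x (h.hier.par_mem _ _ _ hx).2]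
    exact fun z hz => Or.inr (mem_biUnion (s := {x' | d.Par m x' x}) hx hz)

theorem repet_V (h : d.Sys) (m n : ℕ) : d.Ω m ⊆ d.V (m + 1 + n) := by
  induction n with
  | zero => rw [add_zero, h.hier.V_succ]; exact subset_union_right
  | succ n ih => rw [← add_assoc, h.hier.V_succ]; exact ih.trans subset_union_left

theorem repet_le_free (h : d.Sys) (ho : d.OK) (hb : d.Base) {m m' : ℕ} {Y T x : ℂ} {k : ℤ} {W : ℝ}
    (hY : Y ∈ d.Y m k) (hA : d.Agr m m' T Y (d.ρ * ‖d.c‖ ^ k)) (hx : x ∈ tile d.Par m Y)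
    (h1 : d.Θ * ‖d.c‖ ^ d.N ≤ ‖d.c‖ ^ k) (h2 : W ≤ ‖d.c‖ ^ k) (h3 : 8 * W / d.ρ ≤ ‖d.c‖ ^ k) :
    d.repet_LE x W T := by
  intro m₁ y₁ a1 a2
  obtain ⟨q, q1, q2⟩ := not_disjoint_iff.1 a2
  rw [Metric.mem_closedBall, dist_eq_norm] at q2
  have ha := repet_a_pos h
  have hc := h.hc
  have hρ := repet_rho_pos h
  have hD := h.hier.hD
  have hD' := repet_D_le h
  have hM := h.hM'
  have hρM := h.hρM
  have hΘ := h.hier.hΘ
  set A := ‖d.c‖ ^ k with hAdef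
  have hA0 : 0 < A := zpow_pos ha k
  rw [div_le_iff₀ hρ] at h3
  have sY := h.hs _ _ _ hY
  have r1 := ho.rad m Y (repet_mem hY) x hx
  rw [sY] at r1
  have r2 : ‖q - Y‖ ≤ W + 2 * d.D * A := by
    have := norm_add_le (q - x) (x - Y)
    rw [sub_add_sub_cancel] at this
    linarith
  have hDA := mul_le_mul_of_nonneg_right hD' hA0.le
  have hMA := mul_le_mul_of_nonneg_right hM hA0.le
  have hρA := mul_le_mul_of_nonneg_right hρM hA0.le
  have hcA := mul_le_mul_of_nonneg_right hc.le hA0.le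
  have hρA0 := mul_pos hρ hA0
  obtain ⟨k₁, b1, b2⟩ := a1.1
  rcases le_or_gt m₁ m with hm | hm
  · exfalso
    have c1 : ‖d.c‖ ^ k₁ < ‖d.c‖ ^ d.N := by
      rw [← zpow_natCast]; exact zpow_lt_zpow_right₀ hc b2
    have c0 := zpow_pos ha k₁
    have c2 := ho.rad m₁ y₁ (repet_mem b1) q q1
    rw [h.hs _ _ _ b1] at c2
    have c3 : ‖d.c‖ ^ d.N ≤ A := by nlinarith [pow_pos ha d.N]
    have c4 : ‖Y - y₁‖ < d.M * A := by
      have e1 := norm_sub_le (q - y₁) (q - Y)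
      rw [show q - y₁ - (q - Y) = Y - y₁ by ring] at e1
      have e2 := mul_le_mul_of_nonneg_left (c1.le.trans c3) hD.le
      linarith
    rcases hm.lt_or_eq with hm' | rfl
    · obtain ⟨j, rfl⟩ := Nat.exists_eq_add_of_lt hm'
      have := h.hier.far _ Y (repet_mem hY) y₁ (by
        rw [show m₁ + j + 1 = m₁ + 1 + j by omega]; exact repet_V h m₁ j (repet_mem b1))
      rw [sY] at this
      linarith
    · have := (h.hier.comp _ Y (repet_mem hY) y₁ (repet_mem b1) (by rw [sY]; exact c4.le)).2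
      rw [sY, h.hs _ _ _ b1] at this
      nlinarith
  obtain ⟨j, rfl⟩ := Nat.exists_eq_add_of_lt hm
  rw [show m + j + 1 = m + 1 + j by omega] at *
  obtain ⟨x₁, c1, c2, c3⟩ := repet_anc h ho (m + 1) j y₁ (repet_mem b1)
  obtain ⟨p, hp⟩ := h.hier.par_ex m x₁ c1
  have hpm := (h.hier.par_mem _ _ _ hp).2
  have c4 : q ∈ tile d.Par m p := by
    rw [ho.split m p hpm]
    exact Or.inr (mem_biUnion (s := {x' | d.Par m x' p}) hp (c3 q1))
  have c5 := ho.near m p hpm q c4 Y (repet_mem hY)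
  have c6 : ‖p - Y‖ ≤ 3 * (W + 2 * d.D * A) := by
    have e1 := norm_sub_le (q - Y) (q - p)
    rw [show q - Y - (q - p) = p - Y by ring] at e1
    linarith
  have c7 : ‖p - Y‖ ≤ d.ρ * A := by linarith
  have c8 := (h.hier.comp _ Y (repet_mem hY) p hpm (by rw [sY, norm_sub_rev]; linarith)).1
  obtain ⟨k', hk'⟩ := mem_iUnion.1 c1
  have c9 := h.hier.par_scale m x₁ p hp
  rw [h.hs _ _ _ hk'] at c9
  rw [sY] at c8
  have hk0 := zpow_pos ha k'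
  have c10 : 4 * ‖d.c‖ ^ k' ≤ A := by
    have e1 := mul_le_mul_of_nonneg_left h.hΘS hk0.le
    have e2 : d.Θ * (4 * ‖d.c‖ ^ k') ≤ d.Θ * A := by linarith
    exact le_of_mul_le_mul_left e2 (by linarith)
  have c11 := ho.rad _ x₁ c1 q (c3 q1)
  rw [h.hs _ _ _ hk'] at c11
  have c12 : ∀ u, ‖u - x₁‖ ≤ d.ρ * ‖d.c‖ ^ k' → ‖u - Y‖ ≤ d.ρ / 2 * A := by
    intro u hu
    have e1 := norm_add_le (u - x₁) (x₁ - Y)
    have e2 := norm_sub_le (q - Y) (q - x₁)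
    rw [sub_add_sub_cancel] at e1
    rw [show q - Y - (q - x₁) = x₁ - Y by ring] at e2
    have e3 := mul_le_mul_of_nonneg_left c10 hD.le
    have e4 := mul_le_mul_of_nonneg_left c10 hρ.le
    linarith
  have hl : d.repet_Link (m + 1) x₁ (m' + 1) T := by
    refine ⟨k', p, hk', fun K u hu => (h.loc m m' T Y k hY hA u (c12 u hu)).1 K,
      Or.inr ⟨m, rfl, hp⟩, Or.inr ⟨m', rfl, ((h.loc m m' T Y k hY hA x₁ (c12 x₁ ?_)).2 p).1 hp⟩, ?_⟩
    · rw [sub_self, norm_zero]; positivity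
    · rw [repet_big_succ, repet_big_succ]
      exact exists_congr fun K => and_congr_left' (hA K p c7)
  exact repet_link_desc h hb j hl c2

theorem repet_near {x v : ℂ} (h : d.Sys) (n : ℕ) {B : ℝ} (hx : ‖x / d.c ^ n - v‖ ≤ B) :
    ‖x - d.c ^ n * v‖ ≤ ‖d.c‖ ^ n * B := by
  have ha := repet_a_pos h
  have hc0 : d.c ^ n ≠ 0 := pow_ne_zero _ (norm_pos_iff.1 ha)
  rw [show x - d.c ^ n * v = d.c ^ n * (x / d.c ^ n - v) by field_simp, norm_mul, norm_pow]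
  exact mul_le_mul_of_nonneg_left hx (pow_pos ha n).le

theorem repet_back (h : d.Sys) (ho : d.OK) (hb : d.Base) (ht : IsTiling d.TT)
    {G : Set (Set ℂ)} (hG : G.Finite) (hG' : ∀ t ∈ d.TT, ∃ t' ∈ G, ∃ z, d.Rel t t' z) (W : ℝ) :
    ∃ B : ℝ, ∀ x, ∃ z, ‖x + z‖ ≤ B ∧ d.repet_LE x W z := by
  have ha := repet_a_pos h
  obtain ⟨k₀, hk₀⟩ := hb.free_lab
  obtain ⟨n₁, e1⟩ := repet_large h (d.Θ * ‖d.c‖ ^ d.N) k₀
  obtain ⟨n₂, e2⟩ := repet_large h W k₀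
  obtain ⟨n₃, e3⟩ := repet_large h (8 * W / d.ρ) k₀
  obtain ⟨n₄, e4⟩ := repet_large h W 0
  set n := n₁ + n₂ + n₃ + n₄ with hn
  have hc0 : d.c ^ n ≠ 0 := pow_ne_zero _ (norm_pos_iff.1 ha)
  have hbd : Bornology.IsBounded (⋃₀ (G ∩ d.TT)) :=
    (Bornology.isBounded_sUnion (hG.inter_of_left _)).2 fun t h1 => (ht.1 t h1.2).1.isBounded
  obtain ⟨B, hB⟩ := hbd.exists_norm_le
  refine ⟨‖d.c‖ ^ n * max B 3, fun x => ?_⟩
  obtain ⟨t, t1, t2⟩ : x / d.c ^ n ∈ ⋃₀ d.TT := by rw [ht.2.1]; trivial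
  obtain ⟨t', g1, z, ⟨m, y, m', k, f1, f2, rfl, rfl, f3, f4⟩ | ⟨v, hv, _, rfl, _⟩⟩ := hG' t t1
  · refine ⟨d.c ^ n * z, ?_, ?_⟩
    · have a1 : x / d.c ^ n + z ∈ tile d.Par m' (y + z) := by
        rw [hb.tile_add m m' z y k f3 f4]; exact ⟨_, t2, rfl⟩
      have a2 := hB _ ⟨_, ⟨g1, Or.inl ⟨m', y + z, f2, rfl⟩⟩, a1⟩
      have a3 := repet_near (x := x) (v := -z) h n (B := max B 3) (by
        rw [sub_neg_eq_add]; exact a2.trans (le_max_left _ _))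
      simpa using a3
    · have hk := hk₀ m y k f1 f3
      refine repet_le_free h ho hb (m' := m') ((repet_pow_mem h n k).1 f3) (fun K u hu => ?_) ?_
        (e1 n (by omega) k hk) (e2 n (by omega) k hk) (e3 n (by omega) k hk)
      · have a1 := f4 (K - n) (u / d.c ^ n) (by
          rw [show u / d.c ^ n - y = (u - d.c ^ n * y) / d.c ^ n by field_simp, norm_div, norm_pow,
            div_le_iff₀ (pow_pos ha n), mul_assoc, ← zpow_natCast ‖d.c‖, ← zpow_add₀ ha.ne']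
          exact hu)
        rw [repet_pow_mem h n, repet_pow_mem h n (K - n), sub_add_cancel, mul_add,
          mul_div_cancel₀ _ hc0] at a1
        exact a1
      · have := repet_pow_tile hb n t2
        rwa [mul_div_cancel₀ _ hc0] at this
  · have a1 := repet_cen_sub h hb hv t2
    rw [Metric.mem_closedBall, dist_eq_norm] at a1
    have a2 := repet_near h n a1
    have a3 := mul_le_mul_of_nonneg_left (le_max_right B 3) (pow_pos ha n).le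
    rcases hv with rfl | ⟨m, K, b1, b2⟩
    · exact ⟨0, by simpa using a2.trans a3, repet_le_refl h x W⟩
    · refine ⟨-(d.c ^ n * v), by rw [← sub_eq_add_neg]; exact a2.trans a3, ?_⟩
      refine repet_le_mono (repet_le_seed h hb (m₀ := m) (K := K + n - d.N) ?_ (by omega) le_rfl) ?_
      · rw [sub_add_cancel]; exact (repet_pow_mem h n K).1 b1
      · have c1 := e4 n (by omega) 0 le_rfl
        rw [zero_add] at c1
        have c2 : ‖d.c‖ ^ (n : ℤ) ≤ ‖d.c‖ ^ (K + n - d.N) := zpow_le_zpow_right₀ h.hc.le (by omega)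
        rw [zpow_natCast] at c1 c2
        linarith

theorem repet_dense (h : d.Sys) (ho : d.OK) (hb : d.Base) (ht : IsTiling d.TT) (W : ℝ) :
    ∃ B : ℝ, ∀ y, ∃ v, ‖y - v‖ ≤ B ∧ d.repet_LE 0 W v := by
  have ha := repet_a_pos h
  obtain ⟨k₀, hk₀⟩ := hb.free_lab
  obtain ⟨n₁, e1⟩ := repet_large h (W / 4) (min k₀ 0 - d.N)
  set n := n₁ + (d.N - k₀).toNat with hn
  refine ⟨‖d.c‖ ^ n * max (2 * d.D * ‖d.c‖ ^ d.N) 3, fun y => ?_⟩
  obtain ⟨t, ⟨m, y', f1, rfl⟩ | ⟨v, hv, rfl⟩, t2⟩ : y / d.c ^ n ∈ ⋃₀ d.TT := by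
    rw [ht.2.1]; trivial
  · obtain ⟨k, f2, f3⟩ := f1.1.1
    have hk := hk₀ m y' k f1 f2
    refine ⟨d.c ^ n * y', repet_near h n (le_trans ?_ (le_max_left _ _)),
      repet_le_zero h hb (m₀ := m) (K := k - d.N + n) ?_ (by omega) ?_⟩
    · refine (ho.rad m y' (repet_mem f2) _ t2).trans ?_
      rw [h.hs _ _ _ f2, ← zpow_natCast]
      exact mul_le_mul_of_nonneg_left (zpow_le_zpow_right₀ h.hc.le f3.le)
        (by linarith [h.hier.hD])
    · rw [show k - d.N + n + d.N = k + n by ring]; exact (repet_pow_mem h n k).1 f2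
    · linarith [e1 n (by omega) (k - d.N) (by omega)]
  · have a1 := repet_cen_sub h hb hv t2
    rw [Metric.mem_closedBall, dist_eq_norm] at a1
    refine ⟨d.c ^ n * v, repet_near h n (a1.trans (le_max_right _ _)), ?_⟩
    rcases hv with rfl | ⟨m, K, b1, b2⟩
    · rw [mul_zero]; exact repet_le_refl h 0 W
    · refine repet_le_zero h hb (m₀ := m) (K := K - d.N + n) ?_ (by omega) ?_
      · rw [show K - d.N + n + d.N = K + n by ring]; exact (repet_pow_mem h n K).1 b1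
      · linarith [e1 n (by omega) (K - d.N) (by omega)]

end Dat

theorem repet : REPET := by
  rintro d h ho hb ht ⟨G, hG, hG'⟩ R
  obtain ⟨B, hB⟩ := Dat.repet_back h ho hb ht hG hG' (R + 4)
  obtain ⟨B', hB'⟩ := Dat.repet_dense h ho hb ht (B + (R + 4))
  refine ⟨B + B', fun x y => ?_⟩
  obtain ⟨z, z1, z2⟩ := hB x
  obtain ⟨v, v1, v2⟩ := hB' y
  refine ⟨z + v, ?_, Dat.repet_pe h hb (Dat.repet_le_trans h hb z2
    (Dat.repet_le_mono v2 (by rw [sub_zero]; linarith)))⟩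
  have := norm_sub_le (x + z) (y - v)
  rw [show x + z - (y - v) = x + (z + v) - y by ring] at this
  linarith

end Pool.Agent.H527Z.Per
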