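import Pool.Agent.H527Z.Per.Defs3

/-!
# The refinement step preserves the invariants
-/

set_option autoImplicit false
set_option maxHeartbeats 400000

namespace Pool.Agent.H527Z.Per

open Set

section

variable {W : Type} [NormedAddCommGroup W] [NormedSpace ℝ W] {P : Pm W}

/-- numerical facts on the parameters -/
structure step_Num (P : Pm W) : Prop where
  ha : 1 < ‖P.c‖
  hT : 2 ≤ P.Θ
  hR : 16 ≤ P.R
  hCR : 3 * P.C₀ ≤ P.R
  hRD : P.R ≤ P.D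
  hM : P.M = 160 * P.D * P.Θ
  hρ : P.ρ = 40 * P.D * P.Θ
  hH : P.H = P.M * P.Θ
  hMH : P.M ≤ P.H
  hM0 : 16 ≤ P.M
  hDM : 4 * P.D ≤ P.M
  hρ₀ : P.H ≤ (‖P.c‖ - 1) * P.ρ₀
  hρ₀' : 2 * P.H ≤ P.ρ₀
  hS : 24 * ‖P.c‖ * P.ρ₀ ≤ ‖P.c‖ ^ P.N
  hS4 : 4 ≤ ‖P.c‖ ^ P.N
  pos : ∀ k : ℤ, 0 < ‖P.c‖ ^ k
  mono : ∀ k k' : ℤ, k ≤ k' → ‖P.c‖ ^ k ≤ ‖P.c‖ ^ k'
  lt : ∀ k k' : ℤ, ‖P.c‖ ^ k < ‖P.c‖ ^ k' → k < k'
  succ : ∀ k : ℤ, ‖P.c‖ ^ (k + 1) = ‖P.c‖ * ‖P.c‖ ^ k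
  addJ : ∀ k : ℤ, ‖P.c‖ ^ (k + P.J) = P.Θ * ‖P.c‖ ^ k
  addN : ∀ k : ℤ, ‖P.c‖ ^ (k + P.N) = ‖P.c‖ ^ P.N * ‖P.c‖ ^ k

lemma step_num (hG : P.Good) : step_Num P := by
  have ha := hG.hc
  have ha0 : 0 < ‖P.c‖ := by linarith
  have hT : 2 ≤ P.Θ := by linarith [hG.hJ]
  have hC := hG.hC₀
  have hT2 : 4 ≤ P.Θ ^ 2 := by nlinarith
  have hR : 16 ≤ P.R := by rw [hG.hR]; nlinarith
  have hCR : 3 * P.C₀ ≤ P.R := by rw [hG.hR]; nlinarith
  have hRD : P.R ≤ P.D := by rw [hG.hD]; nlinarith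
  have hM : P.M = 160 * P.D * P.Θ := by rw [hG.hM, hG.hρ]; ring
  have hDM : 4 * P.D ≤ P.M := by rw [hM]; nlinarith
  have hM0 : 16 ≤ P.M := by linarith
  have hMH : P.M ≤ P.H := by rw [hG.hH]; nlinarith
  have hr1 : P.r ≤ 1 := by
    rw [hG.hr, div_le_one (by linarith)]; linarith [hG.hr₀1]
  have hSpos : 0 < ‖P.c‖ ^ P.N := by positivity
  have hS : 24 * ‖P.c‖ * P.ρ₀ ≤ ‖P.c‖ ^ P.N := by
    have := hG.hrS
    nlinarith
  have hρ0 : 32 ≤ P.ρ₀ := by linarith [hG.hρ₀']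
  refine ⟨ha, hT, hR, hCR, hRD, hM, hG.hρ, hG.hH, hMH, hM0, hDM, hG.hρ₀, hG.hρ₀', hS, ?_, ?_, ?_,
    ?_, ?_, ?_, ?_⟩
  · nlinarith
  · intro k; positivity
  · intro k k' h; exact zpow_le_zpow_right₀ ha.le h
  · intro k k' h; exact (zpow_lt_zpow_iff_right₀ ha).mp h
  · intro k; rw [zpow_add_one₀ ha0.ne', mul_comm]
  · intro k; rw [zpow_add₀ ha0.ne', zpow_natCast, hG.hΘ, mul_comm]
  · intro k; rw [zpow_add₀ ha0.ne', zpow_natCast, mul_comm]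

variable {Y : ℤ → Set ℂ} {V : Set ℂ}

lemma step_mem_om {k : ℤ} {y : ℂ} (h : y ∈ Y k) : y ∈ Om Y := mem_iUnion.mpr ⟨k, h⟩

lemma step_core_om {x y : ℂ} (h : P.Core Y x y) : y ∈ Om Y := by
  obtain ⟨k, hk, _⟩ := h
  exact step_mem_om hk

lemma step_core_uniq (hN : P.NetOK Y V) {x y y' : ℂ} (h : P.Core Y x y) (h' : P.Core Y x y') :
    y = y' := by
  by_contra hne
  have h1 := hN.core_Q x y h y' (step_core_om h') (Ne.symm hne)
  have h2 := hN.core_Q x y' h' y (step_core_om h) hne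
  have := norm_nonneg (x - y)
  linarith

lemma step_near_of_core (hN : P.NetOK Y V) {x y : ℂ} (h : P.Core Y x y) : Near Y x y := by
  intro y' hy'
  have h0 := norm_nonneg (x - y)
  by_cases he : y' = y
  · subst he; linarith
  · have := hN.core_Q x y h y' hy' he
    linarith

lemma step_planted (hN : P.NetOK Y V) {x y : ℂ} {i : ℤ} (hx : x ∈ P.Step Y i)
    (h : P.Core Y x y) : x - y ∈ P.Y0 i := by
  rcases hx with ⟨y', hc, hy'⟩ | ⟨hO, _⟩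
  · rw [step_core_uniq hN h hc]; exact hy'
  · exact absurd h (hO.2 y)

lemma step_label_le (hn : step_Num P) {i k : ℤ} {t : ℝ} (h1 : P.ρ₀ * ‖P.c‖ ^ i ≤ t)
    (h2 : t < ‖P.c‖ * P.ρ₀ * ‖P.c‖ ^ k) : i ≤ k := by
  have hρ : 0 < P.ρ₀ := by linarith [hn.hρ₀', hn.hMH, hn.hM0]
  have h3 : P.ρ₀ * ‖P.c‖ ^ i < P.ρ₀ * ‖P.c‖ ^ (k + 1) := by
    rw [hn.succ]; linarith
  have h4 := hn.lt _ _ (lt_of_mul_lt_mul_left h3 hρ.le)
  omega

/-- ordinary or planted in the top annulus -/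
def step_Top (P : Pm W) (Y : ℤ → Set ℂ) (x : ℂ) (i : ℤ) : Prop :=
  ∃ y ∈ Y (i + P.N), P.Cand Y x ∧ Near Y x y

/-- planted in a deeper annulus -/
def step_Deep (P : Pm W) (Y : ℤ → Set ℂ) (x : ℂ) (i : ℤ) : Prop :=
  ∃ y, ∃ k : ℤ, y ∈ Y (k + P.N) ∧ x - y ∈ P.Y0 i ∧ i < k

lemma step_cases (hn : step_Num P) (hB : P.Base0) (hN : P.NetOK Y V) (hC : P.CandOK Y)
    (hP : P.ParOK Y) {x : ℂ} {i : ℤ} (hx : x ∈ P.Step Y i) :
    step_Top P Y x i ∨ step_Deep P Y x i := by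
  rcases hx with ⟨y, hc, hy⟩ | ⟨hO, y, hy, hp⟩
  · have hnear := step_near_of_core hN hc
    obtain ⟨k, hk, hlt⟩ := hc
    have hik := step_label_le hn (hB.bound i _ hy).1 hlt
    rcases hik.eq_or_lt with rfl | hlt'
    · exact Or.inl ⟨y, hk, hC.top x y i hk hy, hnear⟩
    · exact Or.inr ⟨y, k, hk, hy, hlt'⟩
  · exact Or.inl ⟨y, hy, hO.1, hP.near x y hp⟩

/-- a point close to a deep planted point lies in the same core -/
lemma step_same (hn : step_Num P) (hB : P.Base0) {x x' y : ℂ} {i' k : ℤ}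
    (hy : y ∈ Y (k + P.N)) (h0 : x' - y ∈ P.Y0 i') (hik : i' < k)
    (hd : ‖x - x'‖ ≤ P.H * ‖P.c‖ ^ k) : P.Core Y x y := by
  refine ⟨k, hy, ?_⟩
  have h1 := (hB.bound i' _ h0).2
  have hρ : 0 < P.ρ₀ := by linarith [hn.hρ₀', hn.hMH, hn.hM0]
  have h2 : ‖P.c‖ ^ (i' + 1) ≤ ‖P.c‖ ^ k := hn.mono _ _ (by omega)
  rw [hn.succ] at h2
  have h3 : ‖x - y‖ ≤ ‖x - x'‖ + ‖x' - y‖ := norm_sub_le_norm_sub_add_norm_sub _ _ _
  have h4 := mul_le_mul_of_nonneg_left h2 hρ.le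
  have h5 := mul_le_mul_of_nonneg_right hn.hρ₀ (hn.pos k).le
  nlinarith

lemma step_om (hP : P.ParOK Y) : Om (P.Step Y) = P.X Y := by
  ext x
  constructor
  · intro hx
    obtain ⟨i, hi⟩ := mem_iUnion.mp hx
    rcases hi with h | h
    · exact Or.inr ⟨i, h⟩
    · exact Or.inl h.1
  · intro hx
    rcases hx with hO | ⟨i, h⟩
    · obtain ⟨y, hy⟩ := hP.ex x (Or.inl hO)
      obtain ⟨K, hK⟩ := mem_iUnion.mp (hP.mem x y hy).2
      refine mem_iUnion.mpr ⟨K - P.N, Or.inr ⟨hO, y, ?_, hy⟩⟩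
      rwa [sub_add_cancel]
    · exact mem_iUnion.mpr ⟨i, Or.inl h⟩

lemma step_uniq (hB : P.Base0) (hI : P.Inv Y V) (hN : P.NetOK Y V) (hP : P.ParOK Y)
    (i i' : ℤ) (x : ℂ) (hx : x ∈ P.Step Y i) (hx' : x ∈ P.Step Y i') : i = i' := by
  rcases hx with ⟨y, hc, hy⟩ | ⟨hO, y, hy, hp⟩
  · exact hB.inv.uniq _ _ _ hy (step_planted hN hx' hc)
  · rcases hx' with ⟨y', hc, _⟩ | ⟨_, y', hy', hp'⟩
    · exact absurd hc (hO.2 y')
    · have := hP.uniq x y y' hp hp'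
      subst this
      have := hI.uniq _ _ _ hy hy'
      omega

lemma step_pair (hn : step_Num P) (hB : P.Base0) (hN : P.NetOK Y V) (hC : P.CandOK Y)
    (hP : P.ParOK Y) (i i' : ℤ) (x : ℂ) (hx : x ∈ P.Step Y i) (x' : ℂ) (hx' : x' ∈ P.Step Y i')
    (hii : i ≤ i') (hd : ‖x - x'‖ ≤ P.H * ‖P.c‖ ^ i) : (x - x') / P.c ^ i ∈ P.F := by
  have hH : 0 ≤ P.H := by linarith [hn.hMH, hn.hM0]
  have fin : ∀ y, x - y ∈ P.Y0 i → x' - y ∈ P.Y0 i' → (x - x') / P.c ^ i ∈ P.F := by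
    intro y h h'
    have e : (x - y) - (x' - y) = x - x' := by ring
    have := hB.inv.pair i i' _ h _ h' hii (by rw [e]; exact hd)
    rwa [e] at this
  rcases step_cases hn hB hN hC hP hx with ⟨y, hy, hc, hne⟩ | ⟨y, k, hy, h0, hk⟩
  · rcases step_cases hn hB hN hC hP hx' with ⟨y', hy', hc', hne'⟩ | ⟨y', k', hy', h0', hk'⟩
    · exact hC.pair x x' y y' i i' hc hc' hy hy' hne hne' hii hd
    · have hcore : P.Core Y x y' := step_same hn hB hy' h0' hk'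
        (hd.trans (mul_le_mul_of_nonneg_left (hn.mono _ _ (by omega)) hH))
      exact fin y' (step_planted hN hx hcore) h0'
  · have hcore : P.Core Y x' y := step_same hn hB hy h0 hk (by
      rw [norm_sub_rev]
      exact hd.trans (mul_le_mul_of_nonneg_left (hn.mono _ _ (by omega)) hH))
    exact fin y h0 (step_planted hN hx' hcore)

/-- every new point has a seed at distance at most `D` times its scale -/
lemma step_seed (hn : step_Num P) (hB : P.Base0) {x y : ℂ} {i k : ℤ}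
    (h0 : x - y ∈ P.Y0 i) (hk : i ≤ k) : ‖x - y‖ ≤ P.D * ‖P.c‖ ^ (k + P.N) := by
  have h1 := (hB.bound i _ h0).2
  have hρ : 0 < P.ρ₀ := by linarith [hn.hρ₀', hn.hMH, hn.hM0]
  have ha := hn.ha
  have h2 := hn.mono _ _ hk
  have hp := hn.pos k
  have h3 : ‖P.c‖ * P.ρ₀ * ‖P.c‖ ^ i ≤ ‖P.c‖ * P.ρ₀ * ‖P.c‖ ^ k :=
    mul_le_mul_of_nonneg_left h2 (by positivity)
  have h4 := mul_le_mul_of_nonneg_right hn.hS hp.le
  have h5 : 0 < ‖P.c‖ * P.ρ₀ * ‖P.c‖ ^ k := by positivity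
  have h6 : (1 : ℝ) * ‖P.c‖ ^ (k + P.N) ≤ P.D * ‖P.c‖ ^ (k + P.N) :=
    mul_le_mul_of_nonneg_right (by linarith [hn.hR, hn.hRD]) (hn.pos _).le
  rw [hn.addN] at h6 ⊢
  nlinarith

lemma step_cmp_aux (hn : step_Num P) (hI : P.Inv Y V) {x x' y y' : ℂ} {k i' : ℤ}
    (hy : y ∈ Y (k + P.N)) (hy' : y' ∈ Y (i' + P.N)) (h1 : ‖x - y‖ ≤ P.D * ‖P.c‖ ^ (k + P.N))
    (h2 : ‖x' - y'‖ ≤ P.D * ‖P.c‖ ^ (i' + P.N)) (hd : ‖x - x'‖ ≤ P.M * ‖P.c‖ ^ i') :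
    i' ≤ k + P.J := by
  by_contra hcon
  have hD : 0 ≤ P.D := by linarith [hn.hR, hn.hRD]
  have hM : 0 ≤ P.M := by linarith [hn.hM0]
  have h3 : P.D * ‖P.c‖ ^ (k + P.N) ≤ P.D * ‖P.c‖ ^ (i' + P.N) :=
    mul_le_mul_of_nonneg_left (hn.mono _ _ (by omega)) hD
  have h4 : ‖y - y'‖ ≤ ‖x - y‖ + ‖x - x'‖ + ‖x' - y'‖ := by
    have e : y - y' = -(x - y) + (x - x') + (x' - y') := by ring
    rw [e]
    refine (norm_add_le _ _).trans ?_
    have := norm_add_le (-(x - y)) (x - x')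
    rw [norm_neg] at this
    linarith
  have hp := hn.pos i'
  have h5 : 4 * ‖P.c‖ ^ i' ≤ ‖P.c‖ ^ (i' + P.N) := by
    rw [hn.addN]; exact mul_le_mul_of_nonneg_right hn.hS4 hp.le
  have h6 := mul_le_mul_of_nonneg_left h5 hM
  have h7 := mul_le_mul_of_nonneg_right hn.hDM (hn.pos (i' + P.N)).le
  have h8 : 0 ≤ P.M * ‖P.c‖ ^ (i' + P.N) := mul_nonneg hM (hn.pos _).le
  have h9 := hI.cmp _ _ y hy y' hy' (by linarith)
  omega

lemma step_cmp (hn : step_Num P) (hB : P.Base0) (hI : P.Inv Y V) (hN : P.NetOK Y V)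
    (hC : P.CandOK Y) (hP : P.ParOK Y) (i i' : ℤ) (x : ℂ) (hx : x ∈ P.Step Y i) (x' : ℂ)
    (hx' : x' ∈ P.Step Y i') (hd : ‖x - x'‖ ≤ P.M * ‖P.c‖ ^ i') : i' ≤ i + P.J := by
  have hH : 0 ≤ P.H := by linarith [hn.hMH, hn.hM0]
  have hM : 0 ≤ P.M := by linarith [hn.hM0]
  have fin : ∀ y, x - y ∈ P.Y0 i → x' - y ∈ P.Y0 i' → i' ≤ i + P.J := by
    intro y h h'
    have e : (x - y) - (x' - y) = x - x' := by ring
    exact hB.inv.cmp i i' _ h _ h' (by rw [e]; exact hd)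
  rcases step_cases hn hB hN hC hP hx' with ⟨y', hy', hc', hne'⟩ | ⟨y', k', hy', h0', hk'⟩
  · have h2 := hC.near_le x' y' _ hc' hy' hne'
    rcases step_cases hn hB hN hC hP hx with ⟨y, hy, hc, hne⟩ | ⟨y, k, hy, h0, hk⟩
    · exact step_cmp_aux hn hI hy hy' (hC.near_le x y _ hc hy hne) h2 hd
    · have h3 := step_cmp_aux hn hI hy hy' (step_seed hn hB h0 hk.le) h2 hd
      have h4 : P.M * ‖P.c‖ ^ i' ≤ P.H * ‖P.c‖ ^ k := by
        have := mul_le_mul_of_nonneg_left (hn.mono _ _ h3) hM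
        rw [hn.addJ] at this
        rw [hn.hH]; linarith
      have hcore : P.Core Y x' y := step_same hn hB hy h0 hk (by
        rw [norm_sub_rev]; exact hd.trans h4)
      exact fin y h0 (step_planted hN hx' hcore)
  · have h4 : P.M * ‖P.c‖ ^ i' ≤ P.H * ‖P.c‖ ^ k' :=
      mul_le_mul hn.hMH (hn.mono _ _ hk'.le) (hn.pos _).le hH
    have hcore : P.Core Y x y' := step_same hn hB hy' h0' hk' (hd.trans h4)
    exact fin y' (step_planted hN hx hcore) h0'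

lemma step_dens (hn : step_Num P) (hB : P.Base0) (hN : P.NetOK Y V)
    (hC : P.CandOK Y) (hP : P.ParOK Y) (z : ℂ) (hz : z ∉ V ∪ Om Y) :
    ∃ k, ∃ y ∈ P.Step Y k, ‖z - y‖ ≤ P.R * ‖P.c‖ ^ k := by
  have hzV : z ∉ V := fun h => hz (Or.inl h)
  have hzO : z ∉ Om Y := fun h => hz (Or.inr h)
  have hR : 0 ≤ P.R := by linarith [hn.hR]
  have hρ : 0 < P.ρ₀ := by linarith [hn.hρ₀', hn.hMH, hn.hM0]
  have ha := hn.ha
  by_cases hcore : ∃ y, P.Core Y z y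
  · obtain ⟨y, hc⟩ := hcore
    have hne : z - y ≠ 0 := by
      intro h
      apply hzO
      rw [sub_eq_zero.mp h]
      exact step_core_om hc
    obtain ⟨k, hk, hlt⟩ := hc
    obtain ⟨i, h1, h2⟩ := hB.ann _ hne
    obtain ⟨u, hu, hd⟩ := hB.dens _ i h1 h2
    have hik := step_label_le hn h1 hlt
    have e : y + u - y = u := by ring
    refine ⟨i, y + u, Or.inl ⟨y, ⟨k, hk, ?_⟩, ?_⟩, ?_⟩
    · rw [e]
      exact (hB.bound i u hu).2.trans_le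
        (mul_le_mul_of_nonneg_left (hn.mono _ _ hik) (by positivity))
    · rw [e]; exact hu
    · have e2 : z - (y + u) = z - y - u := by ring
      rw [e2]
      exact hd.trans (mul_le_mul_of_nonneg_right hn.hCR (hn.pos _).le)
  · obtain ⟨k₀, y₀, hy₀, _, hd₀⟩ := hN.nst z hzV
    have hp := hn.pos k₀
    have hT := hn.hT
    have hRD := hn.hRD
    have hRT : P.R * P.Θ ≤ P.D * P.Θ := mul_le_mul_of_nonneg_right hRD (by linarith)
    have hRT0 : P.R ≤ P.R * P.Θ := by nlinarith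
    have h1 : ‖z - y₀‖ ≤ P.ρ * ‖P.c‖ ^ k₀ := by
      refine hd₀.trans (mul_le_mul_of_nonneg_right ?_ hp.le)
      rw [hn.hρ]; linarith
    obtain ⟨x, hx, hcase⟩ := hC.dens_out k₀ y₀ hy₀ z h1 (fun y' h => hcore ⟨y', h⟩)
    have key : ∀ (y : ℂ) (K : ℤ), y ∈ Y K → Near Y x y → k₀ - P.J ≤ K := by
      intro y K hy hne
      have h2 := hne y₀ (step_mem_om hy₀)
      have h3 : ‖x - y₀‖ ≤ ‖z - x‖ + ‖z - y₀‖ := by
        have := norm_sub_le_norm_sub_add_norm_sub x z y₀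
        rwa [norm_sub_rev x z] at this
      have h4 : ‖y - y₀‖ ≤ ‖x - y‖ + ‖x - y₀‖ := by
        have := norm_sub_le_norm_sub_add_norm_sub y x y₀
        rwa [norm_sub_rev y x] at this
      have h5 : P.R * ‖P.c‖ ^ (k₀ - P.J - P.N) ≤ P.R * P.Θ * ‖P.c‖ ^ k₀ :=
        mul_le_mul hRT0 (hn.mono _ _ (by omega)) (hn.pos _).le (by linarith)
      have h6 : 6 * (P.R * P.Θ) * ‖P.c‖ ^ k₀ ≤ P.M * ‖P.c‖ ^ k₀ := by
        refine mul_le_mul_of_nonneg_right ?_ hp.le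
        rw [hn.hM]; linarith
      exact (hN.lab k₀ K y₀ hy₀ y hy (by linarith)).1
    rcases hcase with hO | ⟨y', i, hy', h0⟩
    · obtain ⟨y, hy⟩ := hP.ex x (Or.inl hO)
      obtain ⟨K, hK⟩ := mem_iUnion.mp (hP.mem x y hy).2
      have hk := key y K hK (hP.near x y hy)
      refine ⟨K - P.N, x, Or.inr ⟨hO, y, by rwa [sub_add_cancel], hy⟩, ?_⟩
      exact hx.trans (mul_le_mul_of_nonneg_left (hn.mono _ _ (by omega)) hR)
    · have hc : P.Core Y x y' := ⟨i, hy', (hB.bound i _ h0).2⟩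
      have hk := key y' _ hy' (step_near_of_core hN hc)
      refine ⟨i, x, Or.inl ⟨y', hc, h0⟩, ?_⟩
      exact hx.trans (mul_le_mul_of_nonneg_left (hn.mono _ _ (by omega)) hR)

lemma step_far (hn : step_Num P) (hB : P.Base0) (hI : P.Inv Y V) (hN : P.NetOK Y V)
    (hC : P.CandOK Y) (hP : P.ParOK Y) (i : ℤ) (x : ℂ) (hx : x ∈ P.Step Y i) (v : ℂ)
    (hv : v ∈ V ∪ Om Y) : P.M * ‖P.c‖ ^ i ≤ ‖x - v‖ := by
  have hM : 0 ≤ P.M := by linarith [hn.hM0]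
  have hp := hn.pos i
  have ha := hn.ha
  have hρM : P.M ≤ P.ρ₀ := by linarith [hn.hρ₀', hn.hMH, hn.hM0]
  rcases hv with hv | hv
  · have seed : ∃ y, ∃ k : ℤ, i ≤ k ∧ y ∈ Y (k + P.N) ∧ ‖x - y‖ ≤ P.D * ‖P.c‖ ^ (k + P.N) := by
      rcases step_cases hn hB hN hC hP hx with ⟨y, hy, hc, hne⟩ | ⟨y, k, hy, h0, hk⟩
      · exact ⟨y, i, le_rfl, hy, hC.near_le x y _ hc hy hne⟩
      · exact ⟨y, k, hk.le, hy, step_seed hn hB h0 hk.le⟩
    obtain ⟨y, k, hik, hy, hd⟩ := seed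
    have h1 := hI.far _ y hy v hv
    have h2 : ‖y - v‖ ≤ ‖x - y‖ + ‖x - v‖ := by
      have := norm_sub_le_norm_sub_add_norm_sub y x v
      rwa [norm_sub_rev y x] at this
    have h5 : 4 * ‖P.c‖ ^ i ≤ ‖P.c‖ ^ (k + P.N) := by
      rw [hn.addN]
      exact mul_le_mul hn.hS4 (hn.mono _ _ hik) hp.le (by linarith [hn.hS4])
    have h6 := mul_le_mul_of_nonneg_left h5 hM
    have h7 := mul_le_mul_of_nonneg_right hn.hDM (hn.pos (k + P.N)).le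
    have h8 : 0 ≤ P.M * ‖P.c‖ ^ i := mul_nonneg hM hp.le
    linarith
  · rcases hx with ⟨y, hc, h0⟩ | ⟨hO, y, hy, hpar⟩
    · have h1 := (hB.bound i _ h0).1
      have h2 := mul_le_mul_of_nonneg_right hρM hp.le
      by_cases he : v = y
      · rw [he]; linarith
      · have := hN.core_Q x y hc v hv he
        have := norm_nonneg (x - y)
        linarith
    · by_contra hcon
      rw [not_le] at hcon
      obtain ⟨K, hK⟩ := mem_iUnion.mp hv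
      have hK' : v ∈ Y (K - P.N + P.N) := by rwa [sub_add_cancel]
      have h1 : ‖P.c‖ * P.ρ₀ * ‖P.c‖ ^ (K - P.N) ≤ ‖x - v‖ := by
        by_contra h
        exact hO.2 v ⟨K - P.N, hK', not_le.mp h⟩
      have h2 := hP.near x y hpar v hv
      have h3 : ‖v - y‖ ≤ ‖x - v‖ + ‖x - y‖ := by
        have := norm_sub_le_norm_sub_add_norm_sub v x y
        rwa [norm_sub_rev v x] at this
      have h5 : 4 * ‖P.c‖ ^ i ≤ ‖P.c‖ ^ (i + P.N) := by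
        rw [hn.addN]; exact mul_le_mul_of_nonneg_right hn.hS4 hp.le
      have h6 := mul_le_mul_of_nonneg_left h5 hM
      have h8 : 0 ≤ P.M * ‖P.c‖ ^ i := mul_nonneg hM hp.le
      have h9 := hI.cmp _ _ v hK y hy (by linarith)
      have h10 : ‖P.c‖ ^ i ≤ ‖P.c‖ ^ (K - P.N + P.J) := hn.mono _ _ (by omega)
      rw [hn.addJ] at h10
      have h11 := mul_le_mul_of_nonneg_left h10 hM
      have hq := hn.pos (K - P.N)
      have h12 : P.H ≤ ‖P.c‖ * P.ρ₀ := by nlinarith [hn.hρ₀', hn.hMH, hn.hM0]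
      have h13 := mul_le_mul_of_nonneg_right h12 hq.le
      rw [hn.hH] at h13
      nlinarith

end

theorem step : STEP := by
  intro W _ _ P hG hB Y V hI hN hC hP
  have hn := step_num hG
  exact ⟨⟨step_uniq hB hI hN hP, fun k k' y hy y' hy' => step_pair hn hB hN hC hP k k' y hy y' hy',
    fun k k' y hy y' hy' => step_cmp hn hB hI hN hC hP k k' y hy y' hy',
    step_dens hn hB hN hC hP,
    fun k y hy v hv => step_far hn hB hI hN hC hP k y hy v hv⟩, step_om hP⟩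

end Pool.Agent.H527Z.Per
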