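import Pool.Agent.H527Z.Per.Defs2

/-!
# Repetitive self-similar tilings: the subdivision respects the types

We prove `SUBDIV`.
-/

set_option autoImplicit false

namespace Pool.Agent.H527Z.Per

open Set

variable {d : Dat}

theorem subdiv_mem_Ω {m : ℕ} {k : ℤ} {y : ℂ} (h : y ∈ d.Y m k) : y ∈ d.Ω m :=
  mem_iUnion.2 ⟨k, h⟩

theorem subdiv_touch {s t : Set ℂ} {p : ℂ} (hp : p ∈ interior s) (hpt : p ∈ t)
    (ht : closure (interior t) = t) : ¬ Disjoint (interior s) (interior t) := by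
  intro h
  rw [← ht] at hpt
  exact Set.disjoint_left.1 (h.closure_right isOpen_interior) hp hpt

theorem subdiv_int_ne {s : Set ℂ} (h1 : IsConnected s) (h2 : closure (interior s) = s) :
    ∃ p, p ∈ interior s := by
  by_contra h
  have : interior s = ∅ := Set.eq_empty_iff_forall_notMem.2 fun p hp => h ⟨p, hp⟩
  rw [this, closure_empty] at h2
  obtain ⟨q, hq⟩ := h1.nonempty
  rw [← h2] at hq
  exact hq

theorem subdiv_c_ne (hs : d.Sys) : d.c ≠ 0 := by
  intro h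
  have := hs.hc
  rw [h, norm_zero] at this
  linarith

theorem subdiv_ρ_pos (hs : d.Sys) : 0 < d.ρ := by
  have h1 := hs.hρ
  have h2 := hs.hier.hD
  have h3 := hs.hier.hΘ
  have : 0 < 40 * d.D * d.Θ := by positivity
  linarith

theorem subdiv_rad_nonneg (hs : d.Sys) (k : ℤ) : 0 ≤ d.ρ * ‖d.c‖ ^ k := by
  have h1 := subdiv_ρ_pos hs
  positivity

theorem subdiv_act_Ω {m : ℕ} {y : ℂ} (h : d.Act m y) : y ∈ d.Ω m := by
  obtain ⟨⟨k, hk, -⟩, -⟩ := h
  exact subdiv_mem_Ω hk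

/-- two active tiles, an interior point of the first lying in the second, coincide -/
theorem subdiv_act_eq (ok : d.OK) (hb : d.Base) {m m' : ℕ} {y y' p : ℂ} (h : d.Act m y)
    (h' : d.Act m' y') (hp : p ∈ interior (tile d.Par m y)) (hp' : p ∈ tile d.Par m' y') :
    m = m' ∧ y = y' := by
  by_contra hne
  have hne' : (m, y) ≠ (m', y') := fun e => hne (by simpa using e)
  exact subdiv_touch hp hp' (ok.nice m' y' (subdiv_act_Ω h')).2.2 (hb.act_disj m y m' y' h h' hne')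

theorem subdiv_mem_div (hs : d.Sys) {m : ℕ} {k : ℤ} {y : ℂ} (h : y ∈ d.Y m k) :
    y / d.c ∈ d.Y m (k - 1) := by
  rw [hs.eqv_mem, mul_div_cancel₀ _ (subdiv_c_ne hs), sub_add_cancel]
  exact h

theorem subdiv_par_div (hs : d.Sys) {m : ℕ} {x y : ℂ} (h : d.Par m (d.c * x) y) :
    d.Par m x (y / d.c) := by
  rw [hs.eqv_par, mul_div_cancel₀ _ (subdiv_c_ne hs)]
  exact h

theorem subdiv_agr_mul (hs : d.Sys) {m m' : ℕ} {T y : ℂ} {k : ℤ}
    (h : d.Agr m m' T y (d.ρ * ‖d.c‖ ^ k)) :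
    d.Agr m m' (d.c * T) (d.c * y) (d.ρ * ‖d.c‖ ^ (k + 1)) := by
  intro k' u hu
  have hc := subdiv_c_ne hs
  have hc0 : 0 < ‖d.c‖ := norm_pos_iff.2 hc
  obtain ⟨u', rfl⟩ : ∃ u', u = d.c * u' := ⟨u / d.c, (mul_div_cancel₀ _ hc).symm⟩
  obtain ⟨k'', rfl⟩ : ∃ k'', k' = k'' + 1 := ⟨k' - 1, by ring⟩
  rw [← mul_add, ← hs.eqv_mem, ← hs.eqv_mem]
  apply h
  rw [← mul_sub, norm_mul, zpow_add_one₀ hc0.ne'] at hu
  refine le_of_mul_le_mul_left ?_ hc0
  linarith

theorem subdiv_act_mul (hs : d.Sys) {m : ℕ} {y : ℂ} {k : ℤ} (h : d.Act m y) (hk : y ∈ d.Y m k)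
    (hlt : k + 1 < d.N) : d.Act m (d.c * y) := by
  refine ⟨⟨k + 1, (hs.eqv_mem m k y).1 hk, hlt⟩, ?_⟩
  intro m₀ y' K hm hp hK
  have := h.2 m₀ (y' / d.c) (K - 1) hm (subdiv_par_div hs hp) (subdiv_mem_div hs hK)
  omega

theorem subdiv_av_mul (hs : d.Sys) {v : ℂ} (h : v ∈ d.AV) : d.c * v ∈ d.AV := by
  rcases h with rfl | ⟨m, K, hK, hN⟩
  · exact Or.inl (mul_zero _)
  · exact Or.inr ⟨m, K + 1, (hs.eqv_mem m K v).1 hK, by omega⟩

/-- a set whose dilate meets the unit ball round `c * v` meets the unit ball round `v` -/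
theorem subdiv_meet_div (hs : d.Sys) {t : Set ℂ} {v : ℂ}
    (h : ¬ Disjoint ((fun w => d.c * w) '' t) (Metric.closedBall (d.c * v) 1)) :
    ¬ Disjoint t (Metric.closedBall v 1) := by
  rw [Set.not_disjoint_iff] at h ⊢
  obtain ⟨_, ⟨w, hw, rfl⟩, hb⟩ := h
  refine ⟨w, hw, ?_⟩
  rw [Metric.mem_closedBall, dist_eq_norm] at hb ⊢
  have hc := hs.hc
  simp only at hb
  rw [← mul_sub, norm_mul] at hb
  nlinarith [norm_nonneg (w - v)]

theorem subdiv_meet_mul (hs : d.Sys) {t : Set ℂ} {v : ℂ}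
    (h : ¬ Disjoint t (Metric.closedBall v 1)) :
    ¬ Disjoint ((fun w => d.c * w) '' t) (Metric.closedBall (d.c * v) ‖d.c‖) := by
  rw [Set.not_disjoint_iff] at h ⊢
  obtain ⟨w, hw, hb⟩ := h
  refine ⟨d.c * w, ⟨w, hw, rfl⟩, ?_⟩
  rw [Metric.mem_closedBall, dist_eq_norm] at hb ⊢
  have hc := hs.hc
  rw [← mul_sub, norm_mul]
  nlinarith [norm_nonneg (w - v)]

theorem subdiv_meet_add {t : Set ℂ} {v T : ℂ}
    (h : ¬ Disjoint ((fun w => w + T) '' t) (Metric.closedBall (v + T) 1)) :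
    ¬ Disjoint t (Metric.closedBall v 1) := by
  rw [Set.not_disjoint_iff] at h ⊢
  obtain ⟨_, ⟨w, hw, rfl⟩, hb⟩ := h
  refine ⟨w, hw, ?_⟩
  rw [Metric.mem_closedBall, dist_eq_norm] at hb ⊢
  simpa using hb

theorem subdiv_free_mul (hs : d.Sys) (hb : d.Base) {m : ℕ} {y : ℂ} {k : ℤ} (h : d.Free m y)
    (hk : y ∈ d.Y m k) (hlt : k + 1 < d.N) : d.Free m (d.c * y) := by
  have ha := subdiv_act_mul hs h.1 hk hlt
  refine ⟨ha, fun v hv => ?_⟩
  by_contra hd
  obtain ⟨-, -, -, -, -, -, -, hcase⟩ := hb.near_small v hv 1 hs.hc.le m _ ha hd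
  have hv' : v / d.c ∈ d.AV := by
    rcases hcase with ⟨-, rfl⟩ | ⟨m₀, K, hm, hp, hK, -⟩
    · exact Or.inl (zero_div _)
    · exact Or.inr ⟨m₀, K - 1, subdiv_mem_div hs hK,
        h.1.2 m₀ _ _ hm (subdiv_par_div hs hp) (subdiv_mem_div hs hK)⟩
  rw [hb.tile_mul, ← mul_div_cancel₀ v (subdiv_c_ne hs)] at hd
  exact subdiv_meet_div hs hd (h.2 _ hv')

theorem subdiv_cen_add (hb : d.Base) {v z : ℂ} (hv : v ∈ d.AV) (hz : v + z ∈ d.AV) :
    d.Cen (v + z) = (fun w => w + z) '' d.Cen v := by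
  rw [hb.cen_add _ hz, hb.cen_add _ hv, Set.image_image]
  simp only [add_assoc]

/-- children of a point with label `N` are active -/
theorem subdiv_child_act (hs : d.Sys) (hb : d.Base) {m : ℕ} {x y : ℂ} (hp : d.Par m x y)
    (hy : y ∈ d.Y m d.N) : d.Act (m + 1) x := by
  obtain ⟨k', hk'⟩ := mem_iUnion.1 (hs.hier.par_mem m x y hp).1
  have h1 := hb.lab_child m x y k' d.N hp hk' hy
  have h2 := hb.hN
  refine ⟨⟨k', hk', by omega⟩, ?_⟩
  intro m₀ y' K hm hp' hK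
  obtain rfl : m = m₀ := by omega
  obtain rfl := hs.hier.par_uniq m x y y' hp hp'
  exact (hb.lab_uniq m _ _ y hy hK).le

/-- an active child whose tile meets the unit ball round a puncture has this puncture as parent -/
theorem subdiv_child_centre (hs : d.Sys) (hb : d.Base) {m : ℕ} {x y v : ℂ} (hp : d.Par m x y)
    (ha : d.Act (m + 1) x) (hv : v ∈ d.AV)
    (hd : ¬ Disjoint (tile d.Par (m + 1) x) (Metric.closedBall v 1)) : v = y := by
  obtain ⟨-, -, -, -, -, -, -, hcase⟩ := hb.near_small v hv 1 hs.hc.le _ _ ha hd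
  rcases hcase with ⟨h0, -⟩ | ⟨m₀, K, hm, hp', -, -⟩
  · omega
  · obtain rfl : m = m₀ := by omega
    exact hs.hier.par_uniq m x v y hp' hp

theorem subdiv_cen_sub (hs : d.Sys) (hb : d.Base) {v : ℂ} (hv : v ∈ d.AV) :
    d.Cen v ⊆ Metric.closedBall v 3 := by
  rintro p (hp | ⟨m, y, ha, hd, hp⟩)
  · exact Metric.closedBall_subset_closedBall (by norm_num) hp
  · obtain ⟨-, -, -, -, -, hsub, -⟩ := hb.near_small v hv 1 hs.hc.le m y ha hd
    simpa using hsub hp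

/-- planting a small point of level `0` at an active puncture -/
theorem subdiv_plant (hs : d.Sys) (hb : d.Base) {w u : ℂ} {k : ℤ} (hw : w ∈ d.AV) (hk : k < 0)
    (hu : u ∈ d.Y 0 k) (hn : ‖u‖ ≤ 2 * ‖d.c‖) :
    ∃ m', d.Act m' (u + w) ∧ d.Agr 0 m' w u (d.ρ * ‖d.c‖ ^ k) := by
  have hN := hb.hN
  rcases hw with rfl | ⟨m₀, K, hK, hNK⟩
  · refine ⟨0, ⟨⟨k, by simpa using hu, by omega⟩, ?_⟩, ?_⟩
    · intro m₀ y' K hm
      omega
    · intro k' u' _
      simp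
  · obtain ⟨h1, h2⟩ := hb.planted m₀ K w hK hNK k u hu (by omega)
    refine ⟨m₀ + 1, ⟨⟨k, h1, by omega⟩, ?_⟩, ?_⟩
    · intro m₁ y' K' hm hp' hK'
      obtain rfl : m₀ = m₁ := by omega
      obtain rfl := hs.hier.par_uniq m₀ _ w y' h2 hp'
      rw [← hb.lab_uniq m₀ _ _ w hK hK']
      exact hNK
    · intro k' u' hu'
      have hK2 : w ∈ d.Y m₀ ((K - d.N) + d.N) := by rwa [sub_add_cancel]
      refine hs.plant m₀ (K - d.N) w hK2 u' ?_ k'
      have hc := hs.hc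
      have hρ := subdiv_ρ_pos hs
      have hρ₀ := hs.hρ₀
      have e1 : ‖d.c‖ ^ k ≤ 1 := zpow_le_one_of_nonpos₀ hc.le hk.le
      have e2 : 1 ≤ ‖d.c‖ ^ (K - d.N) := one_le_zpow₀ hc.le (by omega)
      have e3 : ‖u'‖ ≤ ‖u' - u‖ + ‖u‖ := by
        simpa using norm_add_le (u' - u) u
      have e4 : d.ρ * ‖d.c‖ ^ k ≤ d.ρ := by nlinarith
      have e5 : 0 < d.ρ₀ := by linarith
      have e6 : d.ρ₀ ≤ ‖d.c‖ * d.ρ₀ := by nlinarith
      have e7 : ‖d.c‖ * d.ρ₀ ≤ ‖d.c‖ * d.ρ₀ * ‖d.c‖ ^ (K - d.N) := by nlinarith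
      linarith

theorem subdiv_free_case (hs : d.Sys) (ok : d.OK) (hb : d.Base) (hT : IsTiling d.TT)
    {m m' : ℕ} {y z : ℂ} {k : ℤ} (hf : d.Free m y) (hf' : d.Free m' (y + z)) (hk : y ∈ d.Y m k)
    (hA : d.Agr m m' z y (d.ρ * ‖d.c‖ ^ k)) {s : Set ℂ} (hsT : s ∈ d.TT)
    (hsub : s ⊆ tile d.Par m (d.c * y)) :
    d.Rel s ((fun w => w + d.c * z) '' s) (d.c * z) := by
  have hk' : y + z ∈ d.Y m' k := (hA k y (by simpa using subdiv_rad_nonneg hs k)).1 hk
  have hA' := subdiv_agr_mul hs hA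
  have hck : d.c * y ∈ d.Y m (k + 1) := (hs.eqv_mem m k y).1 hk
  have hck' : d.c * y + d.c * z ∈ d.Y m' (k + 1) := by
    rw [← mul_add]; exact (hs.eqv_mem m' k _).1 hk'
  obtain ⟨p, hp⟩ := subdiv_int_ne (hT.1 s hsT).2.1 (hT.1 s hsT).2.2
  have hkN : k < d.N := by
    obtain ⟨k₁, h₁, h₂⟩ := hf.1.1
    rwa [hb.lab_uniq m k k₁ y hk h₁]
  by_cases hlt : k + 1 < d.N
  · have g := subdiv_free_mul hs hb hf hk hlt
    have g' := subdiv_free_mul hs hb hf' hk' hlt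
    rw [mul_add] at g'
    have hmem : tile d.Par m (d.c * y) ∈ d.TT := Or.inl ⟨m, _, g, rfl⟩
    have hst : s = tile d.Par m (d.c * y) := by
      by_contra hne
      exact subdiv_touch hp (hsub (interior_subset hp)) (hT.1 _ hmem).2.2
        (hT.2.2 s hsT _ hmem hne)
    subst hst
    exact Or.inl ⟨m, d.c * y, m', k + 1, g, g', rfl, (hb.tile_add m m' _ _ _ hck hA').symm,
      hck, hA'⟩
  · have hkN' : k + 1 = d.N := by omega
    have hav : d.c * y ∈ d.AV := Or.inr ⟨m, k + 1, hck, hkN'.ge⟩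
    have hav' : d.c * y + d.c * z ∈ d.AV := Or.inr ⟨m', k + 1, hck', hkN'.ge⟩
    have hsplit := ok.split m _ (subdiv_mem_Ω hck)
    rcases hsT with ⟨m₁, y₁, hf₁, rfl⟩ | ⟨v, hv, rfl⟩
    · have hp1 := hsub (interior_subset hp)
      rw [hsplit] at hp1
      rcases hp1 with hp1 | hp1
      · exfalso
        refine Set.disjoint_left.1 (hf₁.2 _ hav) (interior_subset hp) ?_
        rw [Set.mem_singleton_iff.1 hp1]
        exact Metric.mem_closedBall_self zero_le_one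
      · obtain ⟨x, hx, hpx⟩ := Set.mem_iUnion₂.1 hp1
        have hx : d.Par m x (d.c * y) := hx
        have hax := subdiv_child_act hs hb hx (hkN' ▸ hck)
        obtain ⟨rfl, rfl⟩ := subdiv_act_eq ok hb hf₁.1 hax hp hpx
        obtain ⟨k₁, hk₁, -⟩ := hax.1
        obtain ⟨hx', hA₁⟩ := hb.step m m' _ _ y₁ _ k₁ hck hA' hx hk₁
        have hax' := subdiv_child_act hs hb hx' (hkN' ▸ hck')
        have himg := hb.tile_add _ _ _ _ _ hk₁ hA₁
        refine Or.inl ⟨m + 1, y₁, m' + 1, k₁, hf₁, ⟨hax', fun v hv => ?_⟩, rfl, himg.symm,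
          hk₁, hA₁⟩
        by_contra hd
        obtain rfl := subdiv_child_centre hs hb hx' hax' hv hd
        rw [himg] at hd
        exact subdiv_meet_add hd (hf₁.2 _ hav)
    · have hv1 : v ∈ tile d.Par m (d.c * y) :=
        hsub (Or.inl (Metric.mem_closedBall_self zero_le_one))
      have hvy : v = d.c * y := by
        rw [hsplit] at hv1
        rcases hv1 with hv1 | hv1
        · exact hv1
        · obtain ⟨x, hx, hvx⟩ := Set.mem_iUnion₂.1 hv1
          have hx : d.Par m x (d.c * y) := hx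
          exact subdiv_child_centre hs hb hx (subdiv_child_act hs hb hx (hkN' ▸ hck)) hv
            (Set.not_disjoint_iff.2 ⟨v, hvx, Metric.mem_closedBall_self zero_le_one⟩)
      subst hvy
      exact Or.inr ⟨_, hav, hav', rfl, (subdiv_cen_add hb hav hav').symm⟩

theorem subdiv_cen_case (hs : d.Sys) (ok : d.OK) (hb : d.Base) (hT : IsTiling d.TT)
    {v z : ℂ} (hv : v ∈ d.AV) (hv' : v + z ∈ d.AV) {s : Set ℂ} (hsT : s ∈ d.TT)
    (hsub : s ⊆ (fun w => d.c * w) '' d.Cen v) :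
    d.Rel s ((fun w => w + d.c * z) '' s) (d.c * z) := by
  have hc := hs.hc
  have hN := hb.hN
  have hav := subdiv_av_mul hs hv
  have hav' := subdiv_av_mul hs hv'
  rw [mul_add] at hav'
  obtain ⟨p, hp⟩ := subdiv_int_ne (hT.1 s hsT).2.1 (hT.1 s hsT).2.2
  rcases hsT with ⟨m₁, y₁, hf₁, rfl⟩ | ⟨v₂, hv₂, rfl⟩
  · have hmeet : ¬ Disjoint (tile d.Par m₁ y₁) (Metric.closedBall (d.c * v) ‖d.c‖) := by
      obtain ⟨p', hp', rfl⟩ := hsub (interior_subset hp)
      rcases hp' with hp' | ⟨m, y, ha, hd, hp'⟩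
      · refine Set.not_disjoint_iff.2 ⟨d.c * p', interior_subset hp, ?_⟩
        rw [Metric.mem_closedBall, dist_eq_norm] at hp' ⊢
        rw [← mul_sub, norm_mul]
        nlinarith [norm_nonneg (p' - v)]
      · obtain ⟨k, hk0, hk, -⟩ := hb.near_small v hv 1 hc.le m y ha hd
        have ha' := subdiv_act_mul hs ha hk (by omega)
        have hp'' : d.c * p' ∈ tile d.Par m (d.c * y) := by
          rw [hb.tile_mul]; exact ⟨p', hp', rfl⟩
        obtain ⟨rfl, rfl⟩ := subdiv_act_eq ok hb hf₁.1 ha' hp hp''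
        rw [hb.tile_mul]
        exact subdiv_meet_mul hs hd
    obtain ⟨k, hk0, hk, hu, hn, hball, hA, -⟩ :=
      hb.near_small _ hav ‖d.c‖ le_rfl m₁ y₁ hf₁.1 hmeet
    obtain ⟨m', ha', hA'⟩ := subdiv_plant hs hb hav' hk0 hu hn
    have e : y₁ - d.c * v + (d.c * v + d.c * z) = y₁ + d.c * z := by ring
    rw [e] at ha'
    have hAgr : d.Agr m₁ m' (d.c * z) y₁ (d.ρ * ‖d.c‖ ^ k) := by
      intro k' u hu'
      have hu'' : ‖u - d.c * v - (y₁ - d.c * v)‖ ≤ d.ρ * ‖d.c‖ ^ k := by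
        rwa [sub_sub_sub_cancel_right]
      have h1 := hA k' _ hu''
      have h2 := hA' k' _ hu''
      rw [sub_add_cancel] at h1
      have e' : u - d.c * v + (d.c * v + d.c * z) = u + d.c * z := by ring
      rw [e'] at h2
      exact h1.symm.trans h2
    have himg := hb.tile_add _ _ _ _ _ hk hAgr
    refine Or.inl ⟨m₁, y₁, m', k, hf₁, ⟨ha', fun v₂ hv₂ => ?_⟩, rfl, himg.symm, hk, hAgr⟩
    by_contra hd
    rw [himg] at hd
    have hv₂e : v₂ = d.c * v + d.c * z := by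
      by_contra hne
      have hsep := hb.av_sep v₂ hv₂ _ hav' hne
      obtain ⟨_, ⟨w, hw, rfl⟩, hb2⟩ := Set.not_disjoint_iff.1 hd
      have hw' := hball hw
      rw [Metric.mem_closedBall, dist_eq_norm] at hw' hb2
      simp only at hb2
      have e1 : v₂ - (d.c * v + d.c * z) = (w - d.c * v) - (w + d.c * z - v₂) := by ring
      have e2 := norm_sub_le (w - d.c * v) (w + d.c * z - v₂)
      rw [e1] at hsep
      linarith
    subst hv₂e
    exact subdiv_meet_add hd (hf₁.2 _ hav)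
  · have hvy : v₂ = d.c * v := by
      by_contra hne
      have hsep := hb.av_sep v₂ hv₂ _ hav hne
      obtain ⟨w, hw, hwe⟩ := hsub (Or.inl (Metric.mem_closedBall_self zero_le_one))
      have hw' := subdiv_cen_sub hs hb hv hw
      rw [Metric.mem_closedBall, dist_eq_norm] at hw'
      simp only at hwe
      rw [← hwe, ← mul_sub, norm_mul] at hsep
      nlinarith
    subst hvy
    exact Or.inr ⟨_, hav, hav', rfl, (subdiv_cen_add hb hav hav').symm⟩

theorem subdiv : SUBDIV := by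
  intro d hs ok hb hT t t' z hR
  rcases hR with ⟨m, y, m', k, hf, hf', rfl, rfl, hk, hA⟩ | ⟨v, hv, hv', rfl, rfl⟩
  · refine ⟨hb.tile_add m m' z y k hk hA, fun s hsT hsub => ?_⟩
    rw [← hb.tile_mul] at hsub
    exact subdiv_free_case hs ok hb hT hf hf' hk hA hsT hsub
  · exact ⟨subdiv_cen_add hb hv hv', fun s hsT hsub =>
      subdiv_cen_case hs ok hb hT hv hv' hsT hsub⟩

end Pool.Agent.H527Z.Per
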