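import Pool.Agent.H527Z.Per.Defs2

/-!
# The tiles of a hierarchy of nets with punctures
-/

set_option autoImplicit false

namespace Pool.Agent.H527Z.Per

open Set

section

variable {Ω V : ℕ → Set ℂ} {s : ℕ → ℂ → ℝ} {Par : ℕ → ℂ → ℂ → Prop} {S r R D E ε Θ M : ℝ}

theorem tiles2_M_ge (H : Hier2 Ω V s Par S r R D E ε Θ M) : 2 * D + 3 * R + r + 1 ≤ M := by
  have h1 := H.hM
  have h2 := H.hΘ
  have h3 := H.hD
  have h4 := H.hR
  have h5 := H.hr
  nlinarith

theorem tiles2_desc_mem (H : Hier2 Ω V s Par S r R D E ε Θ M) :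
    ∀ (n m : ℕ) (y x : ℂ), y ∈ Ω m → Desc Par n m y x → x ∈ Ω (m + n)
  | 0, m, y, x, hy, h => by
    have : x = y := h
    rw [this]; exact hy
  | n + 1, m, y, x, _, h => by
    obtain ⟨u, hu, hx⟩ := h
    have := tiles2_desc_mem H n (m + 1) u x (H.par_mem m u y hu).1 hx
    rwa [show m + 1 + n = m + (n + 1) by ring] at this

theorem tiles2_desc_scale (H : Hier2 Ω V s Par S r R D E ε Θ M) :
    ∀ (n m : ℕ) (y x : ℂ), Desc Par n m y x → s (m + n) x * S ^ n ≤ s m y
  | 0, m, y, x, h => by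
    have : x = y := h
    rw [this]; simp
  | n + 1, m, y, x, h => by
    obtain ⟨u, hu, hx⟩ := h
    have h1 := tiles2_desc_scale H n (m + 1) u x hx
    rw [show m + 1 + n = m + (n + 1) by ring] at h1
    have h2 := H.par_scale m u y hu
    have hS : 0 ≤ S := by have := H.hS; linarith
    have h3 := mul_le_mul_of_nonneg_right h1 hS
    rw [pow_succ, ← mul_assoc]
    exact h3.trans h2

theorem tiles2_desc_dist (H : Hier2 Ω V s Par S r R D E ε Θ M) :
    ∀ (n m : ℕ) (y x : ℂ), y ∈ Ω m → Desc Par n m y x → ‖x - y‖ ≤ 2 * D * s m y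
  | 0, m, y, x, hy, h => by
    have : x = y := h
    rw [this, sub_self, norm_zero]
    have := H.s_pos m y hy
    have := H.hD
    positivity
  | n + 1, m, y, x, hy, h => by
    obtain ⟨u, hu, hx⟩ := h
    have hu' := (H.par_mem m u y hu).1
    have h1 := tiles2_desc_dist H n (m + 1) u x hu' hx
    have h2 := H.par_dist m u y hu
    have h3 := H.par_scale m u y hu
    have h4 : ‖x - y‖ ≤ ‖x - u‖ + ‖u - y‖ := norm_sub_le_norm_sub_add_norm_sub x u y
    have h5 := H.s_pos (m + 1) u hu'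
    have h6 := H.hS
    have h7 := H.hD
    have h8 : 4 * s (m + 1) u ≤ s m y := by nlinarith
    nlinarith

theorem tiles2_closed (m : ℕ) (y : ℂ) : IsClosed (tile Par m y) := isClosed_closure

theorem tiles2_self (m : ℕ) (y : ℂ) : y ∈ tile Par m y :=
  subset_closure ⟨0, rfl⟩

theorem tiles2_dist (H : Hier2 Ω V s Par S r R D E ε Θ M) {m : ℕ} {y z : ℂ} (hy : y ∈ Ω m)
    (hz : z ∈ tile Par m y) : ‖z - y‖ ≤ 2 * D * s m y := by
  have hc : IsClosed {z : ℂ | ‖z - y‖ ≤ 2 * D * s m y} :=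
    isClosed_le (by fun_prop) continuous_const
  refine closure_minimal ?_ hc hz
  rintro x ⟨n, hx⟩
  exact tiles2_desc_dist H n m y x hy hx

theorem tiles2_compact (H : Hier2 Ω V s Par S r R D E ε Θ M) {m : ℕ} {y : ℂ} (hy : y ∈ Ω m) :
    IsCompact (tile Par m y) := by
  refine (isCompact_closedBall y (2 * D * s m y)).of_isClosed_subset (tiles2_closed m y) ?_
  intro z hz
  rw [Metric.mem_closedBall, dist_eq_norm]
  exact tiles2_dist H hy hz

theorem tiles2_not_closure (H : Hier2 Ω V s Par S r R D E ε Θ M) {m : ℕ} {y z : ℂ}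
    (hy : y ∈ Ω m) (hz : z ∈ tile Par m y) : z ∉ closure (V m) := by
  intro hv
  have hc : IsClosed {v : ℂ | M * s m y ≤ ‖y - v‖} :=
    isClosed_le continuous_const (by fun_prop)
  have h1 : M * s m y ≤ ‖y - z‖ :=
    closure_minimal (s := V m) (t := {v : ℂ | M * s m y ≤ ‖y - v‖})
      (fun v hv => H.far m y hy v hv) hc hv
  have h2 := tiles2_dist H hy hz
  rw [norm_sub_rev] at h2
  have h3 := tiles2_M_ge H
  have h4 := H.s_pos m y hy
  have h5 := H.hR
  have h6 := H.hr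
  nlinarith

theorem tiles2_not_V (H : Hier2 Ω V s Par S r R D E ε Θ M) {m : ℕ} {y z : ℂ}
    (hy : y ∈ Ω m) (hz : z ∈ tile Par m y) : z ∉ V m :=
  fun hv => tiles2_not_closure H hy hz (subset_closure hv)

theorem tiles2_near (H : Hier2 Ω V s Par S r R D E ε Θ M) {m : ℕ} {y z y' : ℂ} (hy : y ∈ Ω m)
    (hz : z ∈ tile Par m y) (hy' : y' ∈ Ω m) : ‖z - y‖ ≤ ‖z - y'‖ + ε * r / 6 * s m y := by
  have hc : IsClosed {z : ℂ | ‖z - y‖ ≤ ‖z - y'‖ + ε * r / 6 * s m y} :=
    isClosed_le (by fun_prop) (by fun_prop)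
  refine closure_minimal ?_ hc hz
  rintro x ⟨n, hx⟩
  have h0 := H.s_pos m y hy
  have hε := H.hε
  have hr := H.hr
  show ‖x - y‖ ≤ ‖x - y'‖ + ε * r / 6 * s m y
  cases n with
  | zero =>
    have : x = y := hx
    rw [this, sub_self, norm_zero]
    positivity
  | succ n =>
    obtain ⟨u, hu, hx⟩ := hx
    have hu' := (H.par_mem m u y hu).1
    have h1 := tiles2_desc_dist H n (m + 1) u x hu' hx
    have h2 := H.par_near m u y hu y' hy'
    have h3 := H.par_scale m u y hu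
    have h4 : ‖x - y‖ ≤ ‖x - u‖ + ‖u - y‖ := norm_sub_le_norm_sub_add_norm_sub x u y
    have h4' : ‖u - y'‖ ≤ ‖u - x‖ + ‖x - y'‖ := norm_sub_le_norm_sub_add_norm_sub u x y'
    rw [norm_sub_rev u x] at h4'
    have hS : 0 < S := by have := H.hS; linarith
    have h5 : s (m + 1) u ≤ s m y / S := by rw [le_div_iff₀ hS]; exact h3
    have h6 := H.hbig
    have h7 : 0 < s m y / S := div_pos h0 hS
    have h8 : 6 * (E + 4 * D) * (s m y / S) ≤ ε * r * S * (s m y / S) :=
      mul_le_mul_of_nonneg_right h6 h7.le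
    have h9 : ε * r * S * (s m y / S) = ε * r * s m y := by field_simp
    have h10 : D * s (m + 1) u ≤ D * (s m y / S) := mul_le_mul_of_nonneg_left h5 H.hD.le
    nlinarith

theorem tiles2_near' (H : Hier2 Ω V s Par S r R D E ε Θ M) {m : ℕ} {y z y' : ℂ} (hy : y ∈ Ω m)
    (hz : z ∈ tile Par m y) (hy' : y' ∈ Ω m) : ‖z - y‖ ≤ (1 + ε) * ‖z - y'‖ := by
  have hε := H.hε
  have hε1 := H.hε1
  have hb := norm_nonneg (z - y')
  have ha := norm_nonneg (z - y)
  by_cases h : y = y'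
  · rw [← h]; nlinarith
  · have h1 := tiles2_near H hy hz hy'
    have h2 := H.sep m y hy y' hy' h
    have h3 : ‖y - y'‖ ≤ ‖y - z‖ + ‖z - y'‖ := norm_sub_le_norm_sub_add_norm_sub y z y'
    rw [norm_sub_rev y z] at h3
    set a := ‖z - y‖
    set b := ‖z - y'‖
    set σ := s m y
    have h4 : ε * (r * σ) ≤ ε * (a + b) := mul_le_mul_of_nonneg_left (by linarith) hε.le
    have h5 : (6 - ε) * a ≤ (6 + ε) * b := by nlinarith
    have h6 : (6 + ε) * b ≤ (6 - ε) * ((1 + ε) * b) := by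
      have : 0 ≤ ε * (4 - ε) * b := by
        have : 0 ≤ 4 - ε := by linarith
        positivity
      nlinarith
    exact le_of_mul_le_mul_left (h5.trans h6) (by linarith)

theorem tiles2_near2 (H : Hier2 Ω V s Par S r R D E ε Θ M) {m : ℕ} {y z y' : ℂ} (hy : y ∈ Ω m)
    (hz : z ∈ tile Par m y) (hy' : y' ∈ Ω m) : ‖z - y‖ ≤ 2 * ‖z - y'‖ := by
  have h1 := tiles2_near' H hy hz hy'
  have h2 : (1 + ε) * ‖z - y'‖ ≤ 2 * ‖z - y'‖ :=
    mul_le_mul_of_nonneg_right (by have := H.hε1; linarith) (norm_nonneg _)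
  exact h1.trans h2

theorem tiles2_eq_of_mem (H : Hier2 Ω V s Par S r R D E ε Θ M) {m : ℕ} {y z : ℂ} (hy : y ∈ Ω m)
    (hz : z ∈ tile Par m y) (hz' : z ∈ Ω m) : z = y := by
  have h1 := tiles2_near2 H hy hz hz'
  rw [sub_self, norm_zero, mul_zero] at h1
  exact sub_eq_zero.1 (norm_le_zero_iff.1 h1)

/-- only finitely many tiles come near a point that is not a puncture -/
theorem tiles2_locfin (H : Hier2 Ω V s Par S r R D E ε Θ M) (m : ℕ) {z : ℂ} (hz : z ∉ V m) :
    ∃ δ : ℝ, 0 < δ ∧ {y ∈ Ω m | ∃ w ∈ tile Par m y, ‖z - w‖ < δ}.Finite := by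
  obtain ⟨x, hx, hzx⟩ := H.dens m z hz
  have h0 := H.s_pos m x hx
  refine ⟨s m x / 3, by positivity, (H.fin m x hx).subset ?_⟩
  rintro y ⟨hy, w, hw, hzw⟩
  refine ⟨hy, ?_⟩
  have h1 := tiles2_near2 H hy hw hx
  have h2 : ‖y - x‖ ≤ ‖y - w‖ + ‖w - x‖ := norm_sub_le_norm_sub_add_norm_sub y w x
  have h3 : ‖w - x‖ ≤ ‖w - z‖ + ‖z - x‖ := norm_sub_le_norm_sub_add_norm_sub w z x
  rw [norm_sub_rev y w] at h2
  rw [norm_sub_rev w z] at h3
  have h4 := tiles2_M_ge H
  have h5 := H.hD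
  have h6 := H.hr
  have h7 : (3 * R + 1) * s m x ≤ M * s m x := mul_le_mul_of_nonneg_right (by linarith) h0.le
  nlinarith

theorem tiles2_child_sub {m : ℕ} {u y : ℂ} (h : Par m u y) :
    tile Par (m + 1) u ⊆ tile Par m y := by
  apply closure_mono
  rintro x ⟨n, hx⟩
  exact ⟨n + 1, u, h, hx⟩

theorem tiles2_desc_sub :
    ∀ (n m : ℕ) (y x : ℂ), Desc Par n m y x → tile Par (m + n) x ⊆ tile Par m y
  | 0, m, y, x, h => by
    have : x = y := h
    rw [this]; exact Subset.rfl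
  | n + 1, m, y, x, h => by
    obtain ⟨u, hu, hx⟩ := h
    have := tiles2_desc_sub n (m + 1) u x hx
    rw [show m + 1 + n = m + (n + 1) by ring] at this
    exact this.trans (tiles2_child_sub hu)

theorem tiles2_split (H : Hier2 Ω V s Par S r R D E ε Θ M) {m : ℕ} {y : ℂ} (hy : y ∈ Ω m) :
    tile Par m y = {y} ∪ ⋃ x ∈ {x | Par m x y}, tile Par (m + 1) x := by
  apply Subset.antisymm
  · intro z hz
    by_cases hzy : z = y
    · exact Or.inl hzy
    right
    have hzV : z ∉ V (m + 1) := by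
      rw [H.V_succ m]
      rintro (h | h)
      · exact tiles2_not_V H hy hz h
      · exact hzy (tiles2_eq_of_mem H hy hz h)
    obtain ⟨δ, hδ, hf⟩ := tiles2_locfin H (m + 1) hzV
    have hf' : {u | Par m u y ∧ ∃ w ∈ tile Par (m + 1) u, ‖z - w‖ < δ}.Finite :=
      hf.subset fun u hu => ⟨(H.par_mem m u y hu.1).1, hu.2⟩
    have hn : 0 < ‖z - y‖ := norm_pos_iff.2 (sub_ne_zero.2 hzy)
    have h1 : z ∈ closure (⋃ u ∈ {u | Par m u y ∧ ∃ w ∈ tile Par (m + 1) u, ‖z - w‖ < δ},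
        {x | ∃ n, Desc Par n (m + 1) u x}) := by
      rw [Metric.mem_closure_iff]
      intro η hη
      obtain ⟨x, ⟨n, hx⟩, hd⟩ := Metric.mem_closure_iff.1 hz (min η (min δ ‖z - y‖))
        (lt_min hη (lt_min hδ hn))
      rw [lt_min_iff, lt_min_iff, dist_eq_norm] at hd
      refine ⟨x, ?_, by rw [dist_eq_norm]; exact hd.1⟩
      cases n with
      | zero =>
        have : x = y := hx
        rw [this] at hd
        exact absurd hd.2.2 (lt_irrefl _)
      | succ n =>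
        obtain ⟨u, hu, hx⟩ := hx
        simp only [mem_ofPred_eq, mem_iUnion, exists_prop]
        exact ⟨u, ⟨hu, x, subset_closure ⟨n, hx⟩, hd.2.1⟩, n, hx⟩
    rw [hf'.closure_biUnion] at h1
    simp only [mem_ofPred_eq, mem_iUnion, exists_prop] at h1 ⊢
    obtain ⟨u, ⟨hu, _⟩, h⟩ := h1
    exact ⟨u, hu, h⟩
  · rintro z (hz | hz)
    · have : z = y := hz
      rw [this]; exact tiles2_self m y
    · simp only [mem_ofPred_eq, mem_iUnion, exists_prop] at hz
      obtain ⟨u, hu, h⟩ := hz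
      exact tiles2_child_sub hu h

theorem tiles2_anc (H : Hier2 Ω V s Par S r R D E ε Θ M) :
    ∀ (n m : ℕ) (x : ℂ), x ∈ Ω (m + n) → ∃ y ∈ Ω m, Desc Par n m y x
  | 0, _, x, hx => ⟨x, hx, rfl⟩
  | n + 1, m, x, hx => by
    rw [show m + (n + 1) = m + 1 + n by ring] at hx
    obtain ⟨u, hu, hx⟩ := tiles2_anc H n (m + 1) x hx
    obtain ⟨y, hy⟩ := H.par_ex m u hu
    exact ⟨y, (H.par_mem m u y hy).2, u, hy, hx⟩

theorem tiles2_desc_uniq (H : Hier2 Ω V s Par S r R D E ε Θ M) :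
    ∀ (n m : ℕ) (y y' x : ℂ), Desc Par n m y x → Desc Par n m y' x → y = y'
  | 0, _, y, y', x, h, h' => by
    have h1 : x = y := h
    have h2 : x = y' := h'
    rw [← h1, ← h2]
  | n + 1, m, y, y', x, h, h' => by
    obtain ⟨u, hu, hx⟩ := h
    obtain ⟨u', hu', hx'⟩ := h'
    have := tiles2_desc_uniq H n (m + 1) u u' x hx hx'
    subst this
    exact H.par_uniq m u y y' hu hu'

theorem tiles2_small (H : Hier2 Ω V s Par S r R D E ε Θ M) (C δ : ℝ) (hδ : 0 < δ) :
    ∃ n : ℕ, C < δ * S ^ n := by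
  have hS : 1 < S := by have := H.hS; linarith
  obtain ⟨n, hn⟩ := pow_unbounded_of_one_lt (C / δ) hS
  refine ⟨n, ?_⟩
  rw [div_lt_iff₀ hδ] at hn
  linarith

theorem tiles2_dens (H : Hier2 Ω V s Par S r R D E ε Θ M) (m : ℕ) {z : ℂ} (hz : z ∉ V m) (δ : ℝ)
    (hδ : 0 < δ) : ∃ n : ℕ, ∃ x ∈ Ω (m + n), ‖z - x‖ < δ := by
  by_cases h : ∃ n, z ∈ Ω (m + n)
  · obtain ⟨n, hn⟩ := h
    exact ⟨n, z, hn, by rw [sub_self, norm_zero]; exact hδ⟩
  have hV : ∀ n, z ∉ V (m + n) := by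
    intro n
    induction n with
    | zero => exact hz
    | succ n ih =>
      rw [← add_assoc, H.V_succ]
      rintro (h' | h')
      · exact ih h'
      · exact h ⟨n, h'⟩
  obtain ⟨x₀, hx₀, hzx₀⟩ := H.dens m z hz
  obtain ⟨n, hn⟩ := tiles2_small H (R * (Θ * s m x₀)) δ hδ
  obtain ⟨x, hx, hzx⟩ := H.dens (m + n) z (hV n)
  refine ⟨n, x, hx, ?_⟩
  obtain ⟨y, hy, hd⟩ := tiles2_anc H n m x hx
  have h1 := tiles2_desc_scale H n m y x hd
  have h2 := tiles2_desc_dist H n m y x hy hd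
  have hS1 : 1 ≤ S ^ n := one_le_pow₀ (by have := H.hS; linarith)
  have hsx := H.s_pos _ x hx
  have hsy := H.s_pos _ y hy
  have hs0 := H.s_pos _ x₀ hx₀
  have hR := H.hR
  have h3 : s (m + n) x ≤ s m y := by nlinarith
  have h4 : s m y ≤ Θ * s m x₀ := by
    by_cases hle : s m y ≤ s m x₀
    · have := H.hΘ
      nlinarith
    · have hlt : s m x₀ ≤ s m y := (not_le.1 hle).le
      refine (H.comp m y hy x₀ hx₀ ?_).2
      have h5 : ‖y - x₀‖ ≤ ‖y - x‖ + ‖x - x₀‖ := norm_sub_le_norm_sub_add_norm_sub y x x₀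
      have h6 : ‖x - x₀‖ ≤ ‖x - z‖ + ‖z - x₀‖ := norm_sub_le_norm_sub_add_norm_sub x z x₀
      rw [norm_sub_rev y x] at h5
      rw [norm_sub_rev x z] at h6
      have h7 := tiles2_M_ge H
      have h8 := H.hr
      have h9 : (2 * D + 2 * R) * s m y ≤ M * s m y :=
        mul_le_mul_of_nonneg_right (by linarith) hsy.le
      have h10 : R * s (m + n) x ≤ R * s m y := mul_le_mul_of_nonneg_left h3 hR.le
      have h11 : R * s m x₀ ≤ R * s m y := mul_le_mul_of_nonneg_left hlt hR.le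
      linarith
  have h5 : R * (s (m + n) x * S ^ n) ≤ R * (Θ * s m x₀) :=
    mul_le_mul_of_nonneg_left (h1.trans h4) hR.le
  have h6 : R * s (m + n) x * S ^ n < δ * S ^ n := by linarith
  have h7 : R * s (m + n) x < δ := lt_of_mul_lt_mul_right h6 (by linarith)
  exact hzx.trans_lt h7

theorem tiles2_cover (H : Hier2 Ω V s Par S r R D E ε Θ M) (m : ℕ) {z : ℂ} (hz : z ∉ V m) :
    ∃ y ∈ Ω m, z ∈ tile Par m y := by
  obtain ⟨δ, hδ, hf⟩ := tiles2_locfin H m hz
  have h1 : z ∈ closure (⋃ y ∈ {y ∈ Ω m | ∃ w ∈ tile Par m y, ‖z - w‖ < δ},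
      {x | ∃ n, Desc Par n m y x}) := by
    rw [Metric.mem_closure_iff]
    intro η hη
    obtain ⟨n, x, hx, h1⟩ := tiles2_dens H m hz (min η δ) (lt_min hη hδ)
    rw [lt_min_iff] at h1
    obtain ⟨y, hy, hd⟩ := tiles2_anc H n m x hx
    refine ⟨x, ?_, by rw [dist_eq_norm]; exact h1.1⟩
    simp only [mem_ofPred_eq, mem_iUnion, exists_prop]
    exact ⟨y, ⟨hy, x, subset_closure ⟨n, hd⟩, h1.2⟩, n, hd⟩
  rw [hf.closure_biUnion] at h1
  simp only [mem_ofPred_eq, mem_iUnion, exists_prop] at h1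
  obtain ⟨y, ⟨hy, _⟩, h⟩ := h1
  exact ⟨y, hy, h⟩

theorem tiles2_core (H : Hier2 Ω V s Par S r R D E ε Θ M) {m : ℕ} {x : ℂ} (hx : x ∈ Ω m) :
    Metric.ball x (r / 3 * s m x) ⊆ tile Par m x := by
  intro z hz
  rw [Metric.mem_ball, dist_eq_norm] at hz
  have h0 := H.s_pos m x hx
  have hr := H.hr
  have hzV : z ∉ V m := by
    intro hv
    have h1 := H.far m x hx z hv
    rw [norm_sub_rev] at h1
    have h2 := tiles2_M_ge H
    have h3 := H.hD
    have h4 := H.hR
    have h5 : r / 3 * s m x ≤ M * s m x := mul_le_mul_of_nonneg_right (by linarith) h0.le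
    linarith
  obtain ⟨y, hy, hzy⟩ := tiles2_cover H m hzV
  by_cases h : x = y
  · rw [h]; exact hzy
  · exfalso
    have h1 := tiles2_near2 H hy hzy hx
    have h2 := H.sep m x hx y hy h
    have h3 : ‖x - y‖ ≤ ‖x - z‖ + ‖z - y‖ := norm_sub_le_norm_sub_add_norm_sub x z y
    rw [norm_sub_rev x z] at h3
    linarith

theorem tiles2_mem_interior (H : Hier2 Ω V s Par S r R D E ε Θ M) {m : ℕ} {x : ℂ}
    (hx : x ∈ Ω m) : x ∈ interior (tile Par m x) := by
  have h0 := H.s_pos m x hx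
  have hr := H.hr
  rw [mem_interior_iff_mem_nhds, Metric.mem_nhds_iff]
  exact ⟨_, by positivity, tiles2_core H hx⟩

theorem tiles2_closure_interior (H : Hier2 Ω V s Par S r R D E ε Θ M) {m : ℕ} {y : ℂ}
    (hy : y ∈ Ω m) : closure (interior (tile Par m y)) = tile Par m y := by
  apply Subset.antisymm
  · exact closure_minimal interior_subset (tiles2_closed m y)
  · apply closure_mono
    rintro x ⟨n, hx⟩
    exact interior_mono (tiles2_desc_sub n m y x hx)
      (tiles2_mem_interior H (tiles2_desc_mem H n m y x hy hx))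

theorem tiles2_V_mono (H : Hier2 Ω V s Par S r R D E ε Θ M) (m n : ℕ) : V m ⊆ V (m + n) := by
  induction n with
  | zero => exact Subset.rfl
  | succ n ih =>
    rw [← add_assoc, H.V_succ]
    exact ih.trans subset_union_left

theorem tiles2_desc_of_mem (H : Hier2 Ω V s Par S r R D E ε Θ M) :
    ∀ (n m : ℕ) (y x : ℂ), y ∈ Ω m → x ∈ Ω (m + n) → x ∈ tile Par m y → Desc Par n m y x
  | 0, _, _, _, hy, hx, h => tiles2_eq_of_mem H hy h hx
  | n + 1, m, y, x, hy, hx, h => by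
    rw [show m + (n + 1) = m + 1 + n by ring] at hx
    rw [tiles2_split H hy] at h
    rcases h with h | h
    · exfalso
      have hxy : x = y := h
      have h1 : x ∈ V (m + 1) := by
        rw [H.V_succ, hxy]; exact Or.inr hy
      exact tiles2_not_V H hx (tiles2_self _ x) (tiles2_V_mono H (m + 1) n h1)
    · simp only [mem_ofPred_eq, mem_iUnion, exists_prop] at h
      obtain ⟨u, hu, h⟩ := h
      exact ⟨u, hu, tiles2_desc_of_mem H n (m + 1) u x (H.par_mem m u y hu).1 hx h⟩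

theorem tiles2_disjoint (H : Hier2 Ω V s Par S r R D E ε Θ M) {m : ℕ} {y y' : ℂ} (hy : y ∈ Ω m)
    (hy' : y' ∈ Ω m) (hne : y ≠ y') :
    Disjoint (interior (tile Par m y)) (interior (tile Par m y')) := by
  rw [Set.disjoint_left]
  intro z h1 h2
  have hz0 : z ∉ V m := tiles2_not_V H hy (interior_subset h1)
  have ho : IsOpen (interior (tile Par m y) ∩ interior (tile Par m y')) :=
    isOpen_interior.inter isOpen_interior
  obtain ⟨δ, hδ, hb⟩ := Metric.isOpen_iff.1 ho z ⟨h1, h2⟩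
  obtain ⟨n, x, hx, h3⟩ := tiles2_dens H m hz0 δ hδ
  have h4 : x ∈ Metric.ball z δ := by
    rw [Metric.mem_ball, dist_eq_norm, norm_sub_rev]; exact h3
  have h5 := hb h4
  exact hne (tiles2_desc_uniq H n m y y' x
    (tiles2_desc_of_mem H n m y x hy hx (interior_subset h5.1))
    (tiles2_desc_of_mem H n m y' x hy' hx (interior_subset h5.2)))

theorem tiles2_seg (H : Hier2 Ω V s Par S r R D E ε Θ M) {m : ℕ} {u v w p q : ℂ} (hw : w ∈ Ω m)
    (hp : ∀ x ∈ Ω m, ‖p - x‖ ≤ (1 + ε) * ‖p - w‖ → x = u ∨ x = v)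
    (hq : q ∈ segment ℝ w p) : q ∈ (tile Par m u ∪ tile Par m v) ∪ closure (V m) := by
  by_cases h0 : q ∈ V m
  · exact Or.inr (subset_closure h0)
  left
  obtain ⟨y, hy, hqy⟩ := tiles2_cover H m h0
  have h1 := tiles2_near' H hy hqy hw
  have h2 : dist w q + dist q p = dist w p := dist_add_dist_of_mem_segment hq
  rw [dist_eq_norm, dist_eq_norm, dist_eq_norm, norm_sub_rev w q, norm_sub_rev q p,
    norm_sub_rev w p] at h2
  have h3 : ‖p - y‖ ≤ ‖p - q‖ + ‖q - y‖ := norm_sub_le_norm_sub_add_norm_sub p q y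
  have h4 : 0 ≤ ε * ‖p - q‖ := mul_nonneg H.hε.le (norm_nonneg _)
  have h5 : ‖p - y‖ ≤ (1 + ε) * ‖p - w‖ := by rw [← h2]; nlinarith
  rcases hp y hy h5 with h | h
  · left; rw [← h]; exact hqy
  · right; rw [← h]; exact hqy

theorem tiles2_adj (H : Hier2 Ω V s Par S r R D E ε Θ M) {m : ℕ} {u v : ℂ}
    (h : Adj ε (Ω m) u v) : (tile Par m u ∩ tile Par m v).Nonempty := by
  obtain ⟨hu, hv, p, hp1, hp2⟩ := h
  have hP : IsPreconnected (segment ℝ u p ∪ segment ℝ v p) :=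
    IsPreconnected.union p (right_mem_segment ℝ u p) (right_mem_segment ℝ v p)
      (convex_segment u p).isPreconnected (convex_segment v p).isPreconnected
  have hsub : segment ℝ u p ∪ segment ℝ v p ⊆
      (tile Par m u ∪ tile Par m v) ∪ closure (V m) := by
    rintro q (hq | hq)
    · exact tiles2_seg H hu hp2 hq
    · exact tiles2_seg H hv (by rw [← hp1]; exact hp2) hq
  have hK : IsClosed (tile Par m u ∪ tile Par m v) :=
    (tiles2_closed m u).union (tiles2_closed m v)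
  have hsub' : segment ℝ u p ∪ segment ℝ v p ⊆ tile Par m u ∪ tile Par m v := by
    intro q hq
    rcases hsub hq with h | h
    · exact h
    · exfalso
      obtain ⟨z, _, hz1, hz2⟩ := isPreconnected_closed_iff.1 hP _ _ hK isClosed_closure hsub
        ⟨u, Or.inl (left_mem_segment ℝ u p), Or.inl (tiles2_self m u)⟩ ⟨q, hq, h⟩
      rcases hz1 with hz1 | hz1
      · exact tiles2_not_closure H hu hz1 hz2
      · exact tiles2_not_closure H hv hz1 hz2
  obtain ⟨z, _, hz⟩ := isPreconnected_closed_iff.1 hP _ _ (tiles2_closed m u) (tiles2_closed m v)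
    hsub' ⟨u, Or.inl (left_mem_segment ℝ u p), tiles2_self m u⟩
    ⟨v, Or.inr (left_mem_segment ℝ v p), tiles2_self m v⟩
  exact ⟨z, hz⟩

theorem tiles2_step (H : Hier2 Ω V s Par S r R D E ε Θ M) {k : ℕ} {x : ℂ} (hx : x ∈ Ω k)
    {t t' : Set ℂ} (hd : ∀ z ∈ tile Par k x, z ∈ t → z ∈ t' → False)
    (hc : ∀ u, Par k u x → tile Par (k + 1) u ⊆ t ∨ tile Par (k + 1) u ⊆ t')
    (h0 : Metric.ball x (r / 3 * s k x) ⊆ t) : tile Par k x ⊆ t := by
  have hs := H.s_pos k x hx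
  have hr := H.hr
  have key : ∀ x₀, ‖x₀ - x‖ ≤ r / 8 * s k x → Par k x₀ x → ∀ u, Relation.ReflTransGen
      (fun a b => Adj ε (Ω (k + 1)) a b ∧ Par k b x) x₀ u → tile Par (k + 1) u ⊆ t := by
    intro x₀ h1 h2 u hu
    induction hu with
    | refl =>
      rcases hc x₀ h2 with h | h
      · exact h
      · exfalso
        refine hd x₀ (tiles2_child_sub h2 (tiles2_self _ x₀)) (h0 ?_) (h (tiles2_self _ x₀))
        rw [Metric.mem_ball, dist_eq_norm]
        have : 0 < r * s k x := by positivity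
        linarith
    | tail _ hb ih =>
      rcases hc _ hb.2 with h | h
      · exact h
      · exfalso
        obtain ⟨z, hz1, hz2⟩ := tiles2_adj H hb.1
        exact hd z (tiles2_child_sub hb.2 hz2) (ih hz1) (h hz2)
  rw [tiles2_split H hx]
  refine union_subset ?_ (iUnion₂_subset fun u hu => ?_)
  · rw [singleton_subset_iff]
    exact h0 (Metric.mem_ball_self (by positivity))
  · obtain ⟨x₀, h1, h2, h3⟩ := H.chain k u x hu
    exact key x₀ h1 h2 u h3

theorem tiles2_descend (H : Hier2 Ω V s Par S r R D E ε Θ M) {t t' : Set ℂ} (ht : IsClosed t)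
    (ht' : IsClosed t') :
    ∀ (j k : ℕ) (x : ℂ), x ∈ Ω k → tile Par k x ⊆ t ∪ t' →
      (∀ z ∈ tile Par k x, z ∈ t → z ∈ t' → False) →
      (∀ w, Desc Par j k x w → tile Par (k + j) w ⊆ t ∨ tile Par (k + j) w ⊆ t') →
      tile Par k x ⊆ t ∨ tile Par k x ⊆ t'
  | 0, _, x, _, _, _, h => h x rfl
  | j + 1, k, x, hx, hsub, hd, h => by
    have hc : ∀ u, Par k u x → tile Par (k + 1) u ⊆ t ∨ tile Par (k + 1) u ⊆ t' := by
      intro u hu
      refine tiles2_descend H ht ht' j (k + 1) u (H.par_mem k u x hu).1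
        ((tiles2_child_sub hu).trans hsub)
        (fun z hz => hd z (tiles2_child_sub hu hz)) (fun w hw => ?_)
      rw [show k + 1 + j = k + (j + 1) by ring]
      exact h w ⟨u, hu, hw⟩
    have hcore := tiles2_core H hx
    have hb : Metric.ball x (r / 3 * s k x) ⊆ t ∨ Metric.ball x (r / 3 * s k x) ⊆ t' := by
      by_contra hno
      rw [not_or, not_subset, not_subset] at hno
      obtain ⟨⟨a, ha, ha'⟩, ⟨b, hb, hb'⟩⟩ := hno
      have ha2 : a ∈ t' := (hsub (hcore ha)).resolve_left ha'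
      have hb2 : b ∈ t := (hsub (hcore hb)).resolve_right hb'
      obtain ⟨z, hz0, hz1, hz2⟩ := isPreconnected_closed_iff.1
        (convex_ball x (r / 3 * s k x)).isPreconnected _ _ ht ht' (hcore.trans hsub)
        ⟨b, hb, hb2⟩ ⟨a, ha, ha2⟩
      exact hd z (hcore hz0) hz1 hz2
    rcases hb with h0 | h0
    · exact Or.inl (tiles2_step H hx hd hc h0)
    · exact Or.inr (tiles2_step H hx (fun z hz h1 h2 => hd z hz h2 h1)
        (fun u hu => (hc u hu).symm) h0)

theorem tiles2_connected (H : Hier2 Ω V s Par S r R D E ε Θ M) {m : ℕ} {y : ℂ} (hy : y ∈ Ω m) :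
    IsConnected (tile Par m y) := by
  refine ⟨⟨y, tiles2_self m y⟩, ?_⟩
  rw [isPreconnected_closed_iff]
  intro t t' ht ht' hsub h1 h2
  by_contra hcon
  have hd : ∀ z ∈ tile Par m y, z ∈ t → z ∈ t' → False := fun z hz a b => hcon ⟨z, hz, a, b⟩
  have hdis : Disjoint (tile Par m y ∩ t) (tile Par m y ∩ t') := by
    rw [Set.disjoint_left]
    exact fun z a b => hd z a.1 a.2 b.2
  obtain ⟨δ, hδ, hsep⟩ := Metric.exists_pos_forall_lt_edist
    ((tiles2_compact H hy).inter_right ht) ((tiles2_closed m y).inter ht') hdis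
  obtain ⟨n, hn⟩ := tiles2_small H (4 * D * s m y) δ (by exact_mod_cast hδ)
  have key : tile Par m y ⊆ t ∨ tile Par m y ⊆ t' := by
    refine tiles2_descend H ht ht' n m y hy hsub hd (fun w hw => ?_)
    have hs := tiles2_desc_sub n m y w hw
    have hwm := tiles2_desc_mem H n m y w hy hw
    by_contra hno
    rw [not_or, not_subset, not_subset] at hno
    obtain ⟨⟨a, ha, ha'⟩, ⟨b, hb, hb'⟩⟩ := hno
    have ha2 : a ∈ t' := (hsub (hs ha)).resolve_left ha'
    have hb2 : b ∈ t := (hsub (hs hb)).resolve_right hb'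
    have h3 := hsep b ⟨hs hb, hb2⟩ a ⟨hs ha, ha2⟩
    rw [edist_nndist, ENNReal.coe_lt_coe, ← NNReal.coe_lt_coe, coe_nndist, dist_eq_norm] at h3
    have h4 := tiles2_dist H hwm ha
    have h5 := tiles2_dist H hwm hb
    have h6 : ‖b - a‖ ≤ ‖b - w‖ + ‖w - a‖ := norm_sub_le_norm_sub_add_norm_sub b w a
    rw [norm_sub_rev w a] at h6
    have h7 := tiles2_desc_scale H n m y w hw
    have h8 : 4 * D * (s (m + n) w * S ^ n) ≤ 4 * D * s m y :=
      mul_le_mul_of_nonneg_left h7 (by have := H.hD; positivity)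
    have hS1 : 0 < S ^ n := pow_pos (by have := H.hS; linarith) n
    have h9 : 4 * D * s (m + n) w * S ^ n < δ * S ^ n := by linarith
    have h10 : 4 * D * s (m + n) w < δ := lt_of_mul_lt_mul_right h9 hS1.le
    linarith
  rcases key with h | h
  · obtain ⟨z, hz1, hz2⟩ := h2
    exact hd z hz1 (h hz1) hz2
  · obtain ⟨z, hz1, hz2⟩ := h1
    exact hd z hz1 hz2 (h hz1)

end

theorem tiles2 : TILES2 := by
  intro Ω V s Par S r R D E ε Θ M H
  exact ⟨fun m y hy => ⟨tiles2_compact H hy, tiles2_connected H hy, tiles2_closure_interior H hy⟩,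
    fun m z hz => tiles2_cover H m hz, fun m y hy y' hy' hne => tiles2_disjoint H hy hy' hne,
    fun m y hy => tiles2_split H hy, fun m y hy z hz => tiles2_dist H hy hz,
    fun m y hy z hz y' hy' => tiles2_near2 H hy hz hy'⟩

end Pool.Agent.H527Z.Per
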