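import Pool.Agent.H527Z.Per.Defs2

/-! The tiling and its inflation. -/

set_option autoImplicit false

namespace Pool.Agent.H527Z.Per

open Set Metric

theorem tiling_sep_finite (X : Set ℂ) (δ W : ℝ) (hδ : 0 < δ) (hW : ∀ u ∈ X, ‖u‖ ≤ W)
    (hs : ∀ u ∈ X, ∀ u' ∈ X, u ≠ u' → δ ≤ ‖u - u'‖) : X.Finite := by
  have hc : TotallyBounded (closedBall (0 : ℂ) W) := (isCompact_closedBall 0 W).totallyBounded
  obtain ⟨t, ht, hcov⟩ := Metric.totallyBounded_iff.mp hc (δ / 2) (by linarith)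
  have hex : ∀ u : ℂ, ∃ y, u ∈ X → y ∈ t ∧ u ∈ ball y (δ / 2) := by
    intro u
    by_cases hu : u ∈ X
    · have := hcov (show u ∈ closedBall (0 : ℂ) W by simpa using hW u hu)
      simp only [mem_iUnion] at this
      obtain ⟨y, hy, h⟩ := this
      exact ⟨y, fun _ => ⟨hy, h⟩⟩
    · exact ⟨0, fun h => absurd h hu⟩
  choose f hf using hex
  apply Set.Finite.of_injOn (f := f) (fun u hu => (hf u hu).1) _ ht
  intro u hu u' hu' e
  by_contra hne
  have h1 := (hf u hu).2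
  have h2 := (hf u' hu').2
  rw [← e] at h2
  have h3 := hs u hu u' hu' hne
  rw [mem_ball] at h1 h2
  have h4 := dist_triangle_right u u' (f u)
  rw [dist_eq_norm] at h4
  linarith

theorem tiling_open_fin {ι : Type} (P : Set ι) (hP : P.Finite) (T : ι → Set ℂ)
    (hT : ∀ p ∈ P, IsClosed (T p)) :
    ∀ U : Set ℂ, IsOpen U → U.Nonempty → U ⊆ ⋃ p ∈ P, T p →
      ∃ p ∈ P, (U ∩ interior (T p)).Nonempty := by
  induction P, hP using Set.Finite.induction_on with
  | empty => intro U _ hne h; simp at h; exact absurd h hne.ne_empty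
  | @insert a s _ _ ih =>
    intro U hU hne h
    by_cases c : U ⊆ T a
    · refine ⟨a, mem_insert _ _, ?_⟩
      obtain ⟨z, hz⟩ := hne
      exact ⟨z, hz, interior_maximal c hU hz⟩
    · obtain ⟨z, hz, hz'⟩ := not_subset.mp c
      obtain ⟨p, hp, w, hw⟩ := ih (fun p hp => hT p (mem_insert_of_mem _ hp)) (U \ T a)
        (hU.sdiff (hT a (mem_insert _ _))) ⟨z, hz, hz'⟩ (by
          intro w hw
          have := h hw.1
          rw [biUnion_insert] at this
          exact this.resolve_left hw.2)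
      exact ⟨p, mem_insert_of_mem _ hp, w, hw.1.1, hw.2⟩

namespace Dat

variable {d : Dat}

theorem tiling_mem {m : ℕ} {k : ℤ} {y : ℂ} (h : y ∈ d.Y m k) : y ∈ d.Ω m := mem_iUnion.mpr ⟨k, h⟩

theorem tiling_act_mem {m : ℕ} {y : ℂ} (h : d.Act m y) : y ∈ d.Ω m := by
  obtain ⟨k, hk, -⟩ := h.1
  exact tiling_mem hk

theorem tiling_notV (hs : d.Sys) {m : ℕ} {y : ℂ} (h : y ∈ d.Ω m) : y ∉ d.V m := by
  intro hv
  have h1 := hs.hier.far m y h y hv
  have h2 := hs.hier.s_pos m y h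
  have h3 := hs.hier.hM
  have h4 : 0 < (2 * d.D + 3 * d.R + d.r + 1) * d.Θ := by
    have := hs.hier.hD
    have := hs.hier.hR
    have := hs.hier.hr
    have := hs.hier.hΘ
    positivity
  rw [sub_self, norm_zero] at h1
  nlinarith

theorem tiling_Vmono (hs : d.Sys) {m m' : ℕ} (h : m ≤ m') : d.V m ⊆ d.V m' := by
  induction h with
  | refl => exact Subset.rfl
  | step _ ih => rw [hs.hier.V_succ]; exact ih.trans subset_union_left

theorem tiling_zero (hs : d.Sys) (m : ℕ) : (0 : ℂ) ∉ d.Ω m := fun h =>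
  tiling_notV hs h (tiling_Vmono hs (Nat.zero_le m) (by rw [hs.V0]; rfl))

theorem tiling_lvl (hs : d.Sys) {m m' : ℕ} {y : ℂ} (h : y ∈ d.Ω m) (h' : y ∈ d.Ω m') : m = m' := by
  have key : ∀ a b : ℕ, y ∈ d.Ω a → y ∈ d.Ω b → ¬ a < b := by
    intro a b ha hb hab
    apply tiling_notV hs hb
    apply tiling_Vmono hs (Nat.succ_le_of_lt hab)
    rw [hs.hier.V_succ]
    exact Or.inr ha
  have := key m m' h h'
  have := key m' m h' h
  omega

theorem tiling_fin (hs : d.Sys) (ho : d.OK) (hb : d.Base) {v : ℂ} (hv : v ∈ d.AV) :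
    {p : ℕ × ℂ | d.Act p.1 p.2 ∧ ¬ Disjoint (tile d.Par p.1 p.2) (closedBall v 1) ∧
      ¬ tile d.Par p.1 p.2 ⊆ closedBall v 1}.Finite := by
  have hc := hs.hc
  have hD := hs.hier.hD
  have hρ₀ : 0 < d.ρ₀ := by
    have h1 := hs.hρ₀
    have h2 := hs.hρ
    have h3 := hs.hier.hΘ
    have : 0 < 40 * d.D * d.Θ := by positivity
    linarith
  set κ : ℝ := 1 / (2 * d.D + ‖d.c‖ * d.ρ₀) with hκ
  have hden : 0 < 2 * d.D + ‖d.c‖ * d.ρ₀ := by positivity
  have hκ0 : 0 < κ := by positivity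
  have hX : {u : ℂ | u ∈ d.Ω 0 ∧ ‖u‖ ≤ 2 ∧ κ ≤ d.s 0 u}.Finite := by
    apply tiling_sep_finite _ (d.r * κ) 2 (mul_pos hs.hier.hr hκ0) (fun u hu => hu.2.1)
    intro u hu u' hu' hne
    exact le_trans (mul_le_mul_of_nonneg_left hu.2.2 hs.hier.hr.le)
      (hs.hier.sep 0 u hu.1 u' hu'.1 hne)
  apply Set.Finite.of_injOn (f := fun p : ℕ × ℂ => p.2 - v) _ _ hX
  · rintro ⟨m, y⟩ ⟨h1, h2, h3⟩
    obtain ⟨k, -, hk1, hk2, hk3, -⟩ := hb.near_small v hv 1 hc.le m y h1 h2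
    refine ⟨tiling_mem hk2, by simpa using hk3, ?_⟩
    obtain ⟨z, hz, hz'⟩ := not_subset.mp h3
    have r1 := ho.rad m y (tiling_mem hk1) z hz
    have r2 := (hs.base k _ hk2).2
    rw [hs.hs m k y hk1] at r1
    simp only
    rw [hs.hs 0 k _ hk2, hκ, div_le_iff₀ hden]
    rw [mem_closedBall, dist_eq_norm, not_le] at hz'
    have r3 : ‖z - v‖ ≤ ‖z - y‖ + ‖y - v‖ := norm_sub_le_norm_sub_add_norm_sub _ _ _
    nlinarith
  · rintro ⟨m, y⟩ ⟨h1, -, -⟩ ⟨m', y'⟩ ⟨h1', -, -⟩ e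
    have e' : y = y' := sub_left_injective e
    subst e'
    exact Prod.ext (tiling_lvl hs (tiling_act_mem h1) (tiling_act_mem h1')) rfl

theorem tiling_cen_eq (v : ℂ) : d.Cen v = closedBall v 1 ∪
    ⋃ p ∈ {p : ℕ × ℂ | d.Act p.1 p.2 ∧ ¬ Disjoint (tile d.Par p.1 p.2) (closedBall v 1) ∧
      ¬ tile d.Par p.1 p.2 ⊆ closedBall v 1}, tile d.Par p.1 p.2 := by
  ext z
  simp only [Cen, mem_union, mem_iUnion, mem_ofPred_eq]
  constructor
  · rintro (h | ⟨m, y, h1, h2, h3⟩)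
    · exact Or.inl h
    · by_cases c : tile d.Par m y ⊆ closedBall v 1
      · exact Or.inl (c h3)
      · exact Or.inr ⟨(m, y), ⟨h1, h2, c⟩, h3⟩
  · rintro (h | ⟨p, ⟨h1, h2, -⟩, h3⟩)
    · exact Or.inl h
    · exact Or.inr ⟨p.1, p.2, h1, h2, h3⟩

theorem tiling_sub_cen {v y : ℂ} {m : ℕ} (h1 : d.Act m y)
    (h2 : ¬ Disjoint (tile d.Par m y) (closedBall v 1)) : tile d.Par m y ⊆ d.Cen v :=
  fun _ hz => Or.inr ⟨m, y, h1, h2, hz⟩

theorem tiling_cen_nice (hs : d.Sys) (ho : d.OK) (hb : d.Base) {v : ℂ} (hv : v ∈ d.AV) :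
    IsCompact (d.Cen v) ∧ IsConnected (d.Cen v) ∧ closure (interior (d.Cen v)) = d.Cen v := by
  have hcomp : IsCompact (d.Cen v) := by
    rw [tiling_cen_eq]
    exact (isCompact_closedBall v 1).union ((tiling_fin hs ho hb hv).isCompact_biUnion
      fun p hp => (ho.nice p.1 p.2 (tiling_act_mem hp.1)).1)
  have hv0 : v ∈ closedBall v (1 : ℝ) := mem_closedBall_self zero_le_one
  refine ⟨hcomp, ⟨⟨v, Or.inl hv0⟩, ?_⟩, ?_⟩
  · apply isPreconnected_of_forall v
    rintro z (hz | ⟨m, y, h1, h2, h3⟩)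
    · exact ⟨closedBall v 1, subset_union_left, hv0, hz, (convex_closedBall v 1).isPreconnected⟩
    · obtain ⟨w, hw1, hw2⟩ := not_disjoint_iff.mp h2
      exact ⟨closedBall v 1 ∪ tile d.Par m y,
        union_subset subset_union_left (tiling_sub_cen h1 h2), Or.inl hv0, Or.inr h3,
        (convex_closedBall v 1).isPreconnected.union w hw2 hw1
          (ho.nice m y (tiling_act_mem h1)).2.1.isPreconnected⟩
  · apply Subset.antisymm (closure_minimal interior_subset hcomp.isClosed)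
    rintro z (hz | ⟨m, y, h1, h2, h3⟩)
    · apply closure_mono (interior_mono (subset_union_left : closedBall v 1 ⊆ d.Cen v))
      rwa [interior_closedBall v one_ne_zero, closure_ball v one_ne_zero]
    · apply closure_mono (interior_mono (tiling_sub_cen h1 h2))
      rwa [(ho.nice m y (tiling_act_mem h1)).2.2]

theorem tiling_cen_ball (hs : d.Sys) (hb : d.Base) {v : ℂ} (hv : v ∈ d.AV) :
    d.Cen v ⊆ closedBall v 3 := by
  rintro z (hz | ⟨m, y, h1, h2, h3⟩)
  · exact closedBall_subset_closedBall (by norm_num) hz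
  · obtain ⟨k, -, -, -, -, h, -⟩ := hb.near_small v hv 1 hs.hc.le m y h1 h2
    simpa using h h3

theorem tiling_free_cen (hs : d.Sys) (ho : d.OK) (hb : d.Base) {v y : ℂ} {m : ℕ} (hv : v ∈ d.AV)
    (hf : d.Free m y) : Disjoint (interior (tile d.Par m y)) (interior (d.Cen v)) := by
  rw [Set.disjoint_iff_inter_eq_empty]
  by_contra hne
  obtain ⟨p, hp, w, hw⟩ := tiling_open_fin _ (tiling_fin hs ho hb hv)
    (fun p => tile d.Par p.1 p.2) (fun p hp => (ho.nice p.1 p.2 (tiling_act_mem hp.1)).1.isClosed)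
    _ (isOpen_interior.inter isOpen_interior) (nonempty_iff_ne_empty.mpr hne) (by
      intro z hz
      have h1 := interior_subset hz.2
      rw [tiling_cen_eq] at h1
      exact h1.resolve_left (Set.disjoint_left.mp (hf.2 v hv) (interior_subset hz.1)))
  have hne' : (m, y) ≠ (p.1, p.2) := by
    intro e
    obtain ⟨e1, e2⟩ := Prod.mk.inj e
    apply hp.2.1
    rw [← e1, ← e2]
    exact hf.2 v hv
  exact Set.disjoint_left.mp (hb.act_disj m y p.1 p.2 hf.1 hp.1 hne') hw.1.1 hw.2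

theorem tiling_isTiling (hs : d.Sys) (ho : d.OK) (hb : d.Base) : IsTiling d.TT := by
  refine ⟨?_, ?_, ?_⟩
  · rintro t (⟨m, y, hf, rfl⟩ | ⟨v, hv, rfl⟩)
    · exact ho.nice m y (tiling_act_mem hf.1)
    · exact tiling_cen_nice hs ho hb hv
  · rw [eq_univ_iff_forall]
    intro z
    by_cases hz : z ∈ d.AV
    · exact ⟨d.Cen z, Or.inr ⟨z, hz, rfl⟩, Or.inl (mem_closedBall_self zero_le_one)⟩
    · obtain ⟨m, y, h1, h2⟩ := hb.act_cover z hz
      by_cases hf : ∀ v ∈ d.AV, Disjoint (tile d.Par m y) (closedBall v 1)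
      · exact ⟨_, Or.inl ⟨m, y, ⟨h1, hf⟩, rfl⟩, h2⟩
      · push Not at hf
        obtain ⟨v, hv, h3⟩ := hf
        exact ⟨d.Cen v, Or.inr ⟨v, hv, rfl⟩, tiling_sub_cen h1 h3 h2⟩
  · rintro t (⟨m, y, hf, rfl⟩ | ⟨v, hv, rfl⟩) s (⟨m', y', hf', rfl⟩ | ⟨v', hv', rfl⟩) hne
    · apply hb.act_disj m y m' y' hf.1 hf'.1
      intro e
      obtain ⟨e1, e2⟩ := Prod.mk.inj e
      exact hne (by rw [e1, e2])
    · exact tiling_free_cen hs ho hb hv' hf
    · exact (tiling_free_cen hs ho hb hv hf').symm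
    · rw [Set.disjoint_left]
      intro z h1 h2
      have a1 := tiling_cen_ball hs hb hv (interior_subset h1)
      have a2 := tiling_cen_ball hs hb hv' (interior_subset h2)
      have a3 := hb.av_sep v hv v' hv' (fun e => hne (by rw [e]))
      have a4 := dist_triangle_left v v' z
      rw [mem_closedBall] at a1 a2
      rw [dist_eq_norm] at a4
      have := hs.hc
      linarith

theorem tiling_c_ne (hs : d.Sys) : d.c ≠ 0 := by
  intro e
  have := hs.hc
  rw [e, norm_zero] at this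
  linarith

theorem tiling_act_mul (hs : d.Sys) {m : ℕ} {y : ℂ} {k : ℤ} (h : d.Act m y) (hk : y ∈ d.Y m k)
    (hlt : k + 1 < d.N) : d.Act m (d.c * y) := by
  refine ⟨⟨k + 1, (hs.eqv_mem m k y).mp hk, hlt⟩, ?_⟩
  intro m₀ y' K e hp hK
  obtain ⟨u, rfl⟩ : ∃ u, y' = d.c * u := ⟨y' / d.c, by field_simp [tiling_c_ne hs]⟩
  have h1 := h.2 m₀ u (K - 1) e ((hs.eqv_par m₀ y u).mpr hp)
    ((hs.eqv_mem m₀ (K - 1) u).mpr (by simpa using hK))
  omega

theorem tiling_av_mul (hs : d.Sys) {v : ℂ} (hv : v ∈ d.AV) : d.c * v ∈ d.AV := by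
  rcases hv with rfl | ⟨m, K, h1, h2⟩
  · exact Or.inl (mul_zero _)
  · exact Or.inr ⟨m, K + 1, (hs.eqv_mem m K v).mp h1, by omega⟩

theorem tiling_meet_div (hs : d.Sys) (hb : d.Base) {m : ℕ} {y u : ℂ}
    (h : ¬ Disjoint (tile d.Par m (d.c * y)) (closedBall (d.c * u) ‖d.c‖)) :
    ¬ Disjoint (tile d.Par m y) (closedBall u 1) := by
  obtain ⟨z, h1, h2⟩ := not_disjoint_iff.mp h
  rw [hb.tile_mul] at h1
  obtain ⟨w, hw, rfl⟩ := h1
  refine not_disjoint_iff.mpr ⟨w, hw, ?_⟩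
  rw [mem_closedBall, dist_eq_norm] at h2 ⊢
  simp only at h2
  rw [← mul_sub, norm_mul] at h2
  have := hs.hc
  nlinarith

theorem tiling_infl_small (hs : d.Sys) (hb : d.Base) {m : ℕ} {y : ℂ} {k : ℤ} (hf : d.Free m y)
    (hk : y ∈ d.Y m k) (hlt : k + 1 < d.N) : d.Free m (d.c * y) := by
  have ha := tiling_act_mul hs hf.1 hk hlt
  refine ⟨ha, ?_⟩
  intro v hv
  by_contra hne
  obtain ⟨u, rfl⟩ : ∃ u, v = d.c * u := ⟨v / d.c, by field_simp [tiling_c_ne hs]⟩
  have hu : u ∈ d.AV := by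
    obtain ⟨k', -, -, -, -, -, -, h | ⟨m₀, K, e, hp, hK, -⟩⟩ :=
      hb.near_small _ hv 1 hs.hc.le m _ ha hne
    · exact Or.inl ((mul_eq_zero.mp h.2).resolve_left (tiling_c_ne hs))
    · have h1 : u ∈ d.Y m₀ (K - 1) := (hs.eqv_mem m₀ (K - 1) u).mpr (by simpa using hK)
      exact Or.inr ⟨m₀, K - 1, h1, hf.1.2 m₀ u (K - 1) e ((hs.eqv_par m₀ y u).mpr hp) h1⟩
  apply tiling_meet_div hs hb _ (hf.2 u hu)
  intro hd
  exact hne (hd.mono_right (closedBall_subset_closedBall hs.hc.le))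

theorem tiling_infl_top (hs : d.Sys) (ho : d.OK) (hb : d.Base) {m : ℕ} {v : ℂ}
    (hk : v ∈ d.Y m d.N) : ∃ S ⊆ d.TT, tile d.Par m v = ⋃₀ S := by
  have hv : v ∈ d.AV := Or.inr ⟨m, d.N, hk, le_rfl⟩
  have hΩ := tiling_mem hk
  have hsplit := ho.split m v hΩ
  have hchild : ∀ x, d.Par m x v → tile d.Par (m + 1) x ⊆ tile d.Par m v := by
    intro x hx z hz
    rw [hsplit]
    exact Or.inr (mem_biUnion (show x ∈ {x | d.Par m x v} from hx) hz)
  have hnear : ∀ m' y, d.Act m' y → ¬ Disjoint (tile d.Par m' y) (closedBall v 1) →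
      tile d.Par m' y ⊆ tile d.Par m v := by
    intro m' y h1 h2
    obtain ⟨k', -, -, -, -, -, -, h | ⟨m₀, K, e, hp, hK, -⟩⟩ :=
      hb.near_small v hv 1 hs.hc.le m' y h1 h2
    · exact absurd (h.2 ▸ hΩ) (tiling_zero hs m)
    · have e2 := tiling_lvl hs hΩ (tiling_mem hK)
      subst e2
      subst e
      exact hchild y hp
  refine ⟨{d.Cen v} ∪ {t | ∃ x, d.Par m x v ∧ d.Free (m + 1) x ∧ t = tile d.Par (m + 1) x},
    ?_, Subset.antisymm ?_ ?_⟩
  · rintro t (rfl | ⟨x, -, h2, rfl⟩)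
    · exact Or.inr ⟨v, hv, rfl⟩
    · exact Or.inl ⟨m + 1, x, h2, rfl⟩
  · intro z hz
    rw [hsplit] at hz
    rcases hz with rfl | hz
    · exact ⟨d.Cen z, Or.inl rfl, Or.inl (mem_closedBall_self zero_le_one)⟩
    · simp only [mem_iUnion, mem_ofPred_eq] at hz
      obtain ⟨x, hx, hz⟩ := hz
      have ha : d.Act (m + 1) x := by
        obtain ⟨k', hk'⟩ := mem_iUnion.mp (hs.hier.par_mem m x v hx).1
        have l1 := hb.lab_child m x v k' d.N hx hk' hk
        have l2 := hb.hN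
        refine ⟨⟨k', hk', by omega⟩, ?_⟩
        intro m₀ y' K e hp hK
        have e' : m = m₀ := by omega
        subst e'
        rw [← hs.hier.par_uniq m x v y' hx hp] at hK
        exact (hb.lab_uniq m _ _ v hk hK).le
      by_cases hf : ∀ v' ∈ d.AV, Disjoint (tile d.Par (m + 1) x) (closedBall v' 1)
      · exact ⟨_, Or.inr ⟨x, hx, ⟨ha, hf⟩, rfl⟩, hz⟩
      · push Not at hf
        obtain ⟨v', hv', h3⟩ := hf
        obtain ⟨k', -, -, -, -, -, -, h | ⟨m₀, K, e, hp, hK, -⟩⟩ :=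
          hb.near_small v' hv' 1 hs.hc.le (m + 1) x ha h3
        · exact absurd h.1 (Nat.succ_ne_zero m)
        · have e' : m = m₀ := by omega
          subst e'
          rw [← hs.hier.par_uniq m x v v' hx hp] at h3
          exact ⟨d.Cen v, Or.inl rfl, tiling_sub_cen ha h3 hz⟩
  · rintro z ⟨t, rfl | ⟨x, h1, -, rfl⟩, hz⟩
    · rcases hz with hz | ⟨m', y, h1, h2, h3⟩
      · by_cases e : z = v
        · rw [hsplit, e]
          exact Or.inl rfl
        · have hz' : z ∉ d.AV := by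
            intro hz'
            have a1 := hb.av_sep z hz' v hv e
            rw [mem_closedBall, dist_eq_norm] at hz
            have := hs.hc
            linarith
          obtain ⟨m', y, h1, h2⟩ := hb.act_cover z hz'
          exact hnear m' y h1 (not_disjoint_iff.mpr ⟨z, h2, hz⟩) h2
      · exact hnear m' y h1 h2 h3
    · exact hchild x h1 hz

theorem tiling_infl_cen (hs : d.Sys) (hb : d.Base) {v : ℂ} (hv : v ∈ d.AV) :
    ∃ S ⊆ d.TT, (fun w => d.c * w) '' d.Cen v = ⋃₀ S := by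
  have hc := hs.hc
  have hcv := tiling_av_mul hs hv
  have hball : closedBall (d.c * v) ‖d.c‖ ⊆ (fun w => d.c * w) '' d.Cen v := by
    intro z hz
    obtain ⟨u, rfl⟩ : ∃ u, z = d.c * u := ⟨z / d.c, by field_simp [tiling_c_ne hs]⟩
    refine ⟨u, Or.inl ?_, rfl⟩
    rw [mem_closedBall, dist_eq_norm] at hz ⊢
    rw [← mul_sub, norm_mul] at hz
    nlinarith
  have hnear : ∀ m y, d.Act m y → ¬ Disjoint (tile d.Par m y) (closedBall (d.c * v) ‖d.c‖) →
      tile d.Par m y ⊆ (fun w => d.c * w) '' d.Cen v := by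
    intro m y h1 h2
    obtain ⟨u, rfl⟩ : ∃ u, y = d.c * u := ⟨y / d.c, by field_simp [tiling_c_ne hs]⟩
    have ha : d.Act m u := by
      obtain ⟨k, hk0, hk1, -, -, -, -, hlast⟩ := hb.near_small _ hcv _ le_rfl m _ h1 h2
      refine ⟨⟨k - 1, (hs.eqv_mem m (k - 1) u).mpr (by simpa using hk1), by omega⟩, ?_⟩
      intro m₀ y' K e hp hK
      rcases hlast with h | ⟨m₁, K', e', hp', -, -⟩
      · omega
      · have e2 : m₀ = m₁ := by omega
        subst e2
        have e3 := hs.hier.par_uniq m₀ u y' v hp ((hs.eqv_par m₀ u v).mpr hp')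
        subst e3
        rcases hv with h0 | ⟨m₂, K₂, g1, g2⟩
        · exact absurd (h0 ▸ tiling_mem hK) (tiling_zero hs m₀)
        · have e4 := tiling_lvl hs (tiling_mem hK) (tiling_mem g1)
          subst e4
          rwa [hb.lab_uniq m₀ _ _ y' hK g1]
    rw [hb.tile_mul]
    exact image_mono (tiling_sub_cen ha (tiling_meet_div hs hb h2))
  have hcov : ∀ m y z, d.Act m y → ¬ Disjoint (tile d.Par m y) (closedBall (d.c * v) ‖d.c‖) →
      z ∈ tile d.Par m y → z ∈ ⋃₀ ({d.Cen (d.c * v)} ∪ {t | ∃ m y, d.Free m y ∧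
        ¬ Disjoint (tile d.Par m y) (closedBall (d.c * v) ‖d.c‖) ∧ t = tile d.Par m y}) := by
    intro m y z h1 h2 hz
    by_cases hf : ∀ v' ∈ d.AV, Disjoint (tile d.Par m y) (closedBall v' 1)
    · exact ⟨_, Or.inr ⟨m, y, ⟨h1, hf⟩, h2, rfl⟩, hz⟩
    · push Not at hf
      obtain ⟨v', hv', h3⟩ := hf
      obtain ⟨-, -, -, -, -, b1, -⟩ := hb.near_small _ hcv _ le_rfl m _ h1 h2
      obtain ⟨-, -, -, -, -, b2, -⟩ := hb.near_small _ hv' 1 hc.le m _ h1 h3
      have e : v' = d.c * v := by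
        by_contra hne
        have a3 := hb.av_sep v' hv' _ hcv hne
        have a1 := b1 hz
        have a2 := b2 hz
        have a4 := dist_triangle_left v' (d.c * v) z
        rw [mem_closedBall] at a1 a2
        rw [dist_eq_norm] at a4
        linarith
      subst e
      exact ⟨d.Cen (d.c * v), Or.inl rfl, tiling_sub_cen h1 h3 hz⟩
  refine ⟨{d.Cen (d.c * v)} ∪ {t | ∃ m y, d.Free m y ∧
    ¬ Disjoint (tile d.Par m y) (closedBall (d.c * v) ‖d.c‖) ∧ t = tile d.Par m y},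
    ?_, Subset.antisymm ?_ ?_⟩
  · rintro t (rfl | ⟨m, y, h2, -, rfl⟩)
    · exact Or.inr ⟨_, hcv, rfl⟩
    · exact Or.inl ⟨m, y, h2, rfl⟩
  · rintro z ⟨w, hw | ⟨m, y, h1, h2, h3⟩, rfl⟩
    · have hz : d.c * w ∈ closedBall (d.c * v) ‖d.c‖ := by
        rw [mem_closedBall, dist_eq_norm] at hw ⊢
        rw [← mul_sub, norm_mul]
        nlinarith
      by_cases e : d.c * w = d.c * v
      · refine ⟨d.Cen (d.c * v), Or.inl rfl, Or.inl ?_⟩
        simp only [e]
        exact mem_closedBall_self zero_le_one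
      · have hz' : d.c * w ∉ d.AV := by
          intro hz'
          have a1 := hb.av_sep _ hz' _ hcv e
          rw [mem_closedBall, dist_eq_norm] at hz
          linarith
        obtain ⟨m', y, h1, h2⟩ := hb.act_cover _ hz'
        exact hcov m' y _ h1 (not_disjoint_iff.mpr ⟨_, h2, hz⟩) h2
    · obtain ⟨k, hk0, hk1, -⟩ := hb.near_small v hv 1 hc.le m y h1 h2
      have hN := hb.hN
      have ha := tiling_act_mul hs h1 hk1 (by omega)
      apply hcov m (d.c * y) _ ha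
      · obtain ⟨u, g1, g2⟩ := not_disjoint_iff.mp h2
        refine not_disjoint_iff.mpr ⟨d.c * u, ?_, ?_⟩
        · rw [hb.tile_mul]
          exact ⟨u, g1, rfl⟩
        · rw [mem_closedBall, dist_eq_norm] at g2 ⊢
          rw [← mul_sub, norm_mul]
          nlinarith
      · rw [hb.tile_mul]
        exact ⟨w, h3, rfl⟩
  · rintro z ⟨t, rfl | ⟨m, y, h1, h2, rfl⟩, hz⟩
    · rcases hz with hz | ⟨m', y, h1, h2, h3⟩
      · exact hball (closedBall_subset_closedBall hc.le hz)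
      · exact hnear m' y h1
          (fun hd => h2 (hd.mono_right (closedBall_subset_closedBall hc.le))) h3
    · exact hnear m y h1.1 h2 hz

end Dat

theorem tiling : TILING := by
  intro d hs ho hb
  refine ⟨Dat.tiling_isTiling hs ho hb, ?_⟩
  rintro t (⟨m, y, hf, rfl⟩ | ⟨v, hv, rfl⟩)
  · rw [← hb.tile_mul]
    obtain ⟨k, hk, hlt⟩ := hf.1.1
    rcases (Int.add_one_le_of_lt hlt).lt_or_eq with c | c
    · refine ⟨{tile d.Par m (d.c * y)}, ?_, (sUnion_singleton _).symm⟩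
      rintro t rfl
      exact Or.inl ⟨m, _, Dat.tiling_infl_small hs hb hf hk c, rfl⟩
    · exact Dat.tiling_infl_top hs ho hb (c ▸ (hs.eqv_mem m k y).mp hk)
  · exact Dat.tiling_infl_cen hs hb hv

end Pool.Agent.H527Z.Per
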