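import Pool.Agent.H527Z.Per.Defs2

/-!
# Repetitive self-similar tilings: finitely many types of tiles
-/

set_option autoImplicit false

namespace Pool.Agent.H527Z.Per

open Set

theorem types_rho (d : Dat) (hS : d.Sys) (k : ℤ) : 0 ≤ d.ρ * ‖d.c‖ ^ k := by
  have h1 := hS.hρ
  have h2 := hS.hier.hD
  have h3 := hS.hier.hΘ
  have h4 : 0 ≤ d.ρ := le_trans (by positivity) h1
  positivity

theorem types_mem (d : Dat) (t t' : Set ℂ) (z : ℂ) (h : d.Rel t t' z) :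
    t ∈ d.TT ∧ t' ∈ d.TT := by
  rcases h with ⟨m, y, m', k, h1, h2, rfl, rfl, -, -⟩ | ⟨v, h1, h2, rfl, rfl⟩
  · exact ⟨Or.inl ⟨m, y, h1, rfl⟩, Or.inl ⟨m', y + z, h2, rfl⟩⟩
  · exact ⟨Or.inr ⟨v, h1, rfl⟩, Or.inr ⟨v + z, h2, rfl⟩⟩

theorem types_symm (d : Dat) (hS : d.Sys) (t t' : Set ℂ) (z : ℂ) (h : d.Rel t t' z) :
    d.Rel t' t (-z) := by
  rcases h with ⟨m, y, m', k, h1, h2, rfl, rfl, h3, h4⟩ | ⟨v, h1, h2, rfl, rfl⟩
  · have e : y + z + -z = y := by ring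
    refine Or.inl ⟨m', y + z, m, k, h2, by rw [e]; exact h1, rfl, by rw [e], ?_, ?_⟩
    · exact (h4 k y (by simpa using types_rho d hS k)).1 h3
    · intro j u hu
      have := h4 j (u + -z) (by
        have e2 : u + -z - y = u - (y + z) := by ring
        rw [e2]; exact hu)
      have e3 : u + -z + z = u := by ring
      rw [e3] at this
      exact this.symm
  · have e : v + z + -z = v := by ring
    exact Or.inr ⟨v + z, h2, by rw [e]; exact h1, rfl, by rw [e]⟩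

theorem types_idx (d : Dat) (hO : d.OK) (hB : d.Base) (m m' : ℕ) (y y' : ℂ)
    (h1 : d.Act m y) (h2 : d.Act m' y') (e : tile d.Par m y = tile d.Par m' y') :
    m = m' ∧ y = y' := by
  by_contra hne
  have hne' : (m, y) ≠ (m', y') := fun h => hne (by simpa using h)
  have hd := hB.act_disj m y m' y' h1 h2 hne'
  rw [← e, disjoint_self] at hd
  obtain ⟨k, hk, -⟩ := h1.1
  obtain ⟨-, hc, hcl⟩ := hO.nice m y (mem_iUnion.2 ⟨k, hk⟩)
  have : interior (tile d.Par m y) = ∅ := hd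
  rw [this, closure_empty] at hcl
  exact hc.nonempty.ne_empty hcl.symm

theorem types_self_cen (d : Dat) (v : ℂ) : v ∈ d.Cen v :=
  Or.inl (Metric.mem_closedBall_self zero_le_one)

theorem types_free_ne (d : Dat) (m : ℕ) (y v : ℂ) (h1 : d.Free m y) (h2 : v ∈ d.AV) :
    tile d.Par m y ≠ d.Cen v := by
  intro e
  have h := h1.2 v h2
  rw [e] at h
  exact Set.disjoint_left.1 h (types_self_cen d v) (Metric.mem_closedBall_self zero_le_one)

theorem types_cen_inj (d : Dat) (hS : d.Sys) (hB : d.Base) (v v' : ℂ) (h1 : v ∈ d.AV)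
    (h2 : v' ∈ d.AV) (e : d.Cen v = d.Cen v') : v = v' := by
  by_contra hne
  have hs := hB.av_sep v h1 v' h2 hne
  have hc := hS.hc
  have hm : v ∈ d.Cen v' := e ▸ types_self_cen d v
  have hb : ‖v - v'‖ ≤ 3 := by
    rcases hm with hm | ⟨m, y, ha, hnd, hz⟩
    · have : ‖v - v'‖ ≤ 1 := by simpa [dist_eq_norm] using hm
      linarith
    · obtain ⟨k, -, -, -, -, hsub, -⟩ := hB.near_small v' h2 1 hc.le m y ha hnd
      have := hsub hz
      simpa [dist_eq_norm] using this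
  linarith

theorem types_trans (d : Dat) (hS : d.Sys) (hO : d.OK) (hB : d.Base) (t t' t'' : Set ℂ)
    (z w : ℂ) (h : d.Rel t t' z) (h' : d.Rel t' t'' w) : d.Rel t t'' (z + w) := by
  rcases h with ⟨m, y, m', k, h1, h2, rfl, e1, h3, h4⟩ | ⟨v, h1, h2, rfl, e1⟩
  · rcases h' with ⟨m₂, y₂, m'', k₂, g1, g2, e2, rfl, g3, g4⟩ | ⟨v₂, g1, g2, e2, rfl⟩
    · obtain ⟨rfl, rfl⟩ := types_idx d hO hB m' m₂ (y + z) y₂ h2.1 g1.1 (e1.symm.trans e2)
      have hk : y + z ∈ d.Y m' k := (h4 k y (by simpa using types_rho d hS k)).1 h3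
      obtain rfl : k = k₂ := hB.lab_uniq m' k k₂ (y + z) hk g3
      have e : y + z + w = y + (z + w) := by ring
      refine Or.inl ⟨m, y, m'', k, h1, by rw [← e]; exact g2, rfl, by rw [e], h3, ?_⟩
      intro j u hu
      have a1 := h4 j u hu
      have a2 := g4 j (u + z) (by
        have e2 : u + z - (y + z) = u - y := by ring
        rw [e2]; exact hu)
      have e3 : u + z + w = u + (z + w) := by ring
      rw [e3] at a2
      exact a1.trans a2
    · exact absurd (e1.symm.trans e2) (types_free_ne d m' (y + z) v₂ h2 g1)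
  · rcases h' with ⟨m₂, y₂, m'', k₂, g1, g2, e2, rfl, g3, g4⟩ | ⟨v₂, g1, g2, e2, rfl⟩
    · exact absurd (e2.symm.trans e1) (types_free_ne d m₂ y₂ (v + z) g1 h2)
    · obtain rfl := types_cen_inj d hS hB (v + z) v₂ h2 g1 (e1.symm.trans e2)
      have e : v + z + w = v + (z + w) := by ring
      exact Or.inr ⟨v, h1, by rw [← e]; exact g2, rfl, by rw [e]⟩

/-- the local pattern round a point -/
def types_pat (d : Dat) (m : ℕ) (y : ℂ) (k : ℤ) : Set (ℤ × ℂ) :=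
  {p | y + d.c ^ k * p.2 ∈ d.Y m p.1 ∧ ‖d.c ^ k * p.2‖ ≤ d.ρ * ‖d.c‖ ^ k}

theorem types_lab_le (d : Dat) (hS : d.Sys) (j k : ℤ) (h : ‖d.c‖ ^ j ≤ d.Θ * ‖d.c‖ ^ k) :
    j ≤ k + d.N := by
  have hc := hS.hc
  have h0 : (0 : ℝ) < ‖d.c‖ := by linarith
  have h1 : d.Θ ≤ ‖d.c‖ ^ d.N := by
    have := hS.hΘS
    have := hS.hier.hΘ
    linarith
  have h2 : ‖d.c‖ ^ j ≤ ‖d.c‖ ^ (k + d.N) := by
    rw [zpow_add₀ h0.ne', zpow_natCast, mul_comm]
    exact h.trans (mul_le_mul_of_nonneg_right h1 (by positivity))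
  exact (zpow_le_zpow_iff_right₀ hc).1 h2

theorem types_pat_sub (d : Dat) (hS : d.Sys) (m : ℕ) (y : ℂ) (k : ℤ) (hy : y ∈ d.Y m k) :
    types_pat d m y k ⊆ Icc (k - d.N) (k + d.N) ×ˢ (d.F : Set ℂ) := by
  rintro ⟨j, l⟩ ⟨h1, h2⟩
  simp only at h1 h2
  have hc := hS.hc
  have h0 : d.c ≠ 0 := by
    intro h; rw [h] at hc; norm_num at hc
  have e : y + d.c ^ k * l - y = d.c ^ k * l := by ring
  refine ⟨?_, ?_⟩
  · have hn : ‖y - (y + d.c ^ k * l)‖ ≤ d.M * d.s m y := by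
      rw [norm_sub_rev, e, hS.hs m k y hy]
      exact h2.trans (mul_le_mul_of_nonneg_right hS.hρM (by positivity))
    obtain ⟨a1, a2⟩ := hS.hier.comp m y (mem_iUnion.2 ⟨k, hy⟩) _ (mem_iUnion.2 ⟨j, h1⟩) hn
    rw [hS.hs m k y hy, hS.hs m j _ h1] at a1 a2
    have b1 := types_lab_le d hS j k a1
    have b2 := types_lab_le d hS k j a2
    exact ⟨by show k - d.N ≤ j; linarith, b1⟩
  · have := hS.pat m k j y hy _ h1 (by rw [e]; exact h2)
    rw [e, mul_div_cancel_left₀ _ (zpow_ne_zero k h0)] at this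
    exact this

theorem types_pat_rel (d : Dat) (hS : d.Sys) (m m' : ℕ) (y y' : ℂ) (k : ℤ) (h1 : d.Free m y)
    (h2 : d.Free m' y') (hy : y ∈ d.Y m k) (e : types_pat d m y k = types_pat d m' y' k) :
    d.Rel (tile d.Par m y) (tile d.Par m' y') (y' - y) := by
  have hc := hS.hc
  have h0 : d.c ≠ 0 := by
    intro h; rw [h] at hc; norm_num at hc
  have e1 : y + (y' - y) = y' := by ring
  refine Or.inl ⟨m, y, m', k, h1, by rw [e1]; exact h2, rfl, by rw [e1], hy, ?_⟩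
  intro j u hu
  have e2 : d.c ^ k * ((u - y) / d.c ^ k) = u - y := mul_div_cancel₀ _ (zpow_ne_zero k h0)
  have hm : (j, (u - y) / d.c ^ k) ∈ types_pat d m y k ↔
      (j, (u - y) / d.c ^ k) ∈ types_pat d m' y' k := by rw [e]
  simp only [types_pat, mem_setOf_eq, e2, hu, and_true] at hm
  have e3 : y + (u - y) = u := by ring
  have e4 : y' + (u - y) = u + (y' - y) := by ring
  rwa [e3, e4] at hm

theorem types_fin (d : Dat) (hS : d.Sys) (hB : d.Base) :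
    ∃ G : Set (Set ℂ), G.Finite ∧ ∀ t ∈ d.TT, ∃ t' ∈ G, ∃ z, d.Rel t t' z := by
  classical
  obtain ⟨k₀, hk₀⟩ := hB.free_lab
  let X := {p : ℕ × ℂ × ℤ // d.Free p.1 p.2.1 ∧ p.2.1 ∈ d.Y p.1 p.2.2}
  let f : X → ℤ × Set (ℤ × ℂ) := fun p => (p.1.2.2, types_pat d p.1.1 p.1.2.1 p.1.2.2)
  have hA : (Icc (k₀ - d.N) (d.N + d.N : ℤ) ×ˢ (d.F : Set ℂ)).Finite :=
    (finite_Icc _ _).prod d.F.finite_toSet
  have hfin : (range f).Finite := by
    refine ((finite_Icc k₀ (d.N : ℤ)).prod hA.finite_subsets).subset ?_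
    rintro _ ⟨⟨⟨m, y, k⟩, h1, h2⟩, rfl⟩
    simp only at h1 h2
    have a1 := hk₀ m y k h1 h2
    obtain ⟨k', hk', hlt⟩ := h1.1.1
    obtain rfl : k = k' := hB.lab_uniq m k k' y h2 hk'
    refine ⟨⟨a1, hlt.le⟩, ?_⟩
    refine (types_pat_sub d hS m y k h2).trans (prod_mono ?_ subset_rfl)
    exact Icc_subset_Icc (by linarith) (by linarith)
  haveI : Finite (range f) := hfin
  let g : range f → Set ℂ := fun q =>
    tile d.Par (Classical.choose q.2).1.1 (Classical.choose q.2).1.2.1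
  refine ⟨insert (d.Cen 0) (range g), (finite_range g).insert _, ?_⟩
  rintro t (⟨m, y, h1, rfl⟩ | ⟨v, h1, rfl⟩)
  · obtain ⟨k, hk, -⟩ := h1.1.1
    let p : X := ⟨(m, y, k), h1, hk⟩
    let q : range f := ⟨f p, p, rfl⟩
    have hq : f (Classical.choose q.2) = f p := Classical.choose_spec q.2
    refine ⟨g q, Or.inr ⟨q, rfl⟩, (Classical.choose q.2).1.2.1 - y, ?_⟩
    have hq1 : (Classical.choose q.2).1.2.2 = k := congrArg Prod.fst hq
    have hq2 : types_pat d (Classical.choose q.2).1.1 (Classical.choose q.2).1.2.1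
        (Classical.choose q.2).1.2.2 = types_pat d m y k := congrArg Prod.snd hq
    rw [hq1] at hq2
    exact types_pat_rel d hS m _ y _ k h1 (Classical.choose q.2).2.1 hk hq2.symm
  · refine ⟨d.Cen 0, Or.inl rfl, -v, Or.inr ⟨v, h1, ?_, rfl, by rw [add_neg_cancel]⟩⟩
    rw [add_neg_cancel]
    exact Or.inl rfl

theorem types : TYPES := by
  intro d hS hO hB _
  obtain ⟨G, hG, hcov⟩ := types_fin d hS hB
  refine ⟨⟨G, hG, hcov⟩, types_mem d, ?_⟩
  haveI : Finite {S : Set (Set ℂ) | S ⊆ G} := hG.finite_subsets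
  obtain ⟨n, ⟨e⟩⟩ := Finite.exists_equiv_fin {S : Set (Set ℂ) | S ⊆ G}
  let cl : Set ℂ → {S : Set (Set ℂ) | S ⊆ G} := fun t =>
    ⟨{g ∈ G | ∃ z, d.Rel t g z}, fun _ h => h.1⟩
  refine ⟨n, fun t => e (cl t), ?_⟩
  intro t ht t' _
  rw [e.injective.eq_iff]
  constructor
  · intro h
    obtain ⟨g, hg, z, hz⟩ := hcov t ht
    have h1 : g ∈ (cl t).1 := ⟨hg, z, hz⟩
    rw [h] at h1
    obtain ⟨-, w, hw⟩ := h1
    exact ⟨_, types_trans d hS hO hB _ _ _ _ _ hz (types_symm d hS _ _ _ hw)⟩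
  · rintro ⟨z, hz⟩
    apply Subtype.ext
    ext g
    constructor
    · rintro ⟨hg, w, hw⟩
      exact ⟨hg, _, types_trans d hS hO hB _ _ _ _ _ (types_symm d hS _ _ _ hz) hw⟩
    · rintro ⟨hg, w, hw⟩
      exact ⟨hg, _, types_trans d hS hO hB _ _ _ _ _ hz hw⟩

end Pool.Agent.H527Z.Per
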