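import Pool.Agent.H527Z.Per.Sys
import Pool.Agent.H527Z.Per.Tiles2
import Pool.Agent.H527Z.Per.Base
import Pool.Agent.H527Z.Per.Tiling
import Pool.Agent.H527Z.Per.Subdiv
import Pool.Agent.H527Z.Per.Repet
import Pool.Agent.H527Z.Per.Types
import Pool.Agent.H527Z.Per.Eqv
import Pool.Agent.H527Z.Per.Loc
import Pool.Agent.H527Z.Per.Base0
import Pool.Agent.H527Z.Per.Net
import Pool.Agent.H527Z.Per.Cand
import Pool.Agent.H527Z.Per.ParEx
import Pool.Agent.H527Z.Per.Par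
import Pool.Agent.H527Z.Per.Step
import Pool.Agent.H527Z.Per.PmEx

/-!
# Every complex Perron number is the expansion constant of a repetitive self-similar tiling
-/

set_option autoImplicit false

namespace Pool.Agent.H527Z.Per

theorem main (c : ℂ) (hi : IsIntegral ℤ c) (hc : 1 < ‖c‖)
    (hconj : ∀ μ : ℂ, Polynomial.aeval μ (minpoly ℚ c) = 0 → μ ≠ c →
      μ ≠ (starRingEnd ℂ) c → ‖μ‖ < ‖c‖) :
    ∃ (T : Set (Set ℂ)) (n : ℕ) (ty : Set ℂ → Fin n),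
      (∀ t ∈ T, IsCompact t ∧ IsConnected t ∧ closure (interior t) = t) ∧
      ⋃₀ T = Set.univ ∧
      (∀ t ∈ T, ∀ s ∈ T, t ≠ s → Disjoint (interior t) (interior s)) ∧
      (∀ t ∈ T, ∃ S ⊆ T, (fun w => c * w) '' t = ⋃₀ S) ∧
      (∀ t ∈ T, ∀ t' ∈ T, ty t = ty t' → ∃ z : ℂ, t' = (fun w => w + z) '' t ∧
        ∀ s ∈ T, s ⊆ (fun w => c * w) '' t →
          (fun w => w + c * z) '' s ∈ T ∧ ty ((fun w => w + c * z) '' s) = ty s) ∧
      (∀ R : ℝ, ∃ R' : ℝ, ∀ x y : ℂ, ∃ z : ℂ, ‖x + z - y‖ ≤ R' ∧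
        ∀ s ∈ T, ¬ Disjoint s (Metric.closedBall x R) →
          (fun w => w + z) '' s ∈ T ∧ ty ((fun w => w + z) '' s) = ty s) :=
  sys_final pmex eqv loc base0 net cand parex par step tiles2 base tiling subdiv repet types
    c hi hc hconj

theorem main_shapes (c : ℂ) (hi : IsIntegral ℤ c) (hc : 1 < ‖c‖)
    (hconj : ∀ μ : ℂ, Polynomial.aeval μ (minpoly ℚ c) = 0 → μ ≠ c →
      μ ≠ (starRingEnd ℂ) c → ‖μ‖ < ‖c‖) :
    ∃ T : Set (Set ℂ),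
      (∀ t ∈ T, IsCompact t ∧ IsConnected t ∧ closure (interior t) = t) ∧
      ⋃₀ T = Set.univ ∧
      (∀ t ∈ T, ∀ s ∈ T, t ≠ s → Disjoint (interior t) (interior s)) ∧
      (∃ F : Finset (Set ℂ), ∀ t ∈ T, ∃ P ∈ F, ∃ z : ℂ, t = (fun w => w + z) '' P) ∧
      (∀ t ∈ T, ∃ S ⊆ T, (fun w => c * w) '' t = ⋃₀ S) := by
  classical
  obtain ⟨T, n, ty, h1, h2, h3, h4, h5, -⟩ := main c hi hc hconj
  refine ⟨T, h1, h2, h3, ?_, h4⟩
  let rep : Fin n → Set ℂ := fun i => if h : ∃ t ∈ T, ty t = i then h.choose else ∅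
  refine ⟨Finset.univ.image rep, fun t ht => ?_⟩
  have h : ∃ t' ∈ T, ty t' = ty t := ⟨t, ht, rfl⟩
  obtain ⟨z, hz, -⟩ := h5 _ h.choose_spec.1 t ht h.choose_spec.2
  refine ⟨rep (ty t), Finset.mem_image_of_mem _ (Finset.mem_univ _), z, ?_⟩
  simp only [rep, dif_pos h]
  exact hz

end Pool.Agent.H527Z.Per
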