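import Pool.Agent.H527Z.Per.Defs3

/-!
# The parent relation: proof of `PAR`
-/

set_option autoImplicit false

namespace Pool.Agent.H527Z.Per

open Set

theorem par_edge {ε tf : ℝ} {X : Set ℂ} {u v : ℂ} (hε : 0 ≤ ε) (htf : 0 < tf)
    (hadj : Adj ε X u v) (hd : ∀ z : ℂ, ‖z - v‖ ≤ 2 * tf → ∃ x ∈ X, ‖z - x‖ ≤ tf) :
    ‖u - v‖ ≤ 2 * tf := by
  obtain ⟨_, _, p, hp, hall⟩ := hadj
  have hs : ‖p - v‖ ≤ tf := by
    by_contra hlt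
    push Not at hlt
    set s := ‖p - v‖ with hsdef
    have hs0 : 0 < s := lt_trans htf hlt
    set t := min s (2 * tf) with ht
    have ht1 : tf < t := lt_min hlt (by linarith)
    have ht2 : t ≤ s := min_le_left _ _
    have ht3 : t ≤ 2 * tf := min_le_right _ _
    have ht0 : 0 < t := lt_trans htf ht1
    set z : ℂ := v + ((t / s : ℝ) : ℂ) * (p - v) with hz
    have hzv : ‖z - v‖ = t := by
      have : z - v = ((t / s : ℝ) : ℂ) * (p - v) := by rw [hz]; ring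
      rw [this, norm_mul, Complex.norm_real, Real.norm_eq_abs, abs_of_pos (div_pos ht0 hs0),
        ← hsdef]
      field_simp
    have hpz : ‖p - z‖ = s - t := by
      have : p - z = ((1 - t / s : ℝ) : ℂ) * (p - v) := by rw [hz]; push_cast; ring
      have h1 : 0 ≤ 1 - t / s := by
        have : t / s ≤ 1 := (div_le_one hs0).2 ht2
        linarith
      rw [this, norm_mul, Complex.norm_real, Real.norm_eq_abs, abs_of_nonneg h1, ← hsdef]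
      field_simp
    obtain ⟨x, hx, hzx⟩ := hd z (by rw [hzv]; exact ht3)
    have hpx : ‖p - x‖ < s := by
      have : p - x = (p - z) + (z - x) := by ring
      calc ‖p - x‖ = ‖(p - z) + (z - x)‖ := by rw [this]
        _ ≤ ‖p - z‖ + ‖z - x‖ := norm_add_le _ _
        _ ≤ (s - t) + tf := by rw [hpz]; linarith
        _ < s := by linarith
    have hle : ‖p - x‖ ≤ (1 + ε) * ‖p - u‖ := by
      rw [hp]
      nlinarith
    rcases hall x hx hle with h | h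
    · rw [h, hp] at hpx; exact lt_irrefl _ hpx
    · rw [h] at hpx; exact lt_irrefl _ hpx
  have : u - v = (p - v) - (p - u) := by ring
  calc ‖u - v‖ = ‖(p - v) - (p - u)‖ := by rw [this]
    _ ≤ ‖p - v‖ + ‖p - u‖ := norm_sub_le _ _
    _ ≤ 2 * tf := by rw [hp]; linarith

theorem par_pos_antisymm {u : ℂ} (h1 : Pos u) (h2 : Pos (-u)) : u = 0 := by
  unfold Pos at h1 h2
  simp only [Complex.neg_re, Complex.neg_im] at h2
  apply Complex.ext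
  · rcases h1 with h1 | h1 <;> rcases h2 with h2 | h2 <;> simp <;> linarith [h1, h2]
  · rcases h1 with h1 | h1 <;> rcases h2 with h2 | h2
    · linarith
    · linarith [h2.1]
    · linarith [h1.1]
    · simp; linarith [h1.2, h2.2]

section

variable {W : Type} [NormedAddCommGroup W] [NormedSpace ℝ W] {P : Pm W}
  {Y : ℤ → Set ℂ} {V : Set ℂ}

theorem par_core_om {x y : ℂ} (h : P.Core Y x y) : y ∈ Om Y := by
  obtain ⟨k, hk, _⟩ := h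
  exact mem_iUnion.2 ⟨_, hk⟩

theorem par_c0_mem {x y : ℂ} (h : P.C0 Y y x) : x ∈ P.X Y ∧ y ∈ Om Y := by
  obtain ⟨x₀, hx₀, hc, hch⟩ := h
  refine ⟨?_, par_core_om hc⟩
  rcases hch.cases_tail with h | ⟨b, _, hb⟩
  · rw [h]; exact hx₀
  · exact hb.1.2.1

theorem par_lay_mem {y : ℂ} : ∀ (n : ℕ) {x : ℂ}, P.Lay Y n y x → x ∈ P.X Y ∧ y ∈ Om Y
  | 0, _, h => par_c0_mem h
  | n + 1, _, h => by
    rcases h with h | ⟨x', h, hadj⟩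
    · exact par_lay_mem n h
    · exact ⟨hadj.2.1, (par_lay_mem n h).2⟩

theorem par_c0_Q (hN : P.NetOK Y V) {x y : ℂ} (h : P.C0 Y y x) : Q Y y x := by
  obtain ⟨x₀, _, hc, hch⟩ := h
  rcases hch.cases_tail with h | ⟨b, _, hb⟩
  · rw [h]
    intro y' hy' hne
    have := hN.core_Q x₀ y hc y' hy' hne
    have h0 := norm_nonneg (x₀ - y)
    linarith
  · exact hb.2

theorem par_c0_le (hN : P.NetOK Y V) {x y : ℂ} (h : P.C0 Y y x) :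
    ∀ y' ∈ Om Y, ‖x - y‖ ≤ ‖x - y'‖ := by
  intro y' hy'
  by_cases hne : y' = y
  · rw [hne]
  · exact (par_c0_Q hN h y' hy' hne).le

theorem par_c0_par (hI : P.Inv Y V) (hN : P.NetOK Y V) {x y : ℂ} (h : P.C0 Y y x) :
    P.Par Y x y := by
  obtain ⟨k, hk⟩ := mem_iUnion.1 (par_c0_mem h).2
  refine ⟨k, hk, 0, Nat.zero_le _, h, fun _ _ hn => absurd hn (Nat.not_lt_zero _), ?_⟩
  intro y' k' hk' h'
  have h' : P.C0 Y y' x := h'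
  have hy : y' = y := by
    by_contra hne
    have h1 := par_c0_Q hN h y' (par_c0_mem h').2 hne
    have h2 := par_c0_Q hN h' y (par_c0_mem h).2 (Ne.symm hne)
    linarith
  subst hy
  refine Or.inr ⟨hI.uniq _ _ _ hk hk', ?_⟩
  simp [Pos]

theorem par_lay_near {y y₀ : ℂ} {tf ρ : ℝ} (hε : 0 ≤ P.ε) (htf : 0 < tf)
    (hd : ∀ z : ℂ, ‖z - y₀‖ ≤ ρ → ∃ x ∈ P.X Y, ‖z - x‖ ≤ tf) :
    ∀ (n : ℕ) (x : ℂ), P.Lay Y n y x → ‖x - y₀‖ + 2 * tf * (n + 1) ≤ ρ →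
      ∃ x₂, P.C0 Y y x₂ ∧ ‖x - x₂‖ ≤ 2 * tf * n
  | 0, x, h, _ => ⟨x, h, by simp⟩
  | n + 1, x, h, hb => by
    push_cast at hb
    have hn : (0 : ℝ) ≤ n := Nat.cast_nonneg n
    rcases h with h | ⟨x', h, hadj⟩
    · obtain ⟨x₂, h1, h2⟩ := par_lay_near hε htf hd n x h (by nlinarith)
      refine ⟨x₂, h1, ?_⟩
      push_cast
      nlinarith
    · have he : ‖x' - x‖ ≤ 2 * tf := by
        refine par_edge hε htf hadj fun z hz => hd z ?_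
        have : z - y₀ = (z - x) + (x - y₀) := by ring
        calc ‖z - y₀‖ = ‖(z - x) + (x - y₀)‖ := by rw [this]
          _ ≤ ‖z - x‖ + ‖x - y₀‖ := norm_add_le _ _
          _ ≤ ρ := by nlinarith
      have hx' : ‖x' - y₀‖ ≤ ‖x - y₀‖ + 2 * tf := by
        have : x' - y₀ = (x' - x) + (x - y₀) := by ring
        calc ‖x' - y₀‖ = ‖(x' - x) + (x - y₀)‖ := by rw [this]
          _ ≤ ‖x' - x‖ + ‖x - y₀‖ := norm_add_le _ _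
          _ ≤ _ := by linarith
      obtain ⟨x₂, h1, h2⟩ := par_lay_near hε htf hd n x' h (by nlinarith)
      refine ⟨x₂, h1, ?_⟩
      have : x - x₂ = (x' - x₂) - (x' - x) := by ring
      push_cast
      calc ‖x - x₂‖ = ‖(x' - x₂) - (x' - x)‖ := by rw [this]
        _ ≤ ‖x' - x₂‖ + ‖x' - x‖ := norm_sub_le _ _
        _ ≤ _ := by nlinarith

/-- numerical facts -/
theorem par_nums (hG : P.Good) :
    2 ≤ P.Θ ∧ 16 ≤ P.R ∧ 0 < P.r ∧ P.r ≤ 1 ∧ 0 ≤ P.E ∧ 6 * P.E ≤ P.r * ‖P.c‖ ^ P.N ∧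
      1 ≤ ‖P.c‖ ^ P.N ∧ P.R * P.Θ + 2 * P.R + 1 ≤ P.ρ ∧ 2 * (P.R * P.Θ) + 1 ≤ P.M := by
  have hc := hG.hc
  have hT : 2 ≤ P.Θ := by linarith [hG.hJ]
  have hC := hG.hC₀
  have hT2 : 4 ≤ P.Θ ^ 2 := by nlinarith
  have hR : 16 ≤ P.R := by rw [hG.hR]; nlinarith
  have hr0 : 0 < P.r := by rw [hG.hr]; exact div_pos hG.hr₀ (by linarith)
  have hr1 : P.r ≤ 1 := by
    rw [hG.hr, div_le_one (by linarith)]; linarith [hG.hr₀1]
  have hE : 0 ≤ P.E := by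
    unfold Pm.E
    have : (0 : ℝ) ≤ P.n₁ := Nat.cast_nonneg _
    positivity
  have hS : 1 ≤ ‖P.c‖ ^ P.N := one_le_pow₀ hc.le
  have hD : 8 * P.R ≤ P.D := by rw [hG.hD]; nlinarith
  have hρ : 320 * (P.R * P.Θ) ≤ P.ρ := by rw [hG.hρ]; nlinarith
  have hRT : 2 * P.R ≤ P.R * P.Θ := by nlinarith
  refine ⟨hT, hR, hr0, hr1, hE, ?_, hS, by linarith, by rw [hG.hM]; linarith⟩
  have h1 := hG.hbig
  have h2 : P.ε * P.r * ‖P.c‖ ^ P.N ≤ P.r * ‖P.c‖ ^ P.N := by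
    have : 0 ≤ P.r * ‖P.c‖ ^ P.N := by positivity
    calc P.ε * P.r * ‖P.c‖ ^ P.N = P.ε * (P.r * ‖P.c‖ ^ P.N) := by ring
      _ ≤ 1 * (P.r * ‖P.c‖ ^ P.N) := by gcongr; exact hG.hε1
      _ = _ := by ring
  linarith

theorem par_nearest (hG : P.Good) (hN : P.NetOK Y V) {x : ℂ} (hx : x ∈ P.X Y) :
    ∃ (k₀ : ℤ) (y₀ : ℂ), y₀ ∈ Y k₀ ∧ Nst (Om Y) x y₀ ∧ ‖x - y₀‖ ≤ P.R * P.Θ * ‖P.c‖ ^ k₀ := by
  rcases hx with hx | ⟨i, y, hc, _⟩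
  · obtain ⟨y₀, k₀, h1, h2, h3, _⟩ := hx.1
    exact ⟨k₀, y₀, h1, h2, h3⟩
  · obtain ⟨hT, hR, hr0, hr1, hE, hES, hS, _, _⟩ := par_nums hG
    have hc' := hc
    obtain ⟨k, hk, hlt⟩ := hc'
    refine ⟨k + P.N, y, hk, ⟨par_core_om hc, fun y' hy' => ?_⟩, ?_⟩
    · by_cases hne : y' = y
      · rw [hne]
      · have := hN.core_Q x y hc y' hy' hne
        have h0 := norm_nonneg (x - y)
        linarith
    · have ha : 0 < ‖P.c‖ := lt_trans one_pos hG.hc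
      have hak : 0 < ‖P.c‖ ^ k := zpow_pos ha k
      rw [zpow_add₀ ha.ne', zpow_natCast]
      have h1 := hG.hrS
      have h2 : P.r * ‖P.c‖ ^ P.N ≤ ‖P.c‖ ^ P.N := by nlinarith
      have h3 : 1 ≤ P.R * P.Θ := by nlinarith
      have h4 : ‖P.c‖ * P.ρ₀ ≤ P.R * P.Θ * ‖P.c‖ ^ P.N := by nlinarith
      calc ‖x - y‖ ≤ ‖P.c‖ * P.ρ₀ * ‖P.c‖ ^ k := hlt.le
        _ ≤ P.R * P.Θ * ‖P.c‖ ^ P.N * ‖P.c‖ ^ k := by gcongr
        _ = _ := by ring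

/-- the main estimate -/
theorem par_main (hG : P.Good) (hN : P.NetOK Y V) (hC : P.CandOK Y) {x y y₀ : ℂ} {k₀ : ℤ}
    {n : ℕ} (hn : n ≤ P.n₁) (hL : P.Lay Y n y x) (hy₀ : y₀ ∈ Y k₀)
    (hb : ‖x - y₀‖ ≤ P.R * P.Θ * ‖P.c‖ ^ k₀) :
    (∀ y' ∈ Om Y, ‖x - y‖ ≤ ‖x - y'‖ + P.E * ‖P.c‖ ^ (k₀ - P.J - P.N)) ∧
      ‖y - y₀‖ ≤ P.M * ‖P.c‖ ^ k₀ := by
  obtain ⟨hT, hR, hr0, hr1, hE, hES, hS, hρ, hM⟩ := par_nums hG
  have ha : 0 < ‖P.c‖ := lt_trans one_pos hG.hc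
  have hak : 0 < ‖P.c‖ ^ k₀ := zpow_pos ha k₀
  set b := ‖P.c‖ ^ (k₀ - P.J - P.N) with hbdef
  have hb0 : 0 < b := zpow_pos ha _
  have hbe : b * (P.Θ * ‖P.c‖ ^ P.N) = ‖P.c‖ ^ k₀ := by
    rw [hbdef, hG.hΘ, ← zpow_natCast, ← zpow_natCast, ← zpow_add₀ ha.ne', ← zpow_add₀ ha.ne']
    congr 1
    ring
  have hbS : b * ‖P.c‖ ^ P.N ≤ ‖P.c‖ ^ k₀ := by
    rw [← hbe]
    have : 0 < b * ‖P.c‖ ^ P.N := by positivity
    nlinarith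
  have hb1 : b ≤ ‖P.c‖ ^ k₀ := by nlinarith
  have hEb : P.E * b ≤ ‖P.c‖ ^ k₀ := by
    have h1 : P.E ≤ ‖P.c‖ ^ P.N := by nlinarith
    calc P.E * b ≤ ‖P.c‖ ^ P.N * b := by gcongr
      _ = b * ‖P.c‖ ^ P.N := by ring
      _ ≤ _ := hbS
  have htf : 0 < P.R * b := by positivity
  have hnn : (n : ℝ) ≤ P.n₁ := by exact_mod_cast hn
  have hn0 : (0 : ℝ) ≤ n := Nat.cast_nonneg n
  have hkey : 4 * (P.R * b) * n ≤ P.E * b := by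
    unfold Pm.E
    calc 4 * (P.R * b) * n ≤ 4 * (P.R * b) * P.n₁ := by gcongr
      _ = _ := by ring
  obtain ⟨x₂, h1, h2⟩ := par_lay_near (Y := Y) (y := y) hG.hε.le htf (hC.dens k₀ y₀ hy₀) n x hL (by
    have h3 : P.R * b ≤ P.R * ‖P.c‖ ^ k₀ := by gcongr
    have h4 : 0 ≤ P.R * b * n := by positivity
    calc ‖x - y₀‖ + 2 * (P.R * b) * (n + 1)
        ≤ P.R * P.Θ * ‖P.c‖ ^ k₀ + (2 * (P.R * ‖P.c‖ ^ k₀) + ‖P.c‖ ^ k₀) := by nlinarith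
      _ = (P.R * P.Θ + 2 * P.R + 1) * ‖P.c‖ ^ k₀ := by ring
      _ ≤ P.ρ * ‖P.c‖ ^ k₀ := by gcongr)
  have hadd : ∀ y' ∈ Om Y, ‖x - y‖ ≤ ‖x - y'‖ + P.E * b := by
    intro y' hy'
    have h3 := par_c0_le hN h1 y' hy'
    have e1 : x - y = (x - x₂) + (x₂ - y) := by ring
    have e2 : x₂ - y' = (x - y') - (x - x₂) := by ring
    have h4 : ‖x - y‖ ≤ ‖x - x₂‖ + ‖x₂ - y‖ := by rw [e1]; exact norm_add_le _ _
    have h5 : ‖x₂ - y'‖ ≤ ‖x - y'‖ + ‖x - x₂‖ := by rw [e2]; exact norm_sub_le _ _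
    linarith
  refine ⟨hadd, ?_⟩
  have h6 := hadd y₀ (mem_iUnion.2 ⟨_, hy₀⟩)
  have e3 : y - y₀ = (x - y₀) - (x - y) := by ring
  have h7 : ‖y - y₀‖ ≤ ‖x - y₀‖ + ‖x - y‖ := by rw [e3]; exact norm_sub_le _ _
  calc ‖y - y₀‖ ≤ 2 * (P.R * P.Θ * ‖P.c‖ ^ k₀) + ‖P.c‖ ^ k₀ := by linarith
    _ = (2 * (P.R * P.Θ) + 1) * ‖P.c‖ ^ k₀ := by ring
    _ ≤ P.M * ‖P.c‖ ^ k₀ := by gcongr

theorem par_add (hG : P.Good) (hN : P.NetOK Y V) (hC : P.CandOK Y) {x y : ℂ} {K : ℤ}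
    (hP : P.Par Y x y) (hK : y ∈ Y K) :
    ∀ y' ∈ Om Y, ‖x - y‖ ≤ ‖x - y'‖ + P.E * (‖P.c‖ ^ K / ‖P.c‖ ^ P.N) := by
  obtain ⟨k, _, n, hn, hL, _⟩ := hP
  obtain ⟨k₀, y₀, hy₀, _, hb⟩ := par_nearest hG hN (par_lay_mem n hL).1
  obtain ⟨h1, h2⟩ := par_main hG hN hC hn hL hy₀ hb
  obtain ⟨hT, hR, hr0, hr1, hE, hES, hS, hρ, hM⟩ := par_nums hG
  have ha : 0 < ‖P.c‖ := lt_trans one_pos hG.hc
  have hlab := (hN.lab k₀ K y₀ hy₀ y hK h2).1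
  intro y' hy'
  have h3 : ‖P.c‖ ^ (k₀ - P.J - P.N) ≤ ‖P.c‖ ^ K / ‖P.c‖ ^ P.N := by
    rw [← zpow_natCast, ← zpow_sub₀ ha.ne']
    exact zpow_le_zpow_right₀ hG.hc.le (by omega)
  have h4 := h1 y' hy'
  have h5 : P.E * ‖P.c‖ ^ (k₀ - P.J - P.N) ≤ P.E * (‖P.c‖ ^ K / ‖P.c‖ ^ P.N) := by gcongr
  linarith

theorem par_near (hG : P.Good) (hN : P.NetOK Y V) (hC : P.CandOK Y) {x y : ℂ}
    (hP : P.Par Y x y) : Near Y x y := by
  have hP' := hP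
  obtain ⟨K, hK, _⟩ := hP'
  obtain ⟨hT, hR, hr0, hr1, hE, hES, hS, hρ, hM⟩ := par_nums hG
  have ha : 0 < ‖P.c‖ := lt_trans one_pos hG.hc
  have haK : 0 < ‖P.c‖ ^ K := zpow_pos ha K
  intro y' hy'
  by_cases hne : y = y'
  · rw [← hne]; linarith [norm_nonneg (x - y)]
  have h1 := par_add hG hN hC hP hK y' hy'
  have h2 := hN.sep K y hK y' hy' hne
  have e : y - y' = (x - y') - (x - y) := by ring
  have h3 : ‖y - y'‖ ≤ ‖x - y'‖ + ‖x - y‖ := by rw [e]; exact norm_sub_le _ _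
  have hS0 : 0 < ‖P.c‖ ^ P.N := by linarith
  have h4 : 6 * (P.E * (‖P.c‖ ^ K / ‖P.c‖ ^ P.N)) ≤ P.r * ‖P.c‖ ^ K := by
    have : 6 * (P.E * (‖P.c‖ ^ K / ‖P.c‖ ^ P.N)) = (6 * P.E) * ‖P.c‖ ^ K / ‖P.c‖ ^ P.N := by
      ring
    rw [this, div_le_iff₀ hS0]
    calc 6 * P.E * ‖P.c‖ ^ K ≤ (P.r * ‖P.c‖ ^ P.N) * ‖P.c‖ ^ K := by gcongr
      _ = _ := by ring
  have h5 : 0 ≤ P.E * (‖P.c‖ ^ K / ‖P.c‖ ^ P.N) := by positivity
  linarith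

theorem par_dist (hG : P.Good) (hN : P.NetOK Y V) (hC : P.CandOK Y) {x y : ℂ} {K : ℤ}
    (hP : P.Par Y x y) (hK : y ∈ Y K) : ‖x - y‖ ≤ P.D * ‖P.c‖ ^ K := by
  have hnear := par_near hG hN hC hP
  obtain ⟨k, _, n, hn, hL, _⟩ := hP
  obtain ⟨k₀, y₀, hy₀, _, hb⟩ := par_nearest hG hN (par_lay_mem n hL).1
  obtain ⟨_, h2⟩ := par_main hG hN hC hn hL hy₀ hb
  obtain ⟨hT, hR, hr0, hr1, hE, hES, hS, hρ, hM⟩ := par_nums hG
  have ha : 0 < ‖P.c‖ := lt_trans one_pos hG.hc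
  have hlab := (hN.lab k₀ K y₀ hy₀ y hK h2).1
  have h3 : ‖P.c‖ ^ k₀ ≤ ‖P.c‖ ^ K * P.Θ := by
    rw [hG.hΘ, ← zpow_natCast, ← zpow_add₀ ha.ne']
    exact zpow_le_zpow_right₀ hG.hc.le (by omega)
  have h4 := hnear y₀ (mem_iUnion.2 ⟨_, hy₀⟩)
  have h5 : P.R * P.Θ * ‖P.c‖ ^ k₀ ≤ P.R * P.Θ * (‖P.c‖ ^ K * P.Θ) := by gcongr
  rw [hG.hD]
  calc ‖x - y‖ ≤ 2 * (P.R * P.Θ * (‖P.c‖ ^ K * P.Θ)) := by linarith
    _ = _ := by ring

theorem par_ex (hG : P.Good) (hN : P.NetOK Y V) (hC : P.CandOK Y)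
    (hex : ∀ x, P.Ord Y x → ∃ n ≤ P.n₁, ∃ y, P.Lay Y n y x) {x : ℂ} (hx : x ∈ P.X Y) :
    ∃ y, P.Par Y x y := by
  classical
  have h0 : ∃ n ≤ P.n₁, ∃ y, P.Lay Y n y x := by
    rcases hx with hx' | ⟨i, y, hc, h⟩
    · exact hex x hx'
    · exact ⟨0, Nat.zero_le _, y, x, Or.inr ⟨i, y, hc, h⟩, hc, Relation.ReflTransGen.refl⟩
  have h1 : ∃ n, ∃ y, P.Lay Y n y x := by
    obtain ⟨n, _, h⟩ := h0
    exact ⟨n, h⟩
  set n := Nat.find h1 with hndef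
  have hn : n ≤ P.n₁ := by
    obtain ⟨m, hm, h⟩ := h0
    exact (Nat.find_min' h1 h).trans hm
  have hmin : ∀ y' n', n' < n → ¬ P.Lay Y n' y' x := fun y' n' hlt h =>
    Nat.find_min h1 hlt ⟨y', h⟩
  obtain ⟨k₀, y₀, hy₀, _, hb⟩ := par_nearest hG hN hx
  have hbd : ∀ y, P.Lay Y n y x → ‖y - y₀‖ ≤ P.M * ‖P.c‖ ^ k₀ := fun y h =>
    (par_main hG hN hC hn h hy₀ hb).2
  obtain ⟨k, ⟨y₁, hy₁, hL₁⟩, hkmin⟩ := Int.exists_least_of_bdd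
    (P := fun k => ∃ y ∈ Y k, P.Lay Y n y x)
    ⟨k₀ - P.J, fun k ⟨y, hy, hL⟩ => (hN.lab k₀ k y₀ hy₀ y hy (hbd y hL)).1⟩
    (by
      obtain ⟨y, hL⟩ := Nat.find_spec h1
      obtain ⟨k, hk⟩ := mem_iUnion.1 (par_lay_mem _ hL).2
      exact ⟨k, y, hk, hL⟩)
  have hfin : {y | y ∈ Y k ∧ P.Lay Y n y x}.Finite :=
    (hN.fin k₀ y₀ hy₀).subset fun y hy => ⟨mem_iUnion.2 ⟨_, hy.1⟩, hbd y hy.2⟩
  obtain ⟨y, ⟨hy, hL⟩, hymin⟩ := Set.exists_min_image {y | y ∈ Y k ∧ P.Lay Y n y x}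
    (fun y => toLex ((y / P.c ^ k).re, (y / P.c ^ k).im)) hfin ⟨y₁, hy₁, hL₁⟩
  refine ⟨y, k, hy, n, hn, hL, hmin, fun y' k' hy' hL' => ?_⟩
  rcases (hkmin k' ⟨y', hy', hL'⟩).lt_or_eq with h | h
  · exact Or.inl h
  · subst h
    refine Or.inr ⟨rfl, ?_⟩
    have := hymin y' ⟨hy', hL'⟩
    rw [Prod.Lex.toLex_le_toLex] at this
    unfold Pos
    rw [sub_div, Complex.sub_re, Complex.sub_im]
    rcases this with h | ⟨h1, h2⟩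
    · left; simp only at h; linarith
    · right; simp only at h1 h2; constructor <;> linarith

theorem par_uniq (hG : P.Good) {x y y' : ℂ} (h : P.Par Y x y) (h' : P.Par Y x y') : y = y' := by
  obtain ⟨k, hk, n, _, hL, hmin, hord⟩ := h
  obtain ⟨k', hk', n', _, hL', hmin', hord'⟩ := h'
  have hn : n = n' := by
    rcases lt_trichotomy n n' with h | h | h
    · exact absurd hL (hmin' y n h)
    · exact h
    · exact absurd hL' (hmin y' n' h)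
  subst hn
  have hc : P.c ≠ 0 := by
    intro h0
    have := hG.hc
    rw [h0, norm_zero] at this
    linarith
  rcases hord y' k' hk' hL' with h1 | ⟨h1, h2⟩ <;> rcases hord' y k hk hL with h3 | ⟨h3, h4⟩
  · omega
  · omega
  · omega
  · subst h1
    have e : (y - y') / P.c ^ k = -((y' - y) / P.c ^ k) := by ring
    rw [e] at h4
    have h5 := par_pos_antisymm h2 h4
    rcases div_eq_zero_iff.1 h5 with h6 | h6
    · exact (sub_eq_zero.1 h6).symm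
    · exact absurd h6 (zpow_ne_zero _ hc)

theorem par_chain (hI : P.Inv Y V) (hN : P.NetOK Y V) {y : ℂ} {k : ℤ} (hk : y ∈ Y k) :
    ∀ (n : ℕ) (x : ℂ), n ≤ P.n₁ → P.Lay Y n y x → (∀ y' n', n' < n → ¬ P.Lay Y n' y' x) →
      (∀ (y' : ℂ) (k' : ℤ), y' ∈ Y k' → P.Lay Y n y' x →
        k < k' ∨ (k = k' ∧ Pos ((y' - y) / P.c ^ k))) →
      ∃ x₀, P.Core Y x₀ y ∧ P.Par Y x₀ y ∧
        Relation.ReflTransGen (fun u v => Adj P.ε (P.X Y) u v ∧ P.Par Y v y) x₀ x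
  | 0, x, _, hL, h1, h2 => by
    clear h1 h2
    obtain ⟨x₀, hx₀, hc, hch⟩ := hL
    refine ⟨x₀, hc, par_c0_par hI hN ⟨x₀, hx₀, hc, Relation.ReflTransGen.refl⟩, ?_⟩
    induction hch with
    | refl => exact Relation.ReflTransGen.refl
    | tail hab hbc ih =>
      exact ih.tail ⟨hbc.1, par_c0_par hI hN ⟨x₀, hx₀, hc, hab.tail hbc⟩⟩
  | n + 1, x, hn, hL, hmin, hord => by
    have hPx : P.Par Y x y := ⟨k, hk, n + 1, hn, hL, hmin, hord⟩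
    rcases hL with h | ⟨x', h, hadj⟩
    · exact absurd h (hmin y n (Nat.lt_succ_self n))
    · obtain ⟨x₀, h1, h2, h3⟩ := par_chain hI hN hk n x' (by omega) h
        (fun y' n' hlt h' => hmin y' (n' + 1) (by omega) (Or.inr ⟨x', h', hadj⟩))
        (fun y' k' hk' h' => hord y' k' hk' (Or.inr ⟨x', h', hadj⟩))
      exact ⟨x₀, h1, h2, h3.tail ⟨hadj, hPx⟩⟩

end

theorem par : PAR := by
  intro W _ _ P hG _ Y V hI hN hC hex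
  refine ⟨?_, fun x hx => par_ex hG hN hC hex hx, fun x y y' h h' => par_uniq hG h h', ?_,
    fun x y K hP hK => par_add hG hN hC hP hK, fun x y hP => par_near hG hN hC hP,
    fun x y K hP hK => par_dist hG hN hC hP hK, ?_⟩
  · rintro x y ⟨k, _, n, _, hL, _⟩
    exact par_lay_mem n hL
  · intro x hx y hc
    exact par_c0_par hI hN ⟨x, hx, hc, Relation.ReflTransGen.refl⟩
  · rintro x y ⟨k, hk, n, hn, hL, hmin, hord⟩
    exact par_chain hI hN hk n x hn hL hmin hord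

end Pool.Agent.H527Z.Per
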