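import Pool.Agent.H527Z.Per.Defs3

/-!
# The hierarchy obtained by iterating the refinement rule
-/

set_option autoImplicit false

namespace Pool.Agent.H527Z.Per

open Set

section
variable {W : Type} [NormedAddCommGroup W] [NormedSpace ℝ W] (P : Pm W)

/-- configurations and punctures of all levels -/
def lev : ℕ → (ℤ → Set ℂ) × Set ℂ
  | 0 => (P.Y0, {0})
  | m + 1 => (P.Step (lev m).1, (lev m).2 ∪ Om (lev m).1)

open Classical in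
/-- the mesh at a point -/
noncomputable def mesh (m : ℕ) (y : ℂ) : ℝ :=
  if h : ∃ k, y ∈ (lev P m).1 k then ‖P.c‖ ^ h.choose else 1

open Classical in
/-- the data of the hierarchy -/
noncomputable def dat : Dat where
  c := P.c
  N := P.N
  Y := fun m => (lev P m).1
  V := fun m => (lev P m).2
  s := mesh P
  Par := fun m => P.Par (lev P m).1
  r := P.r
  R := P.R
  D := P.D
  E := P.E
  ε := P.ε
  Θ := P.Θ
  M := P.M
  ρ := P.ρ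
  ρ₀ := P.ρ₀
  F := P.Fs.image (fun l => l / P.c ^ (P.J : ℤ))

variable {P}

/-- all facts on one configuration -/
structure All (P : Pm W) (Y : ℤ → Set ℂ) (V : Set ℂ) : Prop where
  inv : P.Inv Y V
  net : P.NetOK Y V
  cand : P.CandOK Y
  par : P.ParOK Y
  next : P.Inv (P.Step Y) (V ∪ Om Y)
  om : Om (P.Step Y) = P.X Y

theorem sys_all (h4 : NET) (h5 : CAND) (h6 : PAREX) (h7 : PAR) (h8 : STEP) (hG : P.Good)
    (hB : P.Base0) {Y : ℤ → Set ℂ} {V : Set ℂ} (hI : P.Inv Y V) : All P Y V := by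
  have n := h4 W P hG Y V hI
  have c := h5 W P hG hB Y V hI n
  have p := h7 W P hG hB Y V hI n c (h6 W P hG hB Y V hI n c)
  have s := h8 W P hG hB Y V hI n c p
  exact ⟨hI, n, c, p, s.1, s.2⟩

theorem sys_inv_add {Y : ℤ → Set ℂ} {V : Set ℂ} (hI : P.Inv Y V) (T : ℂ) :
    P.Inv (fun k => {u | u + T ∈ Y k}) {v | v + T ∈ V} := by
  refine ⟨fun k k' y h h' => hI.uniq k k' _ h h', fun k k' y h y' h' hk hd => ?_,
    fun k k' y h y' h' hd => ?_, fun z hz => ?_, fun k y h v hv => ?_⟩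
  · have := hI.pair k k' _ h _ h' hk (by rwa [add_sub_add_right_eq_sub])
    rwa [add_sub_add_right_eq_sub] at this
  · exact hI.cmp k k' _ h _ h' (by rwa [add_sub_add_right_eq_sub])
  · obtain ⟨k, y, hy, hd⟩ := hI.dens (z + T) hz
    refine ⟨k, y - T, by simpa using hy, ?_⟩
    have e : z - (y - T) = z + T - y := by ring
    rwa [e]
  · have := hI.far k _ h _ hv
    rwa [add_sub_add_right_eq_sub] at this

structure Num (P : Pm W) : Prop where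
  a1 : 1 < ‖P.c‖
  T2 : 2 ≤ P.Θ
  R16 : 16 ≤ P.R
  RD : P.R ≤ P.D
  Dρ : P.D ≤ P.ρ
  r0 : 0 < P.r
  rT : P.r * P.Θ ≤ 1
  E0 : 0 ≤ P.E
  ρ₀H : 2 * P.H ≤ P.ρ₀
  MH : 2 * P.M ≤ P.H
  RT : 40 * (P.R * P.Θ) ≤ P.ρ
  S0 : 24 * P.ρ₀ * P.Θ ≤ ‖P.c‖ ^ P.N

theorem sys_num (hG : P.Good) : Num P := by
  have a1 := hG.hc
  have T2 : 2 ≤ P.Θ := by linarith [hG.hJ]
  have TT : 4 ≤ P.Θ ^ 2 := by nlinarith
  have R16 : 16 ≤ P.R := by rw [hG.hR]; nlinarith [hG.hC₀]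
  have RD : P.R ≤ P.D := by rw [hG.hD]; nlinarith
  have Dρ : P.D ≤ P.ρ := by rw [hG.hρ]; nlinarith
  have r0 : 0 < P.r := by rw [hG.hr]; exact div_pos hG.hr₀ (by linarith)
  have rT : P.r * P.Θ ≤ 1 := by
    rw [hG.hr, div_mul_cancel₀ _ (by linarith)]; exact hG.hr₀1
  have E0 : 0 ≤ P.E := by unfold Pm.E; positivity
  have MH : 2 * P.M ≤ P.H := by rw [hG.hH, hG.hM]; nlinarith
  have hρ₀ : 0 ≤ P.ρ₀ := by linarith [hG.hρ₀', hG.hM]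
  refine ⟨a1, T2, R16, RD, Dρ, r0, rT, E0, hG.hρ₀', MH, ?_, ?_⟩
  · rw [hG.hρ]; nlinarith
  · have h1 := hG.hrS
    have h2 : (0 : ℝ) ≤ ‖P.c‖ ^ P.N := by positivity
    have h3 : 24 * P.ρ₀ ≤ P.r * ‖P.c‖ ^ P.N := by nlinarith
    have h4 : 24 * P.ρ₀ * P.Θ ≤ P.r * ‖P.c‖ ^ P.N * P.Θ :=
      mul_le_mul_of_nonneg_right h3 (by linarith)
    nlinarith

theorem sys_mesh {m : ℕ} (hI : P.Inv (lev P m).1 (lev P m).2) {k : ℤ} {y : ℂ}
    (hy : y ∈ (lev P m).1 k) : mesh P m y = ‖P.c‖ ^ k := by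
  have h : ∃ k, y ∈ (lev P m).1 k := ⟨k, hy⟩
  unfold mesh
  rw [dif_pos h, hI.uniq _ _ _ h.choose_spec hy]

theorem sys_pl_le (hG : P.Good) (hB : P.Base0) {i k : ℤ} {u : ℂ} (hu : u ∈ P.Y0 i)
    (hk : ‖u‖ < ‖P.c‖ * P.ρ₀ * ‖P.c‖ ^ k) : i ≤ k := by
  have hn := sys_num hG
  have h1 := (hB.bound i u hu).1
  have hρ₀ : 0 < P.ρ₀ := by linarith [hn.ρ₀H, hn.MH, hG.hM, hn.Dρ, hn.RD, hn.R16]
  by_contra hcon
  have h2 : k + 1 ≤ i := by omega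
  have h3 : ‖P.c‖ ^ (k + 1) ≤ ‖P.c‖ ^ i := zpow_le_zpow_right₀ hn.a1.le h2
  rw [zpow_add_one₀ (by linarith [hn.a1])] at h3
  nlinarith

theorem sys_core_uniq {Y : ℤ → Set ℂ} {V : Set ℂ} (h : All P Y V) {x y y' : ℂ}
    (h1 : P.Core Y x y) (h2 : P.Core Y x y') : y = y' := by
  by_contra hne
  obtain ⟨k, hk, -⟩ := id h1
  obtain ⟨k', hk', -⟩ := id h2
  have a := h.net.core_Q x y h1 y' (mem_iUnion.2 ⟨_, hk'⟩) (Ne.symm hne)
  have b := h.net.core_Q x y' h2 y (mem_iUnion.2 ⟨_, hk⟩) hne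
  linarith [norm_nonneg (x - y), norm_nonneg (x - y')]

/-- the label of a child -/
theorem sys_child (hG : P.Good) (hB : P.Base0) {Y : ℤ → Set ℂ} {V : Set ℂ} (h : All P Y V)
    {x y : ℂ} {k K : ℤ} (hp : P.Par Y x y) (hx : x ∈ P.Step Y k) (hy : y ∈ Y (K + P.N)) :
    k = K ∨ (k ≤ K ∧ ‖x - y‖ < ‖P.c‖ * P.ρ₀ * ‖P.c‖ ^ K) := by
  rcases hx with ⟨y', hc, hu⟩ | ⟨-, y', hy', hp'⟩
  · right
    have e : y' = y := h.par.uniq x y' y (h.par.core x (h.par.mem x y hp).1 y' hc) hp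
    subst e
    obtain ⟨k', hk', hlt⟩ := hc
    have e2 : k' = K := by have := h.inv.uniq _ _ _ hk' hy; omega
    subst e2
    exact ⟨sys_pl_le hG hB hu hlt, hlt⟩
  · left
    have e : y' = y := h.par.uniq x y' y hp' hp
    subst e
    have := h.inv.uniq _ _ _ hy' hy
    omega

theorem sys_hier (hG : P.Good) (hB : P.Base0) (hA : ∀ m, All P (lev P m).1 (lev P m).2) :
    Hier2 (dat P).Ω (dat P).V (dat P).s (dat P).Par (‖P.c‖ ^ P.N) P.r P.R P.D P.E P.ε P.Θ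
      P.M := by
  have hn := sys_num hG
  have a0 : 0 < ‖P.c‖ := by linarith [hn.a1]
  have hΩ : ∀ m y, y ∈ (dat P).Ω m ↔ ∃ k, y ∈ (lev P m).1 k := fun m y => mem_iUnion
  have hΩ' : ∀ m, (dat P).Ω m = Om (lev P m).1 := fun m => rfl
  have hX : ∀ m, (dat P).Ω (m + 1) = P.X (lev P m).1 := fun m => (hA m).om
  have hs : ∀ m k y, y ∈ (lev P m).1 k → (dat P).s m y = ‖P.c‖ ^ k :=
    fun m k y hy => sys_mesh (hA m).inv hy
  have hr1 : P.r ≤ 1 := by nlinarith [hn.rT, hn.T2, hn.r0]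
  have hρ₀ : 0 < P.ρ₀ := by linarith [hn.ρ₀H, hn.MH, hG.hM, hn.Dρ, hn.RD, hn.R16]
  have hρ₀1 : 1 ≤ P.ρ₀ := by linarith [hn.ρ₀H, hn.MH, hG.hM, hn.Dρ, hn.RD, hn.R16]
  refine
    { hr := hn.r0, hε := hG.hε, hε1 := hG.hε1, hR := by linarith [hn.R16]
      hD := by linarith [hn.R16, hn.RD], hE := hn.E0, hS := ?_, hΘ := by linarith [hn.T2]
      hM := ?_, hbig := hG.hbig, s_pos := ?_, V_succ := fun m => rfl, par_mem := ?_
      par_ex := ?_, par_uniq := fun m => (hA m).par.uniq, par_scale := ?_, par_dist := ?_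
      par_near := ?_, sep := ?_, dens := ?_, far := ?_, comp := ?_, fin := ?_, chain := ?_ }
  · nlinarith [hn.S0, hn.T2]
  · rw [hG.hM, hG.hρ]
    nlinarith [hn.RD, hn.R16, hn.T2]
  · intro m y hy
    obtain ⟨k, hk⟩ := (hΩ m y).1 hy
    rw [hs m k y hk]; positivity
  · intro m x y hp
    rw [hX]
    exact (hA m).par.mem x y hp
  · intro m x hx
    rw [hX] at hx
    exact (hA m).par.ex x hx
  · intro m x y hp
    have h1 := (hA m).par.mem x y hp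
    obtain ⟨K, hK⟩ := mem_iUnion.1 h1.2
    have h2 : x ∈ (dat P).Ω (m + 1) := by rw [hX]; exact h1.1
    obtain ⟨k, hk⟩ := (hΩ _ x).1 h2
    rw [hs _ k x hk, hs m K y hK]
    have h3 := sys_child hG hB (hA m) (K := K - P.N) hp hk (by simpa using hK)
    have h4 : k + P.N ≤ K := by rcases h3 with h3 | h3 <;> omega
    rw [← zpow_natCast, ← zpow_add₀ a0.ne']
    exact zpow_le_zpow_right₀ hn.a1.le h4
  · intro m x y hp
    obtain ⟨K, hK⟩ := mem_iUnion.1 ((hA m).par.mem x y hp).2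
    rw [hs m K y hK]
    exact (hA m).par.dist x y K hp hK
  · intro m x y hp y' hy'
    obtain ⟨K, hK⟩ := mem_iUnion.1 ((hA m).par.mem x y hp).2
    rw [hs m K y hK]
    exact (hA m).par.add x y K hp hK y' hy'
  · intro m y hy y' hy' hne
    obtain ⟨k, hk⟩ := (hΩ m y).1 hy
    rw [hs m k y hk]
    exact (hA m).net.sep k y hk y' hy' hne
  · intro m z hz
    obtain ⟨k, y, hy, hd⟩ := (hA m).inv.dens z hz
    exact ⟨y, (hΩ m y).2 ⟨k, hy⟩, by rw [hs m k y hy]; exact hd⟩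
  · intro m y hy v hv
    obtain ⟨k, hk⟩ := (hΩ m y).1 hy
    rw [hs m k y hk]
    exact (hA m).inv.far k y hk v hv
  · intro m y hy y' hy' hd
    obtain ⟨k, hk⟩ := (hΩ m y).1 hy
    obtain ⟨k', hk'⟩ := (hΩ m y').1 hy'
    rw [hs m k y hk] at hd
    rw [hs m k y hk, hs m k' y' hk']
    have h1 := (hA m).net.lab k k' y hk y' hk' (by rwa [norm_sub_rev])
    rw [hG.hΘ, ← zpow_natCast, ← zpow_add₀ a0.ne', ← zpow_add₀ a0.ne']
    exact ⟨zpow_le_zpow_right₀ hn.a1.le (by omega), zpow_le_zpow_right₀ hn.a1.le (by omega)⟩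
  · intro m y hy
    obtain ⟨k, hk⟩ := (hΩ m y).1 hy
    rw [hs m k y hk]
    exact (hA m).net.fin k y hk
  · intro m x y hp
    obtain ⟨x₀, ⟨k, hk, hlt⟩, hp₀, hch⟩ := (hA m).par.chain x y hp
    refine ⟨x₀, ?_, hp₀, by rw [hX]; exact hch⟩
    rw [hs m _ y hk, zpow_add₀ a0.ne', zpow_natCast]
    have h1 := hG.hrS
    have h2 : (0 : ℝ) < ‖P.c‖ ^ k := by positivity
    have h3 : 0 ≤ ‖P.c‖ * P.ρ₀ := by positivity
    nlinarith

theorem sys_eqv (h1 : EQV) (hG : P.Good) (hB : P.Base0) (m : ℕ) :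
    ∀ k u, u ∈ (lev P m).1 k ↔ P.c ^ (1 : ℤ) * u + 0 ∈ (lev P m).1 (k + 1) := by
  have c0 : P.c ≠ 0 := by
    intro h; have := hG.hc; rw [h, norm_zero] at this; linarith
  induction m with
  | zero => intro k u; rw [add_zero]; exact hB.eqv k 1 u
  | succ m ih => intro k u; exact (h1 W P c0 _ _ 1 0 ih u).1 k

theorem sys_loc (h1 : EQV) (h2 : LOC) (h4 : NET) (h5 : CAND) (hG : P.Good) (hB : P.Base0)
    {Y Y' : ℤ → Set ℂ} {V V' : Set ℂ} (hI : P.Inv Y V) (hI' : P.Inv Y' V') {T y : ℂ} {k : ℤ}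
    (hy : y ∈ Y k) (hag : ∀ (k' : ℤ) (u : ℂ), ‖u - y‖ ≤ P.ρ * ‖P.c‖ ^ k →
      (u ∈ Y k' ↔ u + T ∈ Y' k')) {u : ℂ} (hu : ‖u - y‖ ≤ P.ρ / 2 * ‖P.c‖ ^ k) :
    (∀ k', u ∈ P.Step Y k' ↔ u + T ∈ P.Step Y' k') ∧
      ∀ y', P.Par Y u y' ↔ P.Par Y' (u + T) (y' + T) := by
  have hn := sys_num hG
  have a0 : 0 < ‖P.c‖ := by linarith [hn.a1]
  have c0 : P.c ≠ 0 := norm_pos_iff.1 a0
  have g0 : (0 : ℝ) < ‖P.c‖ ^ k := by positivity
  set Z : ℤ → Set ℂ := fun k => {u | u + T ∈ Y' k} with hZ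
  have hIZ : P.Inv Z {v | v + T ∈ V'} := sys_inv_add hI' T
  have e1 := h1 W P c0 Z Y' 0 T (fun k u => by simp [hZ]) u
  simp only [zpow_zero, one_mul, add_zero] at e1
  have hρ0 : 0 ≤ P.ρ := by linarith [hn.Dρ, hn.RD, hn.R16]
  have hyZ : y ∈ Z k := (hag k y (by rw [sub_self, norm_zero]; positivity)).1 hy
  have hRT : 1 ≤ P.R * P.Θ := by nlinarith [hn.R16, hn.T2]
  have htri : ∀ z : ℂ, ‖z - u‖ ≤ 12 * (P.R * P.Θ * ‖P.c‖ ^ k) → ‖z - y‖ ≤ P.ρ * ‖P.c‖ ^ k := by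
    intro z hz
    have := norm_sub_le_norm_sub_add_norm_sub z u y
    nlinarith [hn.RT]
  have hS : ‖P.c‖ ^ (k - P.J - P.N) * ‖P.c‖ ^ P.N ≤ ‖P.c‖ ^ k := by
    rw [← zpow_natCast, ← zpow_add₀ a0.ne']
    exact zpow_le_zpow_right₀ hn.a1.le (by omega)
  have f0 : (0 : ℝ) < ‖P.c‖ ^ (k - P.J - P.N) := by positivity
  have hn1 : 2 * (P.n₁ : ℝ) + 1 ≤ ‖P.c‖ ^ P.N := by
    have b1 := hG.hbig
    have b2 : P.ε * P.r ≤ 1 := by nlinarith [hG.hε, hG.hε1, hn.r0, hn.rT, hn.T2]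
    have b3 : (0 : ℝ) ≤ ‖P.c‖ ^ P.N := by positivity
    have b4 : P.ε * P.r * ‖P.c‖ ^ P.N ≤ ‖P.c‖ ^ P.N := by nlinarith
    have b5 : (0 : ℝ) ≤ P.n₁ := by positivity
    unfold Pm.E at b1
    nlinarith [hn.R16, hn.RD]
  have hn0 : (0 : ℝ) ≤ P.n₁ := by positivity
  have hfin : (2 * (P.n₁ : ℝ) + 1) * ‖P.c‖ ^ (k - P.J - P.N) ≤ ‖P.c‖ ^ k := by nlinarith
  have hR0 : 0 < P.R := by linarith [hn.R16]
  have hTg : P.R * ‖P.c‖ ^ k ≤ P.R * P.Θ * ‖P.c‖ ^ k := by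
    have : P.R ≤ P.R * P.Θ := by nlinarith [hn.T2]
    nlinarith
  have hmul := mul_le_mul_of_nonneg_left hfin hR0.le
  have e2 := h2 W P hG.hε.le hG.hε1 Y Z u (P.R * P.Θ * ‖P.c‖ ^ k)
    (P.R * ‖P.c‖ ^ (k - P.J - P.N)) (by positivity) (by nlinarith [mul_pos hR0 f0])
    (by nlinarith [mul_pos hR0 f0]) (fun k' v hv => hag k' v (htri v hv)) ?_
  · exact ⟨fun k' => (e2.1 k').trans (e1.1 k'), fun y' => (e2.2 y').trans (e1.2 y')⟩
  · have key : ∀ (Z : ℤ → Set ℂ) (U : Set ℂ), P.Inv Z U → y ∈ Z k →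
        (∀ z, ‖z - u‖ ≤ 12 * (P.R * P.Θ * ‖P.c‖ ^ k) →
          ∃ y ∈ Om Z, ‖z - y‖ ≤ P.R * P.Θ * ‖P.c‖ ^ k) ∧
        (∀ x y, ‖x - u‖ ≤ 12 * (P.R * P.Θ * ‖P.c‖ ^ k) → P.Core Z x y →
          ‖x - y‖ ≤ P.R * P.Θ * ‖P.c‖ ^ k) ∧
        ∀ z, ‖z - u‖ ≤ 12 * (P.R * P.Θ * ‖P.c‖ ^ k) →
          ∃ x ∈ P.X Z, ‖z - x‖ ≤ P.R * ‖P.c‖ ^ (k - P.J - P.N) := by
      intro Z U hIZ hyZ
      have n := h4 W P hG Z U hIZ
      have c := h5 W P hG hB Z U hIZ n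
      have h3 : ∀ z : ℂ, ‖z - u‖ ≤ 12 * (P.R * P.Θ * ‖P.c‖ ^ k) →
          ‖z - y‖ ≤ 3 * P.ρ * ‖P.c‖ ^ k := fun z hz => by
        have := htri z hz
        nlinarith [mul_nonneg hρ0 g0.le]
      refine ⟨fun z hz => (n.ldens k y hyZ z (h3 z hz)).2, fun x y' hx hc => ?_,
        fun z hz => c.dens k y hyZ z (htri z hz)⟩
      have := n.core_le k y hyZ x y' (h3 x hx) hc
      nlinarith
    rintro Z' (rfl | rfl)
    · exact key _ V hI hy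
    · exact key _ _ hIZ hyZ

theorem sys_main (h1 : EQV) (h2 : LOC) (h3 : BASE0) (h4 : NET) (h5 : CAND) (h6 : PAREX)
    (h7 : PAR) (h8 : STEP) (hG : P.Good) : (dat P).Sys := by
  classical
  have hB := h3 W P hG
  have hn := sys_num hG
  have a0 : 0 < ‖P.c‖ := by linarith [hn.a1]
  have c0 : P.c ≠ 0 := norm_pos_iff.1 a0
  have hA : ∀ m, All P (lev P m).1 (lev P m).2 := by
    intro m
    induction m with
    | zero => exact sys_all h4 h5 h6 h7 h8 hG hB hB.inv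
    | succ m ih => exact sys_all h4 h5 h6 h7 h8 hG hB ih.next
  have hρ0 : 16 ≤ P.ρ := by linarith [hn.Dρ, hn.RD, hn.R16]
  have hρ₀1 : 1 ≤ P.ρ₀ := by linarith [hn.ρ₀H, hn.MH, hG.hM]
  have hTρ : P.Θ ≤ P.ρ := by nlinarith [hn.RT, hn.R16, hn.T2]
  refine
    { hc := hG.hc, hier := sys_hier hG hB hA, hM' := ?_, hrS := hG.hrS, hΘS := ?_
      hρ := hG.hρ.ge, hρM := ?_, hρ₀ := ?_, hs := fun m k y hy => sys_mesh (hA m).inv hy
      V0 := rfl, eqv_mem := ?_, eqv_par := ?_, child := ?_, loc := ?_, plant := ?_, pat := ?_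
      base := hB.bound }
  · show 4 * P.D + 10 * ‖P.c‖ ≤ P.M
    have h := hG.hJ
    rw [hG.hM, hG.hρ]
    nlinarith [hn.RD, hn.R16, hn.T2]
  · show 4 * P.Θ ≤ ‖P.c‖ ^ P.N
    nlinarith [hn.S0, hn.T2]
  · show P.ρ ≤ P.M
    linarith [hG.hM]
  · show P.ρ + 2 * ‖P.c‖ < P.ρ₀
    linarith [hG.hJ, hn.ρ₀H, hn.MH, hG.hM]
  · intro m k y
    have := sys_eqv h1 hG hB m k y
    rwa [zpow_one, add_zero] at this
  · intro m x y
    have := (h1 W P c0 _ _ 1 0 (sys_eqv h1 hG hB m) x).2 y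
    rwa [zpow_one, add_zero, add_zero] at this
  · intro m x y k K hp hx hy
    rcases sys_child hG hB (hA m) hp hx hy with h | h
    · exact Or.inl h
    · exact Or.inr h.2
  · intro m m' T y k hy hag u hu
    exact sys_loc h1 h2 h4 h5 hG hB (hA m).inv (hA m').inv hy hag hu
  · intro m K y hy u hu k
    have hc : P.Core (lev P m).1 (u + y) y := ⟨K, hy, by rwa [add_sub_cancel_right]⟩
    constructor
    · intro h
      exact Or.inl ⟨y, hc, by rwa [add_sub_cancel_right]⟩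
    · rintro (⟨y', hc', h⟩ | ⟨ho, -⟩)
      · have e := sys_core_uniq (hA m) hc' hc
        subst e
        rwa [add_sub_cancel_right] at h
      · exact absurd hc (ho.2 y)
  · intro m k k' y hy y' hy' hd
    have g0 : (0 : ℝ) < ‖P.c‖ ^ k := by positivity
    have hM : P.ρ * ‖P.c‖ ^ k ≤ P.M * ‖P.c‖ ^ k := by
      have := hG.hM
      nlinarith
    have hd' : ‖y' - y‖ ≤ P.M * ‖P.c‖ ^ k := le_trans hd hM
    have h := (hA m).net.pat k y hy y' (mem_iUnion.2 ⟨_, hy'⟩) y (mem_iUnion.2 ⟨_, hy⟩) hd'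
      (by rw [sub_self, norm_zero]; nlinarith) hd'
    refine Finset.mem_image.2 ⟨_, h, ?_⟩
    show (y' - y) / P.c ^ (k - P.J) / P.c ^ (P.J : ℤ) = (y' - y) / P.c ^ k
    rw [div_div, ← zpow_add₀ c0, sub_add_cancel]

end

/-- The assembled theorem. -/
theorem sys_final (h0 : PMEX) (h1 : EQV) (h2 : LOC) (h3 : BASE0) (h4 : NET) (h5 : CAND)
    (h6 : PAREX) (h7 : PAR) (h8 : STEP) (g1 : TILES2) (g2 : BASE) (g3 : TILING) (g4 : SUBDIV)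
    (g5 : REPET) (g6 : TYPES) (c : ℂ) (hi : IsIntegral ℤ c) (hc : 1 < ‖c‖)
    (hconj : ∀ μ : ℂ, Polynomial.aeval μ (minpoly ℚ c) = 0 → μ ≠ c →
      μ ≠ (starRingEnd ℂ) c → ‖μ‖ < ‖c‖) :
    ∃ (T : Set (Set ℂ)) (n : ℕ) (ty : Set ℂ → Fin n),
      (∀ t ∈ T, IsCompact t ∧ IsConnected t ∧ closure (interior t) = t) ∧
      ⋃₀ T = Set.univ ∧
      (∀ t ∈ T, ∀ s ∈ T, t ≠ s → Disjoint (interior t) (interior s)) ∧
      (∀ t ∈ T, ∃ S ⊆ T, (fun w => c * w) '' t = ⋃₀ S) ∧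
      (∀ t ∈ T, ∀ t' ∈ T, ty t = ty t' → ∃ z : ℂ, t' = (fun w => w + z) '' t ∧
        ∀ s ∈ T, s ⊆ (fun w => c * w) '' t →
          (fun w => w + c * z) '' s ∈ T ∧ ty ((fun w => w + c * z) '' s) = ty s) ∧
      (∀ R : ℝ, ∃ R' : ℝ, ∀ x y : ℂ, ∃ z : ℂ, ‖x + z - y‖ ≤ R' ∧
        ∀ s ∈ T, ¬ Disjoint s (Metric.closedBall x R) →
          (fun w => w + z) '' s ∈ T ∧ ty ((fun w => w + z) '' s) = ty s) := by
  obtain ⟨W, i1, i2, P, rfl, hG⟩ := h0 c hi hc hconj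
  have hS := sys_main h1 h2 h3 h4 h5 h6 h7 h8 hG
  have hO : (dat P).OK := g1 _ _ _ _ _ _ _ _ _ _ _ _ hS.hier
  have hB := g2 _ hS hO
  obtain ⟨hT, hinf⟩ := g3 _ hS hO hB
  obtain ⟨hG', hmem, n, ty, hty⟩ := g6 _ hS hO hB hT
  have key : ∀ s ∈ (dat P).TT, ∀ s' z, (dat P).Rel s s' z → s' ∈ (dat P).TT ∧ ty s' = ty s :=
    fun s hs s' z h => ⟨(hmem _ _ _ h).2, ((hty s hs s' (hmem _ _ _ h).2).2 ⟨z, h⟩).symm⟩
  refine ⟨(dat P).TT, n, ty, hT.1, hT.2.1, hT.2.2, hinf, fun t ht t' ht' h => ?_, fun R => ?_⟩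
  · obtain ⟨z, hz⟩ := (hty t ht t' ht').1 h
    obtain ⟨e, hsub⟩ := g4 _ hS hO hB hT t t' z hz
    exact ⟨z, e, fun s hs hst => key s hs _ _ (hsub s hs hst)⟩
  · obtain ⟨R', hR'⟩ := g5 _ hS hO hB hT hG' R
    refine ⟨R', fun x y => ?_⟩
    obtain ⟨z, hz, hrel⟩ := hR' x y
    exact ⟨z, hz, fun s hs hd => key s hs _ _ (hrel s hs hd)⟩

end Pool.Agent.H527Z.Per
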