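import Pool.Agent.H527Z.Per.Defs

/-!
# The tiles of a hierarchy of nets
-/

set_option autoImplicit false

namespace Pool.Agent.H527Z.Per

open Set

section

variable {Ω : ℕ → Set ℂ} {Par : ℕ → ℂ → ℂ → Prop} {A S r R D E ε : ℝ}

theorem tiles_A_pos (H : Hier Ω Par A S r R D E ε) : 0 < A := by
  have := H.hA; have := H.hD; have := H.hR; linarith

theorem tiles_pow_ge (H : Hier Ω Par A S r R D E ε) (m : ℕ) : 1 ≤ S ^ m :=
  one_le_pow₀ (by have := H.hS; linarith)

theorem tiles_a_pos (H : Hier Ω Par A S r R D E ε) (m : ℕ) : 0 < A * S ^ m :=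
  mul_pos (tiles_A_pos H) (lt_of_lt_of_le one_pos (tiles_pow_ge H m))

theorem tiles_a_ge (H : Hier Ω Par A S r R D E ε) (m : ℕ) : A ≤ A * S ^ m :=
  le_mul_of_one_le_right (tiles_A_pos H).le (tiles_pow_ge H m)

theorem tiles_D_le (H : Hier Ω Par A S r R D E ε) (m : ℕ) (t : ℝ) (ht : 0 ≤ t) :
    D * (t / (A * S ^ m)) ≤ t / 16 := by
  have h1 := tiles_a_pos H m
  have h2 := tiles_a_ge H m
  have h3 := H.hA
  have h4 := H.hR
  rw [← mul_div_assoc, div_le_div_iff₀ h1 (by norm_num)]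
  nlinarith

theorem tiles_R_le (H : Hier Ω Par A S r R D E ε) (m : ℕ) (t : ℝ) (ht : 0 ≤ t) :
    R * (t / (A * S ^ m)) ≤ t / 16 := by
  have h1 := tiles_a_pos H m
  have h2 := tiles_a_ge H m
  have h3 := H.hA
  have h4 := H.hD
  rw [← mul_div_assoc, div_le_div_iff₀ h1 (by norm_num)]
  nlinarith

/-- the scale of a child -/
theorem tiles_child_scale (H : Hier Ω Par A S r R D E ε) {m : ℕ} {u y : ℂ} (h : Par m u y) :
    S * (‖u‖ / (A * S ^ (m + 1))) ≤ 2 * (‖y‖ / (A * S ^ m)) := by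
  have h1 := H.par_dist m u y h
  have h2 := tiles_D_le H m ‖y‖ (norm_nonneg _)
  have h3 : ‖u‖ ≤ ‖y‖ + ‖u - y‖ := by
    have := norm_add_le y (u - y)
    simpa using this
  have h4 := tiles_a_pos H m
  have hS : 0 < S := by have := H.hS; linarith
  have h5 : S * (‖u‖ / (A * S ^ (m + 1))) = ‖u‖ / (A * S ^ m) := by
    rw [pow_succ]; field_simp
  rw [h5, ← mul_div_assoc]
  apply div_le_div_of_nonneg_right _ h4.le
  have := norm_nonneg y
  linarith

theorem tiles_desc_mem (H : Hier Ω Par A S r R D E ε) :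
    ∀ (n m : ℕ) (y x : ℂ), y ∈ Ω m → Desc Par n m y x → x ∈ Ω (m + n)
  | 0, m, y, x, hy, h => by
    have : x = y := h
    rw [this]; exact hy
  | n + 1, m, y, x, _, h => by
    obtain ⟨u, hu, hx⟩ := h
    have := tiles_desc_mem H n (m + 1) u x (H.par_mem m u y hu).1 hx
    rwa [show m + 1 + n = m + (n + 1) by ring] at this

theorem tiles_desc_dist (H : Hier Ω Par A S r R D E ε) :
    ∀ (n m : ℕ) (y x : ℂ), Desc Par n m y x → ‖x - y‖ ≤ 2 * D * (‖y‖ / (A * S ^ m))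
  | 0, m, y, x, h => by
    have : x = y := h
    rw [this, sub_self, norm_zero]
    have := tiles_a_pos H m
    have := H.hD
    positivity
  | n + 1, m, y, x, h => by
    obtain ⟨u, hu, hx⟩ := h
    have h1 := tiles_desc_dist H n (m + 1) u x hx
    have h2 := H.par_dist m u y hu
    have h3 := tiles_child_scale H hu
    have h4 : ‖x - y‖ ≤ ‖x - u‖ + ‖u - y‖ := norm_sub_le_norm_sub_add_norm_sub x u y
    have h5 : 0 ≤ ‖u‖ / (A * S ^ (m + 1)) := div_nonneg (norm_nonneg _) (tiles_a_pos H _).le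
    have h6 := H.hS
    have h7 := H.hD
    have h8 : 4 * (‖u‖ / (A * S ^ (m + 1))) ≤ 2 * (‖y‖ / (A * S ^ m)) := by nlinarith
    nlinarith

theorem tiles_closed (m : ℕ) (y : ℂ) : IsClosed (tile Par m y) := isClosed_closure

theorem tiles_self (m : ℕ) (y : ℂ) : y ∈ tile Par m y :=
  subset_closure ⟨0, rfl⟩

theorem tiles_dist (H : Hier Ω Par A S r R D E ε) {m : ℕ} {y z : ℂ} (hz : z ∈ tile Par m y) :
    ‖z - y‖ ≤ 2 * D * (‖y‖ / (A * S ^ m)) := by
  have hc : IsClosed {z : ℂ | ‖z - y‖ ≤ 2 * D * (‖y‖ / (A * S ^ m))} :=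
    isClosed_le (by fun_prop) continuous_const
  refine closure_minimal ?_ hc hz
  rintro x ⟨n, hx⟩
  exact tiles_desc_dist H n m y x hx

theorem tiles_dist8 (H : Hier Ω Par A S r R D E ε) {m : ℕ} {y z : ℂ} (hz : z ∈ tile Par m y) :
    ‖z - y‖ ≤ ‖y‖ / 8 := by
  have h1 := tiles_dist H hz
  have h2 := tiles_D_le H m ‖y‖ (norm_nonneg _)
  linarith

theorem tiles_ne_zero (H : Hier Ω Par A S r R D E ε) {m : ℕ} {y z : ℂ} (hy : y ∈ Ω m)
    (hz : z ∈ tile Par m y) : z ≠ 0 := by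
  rintro rfl
  have h1 := tiles_dist8 H hz
  have h2 : y ≠ 0 := fun h => H.zero m (h ▸ hy)
  have h3 := norm_pos_iff.2 h2
  rw [zero_sub, norm_neg] at h1
  linarith

theorem tiles_compact (H : Hier Ω Par A S r R D E ε) (m : ℕ) (y : ℂ) :
    IsCompact (tile Par m y) := by
  refine (isCompact_closedBall y (‖y‖ / 8)).of_isClosed_subset (tiles_closed m y) ?_
  intro z hz
  rw [Metric.mem_closedBall, dist_eq_norm]
  exact tiles_dist8 H hz

theorem tiles_near (H : Hier Ω Par A S r R D E ε) {m : ℕ} {y z y' : ℂ} (hz : z ∈ tile Par m y)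
    (hy' : y' ∈ Ω m) : ‖z - y‖ ≤ ‖z - y'‖ + ε * r / 3 * (‖y‖ / (A * S ^ m)) := by
  have hc : IsClosed {z : ℂ | ‖z - y‖ ≤ ‖z - y'‖ + ε * r / 3 * (‖y‖ / (A * S ^ m))} :=
    isClosed_le (by fun_prop) (by fun_prop)
  refine closure_minimal ?_ hc hz
  rintro x ⟨n, hx⟩
  have h0 : 0 ≤ ‖y‖ / (A * S ^ m) := div_nonneg (norm_nonneg _) (tiles_a_pos H _).le
  have hε := H.hε
  have hr := H.hr
  show ‖x - y‖ ≤ ‖x - y'‖ + ε * r / 3 * (‖y‖ / (A * S ^ m))
  cases n with
  | zero =>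
    have : x = y := hx
    rw [this, sub_self, norm_zero]
    positivity
  | succ n =>
    obtain ⟨u, hu, hx⟩ := hx
    have h1 := tiles_desc_dist H n (m + 1) u x hx
    have h2 := H.par_near m u y hu y' hy'
    have h3 := tiles_child_scale H hu
    have h4 : ‖x - y‖ ≤ ‖x - u‖ + ‖u - y‖ := norm_sub_le_norm_sub_add_norm_sub x u y
    have h4' : ‖u - y'‖ ≤ ‖u - x‖ + ‖x - y'‖ := norm_sub_le_norm_sub_add_norm_sub u x y'
    rw [norm_sub_rev u x] at h4'
    have h5 : 0 ≤ ‖u‖ / (A * S ^ (m + 1)) := div_nonneg (norm_nonneg _) (tiles_a_pos H _).le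
    have h6 := H.hbig
    set su := ‖u‖ / (A * S ^ (m + 1))
    set sy := ‖y‖ / (A * S ^ m)
    have h7 : 6 * (E + 4 * D) * su ≤ ε * r * S * su := mul_le_mul_of_nonneg_right h6 h5
    have h8 : ε * r * (S * su) ≤ ε * r * (2 * sy) :=
      mul_le_mul_of_nonneg_left h3 (by positivity)
    nlinarith

theorem tiles_near' (H : Hier Ω Par A S r R D E ε) {m : ℕ} {y z y' : ℂ} (hy : y ∈ Ω m)
    (hz : z ∈ tile Par m y) (hy' : y' ∈ Ω m) : ‖z - y‖ ≤ (1 + ε) * ‖z - y'‖ := by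
  have hε := H.hε
  have hε1 := H.hε1
  have hb := norm_nonneg (z - y')
  have ha := norm_nonneg (z - y)
  by_cases h : y = y'
  · rw [← h]; nlinarith
  · have h1 := tiles_near H hz hy'
    have h2 := H.sep m y hy y' hy' h
    have h3 : ‖y - y'‖ ≤ ‖y - z‖ + ‖z - y'‖ := norm_sub_le_norm_sub_add_norm_sub y z y'
    rw [norm_sub_rev y z] at h3
    set a := ‖z - y‖
    set b := ‖z - y'‖
    set s := ‖y‖ / (A * S ^ m)
    have h4 : ε * (r * s) ≤ ε * (a + b) := mul_le_mul_of_nonneg_left (by linarith) hε.le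
    have h5 : (3 - ε) * a ≤ (3 + ε) * b := by nlinarith
    have h6 : (3 + ε) * b ≤ (3 - ε) * ((1 + ε) * b) := by
      have : 0 ≤ ε * (1 - ε) * b := by
        have : 0 ≤ 1 - ε := by linarith
        positivity
      nlinarith
    exact le_of_mul_le_mul_left (h5.trans h6) (by linarith)

theorem tiles_children_finite (H : Hier Ω Par A S r R D E ε) {m : ℕ} {y : ℂ} (hy : y ∈ Ω m) :
    {x | Par m x y}.Finite := by
  have h2 : y ≠ 0 := fun h => H.zero m (h ▸ hy)
  refine (H.fin (m + 1) y h2).subset ?_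
  intro x hx
  refine ⟨(H.par_mem m x y hx).1, ?_⟩
  have h3 := H.par_dist m x y hx
  have h4 := tiles_D_le H m ‖y‖ (norm_nonneg _)
  have := norm_nonneg y
  linarith

theorem tiles_union (H : Hier Ω Par A S r R D E ε) {m : ℕ} {y : ℂ} (hy : y ∈ Ω m) :
    tile Par m y = ⋃ x ∈ {x | Par m x y}, tile Par (m + 1) x := by
  unfold tile
  rw [← (tiles_children_finite H hy).closure_biUnion]
  congr 1
  ext x
  simp only [mem_ofPred_eq, mem_iUnion, exists_prop]
  constructor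
  · rintro ⟨n, hx⟩
    cases n with
    | zero =>
      have : x = y := hx
      exact ⟨y, H.par_self m y hy, 0, this⟩
    | succ n =>
      obtain ⟨u, hu, hx⟩ := hx
      exact ⟨u, hu, n, hx⟩
  · rintro ⟨u, hu, n, hx⟩
    exact ⟨n + 1, u, hu, hx⟩

theorem tiles_child_sub (H : Hier Ω Par A S r R D E ε) {m : ℕ} {u y : ℂ} (h : Par m u y) :
    tile Par (m + 1) u ⊆ tile Par m y := by
  rw [tiles_union H (H.par_mem m u y h).2]
  exact subset_biUnion_of_mem (u := fun x => tile Par (m + 1) x) (s := {x | Par m x y}) h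

theorem tiles_desc_sub (H : Hier Ω Par A S r R D E ε) :
    ∀ (n m : ℕ) (y x : ℂ), Desc Par n m y x → tile Par (m + n) x ⊆ tile Par m y
  | 0, m, y, x, h => by
    have : x = y := h
    rw [this]; exact Subset.rfl
  | n + 1, m, y, x, h => by
    obtain ⟨u, hu, hx⟩ := h
    have := tiles_desc_sub H n (m + 1) u x hx
    rw [show m + 1 + n = m + (n + 1) by ring] at this
    exact this.trans (tiles_child_sub H hu)

theorem tiles_exists_desc (H : Hier Ω Par A S r R D E ε) :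
    ∀ (n m : ℕ) (y z : ℂ), y ∈ Ω m → z ∈ tile Par m y →
      ∃ x, Desc Par n m y x ∧ z ∈ tile Par (m + n) x
  | 0, _, y, _, _, hz => ⟨y, rfl, hz⟩
  | n + 1, m, y, z, hy, hz => by
    rw [tiles_union H hy] at hz
    simp only [mem_ofPred_eq, mem_iUnion, exists_prop] at hz
    obtain ⟨u, hu, hz⟩ := hz
    obtain ⟨x, hx, hz⟩ := tiles_exists_desc H n (m + 1) u z (H.par_mem m u y hu).1 hz
    rw [show m + 1 + n = m + (n + 1) by ring] at hz
    exact ⟨x, ⟨u, hu, hx⟩, hz⟩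

theorem tiles_anc (H : Hier Ω Par A S r R D E ε) :
    ∀ (n m : ℕ) (x : ℂ), x ∈ Ω (m + n) → ∃ y ∈ Ω m, Desc Par n m y x
  | 0, _, x, hx => ⟨x, hx, rfl⟩
  | n + 1, m, x, hx => by
    rw [show m + (n + 1) = m + 1 + n by ring] at hx
    obtain ⟨u, hu, hx⟩ := tiles_anc H n (m + 1) x hx
    obtain ⟨y, hy⟩ := H.par_ex m u hu
    exact ⟨y, (H.par_mem m u y hy).2, u, hy, hx⟩

theorem tiles_desc_uniq (H : Hier Ω Par A S r R D E ε) :
    ∀ (n m : ℕ) (y y' x : ℂ), Desc Par n m y x → Desc Par n m y' x → y = y'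
  | 0, _, y, y', x, h, h' => by
    have h1 : x = y := h
    have h2 : x = y' := h'
    rw [← h1, ← h2]
  | n + 1, m, y, y', x, h, h' => by
    obtain ⟨u, hu, hx⟩ := h
    obtain ⟨u', hu', hx'⟩ := h'
    have := tiles_desc_uniq H n (m + 1) u u' x hx hx'
    subst this
    exact H.par_uniq m u y y' hu hu'

theorem tiles_small (H : Hier Ω Par A S r R D E ε) (m : ℕ) (C δ : ℝ) (hδ : 0 < δ) :
    ∃ n : ℕ, C / (A * S ^ (m + n)) < δ := by
  have hS : 1 < S := by have := H.hS; linarith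
  have hA := tiles_A_pos H
  obtain ⟨n, hn⟩ := pow_unbounded_of_one_lt (C / (A * δ)) hS
  refine ⟨n, ?_⟩
  have h1 := tiles_a_pos H (m + n)
  rw [div_lt_iff₀ h1]
  rw [div_lt_iff₀ (by positivity)] at hn
  have h2 : S ^ n ≤ S ^ (m + n) := pow_le_pow_right₀ hS.le (by omega)
  have h3 : S ^ n * (A * δ) ≤ S ^ (m + n) * (A * δ) :=
    mul_le_mul_of_nonneg_right h2 (by positivity)
  nlinarith

theorem tiles_dens (H : Hier Ω Par A S r R D E ε) (m : ℕ) {z : ℂ} (hz : z ≠ 0) (δ : ℝ)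
    (hδ : 0 < δ) : ∃ n : ℕ, ∃ x ∈ Ω (m + n), ‖z - x‖ < δ ∧ ‖z - x‖ ≤ ‖z‖ / 16 := by
  obtain ⟨n, hn⟩ := tiles_small H m (R * ‖z‖) δ hδ
  obtain ⟨x, hx, h⟩ := H.dens (m + n) z hz
  refine ⟨n, x, hx, ?_, h.trans (tiles_R_le H _ _ (norm_nonneg _))⟩
  rw [mul_div_assoc] at hn
  exact h.trans_lt hn

theorem tiles_cover (H : Hier Ω Par A S r R D E ε) (m : ℕ) {z : ℂ} (hz : z ≠ 0) :
    ∃ y ∈ Ω m, z ∈ tile Par m y := by
  have hf := H.fin m z hz
  have h1 : z ∈ closure (⋃ y ∈ {y ∈ Ω m | ‖y - z‖ ≤ ‖z‖ / 2}, {x | ∃ n, Desc Par n m y x}) := by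
    rw [Metric.mem_closure_iff]
    intro δ hδ
    obtain ⟨n, x, hx, h1, h2⟩ := tiles_dens H m hz δ hδ
    obtain ⟨y, hy, hd⟩ := tiles_anc H n m x hx
    refine ⟨x, ?_, by rwa [dist_eq_norm]⟩
    simp only [mem_ofPred_eq, mem_iUnion, exists_prop]
    refine ⟨y, ⟨hy, ?_⟩, n, hd⟩
    have h3 : ‖x - y‖ ≤ ‖y‖ / 8 := tiles_dist8 H (subset_closure ⟨n, hd⟩)
    have h4 : ‖y‖ ≤ ‖z‖ + ‖y - z‖ := by
      have := norm_add_le z (y - z)
      simpa using this
    have h5 : ‖y - z‖ ≤ ‖y - x‖ + ‖x - z‖ := norm_sub_le_norm_sub_add_norm_sub y x z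
    rw [norm_sub_rev y x, norm_sub_rev x z] at h5
    have := norm_nonneg z
    linarith
  rw [hf.closure_biUnion] at h1
  simp only [mem_ofPred_eq, mem_iUnion, exists_prop] at h1
  obtain ⟨y, ⟨hy, _⟩, h⟩ := h1
  exact ⟨y, hy, h⟩

theorem tiles_mem_interior (H : Hier Ω Par A S r R D E ε) {m : ℕ} {x : ℂ} (hx : x ∈ Ω m) :
    x ∈ interior (tile Par m x) := by
  have hx0 : x ≠ 0 := fun h => H.zero m (h ▸ hx)
  have hn := norm_pos_iff.2 hx0
  have ha := tiles_a_pos H m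
  have hr := H.hr
  have hρ : 0 < min ‖x‖ (r * (‖x‖ / (A * S ^ m)) / 3) := lt_min hn (by positivity)
  rw [mem_interior_iff_mem_nhds, Metric.mem_nhds_iff]
  refine ⟨_, hρ, fun z hz => ?_⟩
  rw [Metric.mem_ball, dist_eq_norm, lt_min_iff] at hz
  have hz0 : z ≠ 0 := by
    rintro rfl
    rw [zero_sub, norm_neg] at hz
    exact lt_irrefl _ hz.1
  obtain ⟨y, hy, hzy⟩ := tiles_cover H m hz0
  by_cases h : x = y
  · rw [h]; exact hzy
  · exfalso
    have h1 := tiles_near' H hy hzy hx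
    have h2 := H.sep m x hx y hy h
    have h3 : ‖x - y‖ ≤ ‖x - z‖ + ‖z - y‖ := norm_sub_le_norm_sub_add_norm_sub x z y
    rw [norm_sub_rev x z] at h3
    have h4 : (1 + ε) * ‖z - x‖ ≤ 2 * ‖z - x‖ :=
      mul_le_mul_of_nonneg_right (by have := H.hε1; linarith) (norm_nonneg _)
    linarith [hz.2]

theorem tiles_closure_interior (H : Hier Ω Par A S r R D E ε) {m : ℕ} {y : ℂ} (hy : y ∈ Ω m) :
    closure (interior (tile Par m y)) = tile Par m y := by
  apply Subset.antisymm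
  · exact closure_minimal interior_subset (tiles_closed m y)
  · apply closure_mono
    rintro x ⟨n, hx⟩
    exact interior_mono (tiles_desc_sub H n m y x hx)
      (tiles_mem_interior H (tiles_desc_mem H n m y x hy hx))

theorem tiles_desc_of_mem (H : Hier Ω Par A S r R D E ε) {m n : ℕ} {y x : ℂ} (hy : y ∈ Ω m)
    (hx : x ∈ Ω (m + n)) (h : x ∈ tile Par m y) : Desc Par n m y x := by
  obtain ⟨x', hd, hx'⟩ := tiles_exists_desc H n m y x hy h
  have h1 := tiles_near' H (tiles_desc_mem H n m y x' hy hd) hx' hx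
  rw [sub_self, norm_zero, mul_zero] at h1
  have h2 : x = x' := sub_eq_zero.1 (norm_le_zero_iff.1 h1)
  rwa [h2]

theorem tiles_disjoint (H : Hier Ω Par A S r R D E ε) {m : ℕ} {y y' : ℂ} (hy : y ∈ Ω m)
    (hy' : y' ∈ Ω m) (hne : y ≠ y') :
    Disjoint (interior (tile Par m y)) (interior (tile Par m y')) := by
  rw [Set.disjoint_left]
  intro z h1 h2
  have hz0 : z ≠ 0 := tiles_ne_zero H hy (interior_subset h1)
  have ho : IsOpen (interior (tile Par m y) ∩ interior (tile Par m y')) :=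
    isOpen_interior.inter isOpen_interior
  obtain ⟨δ, hδ, hb⟩ := Metric.isOpen_iff.1 ho z ⟨h1, h2⟩
  obtain ⟨n, x, hx, h3, _⟩ := tiles_dens H m hz0 δ hδ
  have h4 : x ∈ Metric.ball z δ := by
    rw [Metric.mem_ball, dist_eq_norm, norm_sub_rev]; exact h3
  have h5 := hb h4
  exact hne (tiles_desc_uniq H n m y y' x (tiles_desc_of_mem H hy hx (interior_subset h5.1))
    (tiles_desc_of_mem H hy' hx (interior_subset h5.2)))

theorem tiles_seg (H : Hier Ω Par A S r R D E ε) {m : ℕ} {u v w p q : ℂ} (hw : w ∈ Ω m)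
    (hp : ∀ x ∈ Ω m, ‖p - x‖ ≤ (1 + ε) * ‖p - w‖ → x = u ∨ x = v)
    (hq : q ∈ segment ℝ w p) : q ∈ (tile Par m u ∪ tile Par m v) ∪ {0} := by
  by_cases h0 : q = 0
  · exact Or.inr h0
  left
  obtain ⟨y, hy, hqy⟩ := tiles_cover H m h0
  have h1 := tiles_near' H hy hqy hw
  have h2 : dist w q + dist q p = dist w p := dist_add_dist_of_mem_segment hq
  rw [dist_eq_norm, dist_eq_norm, dist_eq_norm, norm_sub_rev w q, norm_sub_rev q p,
    norm_sub_rev w p] at h2
  have h3 : ‖p - y‖ ≤ ‖p - q‖ + ‖q - y‖ := norm_sub_le_norm_sub_add_norm_sub p q y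
  have h4 : 0 ≤ ε * ‖p - q‖ := mul_nonneg H.hε.le (norm_nonneg _)
  have h5 : ‖p - y‖ ≤ (1 + ε) * ‖p - w‖ := by rw [← h2]; nlinarith
  rcases hp y hy h5 with h | h
  · left; rw [← h]; exact hqy
  · right; rw [← h]; exact hqy

theorem tiles_adj (H : Hier Ω Par A S r R D E ε) {m : ℕ} {u v : ℂ} (h : Adj ε (Ω m) u v) :
    (tile Par m u ∩ tile Par m v).Nonempty := by
  obtain ⟨hu, hv, p, hp1, hp2⟩ := h
  have hP : IsPreconnected (segment ℝ u p ∪ segment ℝ v p) :=
    IsPreconnected.union p (right_mem_segment ℝ u p) (right_mem_segment ℝ v p)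
      (convex_segment u p).isPreconnected (convex_segment v p).isPreconnected
  have hsub : segment ℝ u p ∪ segment ℝ v p ⊆ (tile Par m u ∪ tile Par m v) ∪ {0} := by
    rintro q (hq | hq)
    · exact tiles_seg H hu hp2 hq
    · exact tiles_seg H hv (by rw [← hp1]; exact hp2) hq
  have hK : IsClosed (tile Par m u ∪ tile Par m v) := (tiles_closed m u).union (tiles_closed m v)
  have hsub' : segment ℝ u p ∪ segment ℝ v p ⊆ tile Par m u ∪ tile Par m v := by
    intro q hq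
    rcases hsub hq with h | h
    · exact h
    · exfalso
      obtain ⟨z, _, hz1, hz2⟩ := isPreconnected_closed_iff.1 hP _ _ hK isClosed_singleton hsub
        ⟨u, Or.inl (left_mem_segment ℝ u p), Or.inl (tiles_self m u)⟩ ⟨q, hq, h⟩
      rcases hz1 with hz1 | hz1
      · exact tiles_ne_zero H hu hz1 hz2
      · exact tiles_ne_zero H hv hz1 hz2
  obtain ⟨z, _, hz⟩ := isPreconnected_closed_iff.1 hP _ _ (tiles_closed m u) (tiles_closed m v)
    hsub' ⟨u, Or.inl (left_mem_segment ℝ u p), tiles_self m u⟩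
    ⟨v, Or.inr (left_mem_segment ℝ v p), tiles_self m v⟩
  exact ⟨z, hz⟩

theorem tiles_step (H : Hier Ω Par A S r R D E ε) {k : ℕ} {x : ℂ} (hx : x ∈ Ω k)
    {t t' : Set ℂ} (hd : ∀ z ∈ tile Par k x, z ∈ t → z ∈ t' → False)
    (hc : ∀ u, Par k u x → tile Par (k + 1) u ⊆ t ∨ tile Par (k + 1) u ⊆ t')
    (h0 : tile Par (k + 1) x ⊆ t) : tile Par k x ⊆ t := by
  have key : ∀ u, Relation.ReflTransGen
      (fun a b => Adj ε (Ω (k + 1)) a b ∧ Par k b x) x u → tile Par (k + 1) u ⊆ t := by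
    intro u hu
    induction hu with
    | refl => exact h0
    | tail _ hb ih =>
      rcases hc _ hb.2 with h | h
      · exact h
      · exfalso
        obtain ⟨z, hz1, hz2⟩ := tiles_adj H hb.1
        exact hd z (tiles_child_sub H hb.2 hz2) (ih hz1) (h hz2)
  rw [tiles_union H hx]
  exact iUnion₂_subset fun u hu => key u (H.chain k u x hu)

theorem tiles_descend (H : Hier Ω Par A S r R D E ε) {t t' : Set ℂ} :
    ∀ (j k : ℕ) (x : ℂ), x ∈ Ω k → (∀ z ∈ tile Par k x, z ∈ t → z ∈ t' → False) →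
      (∀ w, Desc Par j k x w → tile Par (k + j) w ⊆ t ∨ tile Par (k + j) w ⊆ t') →
      tile Par k x ⊆ t ∨ tile Par k x ⊆ t'
  | 0, _, x, _, _, h => h x rfl
  | j + 1, k, x, hx, hd, h => by
    have hc : ∀ u, Par k u x → tile Par (k + 1) u ⊆ t ∨ tile Par (k + 1) u ⊆ t' := by
      intro u hu
      refine tiles_descend H j (k + 1) u (H.par_mem k u x hu).1
        (fun z hz => hd z (tiles_child_sub H hu hz)) (fun w hw => ?_)
      rw [show k + 1 + j = k + (j + 1) by ring]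
      exact h w ⟨u, hu, hw⟩
    rcases hc x (H.par_self k x hx) with h0 | h0
    · exact Or.inl (tiles_step H hx hd hc h0)
    · exact Or.inr (tiles_step H hx (fun z hz h1 h2 => hd z hz h2 h1)
        (fun u hu => (hc u hu).symm) h0)

theorem tiles_connected (H : Hier Ω Par A S r R D E ε) {m : ℕ} {y : ℂ} (hy : y ∈ Ω m) :
    IsConnected (tile Par m y) := by
  refine ⟨⟨y, tiles_self m y⟩, ?_⟩
  rw [isPreconnected_closed_iff]
  intro t t' ht ht' hsub h1 h2
  by_contra hcon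
  have hd : ∀ z ∈ tile Par m y, z ∈ t → z ∈ t' → False := fun z hz a b => hcon ⟨z, hz, a, b⟩
  have hdis : Disjoint (tile Par m y ∩ t) (tile Par m y ∩ t') := by
    rw [Set.disjoint_left]
    exact fun z a b => hd z a.1 a.2 b.2
  obtain ⟨δ, hδ, hsep⟩ := Metric.exists_pos_forall_lt_edist ((tiles_compact H m y).inter_right ht)
    ((tiles_closed m y).inter ht') hdis
  obtain ⟨n, hn⟩ := tiles_small H m (8 * D * ‖y‖) δ (by exact_mod_cast hδ)
  have key : tile Par m y ⊆ t ∨ tile Par m y ⊆ t' := by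
    refine tiles_descend H n m y hy hd (fun w hw => ?_)
    have hs := tiles_desc_sub H n m y w hw
    by_contra hno
    rw [not_or, not_subset, not_subset] at hno
    obtain ⟨⟨a, ha, ha'⟩, ⟨b, hb, hb'⟩⟩ := hno
    have ha2 : a ∈ t' := (hsub (hs ha)).resolve_left ha'
    have hb2 : b ∈ t := (hsub (hs hb)).resolve_right hb'
    have h3 := hsep b ⟨hs hb, hb2⟩ a ⟨hs ha, ha2⟩
    rw [edist_nndist, ENNReal.coe_lt_coe, ← NNReal.coe_lt_coe, coe_nndist, dist_eq_norm] at h3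
    have h4 := tiles_dist H ha
    have h5 := tiles_dist H hb
    have h6 : ‖b - a‖ ≤ ‖b - w‖ + ‖w - a‖ := norm_sub_le_norm_sub_add_norm_sub b w a
    rw [norm_sub_rev w a] at h6
    have h7 : ‖w - y‖ ≤ ‖y‖ / 8 := tiles_dist8 H (subset_closure ⟨n, hw⟩)
    have h8 : ‖w‖ ≤ ‖y‖ + ‖w - y‖ := by
      have := norm_add_le y (w - y)
      simpa using this
    have h9 : ‖w‖ / (A * S ^ (m + n)) ≤ 2 * ‖y‖ / (A * S ^ (m + n)) :=
      div_le_div_of_nonneg_right (by have := norm_nonneg y; linarith) (tiles_a_pos H _).le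
    have h10 : 8 * D * ‖y‖ / (A * S ^ (m + n)) = 4 * D * (2 * ‖y‖ / (A * S ^ (m + n))) := by
      ring
    have h11 := mul_le_mul_of_nonneg_left h9 (by have := H.hD; positivity : 0 ≤ 4 * D)
    linarith
  rcases key with h | h
  · obtain ⟨z, hz1, hz2⟩ := h2
    exact hd z hz1 (h hz1) hz2
  · obtain ⟨z, hz1, hz2⟩ := h1
    exact hd z hz1 hz2 (h hz1)

end

theorem tiles : TILES := by
  intro Ω Par A S r R D E ε H
  exact ⟨fun m y hy => ⟨tiles_compact H m y, tiles_connected H hy, tiles_closure_interior H hy⟩,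
    fun m z hz => tiles_cover H m hz, fun m y hy y' hy' hne => tiles_disjoint H hy hy' hne,
    fun m y hy => tiles_union H hy, fun m y _ z hz => tiles_dist8 H hz⟩

end Pool.Agent.H527Z.Per
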